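import Mathlib
import Pool.Agent.R120.AntichainDef

set_option autoImplicit false

/-! One-point amalgamation and splittability of permutation classes. -/

namespace Pool.Agent.R120.Amalg

open Pool.Agent.R120.Antichain

/-- `f` is an embedding of the permutation `σ` into the permutation `τ`: it is increasing on the
positions and preserves the order of the values. -/
def IsEmb {k n : ℕ} (σ : Equiv.Perm (Fin k)) (τ : Equiv.Perm (Fin n)) (f : Fin k → Fin n) : Prop :=
  StrictMono f ∧ ∀ i j, σ i < σ j ↔ τ (f i) < τ (f j)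

/-- A permutation class: a set of permutations closed under containment. -/
def IsClass (C : Set AllPerms) : Prop :=
  ∀ p ∈ C, ∀ (q : AllPerms) (f : Fin q.1 → Fin p.1), IsEmb q.2 p.2 f → q ∈ C

/-- `C` is `α`-amalgamable. -/
def Amalgamable (C : Set AllPerms) (α : AllPerms) : Prop :=
  ∀ β ∈ C, ∀ γ ∈ C, ∀ (f : Fin α.1 → Fin β.1) (g : Fin α.1 → Fin γ.1), IsEmb α.2 β.2 f →
    IsEmb α.2 γ.2 g → ∃ δ ∈ C, ∃ (f' : Fin β.1 → Fin δ.1) (g' : Fin γ.1 → Fin δ.1),
      IsEmb β.2 δ.2 f' ∧ IsEmb γ.2 δ.2 g' ∧ f' ∘ f = g' ∘ g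

/-- `C` is 1-amalgamable: `α`-amalgamable for every `α ∈ C` of size at most `1`. -/
def OneAmalgamable (C : Set AllPerms) : Prop := ∀ α ∈ C, α.1 ≤ 1 → Amalgamable C α

/-- `C` is splittable: there are classes `A 0, …, A (k - 1)`, none of which contains `C`, such that
the entries of every member `τ` of `C` can be coloured with `k` colours so that, for each colour
`i`, the entries of colour `i` form a pattern that belongs to `A i`. -/
def Splittable (C : Set AllPerms) : Prop :=
  ∃ (k : ℕ) (A : Fin k → Set AllPerms), (∀ i, IsClass (A i)) ∧ (∀ i, ¬ C ⊆ A i) ∧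
    ∀ τ ∈ C, ∃ c : Fin τ.1 → Fin k, ∀ i, ∃ σ ∈ A i, ∃ f : Fin σ.1 → Fin τ.1,
      IsEmb σ.2 τ.2 f ∧ Set.range f = {x | c x = i}

end Pool.Agent.R120.Amalg
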