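import Mathlib
import Pool.Agent.R120.Pat

/-! # Descent bits of random permutations: independence of the two sides -/

set_option autoImplicit false

namespace Pool.Agent.R120.DDCount

open Finset Equiv

/-- The descent bits of a permutation of `Fin n`; positions out of range give `false`. -/
def bits {n : ℕ} (π : Perm (Fin n)) (i : ℕ) : Bool :=
  decide (∃ h : i + 1 < n, π ⟨i + 1, h⟩ < π ⟨i, by omega⟩)

lemma bits_eq_true {n : ℕ} (π : Perm (Fin n)) (i : ℕ) :
    bits π i = true ↔ ∃ h : i + 1 < n, π ⟨i + 1, h⟩ < π ⟨i, by omega⟩ := by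
  unfold bits; rw [decide_eq_true_iff]

lemma bits_of_lt {n : ℕ} (π : Perm (Fin n)) (i : ℕ) (h : i + 1 < n) :
    bits π i = true ↔ π ⟨i + 1, h⟩ < π ⟨i, by omega⟩ := by
  rw [bits_eq_true]; exact ⟨fun ⟨_, h⟩ => h, fun h' => ⟨h, h'⟩⟩

lemma bits_out {n : ℕ} (π : Perm (Fin n)) (i : ℕ) (h : n ≤ i + 1) : bits π i = false := by
  rw [Bool.eq_false_iff]
  intro h'
  rw [bits_eq_true] at h'
  obtain ⟨h'', _⟩ := h'
  omega

open Classical in
noncomputable def cnt (n : ℕ) (E : (ℕ → Bool) → Prop) : ℝ :=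
  ∑ π : Perm (Fin n), if E (bits π) then (1 : ℝ) else 0

noncomputable def pr (n : ℕ) (E : (ℕ → Bool) → Prop) : ℝ := cnt n E / n.factorial

def join {a b : ℕ} (σ : Perm (Fin a)) (τ : Perm (Fin b)) : Perm (Fin (a + b)) :=
  finSumFinEquiv.permCongr (σ.sumCongr τ)

lemma join_left {a b : ℕ} (σ : Perm (Fin a)) (τ : Perm (Fin b)) (i : Fin a) :
    join σ τ (Fin.castAdd b i) = Fin.castAdd b (σ i) := by
  simp [join, Equiv.permCongr_apply]

lemma join_right {a b : ℕ} (σ : Perm (Fin a)) (τ : Perm (Fin b)) (i : Fin b) :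
    join σ τ (Fin.natAdd a i) = Fin.natAdd a (τ i) := by
  simp [join, Equiv.permCongr_apply]

/-- standardization -/
lemma exists_std {a : ℕ} {α : Type*} [LinearOrder α] (f : Fin a → α) (hf : Function.Injective f) :
    ∃ ρ : Perm (Fin a), ∀ i j, ρ i < ρ j ↔ f i < f j := by
  classical
  have hcard : (univ.image f).card = a := by
    rw [card_image_of_injective _ hf, card_univ, Fintype.card_fin]
  let e := (univ.image f).orderIsoOfFin hcard
  let g : Fin a → Fin a := fun i => e.symm ⟨f i, mem_image_of_mem _ (mem_univ i)⟩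
  have hg : ∀ i j, g i < g j ↔ f i < f j := by
    intro i j
    simp only [g, OrderIso.lt_iff_lt]
    exact Iff.rfl
  have hinj : Function.Injective g := by
    intro i j hij
    by_contra hne
    rcases lt_or_gt_of_ne (fun h => hne (hf h) : f i ≠ f j) with h | h
    · exact absurd hij ((hg i j).2 h).ne
    · exact absurd hij ((hg j i).2 h).ne'
  exact ⟨Equiv.ofBijective g (Finite.injective_iff_bijective.1 hinj), fun i j => hg i j⟩

lemma cnt_prod (a b : ℕ) (E1 E2 : (ℕ → Bool) → Prop)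
    (h1 : ∀ d d' : ℕ → Bool, (∀ i, i + 1 < a → d i = d' i) → (E1 d ↔ E1 d')) :
    (a.factorial : ℝ) * b.factorial * cnt (a + b) (fun d => E1 d ∧ E2 (fun i => d (a + i))) =
      (a + b).factorial * (cnt a E1 * cnt b E2) := by
  classical
  unfold cnt
  set ind : Perm (Fin (a + b)) → ℝ := fun π =>
    if E1 (bits π) ∧ E2 (fun i => bits π (a + i)) then (1 : ℝ) else 0 with hind
  have hA : ∀ (σ : Perm (Fin a)) (τ : Perm (Fin b)), ∑ π, ind (π * join σ τ) = ∑ π, ind π :=
    fun σ τ => Equiv.sum_comp (Equiv.mulRight (join σ τ)) ind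
  have hB : ∀ π : Perm (Fin (a + b)), ∑ σ : Perm (Fin a), ∑ τ : Perm (Fin b), ind (π * join σ τ) =
      (∑ σ : Perm (Fin a), if E1 (bits σ) then (1 : ℝ) else 0) *
        ∑ τ : Perm (Fin b), if E2 (bits τ) then (1 : ℝ) else 0 := by
    intro π
    obtain ⟨ρ, hρ⟩ := exists_std (fun i : Fin a => π (Fin.castAdd b i))
      (π.injective.comp (Fin.castAdd_injective a b))
    obtain ⟨ρ', hρ'⟩ := exists_std (fun i : Fin b => π (Fin.natAdd a i))
      (π.injective.comp (Fin.natAdd_injective b a))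
    have key : ∀ (σ : Perm (Fin a)) (τ : Perm (Fin b)), ind (π * join σ τ) =
        (if E1 (bits (ρ * σ)) then (1 : ℝ) else 0) * (if E2 (bits (ρ' * τ)) then (1 : ℝ) else 0) := by
      intro σ τ
      have e1 : E1 (bits (π * join σ τ)) ↔ E1 (bits (ρ * σ)) := by
        apply h1
        intro i hi
        rw [Bool.eq_iff_iff, bits_of_lt _ i (by omega), bits_of_lt _ i hi]
        simp only [Perm.mul_apply]
        have j1 := join_left σ τ ⟨i + 1, hi⟩
        have j2 := join_left σ τ ⟨i, by omega⟩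
        rw [Fin.castAdd_mk] at j1 j2
        rw [j1, j2, hρ]
      have e2 : (fun i => bits (π * join σ τ) (a + i)) = bits (ρ' * τ) := by
        funext i
        by_cases hi : i + 1 < b
        · rw [Bool.eq_iff_iff, bits_of_lt _ _ (by omega), bits_of_lt _ i hi]
          simp only [Perm.mul_apply]
          have j1 := join_right σ τ ⟨i + 1, hi⟩
          have j2 := join_right σ τ ⟨i, by omega⟩
          rw [Fin.natAdd_mk] at j1 j2
          rw [show (⟨a + i + 1, by omega⟩ : Fin (a + b)) = ⟨a + (i + 1), by omega⟩ from rfl, j1, j2,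
            hρ']
        · rw [bits_out _ _ (by omega), bits_out _ _ (by omega)]
      simp only [hind, e1, e2]
      by_cases hh1 : E1 (bits (ρ * σ)) <;> by_cases hh2 : E2 (bits (ρ' * τ)) <;> simp [hh1, hh2]
    simp only [key]
    rw [← Finset.sum_mul_sum]
    congr 1
    · exact Equiv.sum_comp (Equiv.mulLeft ρ) (fun σ => if E1 (bits σ) then (1 : ℝ) else 0)
    · exact Equiv.sum_comp (Equiv.mulLeft ρ') (fun σ => if E2 (bits σ) then (1 : ℝ) else 0)
  have hC : ∑ π : Perm (Fin (a + b)), ∑ σ : Perm (Fin a), ∑ τ : Perm (Fin b), ind (π * join σ τ) =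
      ∑ σ : Perm (Fin a), ∑ τ : Perm (Fin b), ∑ π : Perm (Fin (a + b)), ind (π * join σ τ) := by
    rw [Finset.sum_comm]
    refine Finset.sum_congr rfl fun σ _ => ?_
    rw [Finset.sum_comm]
  simp only [hA, hB] at hC
  simp only [Finset.sum_const, Finset.card_univ, Fintype.card_perm, Fintype.card_fin,
    nsmul_eq_mul] at hC
  rw [mul_assoc]
  convert hC.symm

lemma pr_prod (a b : ℕ) (E1 E2 : (ℕ → Bool) → Prop)
    (h1 : ∀ d d' : ℕ → Bool, (∀ i, i + 1 < a → d i = d' i) → (E1 d ↔ E1 d')) :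
    pr (a + b) (fun d => E1 d ∧ E2 (fun i => d (a + i))) = pr a E1 * pr b E2 := by
  have := cnt_prod a b E1 E2 h1
  unfold pr
  have ha : (a.factorial : ℝ) ≠ 0 := by exact_mod_cast a.factorial_ne_zero
  have hb : (b.factorial : ℝ) ≠ 0 := by exact_mod_cast b.factorial_ne_zero
  have hab : ((a + b).factorial : ℝ) ≠ 0 := by exact_mod_cast (a + b).factorial_ne_zero
  field_simp
  linarith

lemma pr_nonneg (n : ℕ) (E : (ℕ → Bool) → Prop) : 0 ≤ pr n E := by
  unfold pr cnt
  apply div_nonneg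
  · apply Finset.sum_nonneg
    intro π _
    split_ifs <;> norm_num
  · positivity

lemma pr_mono {n : ℕ} {E F : (ℕ → Bool) → Prop}
    (h : ∀ π : Perm (Fin n), E (bits π) → F (bits π)) : pr n E ≤ pr n F := by
  unfold pr cnt
  apply div_le_div_of_nonneg_right _ (by positivity)
  apply Finset.sum_le_sum
  intro π _
  by_cases h1 : E (bits π)
  · rw [if_pos h1, if_pos (h π h1)]
  · rw [if_neg h1]; split_ifs <;> norm_num

lemma pr_congr {n : ℕ} {E F : (ℕ → Bool) → Prop}
    (h : ∀ π : Perm (Fin n), E (bits π) ↔ F (bits π)) : pr n E = pr n F :=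
  le_antisymm (pr_mono fun π => (h π).1) (pr_mono fun π => (h π).2)

lemma pr_add {n : ℕ} {E F G : (ℕ → Bool) → Prop}
    (h : ∀ π : Perm (Fin n), G (bits π) ↔ E (bits π) ∨ F (bits π))
    (hd : ∀ π : Perm (Fin n), ¬ (E (bits π) ∧ F (bits π))) : pr n G = pr n E + pr n F := by
  unfold pr cnt
  rw [← add_div, ← Finset.sum_add_distrib]
  congr 1
  apply Finset.sum_congr rfl
  intro π _
  have h1 := h π
  have h2 := hd π
  by_cases hE : E (bits π) <;> by_cases hF : F (bits π)
  · exact absurd ⟨hE, hF⟩ h2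
  · rw [if_pos (h1.2 (Or.inl hE)), if_pos hE, if_neg hF]; norm_num
  · rw [if_pos (h1.2 (Or.inr hF)), if_neg hE, if_pos hF]; norm_num
  · rw [if_neg (fun hG => (h1.1 hG).elim hE hF), if_neg hE, if_neg hF]; norm_num

lemma pr_sum {n : ℕ} {ι : Type*} (s : Finset ι) (E : ι → (ℕ → Bool) → Prop)
    (G : (ℕ → Bool) → Prop)
    (h : ∀ π : Perm (Fin n), G (bits π) ↔ ∃ x ∈ s, E x (bits π))
    (hd : ∀ π : Perm (Fin n), ∀ x ∈ s, ∀ y ∈ s, E x (bits π) → E y (bits π) → x = y) :
    pr n G = ∑ x ∈ s, pr n (E x) := by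
  classical
  unfold pr cnt
  rw [← Finset.sum_div, Finset.sum_comm]
  congr 1
  apply Finset.sum_congr rfl
  intro π _
  by_cases hG : G (bits π)
  · obtain ⟨x, hx, hE⟩ := (h π).1 hG
    rw [if_pos hG, Finset.sum_eq_single x]
    · rw [if_pos hE]
    · intro y hy hne
      rw [if_neg]
      intro hEy
      exact hne (hd π y hy x hx hEy hE)
    · intro hx'; exact absurd hx hx'
  · rw [if_neg hG, Finset.sum_eq_zero]
    intro x hx
    rw [if_neg]
    intro hE
    exact hG ((h π).2 ⟨x, hx, hE⟩)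

end Pool.Agent.R120.DDCount
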