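import Mathlib
import Pool.Agent.R120.AmalgDef
import Pool.Agent.R120.DDProd

set_option autoImplicit false

/-! # Infinitely many splittable 1-amalgamable permutation classes

The classes are the sets of finite subpermutations of trees of sequences of integers. -/

namespace Pool.Agent.R120.Amalg

open Pool.Agent.R120.Antichain Function

/-- Points: finite nonempty sequences of integers. -/
inductive Tr
  | leaf (r : ℤ)
  | node (a : ℤ) (x : Tr)

namespace Tr

/-- The position order. -/
def pos : Tr → Tr → Prop
  | leaf r, leaf s => r < s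
  | leaf r, node b _ => r < b
  | node a _, leaf s => a ≤ s
  | node a x, node b y => a < b ∨ (a = b ∧ pos x y)

/-- The value order. -/
def val (L : ℤ) : Tr → Tr → Prop
  | leaf r, leaf s => s < r
  | leaf r, node b _ => b + L ≤ r
  | node a _, leaf s => s < a + L
  | node a x, node b y => b < a ∨ (a = b ∧ val L x y)

lemma pos_irrefl (x : Tr) : ¬ pos x x := by
  induction x with
  | leaf r => simp [pos]
  | node a x ih => simp [pos, ih]

lemma val_irrefl (L : ℤ) (x : Tr) : ¬ val L x x := by
  induction x with
  | leaf r => simp [val]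
  | node a x ih => simp [val, ih]

lemma pos_trans {x : Tr} : ∀ {y z : Tr}, pos x y → pos y z → pos x z := by
  induction x with
  | leaf r =>
    intro y z h1 h2
    cases y <;> cases z <;> simp only [pos] at * <;> omega
  | node a x ih =>
    intro y z h1 h2
    cases y with
    | leaf s => cases z <;> simp only [pos] at * <;> omega
    | node b y =>
      cases z with
      | leaf t => simp only [pos] at *; omega
      | node c z =>
        simp only [pos] at *
        rcases h1 with h1 | ⟨rfl, h1⟩
        · rcases h2 with h2 | ⟨rfl, h2⟩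
          · left; omega
          · left; exact h1
        · rcases h2 with h2 | ⟨rfl, h2⟩
          · left; exact h2
          · right; exact ⟨rfl, ih h1 h2⟩

lemma val_trans {L : ℤ} {x : Tr} : ∀ {y z : Tr}, val L x y → val L y z → val L x z := by
  induction x with
  | leaf r =>
    intro y z h1 h2
    cases y <;> cases z <;> simp only [val] at * <;> omega
  | node a x ih =>
    intro y z h1 h2
    cases y with
    | leaf s => cases z <;> simp only [val] at * <;> omega
    | node b y =>
      cases z with
      | leaf t => simp only [val] at *; omega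
      | node c z =>
        simp only [val] at *
        rcases h1 with h1 | ⟨rfl, h1⟩
        · rcases h2 with h2 | ⟨rfl, h2⟩
          · left; omega
          · left; exact h1
        · rcases h2 with h2 | ⟨rfl, h2⟩
          · left; exact h2
          · right; exact ⟨rfl, ih h1 h2⟩

lemma pos_tri (x : Tr) : ∀ y : Tr, pos x y ∨ x = y ∨ pos y x := by
  induction x with
  | leaf r =>
    intro y
    cases y with
    | leaf s => simp only [pos, leaf.injEq]; omega
    | node b y => simp only [pos]; omega
  | node a x ih =>
    intro y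
    cases y with
    | leaf s => simp only [pos]; omega
    | node b y =>
      simp only [pos, node.injEq]
      rcases lt_trichotomy a b with h | rfl | h
      · left; left; exact h
      · rcases ih y with h | rfl | h
        · left; right; exact ⟨rfl, h⟩
        · right; left; exact ⟨rfl, rfl⟩
        · right; right; right; exact ⟨rfl, h⟩
      · right; right; left; exact h

lemma val_tri (L : ℤ) (x : Tr) : ∀ y : Tr, val L x y ∨ x = y ∨ val L y x := by
  induction x with
  | leaf r =>
    intro y
    cases y with
    | leaf s => simp only [val, leaf.injEq]; omega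
    | node b y => simp only [val]; omega
  | node a x ih =>
    intro y
    cases y with
    | leaf s => simp only [val]; omega
    | node b y =>
      simp only [val, node.injEq]
      rcases lt_trichotomy a b with h | rfl | h
      · right; right; left; exact h
      · rcases ih y with h | rfl | h
        · left; right; exact ⟨rfl, h⟩
        · right; left; exact ⟨rfl, rfl⟩
        · right; right; right; exact ⟨rfl, h⟩
      · left; left; exact h

/-! ### Self-embeddings -/

structure Emb (L : ℤ) (φ : Tr → Tr) : Prop where
  p : ∀ x y, pos x y ↔ pos (φ x) (φ y)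
  v : ∀ x y, val L x y ↔ val L (φ x) (φ y)

lemma emb_id (L : ℤ) : Emb L id := ⟨fun _ _ => Iff.rfl, fun _ _ => Iff.rfl⟩

/-- Translation of the first coordinate. -/
def sh (t : ℤ) : Tr → Tr
  | leaf r => leaf (r + t)
  | node a x => node (a + t) x

lemma emb_sh (L t : ℤ) : Emb L (sh t) := by
  constructor
  · intro x y
    cases x <;> cases y <;> simp [sh, pos]
  · intro x y
    cases x <;> cases y <;> simp [sh, val] <;> omega

/-- Lifting a map to the subtrees. -/
def lift (φ : Tr → Tr) : Tr → Tr
  | leaf r => leaf r
  | node a x => node a (φ x)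

lemma emb_lift {L : ℤ} {φ : Tr → Tr} (h : Emb L φ) : Emb L (lift φ) := by
  constructor
  · intro x y
    cases x <;> cases y <;> simp [lift, pos]
    rw [h.p]
  · intro x y
    cases x <;> cases y <;> simp [lift, val]
    rw [h.v]

lemma emb_node {L : ℤ} (b : ℤ) {φ : Tr → Tr} (h : Emb L φ) : Emb L (fun x => node b (φ x)) := by
  constructor
  · intro x y
    simp [pos, ← h.p]
  · intro x y
    simp [val, ← h.v]

lemma emb_comp {L : ℤ} {φ ψ : Tr → Tr} (h : Emb L φ) (h' : Emb L ψ) : Emb L (φ ∘ ψ) := by
  constructor
  · intro x y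
    rw [h'.p, h.p]; rfl
  · intro x y
    rw [h'.v, h.v]; rfl

/-- Any two points can be identified. -/
lemma transitive (L : ℤ) (b : Tr) : ∀ c : Tr, ∃ φ ψ : Tr → Tr, Emb L φ ∧ Emb L ψ ∧ φ b = ψ c := by
  induction b with
  | leaf r =>
    intro c
    induction c with
    | leaf s =>
      refine ⟨id, sh (r - s), emb_id L, emb_sh L _, ?_⟩
      simp [sh]
    | node b' y ih =>
      obtain ⟨φ, ψ, h1, h2, h3⟩ := ih
      refine ⟨fun x => node b' (φ x), lift ψ, emb_node b' h1, emb_lift h2, ?_⟩
      simp [lift, h3]
  | node a x ih =>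
    intro c
    cases c with
    | leaf s =>
      obtain ⟨φ, ψ, h1, h2, h3⟩ := ih (leaf s)
      refine ⟨lift φ, fun x => node a (ψ x), emb_lift h1, emb_node a h2, ?_⟩
      simp [lift, h3]
    | node b' y =>
      obtain ⟨φ, ψ, h1, h2, h3⟩ := ih y
      refine ⟨lift φ, sh (a - b') ∘ lift ψ, emb_lift h1, emb_comp (emb_sh L _) (emb_lift h2), ?_⟩
      simp [lift, h3, sh]

end Tr

open Tr

/-! ### The classes -/

/-- `f` represents the permutation `π` by points. -/
def Rep (L : ℤ) {n : ℕ} (π : Equiv.Perm (Fin n)) (f : Fin n → Tr) : Prop :=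
  (∀ i j, i < j ↔ pos (f i) (f j)) ∧ ∀ i j, π i < π j ↔ val L (f i) (f j)

/-- All finite subpermutations. -/
def age (L : ℤ) : Set AllPerms := {p | ∃ f, Rep L p.2 f}

lemma Rep.inj {L : ℤ} {n : ℕ} {π : Equiv.Perm (Fin n)} {f : Fin n → Tr} (h : Rep L π f) :
    Injective f := by
  intro i j hij
  by_contra hne
  rcases lt_or_gt_of_ne hne with hlt | hlt
  · have := (h.1 i j).1 hlt
    rw [hij] at this
    exact pos_irrefl _ this
  · have := (h.1 j i).1 hlt
    rw [hij] at this
    exact pos_irrefl _ this

lemma isClass_age (L : ℤ) : IsClass (age L) := by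
  rintro p ⟨f, h1, h2⟩ q g ⟨g1, g2⟩
  exact ⟨fun i => f (g i), fun i j => by rw [← h1, g1.lt_iff_lt], fun i j => by rw [g2, h2]⟩

/-- Enumeration of a finite set along a strict total order. -/
lemma exists_enum {X : Type} (r : X → X → Prop) (hi : ∀ x, ¬ r x x)
    (ht : ∀ {x y z}, r x y → r y z → r x z) (htri : ∀ x y, r x y ∨ x = y ∨ r y x)
    (S : Finset X) {n : ℕ} (hn : S.card = n) :
    ∃ f : Fin n → X, (∀ i j, i < j ↔ r (f i) (f j)) ∧ Set.range f = S := by
  classical
  have hst : IsStrictTotalOrder X r :=
    { trichotomous := fun x y h1 h2 => by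
        rcases htri x y with h | h | h
        · exact absurd h h1
        · exact h
        · exact absurd h h2
      irrefl := hi
      trans := fun _ _ _ h1 h2 => ht h1 h2 }
  let _ : LinearOrder X := linearOrderOfSTO r
  let e := S.orderEmbOfFin hn
  refine ⟨e, fun i j => ?_, by simp [e]⟩
  have : e i < e j ↔ i < j := e.lt_iff_lt
  exact this.symm

/-- Every finite set of points represents a permutation. -/
lemma exists_rep (L : ℤ) (S : Finset Tr) : ∃ (p : AllPerms) (f : Fin p.1 → Tr), Rep L p.2 f ∧
    Set.range f = S := by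
  obtain ⟨f, hf, hfr⟩ := exists_enum pos pos_irrefl pos_trans pos_tri S rfl
  obtain ⟨g, hg, hgr⟩ := exists_enum (val L) (val_irrefl L) val_trans (val_tri L) S rfl
  have hfi : Injective f := by
    intro i j hij
    by_contra hne
    rcases lt_or_gt_of_ne hne with hlt | hlt
    · have := (hf i j).1 hlt
      rw [hij] at this
      exact pos_irrefl _ this
    · have := (hf j i).1 hlt
      rw [hij] at this
      exact pos_irrefl _ this
  have hex : ∀ i, ∃ j, g j = f i := by
    intro i
    have : f i ∈ Set.range g := by
      rw [hgr, ← hfr]; exact ⟨i, rfl⟩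
    exact this
  choose π hπ using hex
  have hπi : Injective π := by
    intro i j hij
    apply hfi
    rw [← hπ i, ← hπ j, hij]
  refine ⟨⟨S.card, Equiv.ofBijective π (Finite.injective_iff_bijective.1 hπi)⟩, f, ⟨hf, ?_⟩, hfr⟩
  intro i j
  rw [← hπ i, ← hπ j, ← hg]
  rfl

lemma oneAmalgamable_age (L : ℤ) : OneAmalgamable (age L) := by
  classical
  rintro ⟨a, α⟩ _ ha ⟨nb, β⟩ ⟨fb, hb⟩ ⟨nc, γ⟩ ⟨fc, hc⟩ f g _ _
  simp only at ha hb hc f g fb fc
  -- self-embeddings identifying the marked points
  obtain ⟨φ, ψ, hφ, hψ, he⟩ : ∃ φ ψ : Tr → Tr, Emb L φ ∧ Emb L ψ ∧ ∀ i, φ (fb (f i)) = ψ (fc (g i)) := by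
    rcases Nat.eq_zero_or_pos a with rfl | h0
    · exact ⟨id, id, emb_id L, emb_id L, fun i => i.elim0⟩
    · have h1 : a = 1 := by omega
      subst h1
      obtain ⟨φ, ψ, h1, h2, h3⟩ := transitive L (fb (f 0)) (fc (g 0))
      refine ⟨φ, ψ, h1, h2, fun i => ?_⟩
      have : i = 0 := Subsingleton.elim _ _
      rw [this, h3]
  obtain ⟨δ, h, hr, hrange⟩ := exists_rep L
    (Finset.univ.image (fun i => φ (fb i)) ∪ Finset.univ.image (fun i => ψ (fc i)))
  have ex1 : ∀ i, ∃ j, h j = φ (fb i) := by
    intro i
    have : φ (fb i) ∈ Set.range h := by rw [hrange]; simp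
    exact this
  have ex2 : ∀ i, ∃ j, h j = ψ (fc i) := by
    intro i
    have : ψ (fc i) ∈ Set.range h := by rw [hrange]; simp
    exact this
  choose f' hf' using ex1
  choose g' hg' using ex2
  refine ⟨δ, ⟨h, hr⟩, f', g', ⟨?_, ?_⟩, ⟨?_, ?_⟩, ?_⟩
  · intro i j hij
    rw [hr.1, hf', hf', ← hφ.p, ← hb.1]
    exact hij
  · intro i j
    rw [hr.2, hf', hf', ← hφ.v, ← hb.2]
  · intro i j hij
    rw [hr.1, hg', hg', ← hψ.p, ← hc.1]
    exact hij
  · intro i j
    rw [hr.2, hg', hg', ← hψ.v, ← hc.2]
  · funext i
    apply hr.inj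
    simp only [Function.comp_apply]
    rw [hf', hg', he]

/-! ### Splitting -/

/-- The last coordinate. -/
def last : Tr → ℤ
  | leaf r => r
  | node _ x => last x

/-- Two points above and to the right of `x`, forming a descent, with last coordinates congruent
modulo `L`, cannot exist. -/
lemma no132 (L : ℤ) (hL : 0 ≤ L) (x : Tr) : ∀ y z : Tr, pos x y → val L x y → pos x z → val L x z →
    pos y z → val L z y → last y % L = last z % L → False := by
  induction x with
  | leaf r =>
    intro y z h1 h2
    cases y <;> simp only [pos, val] at * <;> omega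
  | node a x ih =>
    intro y z h1 h2 h3 h4 h5 h6 h7
    cases y with
    | leaf s =>
      cases z with
      | leaf t =>
        simp only [pos, val, last] at *
        have h8 : L ∣ t - s := Int.ModEq.dvd h7
        have h9 : t - s < L := by omega
        have h10 : 0 < t - s := by omega
        have := Int.le_of_dvd h10 h8
        omega
      | node c z =>
        simp only [pos, val] at *
        omega
    | node b y =>
      cases z with
      | leaf t =>
        simp only [pos, val] at *
        omega
      | node c z =>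
        simp only [pos, val, last] at *
        have hab : a = b := by omega
        have hac : a = c := by omega
        subst hab
        subst hac
        simp only [lt_self_iff_false, true_and, false_or] at *
        exact ih y z h1 h2 h3 h4 h5 h6 h7

/-- The class `Av(132)`. -/
def Av132 : Set AllPerms :=
  {p | ¬ ∃ x y z : Fin p.1, x < y ∧ y < z ∧ p.2 x < p.2 z ∧ p.2 z < p.2 y}

lemma isClass_av132 : IsClass Av132 := by
  rintro p hp q f ⟨h1, h2⟩ ⟨x, y, z, hxy, hyz, h3, h4⟩
  exact hp ⟨f x, f y, f z, h1 hxy, h1 hyz, (h2 _ _).1 h3, (h2 _ _).1 h4⟩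

/-- The pattern formed by the entries in a set of positions. -/
lemma exists_pattern (τ : AllPerms) (s : Set (Fin τ.1)) : ∃ (σ : AllPerms)
    (f : Fin σ.1 → Fin τ.1), IsEmb σ.2 τ.2 f ∧ Set.range f = s := by
  classical
  let e := s.toFinset.orderEmbOfFin rfl
  obtain ⟨ρ, hρ⟩ := DDCount.exists_std (fun i => τ.2 (e i)) (τ.2.injective.comp e.injective)
  refine ⟨⟨_, ρ⟩, e, ⟨e.strictMono, hρ⟩, ?_⟩
  simp [e]

lemma not_subset (L : ℤ) (hL : 2 ≤ L) : ¬ age L ⊆ Av132 := by
  classical
  intro hsub
  obtain ⟨p, f, hr, hrange⟩ := exists_rep L {node 0 (leaf 0), leaf 0, leaf 1}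
  have ex : ∀ t ∈ ({node 0 (leaf 0), leaf 0, leaf 1} : Finset Tr), ∃ i, f i = t := by
    intro t ht
    have : t ∈ Set.range f := by rw [hrange]; exact ht
    exact this
  obtain ⟨i, hi⟩ := ex (node 0 (leaf 0)) (by simp)
  obtain ⟨j, hj⟩ := ex (leaf 0) (by simp)
  obtain ⟨k, hk⟩ := ex (leaf 1) (by simp)
  refine hsub ⟨f, hr⟩ ⟨i, j, k, ?_, ?_, ?_, ?_⟩
  · rw [hr.1, hi, hj]; simp [pos]
  · rw [hr.1, hj, hk]; simp [pos]
  · rw [hr.2, hi, hk]; simp only [val]; omega
  · rw [hr.2, hj, hk]; simp [val]

lemma splittable_age (L : ℕ) (hL : 2 ≤ L) : Splittable (age L) := by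
  refine ⟨L, fun _ => Av132, fun _ => isClass_av132, fun _ => not_subset L (by exact_mod_cast hL), ?_⟩
  rintro τ ⟨f, hr⟩
  have hL0 : (0 : ℤ) < L := by exact_mod_cast (by omega : 0 < L)
  let c : Fin τ.1 → Fin L := fun i => ⟨(last (f i) % L).toNat, by
    have h1 := Int.emod_nonneg (last (f i)) hL0.ne'
    have h2 := Int.emod_lt_of_pos (last (f i)) hL0
    omega⟩
  refine ⟨c, fun i => ?_⟩
  obtain ⟨σ, g, hg, hrange⟩ := exists_pattern τ {x | c x = i}
  refine ⟨σ, ?_, g, hg, hrange⟩
  rintro ⟨x, y, z, hxy, hyz, h3, h4⟩
  have col : ∀ x, last (f (g x)) % L = ((i : ℕ) : ℤ) := by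
    intro x
    have h1 : c (g x) = i := by
      have : g x ∈ Set.range g := ⟨x, rfl⟩
      rw [hrange] at this
      exact this
    have h2 : (last (f (g x)) % L).toNat = (i : ℕ) := congrArg Fin.val h1
    have h3 := Int.emod_nonneg (last (f (g x))) hL0.ne'
    omega
  have p1 := (hr.1 _ _).1 (hg.1 hxy)
  have p2 := (hr.1 _ _).1 (hg.1 hyz)
  have v1 := (hr.2 _ _).1 ((hg.2 _ _).1 h3)
  have v2 := (hr.2 _ _).1 ((hg.2 _ _).1 h4)
  exact no132 L hL0.le (f (g x)) (f (g y)) (f (g z)) p1 (val_trans v1 v2) (pos_trans p1 p2) v1 p2 v2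
    ((col y).trans (col z).symm)

/-! ### The classes are infinite and pairwise distinct -/

/-- `C` contains a permutation with an entry below and to the left of a decreasing sequence of
length `k`. -/
def Has (C : Set AllPerms) (k : ℕ) : Prop :=
  ∃ p ∈ C, ∃ (z : Fin p.1) (q : Fin k → Fin p.1), (∀ i, z < q i ∧ p.2 z < p.2 (q i)) ∧
    ∀ i j, i < j → q i < q j ∧ p.2 (q j) < p.2 (q i)

lemma has_age (L : ℕ) : Has (age L) L := by
  classical
  obtain ⟨p, f, hr, hrange⟩ := exists_rep L
    (insert (node 0 (leaf 0)) (Finset.univ.image (fun i : Fin L => leaf ((i : ℕ) : ℤ))))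
  have ex0 : ∃ i, f i = node 0 (leaf 0) := by
    have : node 0 (leaf 0) ∈ Set.range f := by rw [hrange]; simp
    exact this
  have ex1 : ∀ t : Fin L, ∃ i, f i = leaf ((t : ℕ) : ℤ) := by
    intro t
    have : leaf ((t : ℕ) : ℤ) ∈ Set.range f := by rw [hrange]; simp
    exact this
  obtain ⟨z, hz⟩ := ex0
  choose q hq using ex1
  refine ⟨p, ⟨f, hr⟩, z, q, fun i => ⟨?_, ?_⟩, fun i j hij => ⟨?_, ?_⟩⟩
  · rw [hr.1, hz, hq]; simp [pos]
  · rw [hr.2, hz, hq]
    have := i.2
    simp only [val]
    omega
  · rw [hr.1, hq, hq]
    simp only [pos]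
    exact_mod_cast hij
  · rw [hr.2, hq, hq]
    simp only [val]
    exact_mod_cast hij

lemma le_of_window {k : ℕ} {L a : ℤ} (s : Fin k → ℤ) (hs : Injective s)
    (h : ∀ i, a ≤ s i ∧ s i < a + L) : (k : ℤ) ≤ max L 0 := by
  have h1 : Finset.univ.image s ⊆ Finset.Ico a (a + L) := by
    intro x hx
    obtain ⟨i, _, rfl⟩ := Finset.mem_image.1 hx
    exact Finset.mem_Ico.2 (h i)
  have h2 := Finset.card_le_card h1
  rw [Finset.card_image_of_injective _ hs, Finset.card_univ, Fintype.card_fin, Int.card_Ico] at h2
  omega

lemma bound (L : ℕ) (x : Tr) : ∀ (k : ℕ) (q : Fin k → Tr), (∀ i, pos x (q i) ∧ val L x (q i)) →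
    (∀ i j, i < j → pos (q i) (q j) ∧ val L (q j) (q i)) → k ≤ L := by
  induction x with
  | leaf r =>
    intro k q h1 _
    rcases Nat.eq_zero_or_pos k with rfl | hk
    · omega
    · have := h1 ⟨0, hk⟩
      cases hq : q ⟨0, hk⟩ <;> rw [hq] at this <;> simp only [pos, val] at this <;> omega
  | node a x ih =>
    intro k q h1 h2
    rcases Nat.eq_zero_or_pos k with rfl | hk
    · omega
    · cases hq : q ⟨0, hk⟩ with
      | leaf s0 =>
        -- all are leaves
        have hall : ∀ i, ∃ s, q i = leaf s := by
          intro i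
          rcases Nat.eq_zero_or_pos (i : ℕ) with h0 | h0
          · exact ⟨s0, by rw [← hq]; congr 1; exact Fin.ext h0⟩
          · cases hqi : q i with
            | leaf s => exact ⟨s, rfl⟩
            | node b y =>
              have a1 := h1 ⟨0, hk⟩
              have a2 := h2 ⟨0, hk⟩ i h0
              have a3 := h1 i
              rw [hq] at a1 a2
              rw [hqi] at a2 a3
              simp only [pos, val] at a1 a2 a3
              omega
        choose s hs using hall
        have hinj : Injective s := by
          intro i j hij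
          by_contra hne
          rcases lt_or_gt_of_ne hne with hlt | hlt
          · have := (h2 i j hlt).1
            rw [hs, hs, hij] at this
            exact pos_irrefl _ this
          · have := (h2 j i hlt).1
            rw [hs, hs, hij] at this
            exact pos_irrefl _ this
        have := le_of_window (L := L) (a := a) s hinj (fun i => by
          have := h1 i
          rw [hs] at this
          simpa only [pos, val] using this)
        omega
      | node b y0 =>
        have hall : ∀ i, ∃ y, q i = node a y := by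
          intro i
          cases hqi : q i with
          | node c y =>
            have a3 := h1 i
            rw [hqi] at a3
            simp only [pos, val] at a3
            have : a = c := by omega
            subst this
            exact ⟨y, rfl⟩
          | leaf s =>
            exfalso
            have h0 : (0 : ℕ) < i := by
              rcases Nat.eq_zero_or_pos (i : ℕ) with h0 | h0
              · exfalso
                have : i = ⟨0, hk⟩ := Fin.ext h0
                rw [this, hq] at hqi
                exact Tr.noConfusion hqi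
              · exact h0
            have a1 := h1 ⟨0, hk⟩
            have a2 := h2 ⟨0, hk⟩ i h0
            have a3 := h1 i
            rw [hq] at a1 a2
            rw [hqi] at a2 a3
            simp only [pos, val] at a1 a2 a3
            omega
        choose y hy using hall
        apply ih k y
        · intro i
          have := h1 i
          rw [hy] at this
          simp only [pos, val, lt_self_iff_false, true_and, false_or] at this
          exact this
        · intro i j hij
          have := h2 i j hij
          rw [hy, hy] at this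
          simp only [pos, val, lt_self_iff_false, true_and, false_or] at this
          exact this

lemma le_of_has {L k : ℕ} (h : Has (age L) k) : k ≤ L := by
  obtain ⟨p, ⟨f, hr⟩, z, q, h1, h2⟩ := h
  apply bound L (f z) k (fun i => f (q i))
  · intro i
    exact ⟨(hr.1 _ _).1 (h1 i).1, (hr.2 _ _).1 (h1 i).2⟩
  · intro i j hij
    exact ⟨(hr.1 _ _).1 (h2 i j hij).1, (hr.2 _ _).1 (h2 i j hij).2⟩

lemma age_injective : Injective (fun L : ℕ => age (L : ℤ)) := by
  intro L L' h
  simp only at h
  have h1 : L ≤ L' := le_of_has (by rw [← h]; exact has_age L)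
  have h2 : L' ≤ L := le_of_has (by rw [h]; exact has_age L')
  omega

lemma age_infinite (L : ℤ) : (age L).Infinite := by
  classical
  have h : ∀ n : ℕ, ∃ p ∈ age L, p.1 = n := by
    intro n
    obtain ⟨p, f, hr, hrange⟩ := exists_rep L (Finset.univ.image (fun i : Fin n => leaf ((i : ℕ) : ℤ)))
    refine ⟨p, ⟨f, hr⟩, ?_⟩
    have h1 : (Finset.univ.image f) = Finset.univ.image (fun i : Fin n => leaf ((i : ℕ) : ℤ)) := by
      apply Finset.coe_injective
      rw [← hrange]
      simp
    have h2 := congrArg Finset.card h1
    rw [Finset.card_image_of_injective _ hr.inj, Finset.card_image_of_injective] at h2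
    · simpa using h2
    · intro i j hij
      simp only [leaf.injEq] at hij
      exact Fin.ext (by exact_mod_cast hij)
  choose P hP hlen using h
  have hinj : Injective P := by
    intro m n hmn
    rw [← hlen m, ← hlen n, hmn]
  exact (Set.infinite_range_of_injective hinj).mono (by rintro _ ⟨n, rfl⟩; exact hP n)

theorem main : {C : Set AllPerms | C.Infinite ∧ IsClass C ∧ OneAmalgamable C ∧
    Splittable C}.Infinite := by
  have hinj : Injective (fun L : ℕ => age ((L + 2 : ℕ) : ℤ)) := by
    intro L L' h
    have := age_injective h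
    omega
  refine (Set.infinite_range_of_injective hinj).mono ?_
  rintro _ ⟨L, rfl⟩
  exact ⟨age_infinite _, isClass_age _, oneAmalgamable_age _, splittable_age (L + 2) (by omega)⟩

end Pool.Agent.R120.Amalg
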