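import Mathlib
import Pool.Agent.R120.PatDef
import Pool.Agent.R120.AntichainDef

set_option autoImplicit false

/-! Sum closed permutation classes and their indecomposable members. -/

namespace Pool.Agent.R120.SumClass

open Pool.Agent.R120 Pool.Agent.R120.Antichain

/-- A permutation class: a set of permutations closed downward under containment. -/
def IsClass (C : Set AllPerms) : Prop :=
  ∀ p ∈ C, ∀ q : AllPerms, Contains q.2 p.2 → q ∈ C

/-- The direct sum `σ ⊕ τ`: the permutation `σ` on the first `m` positions and smallest values,
followed by a copy of `τ` on the last `k` positions and largest values. -/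
def dsumP {m k : ℕ} (σ : Equiv.Perm (Fin m)) (τ : Equiv.Perm (Fin k)) :
    Equiv.Perm (Fin (m + k)) :=
  finSumFinEquiv.permCongr (Equiv.sumCongr σ τ)

/-- The direct sum of two permutations of arbitrary lengths. -/
def dsum (p q : AllPerms) : AllPerms := ⟨p.1 + q.1, dsumP p.2 q.2⟩

/-- `C` is sum closed: it contains the direct sum of any two of its members. -/
def SumClosed (C : Set AllPerms) : Prop := ∀ p ∈ C, ∀ q ∈ C, dsum p q ∈ C

/-- `p` is (sum) indecomposable: it is nonempty and not the direct sum of two nonempty
permutations. -/
def Indecomposable (p : AllPerms) : Prop :=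
  0 < p.1 ∧ ∀ a b : AllPerms, 0 < a.1 → 0 < b.1 → p ≠ dsum a b

/-- The set of indecomposable members of `C`. -/
def ind (C : Set AllPerms) : Set AllPerms := {p | p ∈ C ∧ Indecomposable p}

end Pool.Agent.R120.SumClass
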