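import Mathlib
import Pool.Agent.R120.Pat
import Pool.Agent.R120.SumDef

set_option autoImplicit false

/-! Direct sums and indecomposable permutations: basic facts. -/

namespace Pool.Agent.R120.SumClass

open Pool.Agent.R120 Pool.Agent.R120.Antichain Function

lemma dsumP_left {m k : ℕ} (σ : Equiv.Perm (Fin m)) (τ : Equiv.Perm (Fin k)) (i : Fin m) :
    dsumP σ τ (Fin.castAdd k i) = Fin.castAdd k (σ i) := by
  simp [dsumP, Equiv.permCongr_apply]

lemma dsumP_right {m k : ℕ} (σ : Equiv.Perm (Fin m)) (τ : Equiv.Perm (Fin k)) (i : Fin k) :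
    dsumP σ τ (Fin.natAdd m i) = Fin.natAdd m (τ i) := by
  simp [dsumP, Equiv.permCongr_apply]

lemma dsumP_left' {m k : ℕ} (σ : Equiv.Perm (Fin m)) (τ : Equiv.Perm (Fin k)) (i : Fin (m + k))
    (h : (i : ℕ) < m) : (dsumP σ τ i : ℕ) = σ ⟨i, h⟩ := by
  have e : i = Fin.castAdd k ⟨i, h⟩ := rfl
  conv_lhs => rw [e, dsumP_left]
  rfl

lemma dsumP_right' {m k : ℕ} (σ : Equiv.Perm (Fin m)) (τ : Equiv.Perm (Fin k)) (i : Fin (m + k))
    (h : m ≤ (i : ℕ)) : (dsumP σ τ i : ℕ) = m + τ ⟨i - m, by omega⟩ := by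
  have e : i = Fin.natAdd m ⟨i - m, by omega⟩ := Fin.ext (by simp; omega)
  conv_lhs => rw [e, dsumP_right]
  rfl

lemma exists_pattern {n : ℕ} (π : Equiv.Perm (Fin n)) (s : Set (Fin n)) :
    ∃ σ : Equiv.Perm (Fin s.ncard), ∃ f : Fin s.ncard → Fin n, StrictMono f ∧ Set.range f = s ∧
      ∀ i j, σ i < σ j ↔ π (f i) < π (f j) := by
  classical
  have hc : Fintype.card s = s.ncard := by
    rw [← Nat.card_coe_set_eq, Nat.card_eq_fintype_card]
  obtain ⟨σ, e, h1, h2⟩ := exists_realizes (α := s) (fun i => ((i : Fin n) : ℕ))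
    (fun i => ((π (i : Fin n) : Fin n) : ℕ))
    (fun i j h => by
      simp only [Nat.cast_inj] at h
      exact Subtype.ext (Fin.ext h))
    (fun i j h => by
      simp only [Nat.cast_inj] at h
      exact Subtype.ext (π.injective (Fin.ext h))) hc
  simp only [Nat.cast_lt] at h1 h2
  refine ⟨σ, fun i => (e i : Fin n), ?_, ?_, ?_⟩
  · intro i j hij
    exact Fin.lt_def.2 ((h1 i j).1 hij)
  · ext x
    constructor
    · rintro ⟨i, rfl⟩
      exact (e i).2
    · intro hx
      exact ⟨e.symm ⟨x, hx⟩, by simp⟩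
  · intro i j
    rw [h2 i j, Fin.lt_def]

lemma eq_of_len {p q : AllPerms} (h : p.1 = q.1) (hc : Contains p.2 q.2) : p = q := by
  obtain ⟨n, π⟩ := p
  obtain ⟨m, σ⟩ := q
  simp only at h hc
  subst h
  rw [eq_of_contains_same hc]

/-- a cut gives a decomposition -/
lemma eq_dsum_of_cut {n : ℕ} (π : Equiv.Perm (Fin n)) (m : ℕ) (hm : m ≤ n)
    (h : ∀ i j : Fin n, (i : ℕ) < m → m ≤ (j : ℕ) → π i < π j) :
    ∃ a b : AllPerms, a.1 = m ∧ b.1 = n - m ∧ (⟨n, π⟩ : AllPerms) = dsum a b := by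
  classical
  have hs : ({i | (i : ℕ) < m} : Set (Fin n)).ncard = m := by
    have : ({i | (i : ℕ) < m} : Set (Fin n)) =
        ((Finset.univ.filter (fun i : Fin n => (i : ℕ) < m) : Finset (Fin n)) :
          Set (Fin n)) := by
      ext; simp
    rw [this, Set.ncard_coe_finset, Fin.card_filter_val_lt]
    omega
  have hs' : ({i | (i : ℕ) < m} : Set (Fin n))ᶜ.ncard = n - m := by
    have h1 := Set.ncard_add_ncard_compl ({i | (i : ℕ) < m} : Set (Fin n))
    rw [Nat.card_eq_fintype_card, Fintype.card_fin] at h1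
    omega
  obtain ⟨a, f, hf, hfr, hf'⟩ := exists_pattern π {i | (i : ℕ) < m}
  obtain ⟨b, g, hg, hgr, hg'⟩ := exists_pattern π ({i | (i : ℕ) < m}ᶜ)
  refine ⟨⟨_, a⟩, ⟨_, b⟩, hs, hs', ?_⟩
  have hfm : ∀ i, (f i : ℕ) < m := fun i => by
    have : f i ∈ ({i | (i : ℕ) < m} : Set (Fin n)) := by rw [← hfr]; exact ⟨i, rfl⟩
    exact this
  have hgm : ∀ i, m ≤ (g i : ℕ) := fun i => by
    have : g i ∈ ({i | (i : ℕ) < m} : Set (Fin n))ᶜ := by rw [← hgr]; exact ⟨i, rfl⟩
    exact not_lt.1 this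
  have hcon : Contains (dsumP a b) π := by
    refine ⟨Fin.addCases f g, ?_, ?_⟩
    · intro i j
      refine Fin.addCases (fun i => ?_) (fun i => ?_) i <;>
        refine Fin.addCases (fun j => ?_) (fun j => ?_) j
      · intro hij
        simp only [Fin.addCases_left]
        refine hf ?_
        rw [Fin.lt_def] at hij ⊢
        exact hij
      · intro _
        simp only [Fin.addCases_left, Fin.addCases_right]
        exact Fin.lt_def.2 (lt_of_lt_of_le (hfm i) (hgm j))
      · intro hij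
        exfalso
        rw [Fin.lt_def, Fin.val_natAdd, Fin.val_castAdd] at hij
        omega
      · intro hij
        simp only [Fin.addCases_right]
        refine hg ?_
        rw [Fin.lt_def, Fin.val_natAdd, Fin.val_natAdd] at hij
        rw [Fin.lt_def]
        omega
    · intro i j
      refine Fin.addCases (fun i => ?_) (fun i => ?_) i <;>
        refine Fin.addCases (fun j => ?_) (fun j => ?_) j
      · simp only [Fin.addCases_left]
        rw [dsumP_left, dsumP_left, ← hf', Fin.lt_def, Fin.lt_def]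
        exact Iff.rfl
      · simp only [Fin.addCases_left, Fin.addCases_right]
        rw [dsumP_left, dsumP_right]
        have h1 := h _ _ (hfm i) (hgm j)
        refine ⟨fun _ => h1, fun _ => ?_⟩
        rw [Fin.lt_def, Fin.val_natAdd, Fin.val_castAdd]
        omega
      · simp only [Fin.addCases_left, Fin.addCases_right]
        rw [dsumP_left, dsumP_right]
        have h1 := h _ _ (hfm j) (hgm i)
        refine ⟨fun h3 => ?_, fun h3 => absurd h3 (not_lt.2 h1.le)⟩
        exfalso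
        rw [Fin.lt_def, Fin.val_natAdd, Fin.val_castAdd] at h3
        omega
      · simp only [Fin.addCases_right]
        rw [dsumP_right, dsumP_right, ← hg', Fin.lt_def, Fin.lt_def, Fin.val_natAdd,
          Fin.val_natAdd]
        omega
  exact (eq_of_len (p := dsum ⟨_, a⟩ ⟨_, b⟩) (q := ⟨n, π⟩) (by
    show ({i | (i : ℕ) < m} : Set (Fin n)).ncard +
      (({i | (i : ℕ) < m} : Set (Fin n))ᶜ).ncard = n
    rw [hs, hs']
    omega) hcon).symm

lemma indec_cut {n : ℕ} {π : Equiv.Perm (Fin n)} (hp : Indecomposable ⟨n, π⟩) (m : ℕ)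
    (h0 : 0 < m) (hm : m < n) : ∃ i j : Fin n, (i : ℕ) < m ∧ m ≤ (j : ℕ) ∧ π j < π i := by
  by_contra hcon
  push Not at hcon
  obtain ⟨a, b, ha, hb, h⟩ := eq_dsum_of_cut π m hm.le (fun i j hi hj => by
    refine lt_of_le_of_ne (hcon i j hi hj) (fun he => ?_)
    have := π.injective he
    rw [this] at hi
    omega)
  exact hp.2 a b (by omega) (by omega) h

lemma dsumP_cross {m k : ℕ} (σ : Equiv.Perm (Fin m)) (τ : Equiv.Perm (Fin k))
    (i j : Fin (m + k)) (hi : (i : ℕ) < m) (hj : m ≤ (j : ℕ)) : dsumP σ τ i < dsumP σ τ j := by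
  rw [Fin.lt_def, dsumP_left' σ τ i hi, dsumP_right' σ τ j hj]
  have := (σ ⟨i, hi⟩).2
  omega

/-- an indecomposable pattern of a direct sum is contained in one of the summands -/
lemma indec_of_dsum {n m k : ℕ} {π : Equiv.Perm (Fin n)} {σ : Equiv.Perm (Fin m)}
    {τ : Equiv.Perm (Fin k)} (hq : Indecomposable ⟨n, π⟩)
    (h : Contains π (dsumP σ τ)) : Contains π σ ∨ Contains π τ := by
  classical
  obtain ⟨g, hg, hg'⟩ := h
  by_cases hall : ∀ i, (g i : ℕ) < m
  · left
    refine ⟨fun i => ⟨g i, hall i⟩, fun i j hij => hg hij, fun i j => ?_⟩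
    rw [hg', Fin.lt_def, dsumP_left' σ τ _ (hall i), dsumP_left' σ τ _ (hall j), Fin.lt_def]
  by_cases hall' : ∀ i, m ≤ (g i : ℕ)
  · right
    refine ⟨fun i => ⟨g i - m, by have := hall' i; omega⟩, fun i j hij => ?_, fun i j => ?_⟩
    · have h1 : (g i : ℕ) < g j := hg hij
      have h2 := hall' i
      rw [Fin.lt_def]
      simp only
      omega
    · rw [hg', Fin.lt_def, dsumP_right' σ τ _ (hall' i), dsumP_right' σ τ _ (hall' j), Fin.lt_def]
      beta_reduce
      omega
  -- a mixed embedding gives a cut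
  exfalso
  push Not at hall hall'
  obtain ⟨i1, hi1⟩ := hall
  obtain ⟨i2, hi2⟩ := hall'
  have hex : ∃ m', ∃ h : m' < n, m ≤ (g ⟨m', h⟩ : ℕ) := ⟨i1, i1.2, hi1⟩
  obtain ⟨m', ⟨hm1, hm2⟩, hmin⟩ : ∃ m', (∃ h : m' < n, m ≤ (g ⟨m', h⟩ : ℕ)) ∧
      ∀ k < m', ¬ ∃ h : k < n, m ≤ (g ⟨k, h⟩ : ℕ) :=
    ⟨Nat.find hex, Nat.find_spec hex, fun k hk => Nat.find_min hex hk⟩
  have hmono : ∀ j : Fin n, m' ≤ (j : ℕ) → m ≤ (g j : ℕ) := by
    intro j hj
    have h3 : (⟨m', hm1⟩ : Fin n) ≤ j := by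
      rw [Fin.le_def]
      exact hj
    have h4 : g ⟨m', hm1⟩ ≤ g j := hg.monotone h3
    rw [Fin.le_def] at h4
    omega
  have hm0 : 0 < m' := by
    rcases Nat.eq_zero_or_pos m' with h0 | h0
    · exfalso
      have h2 := hmono i2 (by omega)
      omega
    · exact h0
  obtain ⟨i, j, hi, hj, hlt⟩ := indec_cut hq m' hm0 hm1
  have h1 : (g i : ℕ) < m := by
    by_contra hcon
    exact hmin i hi ⟨i.2, not_lt.1 hcon⟩
  have h3 := dsumP_cross σ τ _ _ h1 (hmono j hj)
  rw [hg'] at hlt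
  exact absurd hlt (not_lt.2 h3.le)

/-- realized permutations are unique -/
lemma realizes_eq {n : ℕ} {α : Type*} {π π' : Equiv.Perm (Fin n)} {x y : α → ℤ}
    (h : Realizes π x y) (h' : Realizes π' x y) : π = π' :=
  eq_of_contains_same ((contains_iff_of_realizes h h').2 ⟨id, fun _ _ h => h, fun _ _ => Iff.rfl⟩)

/-- indecomposability of a realized permutation from connectivity under inversions -/
lemma indec_of_realizes {n : ℕ} {π : Equiv.Perm (Fin n)} {α : Type*} {x y : α → ℤ}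
    (h : Realizes π x y) (h0 : 0 < n)
    (hconn : ∀ P : α → Prop, (∀ s t, x s < x t → y t < y s → (P s ↔ P t)) →
      ∀ s t, P s ↔ P t) : Indecomposable ⟨n, π⟩ := by
  refine ⟨h0, ?_⟩
  rintro ⟨m, σ⟩ ⟨k, τ⟩ ha hb he
  simp only at ha hb
  have hn : n = m + k := congrArg Sigma.fst he
  subst hn
  have he' : π = dsumP σ τ := eq_of_heq (Sigma.mk.inj he).2
  subst he'
  obtain ⟨e, h1, h2⟩ := h
  have key := hconn (fun s => ((e.symm s : Fin (m + k)) : ℕ) < m) ?_
    (e (⟨0, by omega⟩ : Fin (m + k))) (e (⟨m, by omega⟩ : Fin (m + k)))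
  · simp only [Equiv.symm_apply_apply] at key
    exact absurd (key.1 ha) (lt_irrefl _)
  · intro s t hs ht
    have h3 : (e.symm s : Fin (m + k)) < e.symm t := by
      rw [h1]
      simpa using hs
    have h4 : (dsumP σ τ) (e.symm t) < (dsumP σ τ) (e.symm s) := by
      rw [h2]
      simpa using ht
    constructor
    · intro h5
      by_contra h6
      have := dsumP_cross σ τ (e.symm s) (e.symm t) h5 (not_lt.1 h6)
      exact absurd h4 (not_lt.2 this.le)
    · intro h5
      have h6 : ((e.symm s : Fin (m + k)) : ℕ) < (e.symm t : Fin (m + k)) := h3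
      omega

end Pool.Agent.R120.SumClass
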