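import Mathlib
import Pool.Agent.R120.Pat
import Pool.Agent.R120.SumClass
import Pool.Agent.R120.DDProd

set_option autoImplicit false

/-! # The class `Av(321, 4123, 3412, 23451)` -/

namespace Pool.Agent.R120.Comb

open Pool.Agent.R120 Pool.Agent.R120.Antichain Pool.Agent.R120.SumClass Function

def b3 : Equiv.Perm (Fin 3) := ⟨![2, 1, 0], ![2, 1, 0], by decide, by decide⟩
def b4 : Equiv.Perm (Fin 4) := ⟨![3, 0, 1, 2], ![1, 2, 3, 0], by decide, by decide⟩
def b4' : Equiv.Perm (Fin 4) := ⟨![2, 3, 0, 1], ![2, 3, 0, 1], by decide, by decide⟩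
def b5 : Equiv.Perm (Fin 5) := ⟨![1, 2, 3, 4, 0], ![4, 0, 1, 2, 3], by decide, by decide⟩

def Good {n : ℕ} (π : Equiv.Perm (Fin n)) : Prop :=
  ¬ Contains b3 π ∧ ¬ Contains b4 π ∧ ¬ Contains b4' π ∧ ¬ Contains b5 π

def C : Set AllPerms := {p | Good p.2}

lemma isClass_C : IsClass C := by
  rintro p ⟨h1, h2, h3, h4⟩ q hq
  exact ⟨fun h => h1 (contains_trans h hq), fun h => h2 (contains_trans h hq),
    fun h => h3 (contains_trans h hq), fun h => h4 (contains_trans h hq)⟩

lemma indec_of_cuts {n : ℕ} {π : Equiv.Perm (Fin n)} (h0 : 0 < n)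
    (h : ∀ m, 0 < m → m < n → ∃ i j : Fin n, (i : ℕ) < m ∧ m ≤ (j : ℕ) ∧ π j < π i) :
    Indecomposable ⟨n, π⟩ := by
  refine ⟨h0, ?_⟩
  rintro ⟨m, σ⟩ ⟨k, τ⟩ ha hb he
  simp only at ha hb
  have hn : n = m + k := congrArg Sigma.fst he
  subst hn
  have he' : π = dsumP σ τ := eq_of_heq (Sigma.mk.inj he).2
  subst he'
  obtain ⟨i, j, hi, hj, hlt⟩ := h m ha (by omega)
  exact absurd (dsumP_cross σ τ i j hi hj) hlt.asymm

lemma indec_b3 : Indecomposable ⟨3, b3⟩ := indec_of_cuts (by norm_num) (by
  intro m h1 h2
  have : m = 1 ∨ m = 2 := by omega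
  rcases this with rfl | rfl
  · exact ⟨0, 1, by decide, by decide, by decide⟩
  · exact ⟨0, 2, by decide, by decide, by decide⟩)

lemma indec_b4 : Indecomposable ⟨4, b4⟩ := indec_of_cuts (by norm_num) (by
  intro m h1 h2
  have : m = 1 ∨ m = 2 ∨ m = 3 := by omega
  rcases this with rfl | rfl | rfl
  · exact ⟨0, 3, by decide, by decide, by decide⟩
  · exact ⟨0, 3, by decide, by decide, by decide⟩
  · exact ⟨0, 3, by decide, by decide, by decide⟩)

lemma indec_b4' : Indecomposable ⟨4, b4'⟩ := indec_of_cuts (by norm_num) (by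
  intro m h1 h2
  have : m = 1 ∨ m = 2 ∨ m = 3 := by omega
  rcases this with rfl | rfl | rfl
  · exact ⟨0, 3, by decide, by decide, by decide⟩
  · exact ⟨0, 3, by decide, by decide, by decide⟩
  · exact ⟨0, 3, by decide, by decide, by decide⟩)

lemma indec_b5 : Indecomposable ⟨5, b5⟩ := indec_of_cuts (by norm_num) (by
  intro m h1 h2
  have : m = 1 ∨ m = 2 ∨ m = 3 ∨ m = 4 := by omega
  rcases this with rfl | rfl | rfl | rfl
  · exact ⟨0, 4, by decide, by decide, by decide⟩
  · exact ⟨0, 4, by decide, by decide, by decide⟩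
  · exact ⟨0, 4, by decide, by decide, by decide⟩
  · exact ⟨0, 4, by decide, by decide, by decide⟩)

lemma sumClosed_C : SumClosed C := by
  rintro ⟨m, σ⟩ ⟨h1, h2, h3, h4⟩ ⟨k, τ⟩ ⟨g1, g2, g3, g4⟩
  refine ⟨fun h => ?_, fun h => ?_, fun h => ?_, fun h => ?_⟩
  · exact (indec_of_dsum indec_b3 h).elim h1 g1
  · exact (indec_of_dsum indec_b4 h).elim h2 g2
  · exact (indec_of_dsum indec_b4' h).elim h3 g3
  · exact (indec_of_dsum indec_b5 h).elim h4 g4

/-! ### Patterns in terms of positions -/

section pos
variable {n : ℕ} {π : Equiv.Perm (Fin n)}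

lemma no321 (h : Good π) {i j k : Fin n} (hij : i < j) (hjk : j < k) (h1 : π j < π i)
    (h2 : π k < π j) : False := by
  apply h.1
  refine ⟨![i, j, k], ?_, ?_⟩
  · rw [Fin.strictMono_iff_lt_succ]
    intro a; fin_cases a
    · exact hij
    · exact hjk
  · intro a b
    fin_cases a <;> fin_cases b <;> simp [b3] <;>
      first
        | exact h1
        | exact h2
        | exact h2.trans h1
        | exact h1.le
        | exact h2.le
        | exact (h2.trans h1).le

lemma no4123 (h : Good π) {i j k l : Fin n} (hij : i < j) (hjk : j < k) (hkl : k < l)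
    (h1 : π j < π k) (h2 : π k < π l) (h3 : π l < π i) : False := by
  apply h.2.1
  refine ⟨![i, j, k, l], ?_, ?_⟩
  · rw [Fin.strictMono_iff_lt_succ]
    intro a; fin_cases a
    · exact hij
    · exact hjk
    · exact hkl
  · intro a b
    fin_cases a <;> fin_cases b <;> simp [b4] <;>
      first
        | exact h1
        | exact h2
        | exact h3
        | exact h2.trans h3
        | exact h1.trans h2
        | exact (h1.trans h2).trans h3
        | exact h1.le
        | exact h2.le
        | exact h3.le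
        | exact (h2.trans h3).le
        | exact (h1.trans h2).le
        | exact ((h1.trans h2).trans h3).le

lemma no3412 (h : Good π) {i j k l : Fin n} (hij : i < j) (hjk : j < k) (hkl : k < l)
    (h1 : π k < π l) (h2 : π l < π i) (h3 : π i < π j) : False := by
  apply h.2.2.1
  refine ⟨![i, j, k, l], ?_, ?_⟩
  · rw [Fin.strictMono_iff_lt_succ]
    intro a; fin_cases a
    · exact hij
    · exact hjk
    · exact hkl
  · intro a b
    fin_cases a <;> fin_cases b <;> simp [b4'] <;>
      first
        | exact h1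
        | exact h2
        | exact h3
        | exact h2.trans h3
        | exact h1.trans h2
        | exact (h1.trans h2).trans h3
        | exact h1.le
        | exact h2.le
        | exact h3.le
        | exact (h2.trans h3).le
        | exact (h1.trans h2).le
        | exact ((h1.trans h2).trans h3).le

lemma no23451 (h : Good π) {i j k l m : Fin n} (hij : i < j) (hjk : j < k) (hkl : k < l)
    (hlm : l < m) (h1 : π m < π i) (h2 : π i < π j) (h3 : π j < π k) (h4 : π k < π l) : False := by
  apply h.2.2.2
  refine ⟨![i, j, k, l, m], ?_, ?_⟩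
  · rw [Fin.strictMono_iff_lt_succ]
    intro a; fin_cases a
    · exact hij
    · exact hjk
    · exact hkl
    · exact hlm
  · intro a b
    have e1 := h1.trans h2
    have e2 := e1.trans h3
    have e3 := e2.trans h4
    have e4 := h2.trans h3
    have e5 := e4.trans h4
    have e6 := h3.trans h4
    fin_cases a <;> fin_cases b <;> simp [b5] <;>
      first
        | assumption
        | exact h1.le
        | exact h2.le
        | exact h3.le
        | exact h4.le
        | exact e1.le
        | exact e2.le
        | exact e3.le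
        | exact e4.le
        | exact e5.le
        | exact e6.le

end pos

end Pool.Agent.R120.Comb
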