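import Mathlib
import Pool.Agent.R120.Comb

set_option autoImplicit false

/-! # Exponentially many indecomposable permutations in `Av(321, 4123, 3412, 23451)` -/

namespace Pool.Agent.R120.Comb

open Pool.Agent.R120 Pool.Agent.R120.Antichain Pool.Agent.R120.SumClass Function Filter
open scoped ENNReal

def offx (b : Bool) (r : ℕ) : ℤ :=
  if b = true then
    (if r = 0 then -8 else if r = 1 then -4 else if r = 2 then 0 else if r = 3 then 8 else 12)
  else
    (if r = 0 then -16 else if r = 1 then -8 else if r = 2 then -4 else if r = 3 then 8 else 12)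

def offy (b : Bool) (r : ℕ) : ℤ :=
  if b = true then
    (if r = 0 then -8 else if r = 1 then -28 else if r = 2 then 0 else if r = 3 then 8 else -12)
  else
    (if r = 0 then -16 else if r = 1 then -8 else if r = 2 then -28 else if r = 3 then 8 else -12)

def xv (c : ℕ → Bool) (p : ℕ) : ℤ := 32 * ((p / 5 : ℕ) : ℤ) + offx (c (p / 5)) (p % 5)
def yv (c : ℕ → Bool) (p : ℕ) : ℤ := 32 * ((p / 5 : ℕ) : ℤ) + offy (c (p / 5)) (p % 5)

lemma facts (c : ℕ → Bool) (p : ℕ) : (yv c p = xv c p ∧ yv c p % 8 = 0) ∨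
    (yv c p = xv c p - 24 ∧ yv c p % 16 = 4) := by
  unfold yv xv offx offy
  have hr : p % 5 < 5 := Nat.mod_lt _ (by norm_num)
  generalize p % 5 = r at hr
  generalize ((p / 5 : ℕ) : ℤ) = m
  cases c (p / 5) <;> interval_cases r <;> simp <;> omega

lemma xstep (c : ℕ → Bool) (p : ℕ) : xv c p < xv c (p + 1) := by
  obtain ⟨m, r, hr, rfl⟩ : ∃ m r, r < 5 ∧ p = 5 * m + r :=
    ⟨p / 5, p % 5, Nat.mod_lt _ (by norm_num), (Nat.div_add_mod p 5).symm⟩
  unfold xv offx
  rcases Nat.lt_or_ge r 4 with h | h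
  · have e1 : (5 * m + r) / 5 = m := by omega
    have e2 : (5 * m + r + 1) / 5 = m := by omega
    have e3 : (5 * m + r) % 5 = r := by omega
    have e4 : (5 * m + r + 1) % 5 = r + 1 := by omega
    rw [e1, e2, e3, e4]
    cases c m <;> interval_cases r <;> simp <;> omega
  · have h4 : r = 4 := by omega
    subst h4
    have e1 : (5 * m + 4) / 5 = m := by omega
    have e2 : (5 * m + 4 + 1) / 5 = m + 1 := by omega
    have e3 : (5 * m + 4) % 5 = 4 := by omega
    have e4 : (5 * m + 4 + 1) % 5 = 0 := by omega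
    rw [e1, e2, e3, e4]
    cases c m <;> cases c (m + 1) <;> simp <;> omega

lemma xmono (c : ℕ → Bool) : StrictMono (xv c) := strictMono_nat_of_lt_succ (xstep c)

lemma yinj (c : ℕ → Bool) : Injective (yv c) := by
  intro i j h
  by_contra hne
  rcases lt_or_gt_of_ne hne with hlt | hlt
  · have := xmono c hlt
    have h1 := facts c i
    have h2 := facts c j
    omega
  · have := xmono c hlt
    have h1 := facts c i
    have h2 := facts c j
    omega

/-- The permutation with the values `yv c` on its positions. -/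
lemma exists_perm (c : ℕ → Bool) (n : ℕ) : ∃ π : Equiv.Perm (Fin n),
    ∀ i j, π i < π j ↔ yv c i < yv c j :=
  DDCount.exists_std (fun i : Fin n => yv c i) (fun _ _ h => Fin.ext (yinj c h))

lemma good_of_y {c : ℕ → Bool} {n : ℕ} {π : Equiv.Perm (Fin n)}
    (h : ∀ i j, π i < π j ↔ yv c i < yv c j) : Good π := by
  refine ⟨?_, ?_, ?_, ?_⟩
  · rintro ⟨f, hf, hf'⟩
    have x1 : f 0 < f 1 := hf (by decide)
    have x2 : f 1 < f 2 := hf (by decide)
    have y1 := (h _ _).1 ((hf' 1 0).1 (by decide))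
    have y2 := (h _ _).1 ((hf' 2 1).1 (by decide))
    have z1 := xmono c (show ((f 0 : Fin n) : ℕ) < (f 1 : ℕ) from x1)
    have z2 := xmono c (show ((f 1 : Fin n) : ℕ) < (f 2 : ℕ) from x2)
    have f0 := facts c (f 0)
    have f1 := facts c (f 1)
    have f2 := facts c (f 2)
    omega
  · rintro ⟨f, hf, hf'⟩
    have x1 : f 0 < f 1 := hf (by decide)
    have x2 : f 1 < f 2 := hf (by decide)
    have x3 : f 2 < f 3 := hf (by decide)
    have y1 := (h _ _).1 ((hf' 1 2).1 (by decide))
    have y2 := (h _ _).1 ((hf' 2 3).1 (by decide))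
    have y3 := (h _ _).1 ((hf' 3 0).1 (by decide))
    have z1 := xmono c (show ((f 0 : Fin n) : ℕ) < (f 1 : ℕ) from x1)
    have z2 := xmono c (show ((f 1 : Fin n) : ℕ) < (f 2 : ℕ) from x2)
    have z3 := xmono c (show ((f 2 : Fin n) : ℕ) < (f 3 : ℕ) from x3)
    have f0 := facts c (f 0)
    have f1 := facts c (f 1)
    have f2 := facts c (f 2)
    have f3 := facts c (f 3)
    omega
  · rintro ⟨f, hf, hf'⟩
    have x1 : f 0 < f 1 := hf (by decide)
    have x2 : f 1 < f 2 := hf (by decide)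
    have x3 : f 2 < f 3 := hf (by decide)
    have y1 := (h _ _).1 ((hf' 2 3).1 (by decide))
    have y2 := (h _ _).1 ((hf' 3 0).1 (by decide))
    have y3 := (h _ _).1 ((hf' 0 1).1 (by decide))
    have z1 := xmono c (show ((f 0 : Fin n) : ℕ) < (f 1 : ℕ) from x1)
    have z2 := xmono c (show ((f 1 : Fin n) : ℕ) < (f 2 : ℕ) from x2)
    have z3 := xmono c (show ((f 2 : Fin n) : ℕ) < (f 3 : ℕ) from x3)
    have f0 := facts c (f 0)
    have f1 := facts c (f 1)
    have f2 := facts c (f 2)
    have f3 := facts c (f 3)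
    omega
  · rintro ⟨f, hf, hf'⟩
    have x1 : f 0 < f 1 := hf (by decide)
    have x2 : f 1 < f 2 := hf (by decide)
    have x3 : f 2 < f 3 := hf (by decide)
    have x4 : f 3 < f 4 := hf (by decide)
    have y1 := (h _ _).1 ((hf' 4 0).1 (by decide))
    have y2 := (h _ _).1 ((hf' 0 1).1 (by decide))
    have y3 := (h _ _).1 ((hf' 1 2).1 (by decide))
    have y4 := (h _ _).1 ((hf' 2 3).1 (by decide))
    have z1 := xmono c (show ((f 0 : Fin n) : ℕ) < (f 1 : ℕ) from x1)
    have z2 := xmono c (show ((f 1 : Fin n) : ℕ) < (f 2 : ℕ) from x2)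
    have z3 := xmono c (show ((f 2 : Fin n) : ℕ) < (f 3 : ℕ) from x3)
    have z4 := xmono c (show ((f 3 : Fin n) : ℕ) < (f 4 : ℕ) from x4)
    have f0 := facts c (f 0)
    have f1 := facts c (f 1)
    have f2 := facts c (f 2)
    have f3 := facts c (f 3)
    have f4 := facts c (f 4)
    omega

lemma yval (c : ℕ → Bool) (m r : ℕ) (hr : r < 5) :
    yv c (5 * m + r) = 32 * (m : ℤ) + offy (c m) r := by
  have e1 : (5 * m + r) / 5 = m := by omega
  have e3 : (5 * m + r) % 5 = r := by omega
  unfold yv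
  rw [e1, e3]

lemma cut (c : ℕ → Bool) (M k : ℕ) (h0 : 0 < k) (h1 : k < 5 * M) :
    ∃ i j : ℕ, i < k ∧ k ≤ j ∧ j < 5 * M ∧ yv c j < yv c i := by
  obtain ⟨m, r, hr, rfl⟩ : ∃ m r, r < 5 ∧ k = 5 * m + r :=
    ⟨k / 5, k % 5, Nat.mod_lt _ (by norm_num), (Nat.div_add_mod k 5).symm⟩
  rcases Nat.eq_zero_or_pos r with rfl | hr0
  · obtain ⟨m, rfl⟩ : ∃ m', m = m' + 1 := ⟨m - 1, by omega⟩
    cases hb : c (m + 1) with
    | true =>
      refine ⟨5 * m + 3, 5 * (m + 1) + 1, by omega, by omega, by omega, ?_⟩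
      rw [yval c _ _ (by norm_num), yval c _ _ (by norm_num), hb]
      unfold offy
      cases c m <;> simp <;> omega
    | false =>
      refine ⟨5 * m + 3, 5 * (m + 1) + 2, by omega, by omega, by omega, ?_⟩
      rw [yval c _ _ (by norm_num), yval c _ _ (by norm_num), hb]
      unfold offy
      cases c m <;> simp <;> omega
  · cases hb : c m with
    | true =>
      refine ⟨5 * m + 0, 5 * m + 4, by omega, by omega, by omega, ?_⟩
      rw [yval c _ _ (by norm_num), yval c _ _ (by norm_num), hb]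
      unfold offy
      simp
      try omega
    | false =>
      rcases Nat.eq_or_lt_of_le (Nat.succ_le_of_lt hr0) with h | h
      · refine ⟨5 * m + 0, 5 * m + 2, by omega, by omega, by omega, ?_⟩
        rw [yval c _ _ (by norm_num), yval c _ _ (by norm_num), hb]
        unfold offy
        simp
        try omega
      · refine ⟨5 * m + 1, 5 * m + 4, by omega, by omega, by omega, ?_⟩
        rw [yval c _ _ (by norm_num), yval c _ _ (by norm_num), hb]
        unfold offy
        simp
        try omega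

lemma mem_ind {c : ℕ → Bool} {M : ℕ} (hM : 0 < M) {π : Equiv.Perm (Fin (5 * M))}
    (h : ∀ i j, π i < π j ↔ yv c i < yv c j) : (⟨5 * M, π⟩ : AllPerms) ∈ ind C := by
  refine ⟨good_of_y h, indec_of_cuts (by omega) ?_⟩
  intro k h0 h1
  obtain ⟨i, j, hi, hj, hjM, hlt⟩ := cut c M k h0 h1
  exact ⟨⟨i, by omega⟩, ⟨j, hjM⟩, hi, hj, (h _ _).2 hlt⟩

lemma level_ge (M : ℕ) (hM : 0 < M) : 2 ^ M ≤ level (ind C) (5 * M) := by
  classical
  choose P hP using fun c : ℕ → Bool => exists_perm c (5 * M)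
  let e : (Fin M → Bool) → (ℕ → Bool) := fun b i => if h : i < M then b ⟨i, h⟩ else false
  have hinj : Injective (fun b : Fin M → Bool => P (e b)) := by
    intro b b' hbb
    simp only at hbb
    funext i
    have h1 := (hP (e b) ⟨5 * i + 0, by omega⟩ ⟨5 * i + 1, by omega⟩)
    have h2 := (hP (e b') ⟨5 * i + 0, by omega⟩ ⟨5 * i + 1, by omega⟩)
    rw [hbb] at h1
    have h3 := h1.symm.trans h2
    simp only at h3
    rw [yval _ _ _ (by norm_num), yval _ _ _ (by norm_num), yval _ _ _ (by norm_num),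
      yval _ _ _ (by norm_num)] at h3
    have e1 : e b i = b i := by simp [e]
    have e2 : e b' i = b' i := by simp [e]
    rw [e1, e2] at h3
    unfold offy at h3
    cases hb : b i <;> cases hb' : b' i <;> simp [hb, hb'] at h3 <;> first | rfl | omega
  have hsub : (Set.range (fun b : Fin M → Bool => P (e b))) ⊆
      {π : Equiv.Perm (Fin (5 * M)) | (⟨5 * M, π⟩ : AllPerms) ∈ ind C} := by
    rintro _ ⟨b, rfl⟩
    exact mem_ind hM (hP (e b))
  have hc := Set.ncard_le_ncard hsub (Set.toFinite _)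
  rw [← Set.image_univ, Set.ncard_image_of_injective _ hinj, Set.ncard_univ,
    Nat.card_eq_fintype_card, Fintype.card_fun, Fintype.card_bool, Fintype.card_fin] at hc
  exact hc

lemma ind_growth : 1 < upperGrowth (ind C) := by
  have h1 : (1 : ℝ≥0∞) < (2 : ℝ≥0∞) ^ ((1 : ℝ) / 5) :=
    ENNReal.one_lt_rpow (by norm_num) (by positivity)
  refine lt_of_lt_of_le h1 ?_
  unfold upperGrowth
  refine le_limsup_of_frequently_le ?_ (by isBoundedDefault)
  rw [frequently_atTop]
  intro a
  refine ⟨5 * (a + 1), by omega, ?_⟩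
  have h2 : ((2 : ℝ≥0∞) ^ (a + 1)) ≤ ((level (ind C) (5 * (a + 1)) : ℕ) : ℝ≥0∞) := by
    exact_mod_cast level_ge (a + 1) (Nat.succ_pos a)
  refine le_trans (le_of_eq ?_) (ENNReal.rpow_le_rpow h2 (by positivity))
  rw [← ENNReal.rpow_natCast, ← ENNReal.rpow_mul]
  congr 1
  push_cast
  field_simp

end Pool.Agent.R120.Comb
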