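import Mathlib
import Pool.Agent.R120.Pat
import Pool.Agent.R120.SumClass

set_option autoImplicit false

/-! Sum closed classes whose indecomposables have growth rate slightly above one. -/

namespace Pool.Agent.R120.SmallInd

open Pool.Agent.R120 Pool.Agent.R120.Antichain Pool.Agent.R120.SumClass Function Filter
open scoped ENNReal

def X0 (t : ℕ) : ℤ := if t % 2 = 0 then 8 * (t : ℤ) - 12 else 8 * t
def Y0 (t : ℕ) : ℤ := if t % 2 = 0 then 8 * (t : ℤ) + 12 else 8 * t
def bi (b : Bool) : ℤ := if b then 1 else 0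
def px (z : ℕ × Bool) : ℤ := X0 z.1 + bi z.2
def py (c : ℕ → Bool) (z : ℕ × Bool) : ℤ := Y0 z.1 + (if c z.1 then bi z.2 else - bi z.2)

lemma bi_range (b : Bool) : 0 ≤ bi b ∧ bi b ≤ 1 := by cases b <;> simp [bi]

lemma X0_ne {s t : ℕ} (h : s ≠ t) : X0 s + 4 ≤ X0 t ∨ X0 t + 4 ≤ X0 s := by
  unfold X0
  split_ifs <;> omega

lemma Y0_ne {s t : ℕ} (h : s ≠ t) : Y0 s + 4 ≤ Y0 t ∨ Y0 t + 4 ≤ Y0 s := by
  unfold Y0
  split_ifs <;> omega

lemma px_ne (z w : ℕ × Bool) (h : z.1 ≠ w.1) : px z < px w ↔ X0 z.1 < X0 w.1 := by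
  have := X0_ne h
  have := bi_range z.2
  have := bi_range w.2
  unfold px
  omega

lemma sg_range (c : Bool) (b : Bool) : -1 ≤ (if c then bi b else - bi b) ∧
    (if c then bi b else - bi b) ≤ 1 := by
  cases c <;> cases b <;> simp [bi]

lemma py_ne (c : ℕ → Bool) (z w : ℕ × Bool) (h : z.1 ≠ w.1) :
    py c z < py c w ↔ Y0 z.1 < Y0 w.1 := by
  have := Y0_ne h
  have := sg_range (c z.1) z.2
  have := sg_range (c w.1) w.2
  unfold py
  omega

lemma px_inj : Injective px := by
  intro z w h
  have h1 : z.1 = w.1 := by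
    by_contra hne
    have := X0_ne hne
    have := bi_range z.2
    have := bi_range w.2
    unfold px at h
    omega
  unfold px at h
  rw [h1] at h
  have h2 : bi z.2 = bi w.2 := by omega
  have h3 : z.2 = w.2 := by
    cases hz : z.2 <;> cases hw : w.2 <;> simp_all [bi]
  exact Prod.ext h1 h3

lemma py_inj (c : ℕ → Bool) : Injective (py c) := by
  intro z w h
  have h1 : z.1 = w.1 := by
    by_contra hne
    have := Y0_ne hne
    have := sg_range (c z.1) z.2
    have := sg_range (c w.1) w.2
    unfold py at h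
    omega
  unfold py at h
  rw [h1] at h
  have h3 : z.2 = w.2 := by
    cases hz : z.2 <;> cases hw : w.2 <;> cases hc : c w.1 <;> simp_all [bi]
  exact Prod.ext h1 h3

lemma far_x {s t : ℕ} (h : s + 2 ≤ t) : X0 s + 4 ≤ X0 t := by
  unfold X0
  split_ifs <;> omega

lemma far_y {s t : ℕ} (h : s + 2 ≤ t) : Y0 s + 4 ≤ Y0 t := by
  unfold Y0
  split_ifs <;> omega

lemma even_step (c : ℕ → Bool) {t : ℕ} (h : t % 2 = 0) (b b' : Bool) :
    px (t, b) < px (t + 1, b') ∧ py c (t + 1, b') < py c (t, b) := by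
  have := bi_range b
  have := bi_range b'
  have := sg_range (c t) b
  have := sg_range (c (t + 1)) b'
  have e1 : X0 t = 8 * (t : ℤ) - 12 := by unfold X0; rw [if_pos h]
  have e2 : X0 (t + 1) = 8 * (t : ℤ) + 8 := by
    unfold X0; rw [if_neg (by omega)]; push_cast; ring
  have e3 : Y0 t = 8 * (t : ℤ) + 12 := by unfold Y0; rw [if_pos h]
  have e4 : Y0 (t + 1) = 8 * (t : ℤ) + 8 := by
    unfold Y0; rw [if_neg (by omega)]; push_cast; ring
  unfold px py
  simp only
  omega

lemma odd_step (c : ℕ → Bool) {t : ℕ} (h : t % 2 = 1) (b b' : Bool) :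
    px (t + 1, b') < px (t, b) ∧ py c (t, b) < py c (t + 1, b') := by
  have := bi_range b
  have := bi_range b'
  have := sg_range (c t) b
  have := sg_range (c (t + 1)) b'
  have e1 : X0 t = 8 * (t : ℤ) := by unfold X0; rw [if_neg (by omega)]
  have e2 : X0 (t + 1) = 8 * (t : ℤ) - 4 := by
    unfold X0; rw [if_pos (by omega)]; push_cast; ring
  have e3 : Y0 t = 8 * (t : ℤ) := by unfold Y0; rw [if_neg (by omega)]
  have e4 : Y0 (t + 1) = 8 * (t : ℤ) + 20 := by
    unfold Y0; rw [if_pos (by omega)]; push_cast; ring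
  unfold px py
  simp only
  omega

lemma py_twin (c : ℕ → Bool) (t : ℕ) : py c (t, false) < py c (t, true) ↔ c t = true := by
  unfold py
  simp only [bi]
  cases c t <;> simp

/-- patterns of decorated oscillations -/
def InD (k : ℕ) {n : ℕ} (π : Equiv.Perm (Fin n)) : Prop :=
  ∃ (c : ℕ → Bool) (f : Fin n → ℕ × Bool), (∀ i j, i < j ↔ px (f i) < px (f j)) ∧
    (∀ i j, π i < π j ↔ py c (f i) < py c (f j)) ∧ ∀ i, (f i).2 = true → k ∣ (f i).1

def Cls (k : ℕ) : Set AllPerms :=
  {p | ∀ q : AllPerms, Indecomposable q → Contains q.2 p.2 → InD k q.2}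

lemma InD_sub {k n m : ℕ} {σ : Equiv.Perm (Fin m)} {π : Equiv.Perm (Fin n)}
    (h : Contains σ π) (hπ : InD k π) : InD k σ := by
  obtain ⟨g, hg, hg'⟩ := h
  obtain ⟨c, f, h1, h2, h3⟩ := hπ
  refine ⟨c, f ∘ g, fun i j => ?_, fun i j => ?_, fun i => h3 _⟩
  · rw [← hg.lt_iff_lt, h1]
    rfl
  · rw [hg', h2]
    rfl

lemma isClass_cls (k : ℕ) : IsClass (Cls k) := fun _ hp _ hq _ hr hrq =>
  hp _ hr (contains_trans hrq hq)

lemma sumClosed_cls (k : ℕ) : SumClosed (Cls k) := by
  intro p hp q hq r hr hc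
  rcases indec_of_dsum (π := r.2) (σ := p.2) (τ := q.2) hr hc with h | h
  · exact hp _ hr h
  · exact hq _ hr h

lemma mem_ind {k : ℕ} {p : AllPerms} : p ∈ ind (Cls k) ↔ Indecomposable p ∧ InD k p.2 := by
  constructor
  · rintro ⟨h1, h2⟩
    exact ⟨h2, h1 p h2 (contains_refl _)⟩
  · rintro ⟨h1, h2⟩
    exact ⟨fun q _ hq => InD_sub hq h2, h1⟩

/-! ### upper bound -/

def stf {n k : ℕ} (st : Fin (n / k + 2) → Fin 3) (j : ℕ) : Fin 3 :=
  if h : j < n / k + 2 then st ⟨j, h⟩ else 0

def K (n k : ℕ) (a0 : Fin k) (b0 : Fin (n + k)) (st : Fin (n / k + 2) → Fin 3) : Type :=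
  {z : ℕ × Bool // (a0 : ℕ) ≤ z.1 ∧ z.1 ≤ b0 ∧ (z.2 = true → k ∣ z.1 ∧ stf st (z.1 / k) ≠ 0)}

def kx {n k : ℕ} {a0 : Fin k} {b0 : Fin (n + k)} {st : Fin (n / k + 2) → Fin 3}
    (z : K n k a0 b0 st) : ℤ := px z.1

def ky {n k : ℕ} {a0 : Fin k} {b0 : Fin (n + k)} {st : Fin (n / k + 2) → Fin 3}
    (z : K n k a0 b0 st) : ℤ := py (fun t => decide (stf st (t / k) = 1)) z.1

lemma coded {n k : ℕ} (hk : 2 ≤ k) (hk2 : 2 ∣ k) (hn : 0 < n) (π : Equiv.Perm (Fin n))
    (hπ : Indecomposable ⟨n, π⟩) (hD : InD k π) :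
    ∃ (a0 : Fin k) (b0 : Fin (n + k)) (st : Fin (n / k + 2) → Fin 3),
      Realizes π (kx (a0 := a0) (b0 := b0) (st := st)) ky := by
  classical
  obtain ⟨c, f, hx, hy, hf⟩ := hD
  have hfinj : Injective f := by
    intro i j h
    by_contra hne
    rcases lt_or_gt_of_ne hne with h' | h'
    · have := (hx i j).1 h'
      rw [h] at this
      exact lt_irrefl _ this
    · have := (hx j i).1 h'
      rw [h] at this
      exact lt_irrefl _ this
  -- minimal and maximal path positions
  have hne : (Finset.univ.image (fun i : Fin n => (f i).1)).Nonempty :=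
    ⟨_, Finset.mem_image.2 ⟨⟨0, hn⟩, Finset.mem_univ _, rfl⟩⟩
  set T := Finset.univ.image (fun i : Fin n => (f i).1) with hT
  set a := T.min' hne with ha
  set b := T.max' hne with hb
  have haT : a ∈ T := T.min'_mem hne
  have hbT : b ∈ T := T.max'_mem hne
  have hmem : ∀ t, t ∈ T ↔ ∃ i, (f i).1 = t := by
    intro t
    simp [hT]
  have hle : ∀ i, a ≤ (f i).1 ∧ (f i).1 ≤ b := fun i =>
    ⟨T.min'_le _ ((hmem _).2 ⟨i, rfl⟩), T.le_max' _ ((hmem _).2 ⟨i, rfl⟩)⟩
  have hint : ∀ t, a ≤ t → t ≤ b → ∃ i, (f i).1 = t := by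
    intro t hat htb
    by_contra hcon
    push Not at hcon
    have hat' : a < t := by
      rcases Nat.lt_or_ge a t with h | h
      · exact h
      · exfalso
        obtain ⟨i, hi⟩ := (hmem a).1 haT
        exact hcon i (by omega)
    have htb' : t < b := by
      rcases Nat.lt_or_ge t b with h | h
      · exact h
      · exfalso
        obtain ⟨i, hi⟩ := (hmem b).1 hbT
        exact hcon i (by omega)
    obtain ⟨i1, hi1⟩ := (hmem a).1 haT
    obtain ⟨i2, hi2⟩ := (hmem b).1 hbT
    have hex : ∃ m, ∃ h : m < n, t < (f ⟨m, h⟩).1 := ⟨i2, i2.2, by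
      have : (f ⟨i2, i2.2⟩).1 = b := hi2
      omega⟩
    obtain ⟨m, ⟨hm1, hm2⟩, hmin⟩ : ∃ m, (∃ h : m < n, t < (f ⟨m, h⟩).1) ∧
        ∀ k < m, ¬ ∃ h : k < n, t < (f ⟨k, h⟩).1 :=
      ⟨Nat.find hex, Nat.find_spec hex, fun k hk => Nat.find_min hex hk⟩
    have hlow : ∀ i : Fin n, (i : ℕ) < m → (f i).1 < t := by
      intro i hi
      have h1 := hmin i hi
      have h2 := hcon i
      by_contra h3
      exact h1 ⟨i.2, by
        have : (f ⟨(i : ℕ), i.2⟩).1 = (f i).1 := rfl
        omega⟩
    have hhigh : ∀ j : Fin n, m ≤ (j : ℕ) → t < (f j).1 := by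
      intro j hj
      have h2 := hcon j
      by_contra h3
      have h4 : (f j).1 + 2 ≤ (f ⟨m, hm1⟩).1 := by omega
      have h5 := far_x h4
      have h6 : px (f j) < px (f ⟨m, hm1⟩) := by
        have := bi_range (f j).2
        have := bi_range (f ⟨m, hm1⟩).2
        unfold px
        omega
      have h7 := (hx _ _).2 h6
      rw [Fin.lt_def] at h7
      simp only at h7
      omega
    have hm0 : 0 < m := by
      rcases Nat.eq_zero_or_pos m with h0 | h0
      · exfalso
        have := hhigh i1 (by omega)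
        omega
      · exact h0
    obtain ⟨i, j, hi, hj, hlt⟩ := indec_cut hπ m hm0 hm1
    have h1 := hlow i hi
    have h2 := hhigh j hj
    have h3 := far_y (show (f i).1 + 2 ≤ (f j).1 by omega)
    have h4 : py c (f i) < py c (f j) := by
      have := sg_range (c (f i).1) (f i).2
      have := sg_range (c (f j).1) (f j).2
      unfold py
      omega
    have h5 := (hy i j).2 h4
    exact lt_asymm h5 hlt
  have hab : a ≤ b := T.min'_le _ hbT
  have hcard : b - a < n := by
    have h1 : (Finset.Icc a b) ⊆ T := by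
      intro t ht
      rw [Finset.mem_Icc] at ht
      exact (hmem t).2 (hint t ht.1 ht.2)
    have h2 := Finset.card_le_card h1
    have h3 : T.card ≤ n := by
      refine le_trans Finset.card_image_le ?_
      simp
    rw [Nat.card_Icc] at h2
    omega
  -- normalisation
  have hk0 : 0 < k := by omega
  set δ := k * (a / k) with hδ
  have hδa : δ ≤ a := Nat.mul_div_le a k
  have hδa' : a < δ + k := by
    have := Nat.lt_mul_div_succ a hk0
    rw [hδ]
    linarith [Nat.mul_succ k (a / k)]
  have hδe : ∃ d, δ = 2 * d := by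
    obtain ⟨d, hd⟩ := hk2
    exact ⟨d * (a / k), by rw [hδ, hd]; ring⟩
  let both : ℕ → Prop := fun t => (∃ i, f i = (t, false)) ∧ ∃ i, f i = (t, true)
  have hboth : ∀ t, both t → k ∣ t := by
    rintro t ⟨_, i, hi⟩
    have := hf i (by rw [hi])
    rwa [hi] at this
  let a0 : Fin k := ⟨a - δ, by omega⟩
  let b0 : Fin (n + k) := ⟨b - δ, by omega⟩
  let st : Fin (n / k + 2) → Fin 3 := fun j =>
    if both (δ + k * j) then (if c (δ + k * j) then 1 else 2) else 0
  have hstf : ∀ t, k ∣ t → δ ≤ t → t ≤ b → stf st ((t - δ) / k) =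
      if both t then (if c t then 1 else 2) else 0 := by
    intro t hkt hδt htb
    obtain ⟨u, rfl⟩ := hkt
    have e1 : (k * u - δ) / k = u - a / k := by
      rw [hδ, ← Nat.mul_sub, Nat.mul_div_cancel_left _ hk0]
    have h2 : u - a / k < n / k + 2 := by
      have h3 : k * (u - a / k) < n + k := by
        rw [Nat.mul_sub, ← hδ]
        omega
      have h4 : n < k * (n / k + 1) := Nat.lt_mul_div_succ n hk0
      have h5 : k * (u - a / k) < k * (n / k + 2) := by
        have : k * (n / k + 2) = k * (n / k + 1) + k := by ring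
        omega
      exact Nat.lt_of_mul_lt_mul_left h5
    have h3 : a / k ≤ u := by
      rw [hδ] at hδt
      exact Nat.le_of_mul_le_mul_left hδt hk0
    have h4 : δ + k * (u - a / k) = k * u := by
      rw [Nat.mul_sub, ← hδ]
      omega
    unfold stf
    rw [e1, dif_pos h2]
    simp only [st]
    rw [h4]
  -- the bijection
  have hmemK : ∀ i : Fin n, (a0 : ℕ) ≤ (f i).1 - δ ∧ (f i).1 - δ ≤ b0 ∧
      (((f i).2 && decide (both (f i).1)) = true → k ∣ ((f i).1 - δ) ∧
        stf st (((f i).1 - δ) / k) ≠ 0) := by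
    intro i
    have h1 := hle i
    refine ⟨by simp only [a0]; omega, by simp only [b0]; omega, ?_⟩
    intro h
    rw [Bool.and_eq_true, decide_eq_true_eq] at h
    have h2 := hboth _ h.2
    refine ⟨Nat.dvd_sub h2 ⟨a / k, rfl⟩, ?_⟩
    rw [hstf _ h2 (by omega) h1.2, if_pos h.2]
    split_ifs <;> decide
  let e : Fin n → K n k a0 b0 st := fun i =>
    ⟨((f i).1 - δ, (f i).2 && decide (both (f i).1)), hmemK i⟩
  have he1 : ∀ i, (e i).1 = ((f i).1 - δ, (f i).2 && decide (both (f i).1)) := fun i => rfl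
  have hsame : ∀ i j, (f i).1 = (f j).1 → i ≠ j → both (f i).1 := by
    intro i j h1 hne
    have h2 : (f i).2 ≠ (f j).2 := fun h2 => hne (hfinj (Prod.ext h1 h2))
    cases hi : (f i).2 <;> cases hj : (f j).2
    · rw [hi, hj] at h2; exact absurd rfl h2
    · exact ⟨⟨i, Prod.ext rfl hi⟩, ⟨j, Prod.ext h1.symm hj⟩⟩
    · exact ⟨⟨j, Prod.ext h1.symm hj⟩, ⟨i, Prod.ext rfl hi⟩⟩
    · rw [hi, hj] at h2; exact absurd rfl h2
  have hinj : Injective e := by
    intro i j h
    by_contra hne
    have h1 := congrArg (fun z => z.1) h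
    simp only [he1] at h1
    have h2 := congrArg Prod.fst h1
    have h3 := congrArg Prod.snd h1
    simp only at h2 h3
    have h4 : (f i).1 = (f j).1 := by
      have := (hle i).1
      have := (hle j).1
      omega
    have h5 := hsame i j h4 hne
    have h6 : both (f j).1 := by rw [← h4]; exact h5
    rw [decide_eq_true h5, decide_eq_true h6, Bool.and_true, Bool.and_true] at h3
    exact hne (hfinj (Prod.ext h4 h3))
  have hsurj : Surjective e := by
    rintro ⟨⟨u, β⟩, hz1, hz2, hz3⟩
    simp only at hz1 hz2 hz3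
    have hu1 : a ≤ u + δ := by
      have : (a0 : ℕ) = a - δ := rfl
      omega
    have hu2 : u + δ ≤ b := by
      have : (b0 : ℕ) = b - δ := rfl
      omega
    rcases (show β = false ∨ β = true by cases β <;> simp) with hβ | hβ
    · subst hβ
      by_cases hbt : both (u + δ)
      · obtain ⟨i, hi⟩ := hbt.1
        refine ⟨i, Subtype.ext ?_⟩
        rw [he1, hi]
        simp
      · obtain ⟨i, hi⟩ := hint (u + δ) hu1 hu2
        refine ⟨i, Subtype.ext ?_⟩
        rw [he1, hi, decide_eq_false hbt]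
        simp
    · subst hβ
      obtain ⟨h1, h2⟩ := hz3 rfl
      have h3 : k ∣ u + δ := (Nat.dvd_add_right h1).2 ⟨a / k, rfl⟩
      have h4 := hstf (u + δ) h3 (by omega) hu2
      rw [Nat.add_sub_cancel] at h4
      have hbt : both (u + δ) := by
        by_contra hbt
        rw [if_neg hbt] at h4
        exact h2 h4
      obtain ⟨i, hi⟩ := hbt.2
      refine ⟨i, Subtype.ext ?_⟩
      rw [he1, hi, decide_eq_true hbt]
      simp
  refine ⟨a0, b0, st, Equiv.ofBijective e ⟨hinj, hsurj⟩, ?_, ?_⟩
  · intro i j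
    rw [hx]
    show _ ↔ px (e i).1 < px (e j).1
    by_cases hij : i = j
    · rw [hij]; simp
    rw [he1, he1]
    by_cases h1 : (f i).1 = (f j).1
    · have h5 := hsame i j h1 hij
      have h6 : both (f j).1 := by rw [← h1]; exact h5
      rw [decide_eq_true h5, decide_eq_true h6, Bool.and_true, Bool.and_true]
      unfold px
      simp only
      rw [h1]
      omega
    · rw [px_ne _ _ h1, px_ne]
      · simp only
        have := (hle i).1
        have := (hle j).1
        obtain ⟨d, hd⟩ := hδe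
        unfold X0
        split_ifs <;> omega
      · simp only
        have := (hle i).1
        have := (hle j).1
        omega
  · intro i j
    rw [hy]
    show _ ↔ py _ (e i).1 < py _ (e j).1
    by_cases hij : i = j
    · rw [hij]; simp
    rw [he1, he1]
    by_cases h1 : (f i).1 = (f j).1
    · have h5 := hsame i j h1 hij
      have h6 : both (f j).1 := by rw [← h1]; exact h5
      have h7 := hstf _ (hboth _ h6) (by have := (hle j).1; omega) (hle j).2
      rw [if_pos h6] at h7
      rw [decide_eq_true h5, decide_eq_true h6, Bool.and_true, Bool.and_true]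
      unfold py
      simp only
      rw [h1, h7]
      cases hc : c (f j).1 <;> simp <;> omega
    · rw [py_ne _ _ _ h1, py_ne]
      · simp only
        have := (hle i).1
        have := (hle j).1
        obtain ⟨d, hd⟩ := hδe
        unfold Y0
        split_ifs <;> omega
      · simp only
        have := (hle i).1
        have := (hle j).1
        omega

lemma level_le {n k : ℕ} (hk : 2 ≤ k) (hk2 : 2 ∣ k) (hn : 0 < n) :
    level (ind (Cls k)) n ≤ k * ((n + k) * 3 ^ (n / k + 2)) := by
  classical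
  have key : ∀ π : {π : Equiv.Perm (Fin n) | (⟨n, π⟩ : AllPerms) ∈ ind (Cls k)},
      ∃ z : Fin k × Fin (n + k) × (Fin (n / k + 2) → Fin 3),
        Realizes π.1 (kx (a0 := z.1) (b0 := z.2.1) (st := z.2.2)) ky := by
    rintro ⟨π, hπ⟩
    rw [Set.mem_ofPred_eq, mem_ind] at hπ
    obtain ⟨a0, b0, st, h⟩ := coded hk hk2 hn π hπ.1 hπ.2
    exact ⟨(a0, b0, st), h⟩
  choose code hcode using key
  have hinj : Injective code := by
    intro π π' h
    have h1 := hcode π
    rw [h] at h1
    exact Subtype.ext (realizes_eq h1 (hcode π'))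
  have h1 := Fintype.card_le_of_injective code hinj
  rw [Fintype.card_prod, Fintype.card_prod, Fintype.card_fun, Fintype.card_fin, Fintype.card_fin,
    Fintype.card_fin, Fintype.card_fin] at h1
  unfold level
  rw [← Nat.card_coe_set_eq, Nat.card_eq_fintype_card]
  exact h1

/-! ### lower bound -/

def gg (k M : ℕ) : Fin (k * M) ⊕ Fin M → ℕ × Bool
  | Sum.inl t => (t, false)
  | Sum.inr j => (k * j, true)

lemma gg_inj {k M : ℕ} (hk : 0 < k) : Injective (gg k M) := by
  intro a b h
  rcases a with t | j <;> rcases b with t' | j' <;> simp only [gg, Prod.mk.injEq] at h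
  · rw [Fin.ext h.1]
  · exact absurd h.2 (by decide)
  · exact absurd h.2 (by decide)
  · rw [Fin.ext (Nat.eq_of_mul_eq_mul_left hk h.1)]

def ext (k M : ℕ) (c : Fin M → Bool) (t : ℕ) : Bool :=
  if h : t / k < M then c ⟨t / k, h⟩ else false

lemma realizes_unique {n : ℕ} {α : Type*} {π : Equiv.Perm (Fin n)} {x y y' : α → ℤ}
    (h : Realizes π x y) (h' : Realizes π x y') (a b : α) : y a < y b ↔ y' a < y' b := by
  obtain ⟨e, h1, h2⟩ := h
  obtain ⟨e', h1', h2'⟩ := h'
  have hm : StrictMono (fun i => e'.symm (e i)) := by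
    intro i j hij
    show e'.symm (e i) < e'.symm (e j)
    rw [h1']
    simpa using (h1 i j).1 hij
  have h3 : Set.range (fun i => e'.symm (e i)) = Set.range (id : Fin n → Fin n) := by
    rw [Set.range_id, Set.range_eq_univ]
    exact (e'.symm.surjective.comp e.surjective)
  have h4 := (StrictMono.range_inj hm strictMono_id).1 h3
  have h5 : ∀ i, e' i = e i := by
    intro i
    have := congrFun h4 i
    simp only [id] at this
    rw [Equiv.symm_apply_eq] at this
    exact this.symm
  have h6 := h2 (e.symm a) (e.symm b)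
  have h7 := h2' (e.symm a) (e.symm b)
  rw [h5, h5] at h7
  simp only [Equiv.apply_symm_apply] at h6 h7
  rw [← h6, h7]

lemma level_ge' {k M : ℕ} (hk : 2 ≤ k) (hk2 : 2 ∣ k) (hM : 0 < M) :
    2 ^ M ≤ level (ind (Cls k)) ((k + 1) * M) := by
  classical
  have hk0 : 0 < k := by omega
  have hcard : Fintype.card (Fin (k * M) ⊕ Fin M) = (k + 1) * M := by
    rw [Fintype.card_sum, Fintype.card_fin, Fintype.card_fin]
    ring
  have hex : ∀ c : Fin M → Bool, ∃ π : Equiv.Perm (Fin ((k + 1) * M)),
      Realizes π (px ∘ gg k M) (py (ext k M c) ∘ gg k M) := fun c =>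
    exists_realizes _ _ (px_inj.comp (gg_inj hk0)) ((py_inj _).comp (gg_inj hk0)) hcard
  choose P hP using hex
  have hmem : ∀ c, (⟨(k + 1) * M, P c⟩ : AllPerms) ∈ ind (Cls k) := by
    intro c
    rw [mem_ind]
    refine ⟨?_, ?_⟩
    · apply indec_of_realizes (hP c) (by positivity)
      intro Q hQ
      have hkM : 0 < k * M := by positivity
      have hstep : ∀ t : ℕ, ∀ h : t < k * M, (Q (Sum.inl ⟨t, h⟩) ↔ Q (Sum.inl ⟨0, hkM⟩)) := by
        intro t
        induction t with
        | zero => intro h; exact Iff.rfl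
        | succ t ih =>
          intro h
          rw [← ih (by omega)]
          rcases Nat.mod_two_eq_zero_or_one t with h0 | h0
          · have h2 := even_step (ext k M c) h0 false false
            exact (hQ (Sum.inl ⟨t, by omega⟩) (Sum.inl ⟨t + 1, h⟩) h2.1 h2.2).symm
          · have h2 := odd_step (ext k M c) h0 false false
            exact hQ (Sum.inl ⟨t + 1, h⟩) (Sum.inl ⟨t, by omega⟩) h2.1 h2.2
      have hall : ∀ s, Q s ↔ Q (Sum.inl ⟨0, hkM⟩) := by
        rintro (⟨t, ht⟩ | j)
        · exact hstep t ht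
        · have hj := j.2
          have h1 : k * j + 1 < k * M := by
            have : k * (j + 1) ≤ k * M := Nat.mul_le_mul_left _ hj
            have h2 : k * ((j : ℕ) + 1) = k * j + k := by ring
            omega
          rw [← hstep _ h1]
          have h0 : k * (j : ℕ) % 2 = 0 := by
            obtain ⟨d, hd⟩ := hk2
            rw [hd, Nat.mul_assoc]
            omega
          have h2 := even_step (ext k M c) h0 true false
          exact hQ (Sum.inr j) (Sum.inl ⟨k * j + 1, h1⟩) h2.1 h2.2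
      intro s t
      rw [hall s, hall t]
    · obtain ⟨e, h1, h2⟩ := hP c
      refine ⟨ext k M c, fun i => gg k M (e i), h1, h2, ?_⟩
      intro i hi
      have hi' : (gg k M (e i)).2 = true := hi
      rcases h : e i with t | j
      · rw [h] at hi'
        exact absurd hi' (by simp [gg])
      · show k ∣ (gg k M (e i)).1
        rw [h]
        exact ⟨j, rfl⟩
  have hinj : Injective P := by
    intro c c' h
    funext j
    have hP' := hP c'
    rw [← h] at hP'
    have hkj : k * (j : ℕ) < k * M := Nat.mul_lt_mul_of_pos_left j.2 hk0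
    have hu := realizes_unique (hP c) hP' (Sum.inl ⟨k * j, hkj⟩) (Sum.inr j)
    have hext : ∀ c : Fin M → Bool, ext k M c (k * j) = c j := by
      intro c
      unfold ext
      have e1 : k * (j : ℕ) / k = j := Nat.mul_div_cancel_left _ hk0
      rw [dif_pos (by rw [e1]; exact j.2)]
      congr 1
      exact Fin.ext e1
    have hu' : py (ext k M c) (k * j, false) < py (ext k M c) (k * j, true) ↔
        py (ext k M c') (k * j, false) < py (ext k M c') (k * j, true) := hu
    rw [py_twin, py_twin, hext, hext] at hu'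
    exact Bool.eq_iff_iff.2 hu'
  have hsub : Set.range P ⊆ {π | (⟨(k + 1) * M, π⟩ : AllPerms) ∈ ind (Cls k)} := by
    rintro _ ⟨c, rfl⟩
    exact hmem c
  have h1 := Set.ncard_le_ncard hsub (Set.toFinite _)
  rw [← Set.image_univ, Set.ncard_image_of_injective _ hinj, Set.ncard_univ,
    Nat.card_eq_fintype_card, Fintype.card_fun, Fintype.card_bool, Fintype.card_fin] at h1
  exact h1

end Pool.Agent.R120.SmallInd
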