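import Mathlib
import Pool.Agent.R120.SmallInd

set_option autoImplicit false

namespace Pool.Agent.R120.SmallInd

open Pool.Agent.R120 Pool.Agent.R120.Antichain Pool.Agent.R120.SumClass Function Filter
open scoped ENNReal

lemma growth_le (S : Set AllPerms) (γ : ℝ) (hγ : 0 < γ)
    (h : ∀ᶠ n : ℕ in atTop, (level S n : ℝ) ≤ γ ^ n) : upperGrowth S ≤ ENNReal.ofReal γ := by
  unfold upperGrowth
  refine limsup_le_of_le (by isBoundedDefault) ?_
  filter_upwards [h, eventually_gt_atTop 0] with n hn hn0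
  have h1 : ((level S n : ℕ) : ℝ≥0∞) ≤ (ENNReal.ofReal γ) ^ n := by
    rw [← ENNReal.ofReal_pow hγ.le, ← ENNReal.ofReal_natCast]
    exact ENNReal.ofReal_le_ofReal hn
  calc ((level S n : ℕ) : ℝ≥0∞) ^ ((1 : ℝ) / (n : ℝ))
      ≤ ((ENNReal.ofReal γ) ^ n) ^ ((1 : ℝ) / (n : ℝ)) := ENNReal.rpow_le_rpow h1 (by positivity)
    _ = ENNReal.ofReal γ := by
        rw [← ENNReal.rpow_natCast, ← ENNReal.rpow_mul, mul_one_div, div_self (by positivity),
          ENNReal.rpow_one]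

lemma upper (β : ℝ) (hβ : 1 < β) : ∃ k : ℕ, 2 ≤ k ∧ 2 ∣ k ∧
    upperGrowth (ind (Cls k)) < ENNReal.ofReal β := by
  set γ := (1 + β) / 2 with hγ
  set γ1 := (1 + γ) / 2 with hγ1
  have h1 : 1 < γ := by rw [hγ]; linarith
  have h2 : γ < β := by rw [hγ]; linarith
  have h3 : 1 < γ1 := by rw [hγ1]; linarith
  have h4 : γ1 < γ := by rw [hγ1]; linarith
  obtain ⟨m, hm⟩ := pow_unbounded_of_one_lt 3 h3
  set k := 2 * m + 2 with hk
  have hk3 : (3 : ℝ) ≤ γ1 ^ k := by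
    refine hm.le.trans (pow_le_pow_right₀ h3.le (by omega))
  refine ⟨k, by omega, ⟨m + 1, by omega⟩, ?_⟩
  refine lt_of_le_of_lt (growth_le _ γ (by linarith) ?_)
    ((ENNReal.ofReal_lt_ofReal_iff (by linarith)).2 h2)
  have hr : 1 < γ / γ1 := by rw [one_lt_div (by linarith)]; exact h4
  have ht := tendsto_pow_const_div_const_pow_of_one_lt 1 hr
  have hpos : (0 : ℝ) < 1 / (18 * k) := by
    have : (0 : ℝ) < k := by rw [hk]; positivity
    positivity
  filter_upwards [ht.eventually (gt_mem_nhds hpos), eventually_ge_atTop k,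
    eventually_gt_atTop 0] with n hn hnk hn0
  have hk0 : (0 : ℝ) < k := by rw [hk]; positivity
  have e1 : (level (ind (Cls k)) n : ℝ) ≤ k * ((n + k) * 3 ^ (n / k + 2)) := by
    exact_mod_cast level_le (by omega) ⟨m + 1, by omega⟩ hn0
  have e2 : (3 : ℝ) ^ (n / k) ≤ γ1 ^ n := by
    calc (3 : ℝ) ^ (n / k) ≤ (γ1 ^ k) ^ (n / k) := pow_le_pow_left₀ (by norm_num) hk3 _
      _ = γ1 ^ (k * (n / k)) := by rw [← pow_mul]
      _ ≤ γ1 ^ n := pow_le_pow_right₀ h3.le (Nat.mul_div_le n k)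
  have e3 : (n : ℝ) * (18 * k) ≤ (γ / γ1) ^ n := by
    rw [pow_one, div_lt_iff₀ (by positivity)] at hn
    have h5 : (n : ℝ) * (18 * k) < 1 / (18 * k) * (γ / γ1) ^ n * (18 * k) := by
      exact mul_lt_mul_of_pos_right hn (by positivity)
    have h6 : 1 / (18 * (k : ℝ)) * (γ / γ1) ^ n * (18 * k) = (γ / γ1) ^ n := by
      field_simp
    linarith
  have e4 : (n : ℝ) + k ≤ 2 * n := by
    have : (k : ℝ) ≤ n := by exact_mod_cast hnk
    linarith
  have e5 : (γ / γ1) ^ n * γ1 ^ n = γ ^ n := by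
    rw [← mul_pow, div_mul_cancel₀ _ (by linarith)]
  calc (level (ind (Cls k)) n : ℝ) ≤ k * ((n + k) * 3 ^ (n / k + 2)) := e1
    _ = (9 * k * (n + k)) * 3 ^ (n / k) := by rw [pow_add]; ring
    _ ≤ (9 * k * (2 * n)) * γ1 ^ n := by
        apply mul_le_mul _ e2 (by positivity) (by positivity)
        exact mul_le_mul_of_nonneg_left e4 (by positivity)
    _ = (n * (18 * k)) * γ1 ^ n := by ring
    _ ≤ (γ / γ1) ^ n * γ1 ^ n := mul_le_mul_of_nonneg_right e3 (by positivity)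
    _ = γ ^ n := e5

lemma lower (k : ℕ) (hk : 2 ≤ k) (hk2 : 2 ∣ k) : 1 < upperGrowth (ind (Cls k)) := by
  have h1 : (1 : ℝ≥0∞) < (2 : ℝ≥0∞) ^ ((1 : ℝ) / ((k : ℝ) + 1)) :=
    ENNReal.one_lt_rpow (by norm_num) (by positivity)
  refine lt_of_lt_of_le h1 ?_
  unfold upperGrowth
  refine le_limsup_of_frequently_le ?_ (by isBoundedDefault)
  rw [frequently_atTop]
  intro a
  refine ⟨(k + 1) * (a + 1), ?_, ?_⟩
  · have : a + 1 ≤ (k + 1) * (a + 1) := Nat.le_mul_of_pos_left _ (by omega)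
    omega
  · have h2 : ((2 : ℝ≥0∞) ^ (a + 1)) ≤ ((level (ind (Cls k)) ((k + 1) * (a + 1)) : ℕ) : ℝ≥0∞) := by
      exact_mod_cast level_ge' hk hk2 (Nat.succ_pos a)
    refine le_trans (le_of_eq ?_) (ENNReal.rpow_le_rpow h2 (by positivity))
    rw [← ENNReal.rpow_natCast, ← ENNReal.rpow_mul]
    congr 1
    push_cast
    field_simp

theorem main (β : ℝ) (hβ : 1 < β) : ∃ C : Set AllPerms, IsClass C ∧ SumClosed C ∧
    1 < upperGrowth (ind C) ∧ upperGrowth (ind C) < ENNReal.ofReal β := by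
  obtain ⟨k, hk, hk2, h⟩ := upper β hβ
  exact ⟨Cls k, isClass_cls k, sumClosed_cls k, lower k hk hk2, h⟩

end Pool.Agent.R120.SmallInd
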