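import Mathlib
import Pool.Agent.R120.Comb
import Pool.Agent.R120.SmallIndGrowth

set_option autoImplicit false

/-! # The growth rate of `Av(321, 4123, 3412, 23451)` is below `1 + √2` -/

namespace Pool.Agent.R120.Comb

open Pool.Agent.R120 Pool.Agent.R120.Antichain Pool.Agent.R120.SumClass Function Filter
open scoped ENNReal

inductive Q | b4 | b3 | b2 | a2 | a1

def wd : ℕ → Q → Finset (List ℕ)
  | 0, _ => {[]}
  | n + 1, .b4 => (wd n .b4).image (fun l => 0 :: l) ∪ ((wd n .a2).image (fun l => 1 :: l) ∪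
      ((wd n .a2).image (fun l => 2 :: l) ∪ (wd n .a2).image (fun l => 3 :: l)))
  | n + 1, .b3 => (wd n .b4).image (fun l => 0 :: l) ∪ ((wd n .a2).image (fun l => 1 :: l) ∪
      (wd n .a2).image (fun l => 2 :: l))
  | n + 1, .b2 => (wd n .b4).image (fun l => 0 :: l) ∪ (wd n .a2).image (fun l => 1 :: l)
  | n + 1, .a2 => (wd n .b3).image (fun l => 0 :: l) ∪ (wd n .a1).image (fun l => 1 :: l)
  | n + 1, .a1 => (wd n .b2).image (fun l => 0 :: l)

noncomputable def wt : Q → ℝ
  | .b4 => 1
  | .b3 => 29 / 36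
  | .b2 => 11 / 18
  | .a2 => 7 / 15
  | .a1 => 55 / 216

lemma card_wd (n : ℕ) : ∀ q, ((wd n q).card : ℝ) ≤ 4 * wt q * (12 / 5) ^ n := by
  induction n with
  | zero => intro q; cases q <;> simp [wd, wt] <;> norm_num
  | succ n ih =>
    intro q
    have i1 := ih .b4
    have i2 := ih .b3
    have i3 := ih .b2
    have i4 := ih .a2
    have i5 := ih .a1
    have hp : (0 : ℝ) < (12 / 5) ^ n := by positivity
    have hi : ∀ (a : ℕ) (s : Finset (List ℕ)), ((s.image (fun l => a :: l)).card : ℝ) ≤ s.card := by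
      intro a s
      exact_mod_cast Finset.card_image_le
    have hu : ∀ (s t : Finset (List ℕ)), ((s ∪ t).card : ℝ) ≤ s.card + t.card := by
      intro s t
      exact_mod_cast Finset.card_union_le s t
    rw [pow_succ]
    cases q with
    | b4 =>
      rw [wd]
      have e1 := hu ((wd n .b4).image (fun l => 0 :: l)) ((wd n .a2).image (fun l => 1 :: l) ∪
        ((wd n .a2).image (fun l => 2 :: l) ∪ (wd n .a2).image (fun l => 3 :: l)))
      have e2 := hu ((wd n .a2).image (fun l => 1 :: l))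
        ((wd n .a2).image (fun l => 2 :: l) ∪ (wd n .a2).image (fun l => 3 :: l))
      have e3 := hu ((wd n .a2).image (fun l => 2 :: l)) ((wd n .a2).image (fun l => 3 :: l))
      have f0 := hi 0 (wd n .b4)
      have f1 := hi 1 (wd n .a2)
      have f2 := hi 2 (wd n .a2)
      have f3 := hi 3 (wd n .a2)
      simp only [wt] at *
      nlinarith
    | b3 =>
      rw [wd]
      have e1 := hu ((wd n .b4).image (fun l => 0 :: l)) ((wd n .a2).image (fun l => 1 :: l) ∪
        ((wd n .a2).image (fun l => 2 :: l)))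
      have e2 := hu ((wd n .a2).image (fun l => 1 :: l)) ((wd n .a2).image (fun l => 2 :: l))
      have f0 := hi 0 (wd n .b4)
      have f1 := hi 1 (wd n .a2)
      have f2 := hi 2 (wd n .a2)
      simp only [wt] at *
      nlinarith
    | b2 =>
      rw [wd]
      have e1 := hu ((wd n .b4).image (fun l => 0 :: l)) ((wd n .a2).image (fun l => 1 :: l))
      have f0 := hi 0 (wd n .b4)
      have f1 := hi 1 (wd n .a2)
      simp only [wt] at *
      nlinarith
    | a2 =>
      rw [wd]
      have e1 := hu ((wd n .b3).image (fun l => 0 :: l)) ((wd n .a1).image (fun l => 1 :: l))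
      have f0 := hi 0 (wd n .b3)
      have f1 := hi 1 (wd n .a1)
      simp only [wt] at *
      nlinarith
    | a1 =>
      rw [wd]
      have f0 := hi 0 (wd n .b2)
      simp only [wt] at *
      nlinarith

def Inv (c : ℕ → ℕ) : Q → ℕ → Prop
  | .b4, _ => True
  | .b3, i => ∃ t, i = t + 2 ∧ 1 ≤ c t ∧ c (t + 1) = 0
  | .b2, i => ∃ t, i = t + 3 ∧ 1 ≤ c t ∧ 1 ≤ c (t + 1) ∧ c (t + 2) = 0
  | .a2, i => ∃ t, i = t + 1 ∧ 1 ≤ c t
  | .a1, i => ∃ t, i = t + 2 ∧ 1 ≤ c t ∧ 1 ≤ c (t + 1)

lemma mem_wd (c : ℕ → ℕ) (N : ℕ) (h1 : ∀ t, t < N → c t ≤ 3)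
    (h2 : ∀ t, t + 1 < N → 1 ≤ c t → c (t + 1) ≤ 1)
    (h3 : ∀ t, t + 2 < N → 1 ≤ c t → 1 ≤ c (t + 1) → c (t + 2) = 0)
    (h4 : ∀ t, t + 2 < N → 1 ≤ c t → c (t + 2) ≤ 2)
    (h5 : ∀ t, t + 3 < N → 1 ≤ c t → 1 ≤ c (t + 1) → c (t + 3) ≤ 1) (n : ℕ) :
    ∀ i q, i + n ≤ N → Inv c q i → (List.range' i n).map c ∈ wd n q := by
  induction n with
  | zero => intro i q _ _; cases q <;> simp [wd]
  | succ n ih =>
    intro i q hin hI
    have hi : i < N := by omega
    rw [List.range'_succ, List.map_cons]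
    have hc := h1 i hi
    cases q with
    | b4 =>
      rw [wd]
      rcases Nat.eq_zero_or_pos (c i) with h | h
      · have := ih (i + 1) .b4 (by omega) trivial
        rw [h]
        simp [this]
      · have := ih (i + 1) .a2 (by omega) ⟨i, rfl, h⟩
        have h' : c i = 1 ∨ c i = 2 ∨ c i = 3 := by omega
        rcases h' with h' | h' | h' <;> rw [h'] <;> simp [this]
    | b3 =>
      rw [wd]
      obtain ⟨t, rfl, g1, g2⟩ := hI
      have hc' := h4 t hi g1
      rcases Nat.eq_zero_or_pos (c (t + 2)) with h | h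
      · have := ih (t + 2 + 1) .b4 (by omega) trivial
        rw [h]
        simp [this]
      · have := ih (t + 2 + 1) .a2 (by omega) ⟨t + 2, rfl, h⟩
        have h' : c (t + 2) = 1 ∨ c (t + 2) = 2 := by omega
        rcases h' with h' | h' <;> rw [h'] <;> simp [this]
    | b2 =>
      rw [wd]
      obtain ⟨t, rfl, g1, g2, g3⟩ := hI
      have hc' := h5 t hi g1 g2
      rcases Nat.eq_zero_or_pos (c (t + 3)) with h | h
      · have := ih (t + 3 + 1) .b4 (by omega) trivial
        rw [h]
        simp [this]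
      · have := ih (t + 3 + 1) .a2 (by omega) ⟨t + 3, rfl, h⟩
        have h' : c (t + 3) = 1 := by omega
        rw [h']
        simp [this]
    | a2 =>
      rw [wd]
      obtain ⟨t, rfl, g1⟩ := hI
      have hc' := h2 t hi g1
      rcases Nat.eq_zero_or_pos (c (t + 1)) with h | h
      · have := ih (t + 1 + 1) .b3 (by omega) ⟨t, rfl, g1, h⟩
        rw [h]
        simp [this]
      · have := ih (t + 1 + 1) .a1 (by omega) ⟨t, rfl, g1, h⟩
        have h' : c (t + 1) = 1 := by omega
        rw [h']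
        simp [this]
    | a1 =>
      rw [wd]
      obtain ⟨t, rfl, g1, g2⟩ := hI
      have hc' := h3 t hi g1 g2
      have := ih (t + 2 + 1) .b2 (by omega) ⟨t, rfl, g1, g2, hc'⟩
      rw [hc']
      simp [this]

/-! ### The code of a permutation -/

section code
variable {n : ℕ}

/-- The larger entries to the left of position `v`. -/
def lset (π : Equiv.Perm (Fin n)) (v : Fin n) : Finset (Fin n) :=
  Finset.univ.filter (fun u => u < v ∧ π v < π u)

lemma mem_lset {π : Equiv.Perm (Fin n)} {v u : Fin n} : u ∈ lset π v ↔ u < v ∧ π v < π u := by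
  simp [lset]

def code (π : Equiv.Perm (Fin n)) (t : ℕ) : ℕ :=
  if h : t < n then (lset π ⟨t, h⟩).card else 0

lemma code_eq (π : Equiv.Perm (Fin n)) (v : Fin n) : code π v = (lset π v).card := by
  simp [code]

lemma code_inj {π ρ : Equiv.Perm (Fin n)} (h : ∀ v : Fin n, code π v = code ρ v) : π = ρ := by
  have key : ∀ m : ℕ, ∀ i j : Fin n, (i : ℕ) < m → (j : ℕ) < m → (π i < π j ↔ ρ i < ρ j) := by
    intro m
    induction m with
    | zero => intro i j hi; omega
    | succ m ih =>
      -- the sets of larger entries agree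
      have hS : ∀ v : Fin n, (v : ℕ) = m → lset π v = lset ρ v := by
        intro v hv
        have hc : (lset π v).card = (lset ρ v).card := by
          rw [← code_eq, ← code_eq, h]
        apply Finset.eq_of_subset_of_card_le _ hc.ge
        intro u hu
        by_contra hu'
        -- some `w` in `lset ρ v` but not in `lset π v`
        obtain ⟨w, hw, hw'⟩ : ∃ w, w ∈ lset ρ v ∧ w ∉ lset π v := by
          by_contra hcon
          push Not at hcon
          have hsub : lset ρ v ⊆ (lset π v).erase u := by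
            intro w hw
            refine Finset.mem_erase.2 ⟨?_, hcon w hw⟩
            rintro rfl
            exact hu' hw
          have := Finset.card_le_card hsub
          rw [Finset.card_erase_of_mem hu] at this
          have hpos : 0 < (lset π v).card := Finset.card_pos.2 ⟨u, hu⟩
          omega
        rw [mem_lset] at hu hu' hw hw'
        have a1 : π w < π v := by
          have : ¬ π v < π w := fun hh => hw' ⟨hw.1, hh⟩
          exact lt_of_le_of_ne (not_lt.1 this) (fun he => hw.1.ne (π.injective he))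
        have a2 : ρ u < ρ v := by
          have : ¬ ρ v < ρ u := fun hh => hu' ⟨hu.1, hh⟩
          exact lt_of_le_of_ne (not_lt.1 this) (fun he => hu.1.ne (ρ.injective he))
        have b1 : π w < π u := a1.trans hu.2
        have b2 : ρ u < ρ w := a2.trans hw.2
        have hum : (u : ℕ) < m := by have := hu.1; rw [Fin.lt_def] at this; omega
        have hwm : (w : ℕ) < m := by have := hw.1; rw [Fin.lt_def] at this; omega
        exact absurd ((ih u w hum hwm).2 b2) b1.asymm
      have hlast : ∀ i v : Fin n, (i : ℕ) < m → (v : ℕ) = m → (π v < π i ↔ ρ v < ρ i) := by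
        intro i v hi hv
        have hiv : i < v := by rw [Fin.lt_def]; omega
        have h1 : i ∈ lset π v ↔ i ∈ lset ρ v := by rw [hS v hv]
        rw [mem_lset, mem_lset] at h1
        constructor
        · intro hh; exact (h1.1 ⟨hiv, hh⟩).2
        · intro hh; exact (h1.2 ⟨hiv, hh⟩).2
      intro i j hi hj
      rcases Nat.lt_or_ge (i : ℕ) m with hi' | hi'
      · rcases Nat.lt_or_ge (j : ℕ) m with hj' | hj'
        · exact ih i j hi' hj'
        · have hjm : (j : ℕ) = m := by omega
          have h1 := hlast i j hi' hjm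
          have hne : i ≠ j := fun he => by rw [he] at hi'; omega
          have hne1 : π i ≠ π j := fun he => hne (π.injective he)
          have hne2 : ρ i ≠ ρ j := fun he => hne (ρ.injective he)
          constructor
          · intro hh
            rcases lt_or_gt_of_ne hne2 with h2 | h2
            · exact h2
            · exact absurd (h1.2 h2) hh.asymm
          · intro hh
            rcases lt_or_gt_of_ne hne1 with h2 | h2
            · exact h2
            · exact absurd (h1.1 h2) hh.asymm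
      · have him : (i : ℕ) = m := by omega
        rcases Nat.lt_or_ge (j : ℕ) m with hj' | hj'
        · exact hlast j i hj' him
        · have : i = j := Fin.ext (by omega)
          subst this
          simp
  exact perm_ext_lt (fun i j => key n i j i.2 j.2)

lemma exists_incr {S : Finset (Fin n)} {k : ℕ} (hk : k ≤ S.card) :
    ∃ f : Fin k → Fin n, StrictMono f ∧ ∀ i, f i ∈ S := by
  obtain ⟨T, hT, hc⟩ := Finset.exists_subset_card_eq hk
  exact ⟨T.orderEmbOfFin hc, (T.orderEmbOfFin hc).strictMono,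
    fun i => hT (Finset.orderEmbOfFin_mem T hc i)⟩

variable {π : Equiv.Perm (Fin n)}

lemma asc (h : Good π) {u v w : Fin n} (huv : u < v) (hvw : v < w) (h1 : π v < π u) :
    π v < π w := by
  rcases lt_or_gt_of_ne (fun he => hvw.ne (π.injective he) : π v ≠ π w) with h2 | h2
  · exact h2
  · exact (no321 h huv hvw h1 h2).elim

lemma incr (h : Good π) {u u' v : Fin n} (hu : u ∈ lset π v) (hu' : u' ∈ lset π v)
    (huu : u < u') : π u < π u' := by
  rw [mem_lset] at hu hu'
  rcases lt_or_gt_of_ne (fun he => huu.ne (π.injective he) : π u ≠ π u') with h2 | h2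
  · exact h2
  · exact (no321 h huu hu'.1 h2 hu'.2).elim

lemma exists_of_pos {v : Fin n} (hv : 1 ≤ (lset π v).card) : ∃ a, a < v ∧ π v < π a := by
  obtain ⟨a, ha⟩ := Finset.card_pos.1 hv
  exact ⟨a, mem_lset.1 ha⟩

lemma A1 (h : Good π) (v : Fin n) : (lset π v).card ≤ 3 := by
  by_contra hc
  obtain ⟨f, hf, hm⟩ := exists_incr (show 4 ≤ (lset π v).card by omega)
  have m0 := hm 0
  have m3 := hm 3
  refine no23451 h (hf (show (0 : Fin 4) < 1 by decide)) (hf (show (1 : Fin 4) < 2 by decide))
    (hf (show (2 : Fin 4) < 3 by decide)) (mem_lset.1 m3).1 (mem_lset.1 m0).2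
    (incr h (hm 0) (hm 1) (hf (show (0 : Fin 4) < 1 by decide)))
    (incr h (hm 1) (hm 2) (hf (show (1 : Fin 4) < 2 by decide)))
    (incr h (hm 2) (hm 3) (hf (show (2 : Fin 4) < 3 by decide)))

lemma ne_of_lt_of_lt {a b x : Fin n} (h1 : π a < π x) (h2 : π x < π b) : b ≠ a := by
  rintro rfl
  exact absurd (h1.trans h2) (lt_irrefl _)

lemma A2 (h : Good π) {v w : Fin n} (hw : (w : ℕ) = v + 1) (h1 : 1 ≤ (lset π v).card) :
    (lset π w).card ≤ 1 := by
  by_contra hc
  obtain ⟨a, ha, ha'⟩ := exists_of_pos h1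
  obtain ⟨f, hf, hm⟩ := exists_incr (show 2 ≤ (lset π w).card by omega)
  have hvw : v < w := by rw [Fin.lt_def]; omega
  have e := asc h ha hvw ha'
  have m0 := mem_lset.1 (hm 0)
  have m1 := mem_lset.1 (hm 1)
  have f01 := hf (show (0 : Fin 2) < 1 by decide)
  have n1 : f 1 ≠ v := ne_of_lt_of_lt e m1.2
  have l1 : f 1 < v := by
    have := m1.1
    rw [Fin.lt_def] at this ⊢
    have : ((f 1 : Fin n) : ℕ) ≠ v := fun he => n1 (Fin.ext he)
    omega
  exact no3412 h f01 l1 hvw e m0.2 (incr h (hm 0) (hm 1) f01)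

lemma A3 (h : Good π) {v w x : Fin n} (hw : (w : ℕ) = v + 1) (hx : (x : ℕ) = v + 2)
    (h1 : 1 ≤ (lset π v).card) (h2 : 1 ≤ (lset π w).card) : (lset π x).card = 0 := by
  by_contra hc
  obtain ⟨a, ha, ha'⟩ := exists_of_pos h1
  obtain ⟨b, hb, hb'⟩ := exists_of_pos h2
  obtain ⟨d, hd, hd'⟩ := exists_of_pos (show 1 ≤ (lset π x).card by omega)
  have hvw : v < w := by rw [Fin.lt_def]; omega
  have hwx : w < x := by rw [Fin.lt_def]; omega
  have e1 := asc h ha hvw ha'
  have e2 := asc h hb hwx hb'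
  have n1 : d ≠ w := ne_of_lt_of_lt e2 hd'
  have n2 : d ≠ v := ne_of_lt_of_lt (e1.trans e2) hd'
  have l1 : d < v := by
    rw [Fin.lt_def] at hd ⊢
    have : (d : ℕ) ≠ v := fun he => n2 (Fin.ext he)
    have : (d : ℕ) ≠ w := fun he => n1 (Fin.ext he)
    omega
  exact no4123 h l1 hvw hwx e1 e2 hd'

lemma A4 (h : Good π) {v x : Fin n} (hx : (x : ℕ) = v + 2)
    (h1 : 1 ≤ (lset π v).card) : (lset π x).card ≤ 2 := by
  by_contra hc
  obtain ⟨a, ha, ha'⟩ := exists_of_pos h1
  obtain ⟨f, hf, hm⟩ := exists_incr (show 3 ≤ (lset π x).card by omega)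
  have hvx : v < x := by rw [Fin.lt_def]; omega
  have e := asc h ha hvx ha'
  have m0 := mem_lset.1 (hm 0)
  have m1 := mem_lset.1 (hm 1)
  have m2 := mem_lset.1 (hm 2)
  have f01 := hf (show (0 : Fin 3) < 1 by decide)
  have f12 := hf (show (1 : Fin 3) < 2 by decide)
  have n1 : f 1 ≠ v := ne_of_lt_of_lt e m1.2
  have l1 : f 1 < v := by
    have h3 := m2.1
    rw [Fin.lt_def] at h3 f12 ⊢
    have : ((f 1 : Fin n) : ℕ) ≠ v := fun he => n1 (Fin.ext he)
    omega
  exact no3412 h f01 l1 hvx e m0.2 (incr h (hm 0) (hm 1) f01)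

lemma A5 (h : Good π) {v w y : Fin n} (hw : (w : ℕ) = v + 1) (hy : (y : ℕ) = v + 3)
    (h1 : 1 ≤ (lset π v).card) (h2 : 1 ≤ (lset π w).card) : (lset π y).card ≤ 1 := by
  by_contra hc
  obtain ⟨a, ha, ha'⟩ := exists_of_pos h1
  obtain ⟨b, hb, hb'⟩ := exists_of_pos h2
  obtain ⟨f, hf, hm⟩ := exists_incr (show 2 ≤ (lset π y).card by omega)
  have hvw : v < w := by rw [Fin.lt_def]; omega
  have hwy : w < y := by rw [Fin.lt_def]; omega
  have e1 := asc h ha hvw ha'
  have e2 := asc h hb hwy hb'
  have m0 := mem_lset.1 (hm 0)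
  have m1 := mem_lset.1 (hm 1)
  have f01 := hf (show (0 : Fin 2) < 1 by decide)
  have n1 : f 0 ≠ w := ne_of_lt_of_lt e2 m0.2
  have n2 : f 0 ≠ v := ne_of_lt_of_lt (e1.trans e2) m0.2
  have l1 : f 0 < v := by
    have h3 := m1.1
    rw [Fin.lt_def] at h3 f01 ⊢
    have : ((f 0 : Fin n) : ℕ) ≠ v := fun he => n2 (Fin.ext he)
    have : ((f 0 : Fin n) : ℕ) ≠ w := fun he => n1 (Fin.ext he)
    omega
  exact no4123 h l1 hvw hwy e1 e2 m0.2

lemma code_mem (h : Good π) : (List.range' 0 n).map (code π) ∈ wd n .b4 := by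
  apply mem_wd (code π) n _ _ _ _ _ n 0 .b4 (by omega) trivial
  · intro t ht
    have := A1 h ⟨t, ht⟩
    rwa [← code_eq] at this
  · intro t ht h1
    have h1' : 1 ≤ (lset π ⟨t, by omega⟩).card := by rw [← code_eq]; exact h1
    have := A2 h (v := ⟨t, by omega⟩) (w := ⟨t + 1, ht⟩) rfl h1'
    rwa [← code_eq] at this
  · intro t ht h1 h2
    have h1' : 1 ≤ (lset π ⟨t, by omega⟩).card := by rw [← code_eq]; exact h1
    have h2' : 1 ≤ (lset π ⟨t + 1, by omega⟩).card := by rw [← code_eq]; exact h2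
    have := A3 h (v := ⟨t, by omega⟩) (w := ⟨t + 1, by omega⟩) (x := ⟨t + 2, ht⟩) rfl rfl h1' h2'
    rwa [← code_eq] at this
  · intro t ht h1
    have h1' : 1 ≤ (lset π ⟨t, by omega⟩).card := by rw [← code_eq]; exact h1
    have := A4 h (v := ⟨t, by omega⟩) (x := ⟨t + 2, ht⟩) rfl h1'
    rwa [← code_eq] at this
  · intro t ht h1 h2
    have h1' : 1 ≤ (lset π ⟨t, by omega⟩).card := by rw [← code_eq]; exact h1
    have h2' : 1 ≤ (lset π ⟨t + 1, by omega⟩).card := by rw [← code_eq]; exact h2
    have := A5 h (v := ⟨t, by omega⟩) (w := ⟨t + 1, by omega⟩) (y := ⟨t + 3, ht⟩) rfl rfl h1' h2'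
    rwa [← code_eq] at this

end code

lemma level_le (n : ℕ) : (level C n : ℝ) ≤ 4 * (12 / 5) ^ n := by
  classical
  have h1 : level C n ≤ (wd n .b4).card := by
    unfold level
    rw [← Set.ncard_coe_finset]
    apply Set.ncard_le_ncard_of_injOn (fun π : Equiv.Perm (Fin n) => (List.range' 0 n).map (code π))
    · intro π hπ
      exact code_mem hπ
    · intro π _ ρ _ he
      apply code_inj
      intro v
      have h2 : (List.range' 0 n).map (code π) = (List.range' 0 n).map (code ρ) := he
      have h3 := List.map_inj_left.1 h2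
      exact h3 v (by simp)
  have h2 := card_wd n .b4
  simp only [wt] at h2
  have h3 : (level C n : ℝ) ≤ (wd n .b4).card := by exact_mod_cast h1
  linarith

lemma growth_C : upperGrowth C < ENNReal.ofReal (1 + Real.sqrt 2) := by
  have h0 : (1.41 : ℝ) < Real.sqrt 2 := by
    apply Real.lt_sqrt_of_sq_lt
    norm_num
  refine lt_of_le_of_lt (SmallInd.growth_le C (241 / 100) (by norm_num) ?_)
    ((ENNReal.ofReal_lt_ofReal_iff (by positivity)).2 (by norm_num at h0 ⊢; linarith))
  have hr : (1 : ℝ) < 241 / 240 := by norm_num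
  have ht := tendsto_pow_atTop_atTop_of_one_lt hr
  filter_upwards [ht.eventually_ge_atTop 4] with n hn
  calc (level C n : ℝ) ≤ 4 * (12 / 5) ^ n := level_le n
    _ ≤ (241 / 240) ^ n * (12 / 5) ^ n := by
        exact mul_le_mul_of_nonneg_right hn (by positivity)
    _ = (241 / 100) ^ n := by rw [← mul_pow]; norm_num

end Pool.Agent.R120.Comb
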