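import Mathlib
import Pool.Agent.R120.DDProd

/-! # Recursion for permutations with a prescribed beginning and no later double descents -/

set_option autoImplicit false

namespace Pool.Agent.R120.DDCount

open Finset Equiv

def pre (p : ℕ) (w : ℕ → Bool) (d : ℕ → Bool) : Prop := ∀ i < p, d i = w i

def ndd (s : ℕ) (d : ℕ → Bool) : Prop := ∀ j, s ≤ j → ¬ (d j = true ∧ d (j + 1) = true)

noncomputable def q (w : ℕ → Bool) (p : ℕ) : ℝ := pr (p + 1) (pre p w)

noncomputable def g (n : ℕ) : ℝ := pr n (ndd 0)

noncomputable def Y (w : ℕ → Bool) (p n : ℕ) : ℝ :=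
  pr n (fun d => pre p w d ∧ d p = false ∧ ndd (p + 1) d)

noncomputable def K (w : ℕ → Bool) (p n : ℕ) : ℝ := if p + 1 ≤ n then q w p * g (n - p - 1) else 0

lemma pr_true (n : ℕ) : pr n (fun _ => True) = 1 := by
  unfold pr cnt
  simp only [if_true, sum_const, card_univ, Fintype.card_perm, Fintype.card_fin, nsmul_eq_mul,
    mul_one]
  exact div_self (by exact_mod_cast n.factorial_ne_zero)

lemma pr_eq_zero {n : ℕ} {E : (ℕ → Bool) → Prop} (h : ∀ π : Perm (Fin n), ¬ E (bits π)) :
    pr n E = 0 := by
  unfold pr cnt
  rw [Finset.sum_eq_zero, zero_div]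
  intro π _
  rw [if_neg (h π)]

lemma g_nonneg (n : ℕ) : 0 ≤ g n := pr_nonneg _ _
lemma q_nonneg (w : ℕ → Bool) (p : ℕ) : 0 ≤ q w p := pr_nonneg _ _
lemma Y_nonneg (w : ℕ → Bool) (p n : ℕ) : 0 ≤ Y w p n := pr_nonneg _ _

lemma g_zero : g 0 = 1 := by
  unfold g
  rw [← pr_true 0]
  apply pr_congr
  intro π
  simp only [iff_true]
  intro j _ h
  rw [bits_out π j (by omega)] at h
  exact Bool.false_ne_true h.1

/-- independence -/
lemma pr_pre_ndd (w : ℕ → Bool) (p b : ℕ) :
    pr (p + 1 + b) (fun d => pre p w d ∧ ndd (p + 1) d) = q w p * g b := by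
  rw [q, g, ← pr_prod (p + 1) b (pre p w) (ndd 0)]
  · apply pr_congr
    intro π
    apply and_congr_right
    intro _
    constructor
    · intro h j _
      exact h (p + 1 + j) (by omega)
    · intro h j hj
      have := h (j - (p + 1)) (by omega)
      beta_reduce at this
      rw [show p + 1 + (j - (p + 1)) = j by omega,
        show p + 1 + (j - (p + 1) + 1) = j + 1 by omega] at this
      exact this
  · intro d d' hdd
    constructor
    · intro h i hi; rw [← hdd i (by omega)]; exact h i hi
    · intro h i hi; rw [hdd i (by omega)]; exact h i hi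

lemma Y_step (w : ℕ → Bool) (p n : ℕ) (h0 : w p = true) (h1 : w (p + 1) = true) :
    Y w p n + Y w (p + 1) n + Y w (p + 2) n = pr n (fun d => pre p w d ∧ ndd (p + 1) d) := by
  rw [add_assoc]
  have e1 : pr n (fun d => pre (p + 1) w d ∧ ndd (p + 1) d) = Y w (p + 1) n + Y w (p + 2) n := by
    apply pr_add
    · intro π
      set d := bits π
      constructor
      · rintro ⟨hp, hn⟩
        cases hd : d (p + 1) with
        | false => exact Or.inl ⟨hp, rfl, fun j hj => hn j (by omega)⟩
        | true =>
          right
          refine ⟨?_, ?_, fun j hj => hn j (by omega)⟩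
          · intro i hi
            rcases Nat.lt_or_ge i (p + 1) with h | h
            · exact hp i h
            · rw [show i = p + 1 by omega, hd, h1]
          · have := hn (p + 1) (le_refl _)
            rw [Bool.eq_false_iff]
            intro h'
            exact this ⟨hd, h'⟩
      · rintro (⟨hp, hd, hn⟩ | ⟨hp, hd, hn⟩)
        · refine ⟨hp, fun j hj => ?_⟩
          rcases Nat.lt_or_ge j (p + 2) with h | h
          · rw [show j = p + 1 by omega, hd]; simp
          · exact hn j (by omega)
        · refine ⟨fun i hi => hp i (by omega), fun j hj => ?_⟩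
          rcases Nat.lt_or_ge j (p + 2) with h | h
          · rw [show j = p + 1 by omega, hd]; simp
          · rcases Nat.lt_or_ge j (p + 3) with h' | h'
            · rw [show j = p + 2 by omega, hd]; simp
            · exact hn j (by omega)
    · rintro π ⟨⟨_, hd, _⟩, ⟨hp, _, _⟩⟩
      have := hp (p + 1) (by omega)
      rw [hd, h1] at this
      exact Bool.false_ne_true this
  rw [← e1]
  symm
  apply pr_add
  · intro π
    set d := bits π
    constructor
    · rintro ⟨hp, hn⟩
      cases hd : d p with
      | false => exact Or.inl ⟨hp, rfl, hn⟩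
      | true =>
        right
        refine ⟨?_, hn⟩
        intro i hi
        rcases Nat.lt_or_ge i p with h | h
        · exact hp i h
        · rw [show i = p by omega, hd, h0]
    · rintro (⟨hp, hd, hn⟩ | ⟨hp, hn⟩)
      · exact ⟨hp, hn⟩
      · exact ⟨fun i hi => hp i (by omega), hn⟩
  · rintro π ⟨⟨_, hd, _⟩, ⟨hp, _⟩⟩
    have := hp p (by omega)
    rw [hd, h0] at this
    exact Bool.false_ne_true this

/-- `w` is `true` from `p₀` on and `p ≥ p₀`, `n ≥ p₀ + 1`. -/
lemma Y_K (w : ℕ → Bool) (p₀ p n : ℕ) (hw : ∀ i, p₀ ≤ i → w i = true) (hp : p₀ ≤ p)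
    (hn : p₀ + 1 ≤ n) : Y w p n + Y w (p + 1) n + Y w (p + 2) n = K w p n := by
  rw [Y_step w p n (hw p hp) (hw (p + 1) (by omega))]
  unfold K
  by_cases h : p + 1 ≤ n
  · rw [if_pos h]
    obtain ⟨b, rfl⟩ := Nat.exists_eq_add_of_le h
    rw [pr_pre_ndd, show p + 1 + b - p - 1 = b by omega]
  · rw [if_neg h]
    apply pr_eq_zero
    rintro π ⟨hpre, _⟩
    have := hpre (p - 1) (by omega)
    rw [hw (p - 1) (by omega), bits_out π (p - 1) (by omega)] at this
    exact Bool.false_ne_true this

lemma Y_zero (w : ℕ → Bool) (p₀ p n : ℕ) (hw : ∀ i, p₀ ≤ i → w i = true) (hp : p₀ + 1 ≤ p)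
    (hn : n ≤ p) : Y w p n = 0 := by
  apply pr_eq_zero
  rintro π ⟨hpre, _⟩
  have := hpre (p - 1) (by omega)
  rw [hw (p - 1) (by omega), bits_out π (p - 1) (by omega)] at this
  exact Bool.false_ne_true this

/-- the coefficients `1, -1, 0, 1, -1, 0, …` -/
noncomputable def cf (j : ℕ) : ℝ := if j % 3 = 0 then 1 else if j % 3 = 1 then -1 else 0

/-- the coefficients `1, 0, -1, 1, 0, -1, …` -/
noncomputable def cg (j : ℕ) : ℝ := if j % 3 = 0 then 1 else if j % 3 = 1 then 0 else -1

lemma sum_cf (w : ℕ → Bool) (p₀ p n : ℕ) (hw : ∀ i, p₀ ≤ i → w i = true) (hp : p₀ ≤ p)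
    (hn : p₀ + 1 ≤ n) (M : ℕ) :
    ∑ j ∈ range (3 * M), cf j * K w (p + j) n = Y w p n - Y w (p + 3 * M) n := by
  induction M with
  | zero => simp
  | succ M ih =>
    rw [show 3 * (M + 1) = 3 * M + 1 + 1 + 1 by ring, sum_range_succ, sum_range_succ,
      sum_range_succ, ih]
    have h0 : cf (3 * M) = 1 := by unfold cf; rw [if_pos (by omega)]
    have h1 : cf (3 * M + 1) = -1 := by
      unfold cf; rw [if_neg (by omega), if_pos (by omega)]
    have h2 : cf (3 * M + 1 + 1) = 0 := by
      unfold cf; rw [if_neg (by omega), if_neg (by omega)]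
    rw [h0, h1, h2, ← Y_K w p₀ (p + 3 * M) n hw (by omega) hn,
      ← Y_K w p₀ (p + (3 * M + 1)) n hw (by omega) hn]
    rw [show p + (3 * M + 1) + 1 = p + 3 * M + 2 by ring,
      show p + (3 * M + 1) + 2 = p + (3 * M + 1 + 1 + 1) by ring,
      show p + (3 * M + 1) = p + 3 * M + 1 by ring]
    ring

lemma sum_cg (n : ℕ) (hn : 1 ≤ n) (M : ℕ) :
    ∑ j ∈ range (3 * M), cg j * K (fun _ => true) j n =
      Y (fun _ => true) 0 n + Y (fun _ => true) 1 n -
        (Y (fun _ => true) (3 * M) n + Y (fun _ => true) (3 * M + 1) n) := by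
  induction M with
  | zero => simp
  | succ M ih =>
    rw [show 3 * (M + 1) = 3 * M + 1 + 1 + 1 by ring, sum_range_succ, sum_range_succ,
      sum_range_succ, ih]
    have h0 : cg (3 * M) = 1 := by unfold cg; rw [if_pos (by omega)]
    have h1 : cg (3 * M + 1) = 0 := by
      unfold cg; rw [if_neg (by omega), if_pos (by omega)]
    have h2 : cg (3 * M + 1 + 1) = -1 := by
      unfold cg; rw [if_neg (by omega), if_neg (by omega)]
    rw [h0, h1, h2, ← Y_K (fun _ => true) 0 (3 * M) n (fun _ _ => rfl) (by omega) (by omega),
      ← Y_K (fun _ => true) 0 (3 * M + 1 + 1) n (fun _ _ => rfl) (by omega) (by omega)]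
    rw [show 3 * M + 1 + 1 + 2 = 3 * M + 1 + 1 + 1 + 1 by ring,
      show 3 * M + 1 + 1 = 3 * M + 2 by ring]
    ring

lemma g_eq (n : ℕ) : g n = Y (fun _ => true) 0 n + Y (fun _ => true) 1 n := by
  apply pr_add
  · intro π
    set d := bits π
    constructor
    · intro hn
      cases hd : d 0 with
      | false => exact Or.inl ⟨fun i hi => by omega, rfl, fun j hj => hn j (by omega)⟩
      | true =>
        right
        refine ⟨fun i hi => ?_, ?_, fun j hj => hn j (by omega)⟩
        · rw [show i = 0 by omega, hd]
        · have := hn 0 (le_refl _)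
          rw [Bool.eq_false_iff]
          intro h'
          exact this ⟨hd, h'⟩
    · rintro (⟨_, hd, hn⟩ | ⟨_, hd, hn⟩)
      · intro j hj
        rcases Nat.eq_zero_or_pos j with h | h
        · rw [h, hd]; simp
        · exact hn j (by omega)
      · intro j hj
        rcases Nat.lt_or_ge j 2 with h | h
        · have : j = 0 ∨ j = 1 := by omega
          rcases this with rfl | rfl
          · rw [Nat.zero_add, hd]; simp
          · rw [hd]; simp
        · exact hn j (by omega)
  · rintro π ⟨⟨_, hd, _⟩, ⟨hp, _, _⟩⟩
    have := hp 0 (by omega)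
    rw [hd] at this
    exact Bool.false_ne_true this

/-- the number of monotone permutations is one -/
lemma pr_const (c : Bool) (a : ℕ) :
    pr a (pre (a - 1) (fun _ => c)) = 1 / a.factorial := by
  classical
  obtain ⟨π₀, h0, hu⟩ : ∃ π₀ : Perm (Fin a), pre (a - 1) (fun _ => c) (bits π₀) ∧
      ∀ π : Perm (Fin a), pre (a - 1) (fun _ => c) (bits π) → π = π₀ := by
    cases a with
    | zero =>
      refine ⟨1, fun i hi => by omega, fun π _ => Subsingleton.elim _ _⟩
    | succ n =>
      cases c with
      | false =>
        refine ⟨1, ?_, ?_⟩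
        · intro i hi
          rw [Bool.eq_false_iff]
          intro h
          rw [bits_of_lt _ _ (by omega)] at h
          simp at h
        · intro π hπ
          have hmono : StrictMono π := by
            rw [Fin.strictMono_iff_lt_succ]
            intro i
            have := hπ i (by omega)
            rw [Bool.eq_false_iff] at this
            rw [ne_eq, bits_of_lt _ _ (by omega), not_lt] at this
            refine lt_of_le_of_ne this ?_
            intro h
            have := π.injective h
            simp [Fin.ext_iff] at this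
          apply perm_ext_lt
          intro i j
          rw [hmono.lt_iff_lt]
          simp
      | true =>
        refine ⟨Fin.revPerm, ?_, ?_⟩
        · intro i hi
          rw [bits_of_lt _ _ (by omega)]
          simp [Fin.lt_def]
          omega
        · intro π hπ
          have hanti : StrictAnti π := by
            rw [Fin.strictAnti_iff_succ_lt]
            intro i
            have := hπ i (by omega)
            rw [bits_of_lt _ _ (by omega)] at this
            exact this
          apply perm_ext_lt
          intro i j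
          rw [hanti.lt_iff_gt]
          simp
  unfold pr cnt
  rw [Finset.sum_eq_single π₀]
  · rw [if_pos h0]
  · intro π _ hne
    rw [if_neg]
    intro h
    exact hne (hu π h)
  · intro h; exact absurd (mem_univ _) h

lemma q_true (p : ℕ) : q (fun _ => true) p = 1 / (p + 1).factorial := pr_const true (p + 1)

/-- a monotone run after position `p` -/
lemma q_run (w : ℕ → Bool) (c : Bool) (p a : ℕ) (hw : ∀ i, p ≤ i → i < p + a → w i = c) :
    q w (p + a) ≤ q w p / a.factorial := by
  have h := pr_prod (p + 1) a (pre p w) (pre (a - 1) (fun _ => c)) (by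
    intro d d' hdd
    constructor
    · intro h i hi; rw [← hdd i (by omega)]; exact h i hi
    · intro h i hi; rw [hdd i (by omega)]; exact h i hi)
  rw [pr_const, mul_one_div] at h
  rw [q, q, ← h, show p + a + 1 = p + 1 + a by ring]
  apply pr_mono
  intro π hπ
  refine ⟨fun i hi => hπ i (by omega), fun i hi => ?_⟩
  show bits π (p + 1 + i) = c
  rw [hπ (p + 1 + i) (by omega), hw _ (by omega) (by omega)]

/-- the whole prefix determined, no condition later -/
lemma pr_pre (w : ℕ → Bool) (p b : ℕ) : pr (p + 1 + b) (pre p w) = q w p := by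
  have h := pr_prod (p + 1) b (pre p w) (fun _ => True) (by
    intro d d' hdd
    constructor
    · intro h i hi; rw [← hdd i (by omega)]; exact h i hi
    · intro h i hi; rw [hdd i (by omega)]; exact h i hi)
  rw [pr_true, mul_one] at h
  rw [q, ← h]
  apply pr_congr
  intro π
  simp

/-- splitting according to the next bit -/
lemma q_split (w w' : ℕ → Bool) (p : ℕ) (hw : ∀ i < p, w i = w' i) (h1 : w p = true)
    (h2 : w' p = false) : q w (p + 1) + q w' (p + 1) = q w p := by
  rw [← pr_pre w p 1]
  symm
  apply pr_add
  · intro π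
    constructor
    · intro h
      cases hd : bits π p with
      | true =>
        left
        intro i hi
        rcases Nat.lt_or_ge i p with h' | h'
        · exact h i h'
        · rw [show i = p by omega, hd, h1]
      | false =>
        right
        intro i hi
        rcases Nat.lt_or_ge i p with h' | h'
        · rw [← hw i h']; exact h i h'
        · rw [show i = p by omega, hd, h2]
    · rintro (h | h)
      · exact fun i hi => h i (by omega)
      · intro i hi; rw [hw i hi]; exact h i (by omega)
  · rintro π ⟨ha, hb⟩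
    have := (ha p (by omega)).symm.trans (hb p (by omega))
    rw [h1, h2] at this
    exact Bool.false_ne_true this.symm

/-- the height function -/
noncomputable def ht (w : ℕ → Bool) : ℕ → ℤ
  | 0 => 0
  | n + 1 => ht w n + (if w n = true then -1 else 1)

lemma q_pos (w : ℕ → Bool) (p : ℕ) : 0 < q w p := by
  classical
  -- a permutation with the descents given by `w`
  obtain ⟨π, hπ⟩ := exists_std (fun i : Fin (p + 1) => ht w i * (p + 3) + i) (by
    intro i j hij
    have h1 : ((ht w i * (p + 3) + i : ℤ)) % (p + 3) = i := by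
      rw [Int.mul_add_emod_self_right, Int.emod_eq_of_lt (by positivity) (by have := i.2; omega)]
    have h2 : ((ht w j * (p + 3) + j : ℤ)) % (p + 3) = j := by
      rw [Int.mul_add_emod_self_right, Int.emod_eq_of_lt (by positivity) (by have := j.2; omega)]
    have : ((i : ℕ) : ℤ) = ((j : ℕ) : ℤ) := by
      rw [← h1, ← h2]
      simp only at hij
      rw [hij]
    exact Fin.ext (by exact_mod_cast this))
  have hpre : pre p w (bits π) := by
    intro i hi
    rw [Bool.eq_iff_iff, bits_of_lt _ _ (by omega), hπ]
    simp only [ht]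
    cases hw : w i with
    | true => simp; nlinarith
    | false => simp; nlinarith
  unfold q pr cnt
  apply div_pos _ (by positivity)
  apply Finset.sum_pos'
  · intro σ _; split_ifs <;> norm_num
  · exact ⟨π, mem_univ _, by rw [if_pos hpre]; norm_num⟩

/-- the recursion for `g` -/
lemma g_rec (n : ℕ) (hn : 1 ≤ n) :
    g n = ∑ j ∈ range n, cg j / (j + 1).factorial * g (n - 1 - j) := by
  have h := sum_cg n hn n
  rw [Y_zero (fun _ => true) 0 (3 * n) n (fun _ _ => rfl) (by omega) (by omega),
    Y_zero (fun _ => true) 0 (3 * n + 1) n (fun _ _ => rfl) (by omega) (by omega), add_zero,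
    sub_zero, ← g_eq] at h
  rw [← h]
  rw [← Finset.sum_subset (s₁ := range n) (Finset.range_subset_range.2 (by omega))]
  · apply Finset.sum_congr rfl
    intro j hj
    rw [mem_range] at hj
    unfold K
    rw [if_pos (by omega), q_true, show n - j - 1 = n - 1 - j by omega]
    ring
  · intro j _ hj
    rw [mem_range, not_lt] at hj
    unfold K
    rw [if_neg (by omega), mul_zero]

end Pool.Agent.R120.DDCount
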