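import Mathlib
import Pool.Agent.R120.DDRec

/-! # The root, and a renewal argument -/

set_option autoImplicit false

namespace Pool.Agent.R120.DDCount

open Finset Filter Topology

noncomputable def e (z : ℝ) (j : ℕ) : ℝ := z ^ (j + 1) / (j + 1).factorial

noncomputable def al (z : ℝ) (j : ℕ) : ℝ := cg j * e z j

lemma e_nonneg {z : ℝ} (hz : 0 ≤ z) (j : ℕ) : 0 ≤ e z j := by unfold e; positivity

lemma e_summable (z : ℝ) : Summable (e z) := by
  have := (summable_nat_add_iff 1).2 (Real.summable_pow_div_factorial z)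
  exact this

lemma e_tail_summable (z : ℝ) (m : ℕ) : Summable (fun i => e z (i + m)) :=
  (summable_nat_add_iff m).2 (e_summable z)

lemma e_tail {z : ℝ} (hz : 0 ≤ z) (hz2 : z ≤ 3 / 2) (m : ℕ) (hm : 1 ≤ m) :
    ∑' i, e z (i + m) ≤ 2 * e z m := by
  have h1 : ∀ i, e z (i + m) ≤ e z m * (1 / 2) ^ i := by
    intro i
    induction i with
    | zero => simp
    | succ i ih =>
      have hstep : e z (i + 1 + m) = e z (i + m) * (z / (i + m + 2)) := by
        unfold e
        rw [show i + 1 + m + 1 = (i + m + 1) + 1 by ring, Nat.factorial_succ, pow_succ]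
        push_cast
        field_simp
        ring
      rw [hstep, pow_succ, ← mul_assoc]
      have h3 : z / (i + m + 2) ≤ 1 / 2 := by
        rw [div_le_div_iff₀ (by positivity) (by norm_num)]
        have : (1 : ℝ) ≤ m := by exact_mod_cast hm
        have : (0 : ℝ) ≤ i := by positivity
        linarith
      exact mul_le_mul ih h3 (by positivity) (by have := e_nonneg hz m; positivity)
  calc ∑' i, e z (i + m) ≤ ∑' i, e z m * (1 / 2 : ℝ) ^ i :=
        (e_tail_summable z m).tsum_le_tsum h1 (summable_geometric_two.mul_left _)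
    _ = 2 * e z m := by rw [tsum_mul_left, tsum_geometric_two]; ring

lemma abs_cg (j : ℕ) : |cg j| ≤ 1 := by
  unfold cg; split_ifs <;> norm_num

lemma abs_cf (j : ℕ) : |cf j| ≤ 1 := by
  unfold cf; split_ifs <;> norm_num

lemma abs_al {z : ℝ} (hz : 0 ≤ z) (j : ℕ) : |al z j| ≤ e z j := by
  unfold al
  rw [abs_mul, abs_of_nonneg (e_nonneg hz j)]
  exact mul_le_of_le_one_left (e_nonneg hz j) (abs_cg j)

lemma al_summable {z : ℝ} (hz : 0 ≤ z) : Summable (al z) :=
  Summable.of_norm_bounded (e_summable z) (fun j => abs_al hz j)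

lemma al_tail {z : ℝ} (hz : 0 ≤ z) (hz2 : z ≤ 3 / 2) (m : ℕ) (hm : 1 ≤ m) :
    |∑' i, al z (i + m)| ≤ 2 * e z m := by
  refine le_trans ?_ (e_tail hz hz2 m hm)
  have hs : Summable (fun i => al z (i + m)) := (summable_nat_add_iff m).2 (al_summable hz)
  have := norm_tsum_le_tsum_norm hs.norm
  refine this.trans ?_
  exact hs.norm.tsum_le_tsum (fun i => abs_al hz (i + m)) (e_tail_summable z m)

lemma al_partial (z : ℝ) : ∑ j ∈ range 7, al z j =
    z - z ^ 3 / 6 + z ^ 4 / 24 - z ^ 6 / 720 + z ^ 7 / 5040 := by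
  simp only [sum_range_succ, sum_range_zero, al, e, cg, Nat.factorial]
  norm_num
  ring

lemma exists_root : ∃ z : ℝ, 1.2 ≤ z ∧ z ≤ 1.22 ∧ ∑' j, al z j = 1 := by
  have hcont : ContinuousOn (fun z : ℝ => ∑' j, al z j) (Set.Icc 1.2 1.22) := by
    apply continuousOn_tsum (u := fun j => e 1.22 j)
    · intro j
      unfold al e
      fun_prop
    · exact e_summable _
    · intro j z hz
      have h0 : (0 : ℝ) ≤ z := by linarith [hz.1]
      refine (abs_al h0 j).trans ?_
      unfold e
      gcongr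
      exact hz.2
  have hval : ∀ z : ℝ, 0 ≤ z → z ≤ 3 / 2 →
      |∑' j, al z j - (z - z ^ 3 / 6 + z ^ 4 / 24 - z ^ 6 / 720 + z ^ 7 / 5040)| ≤
        2 * (z ^ 8 / 40320) := by
    intro z h0 h2
    rw [← al_partial, ← (al_summable h0).sum_add_tsum_nat_add 7, add_sub_cancel_left]
    have := al_tail h0 h2 7 (by norm_num)
    refine this.trans (le_of_eq ?_)
    unfold e
    norm_num [Nat.factorial]
  have h1 := hval 1.2 (by norm_num) (by norm_num)
  have h2 := hval 1.22 (by norm_num) (by norm_num)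
  rw [abs_le] at h1 h2
  have := intermediate_value_Icc (by norm_num : (1.2 : ℝ) ≤ 1.22) hcont
  obtain ⟨z, hz, hz'⟩ := this ⟨show (∑' j, al 1.2 j) ≤ 1 by norm_num at h1 ⊢; linarith [h1.2],
    show 1 ≤ (∑' j, al 1.22 j) by norm_num at h2 ⊢; linarith [h2.1]⟩
  exact ⟨z, hz.1, hz.2, hz'⟩

/-- partial tails -/
noncomputable def sq (z : ℝ) (j : ℕ) : ℝ := 1 - ∑ i ∈ range j, al z i

lemma sq_tail {z : ℝ} (hz : 0 ≤ z) (hz2 : z ≤ 3 / 2) (hroot : ∑' j, al z j = 1) (m : ℕ)
    (hm : 1 ≤ m) : |sq z m| ≤ 2 * e z m := by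
  have : sq z m = ∑' i, al z (i + m) := by
    unfold sq
    rw [← hroot, ← (al_summable hz).sum_add_tsum_nat_add m, add_sub_cancel_left]
  rw [this]
  exact al_tail hz hz2 m hm

lemma sq_sum {z : ℝ} (hz : 1.2 ≤ z) (hz2 : z ≤ 1.22) (hroot : ∑' j, al z j = 1) :
    Summable (fun j => |sq z (j + 1)|) ∧ ∑' j, |sq z (j + 1)| ≤ 0.7 := by
  have h0 : (0 : ℝ) ≤ z := by linarith
  have h32 : z ≤ 3 / 2 := by linarith
  have hb : ∀ i, |sq z (i + 6)| ≤ 2 * e z (i + 6) := fun i => sq_tail h0 h32 hroot _ (by omega)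
  have hsum6 : Summable (fun i => |sq z (i + 6)|) :=
    Summable.of_nonneg_of_le (fun i => abs_nonneg _) hb ((e_tail_summable z 6).mul_left 2)
  have hsum : Summable (fun j => |sq z (j + 1)|) := by
    have : Summable (fun i => (fun j => |sq z (j + 1)|) (i + 5)) := by
      simpa [add_assoc] using hsum6
    exact (summable_nat_add_iff 5).1 this
  refine ⟨hsum, ?_⟩
  rw [← hsum.sum_add_tsum_nat_add 5]
  have htail : ∑' i, |sq z (i + 5 + 1)| ≤ 4 * e z 6 := by
    have h1 : ∑' i, |sq z (i + 5 + 1)| ≤ ∑' i, 2 * e z (i + 6) :=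
      hsum6.tsum_le_tsum hb ((e_tail_summable z 6).mul_left 2)
    rw [tsum_mul_left] at h1
    have := e_tail h0 h32 6 (by norm_num)
    linarith
  have p2 : z ^ 2 ≤ 1.4884 := by nlinarith
  have p2' : 1.44 ≤ z ^ 2 := by nlinarith
  have p3 : z ^ 3 ≤ 1.82 := by nlinarith
  have p3' : 1.728 ≤ z ^ 3 := by nlinarith
  have p4 : z ^ 4 ≤ 2.22 := by nlinarith
  have p4' : 2.07 ≤ z ^ 4 := by nlinarith
  have p7 : z ^ 7 ≤ 4.1 := by
    have : z ^ 7 = z ^ 3 * z ^ 4 := by ring
    rw [this]; nlinarith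
  have e6 : e z 6 ≤ 0.001 := by
    unfold e
    norm_num [Nat.factorial]
    rw [div_le_iff₀ (by norm_num)]
    linarith
  have hs : ∀ j, sq z (j + 1) = sq z j - al z j := by
    intro j; unfold sq; rw [sum_range_succ]; ring
  have s0 : sq z 0 = 1 := by unfold sq; simp
  have s1 : sq z 1 = 1 - z := by
    rw [hs 0, s0]; simp [al, e, cg]
  have s2 : sq z 2 = 1 - z := by
    rw [hs 1, s1]; simp [al, cg]
  have s3 : sq z 3 = 1 - z + z ^ 3 / 6 := by
    rw [hs 2, s2]; norm_num [al, e, cg, Nat.factorial]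
  have s4 : sq z 4 = 1 - z + z ^ 3 / 6 - z ^ 4 / 24 := by
    rw [hs 3, s3]; norm_num [al, e, cg, Nat.factorial]
  have s5 : sq z 5 = 1 - z + z ^ 3 / 6 - z ^ 4 / 24 := by
    rw [hs 4, s4]; norm_num [al, e, cg, Nat.factorial]
  simp only [sum_range_succ, sum_range_zero]
  norm_num only
  rw [s1, s2, s3, s4, s5]
  have a1 : |1 - z| ≤ 0.22 := by rw [abs_le]; constructor <;> linarith
  have a3 : |1 - z + z ^ 3 / 6| ≤ 0.11 := by rw [abs_le]; constructor <;> linarith
  have a4 : |1 - z + z ^ 3 / 6 - z ^ 4 / 24| ≤ 0.03 := by rw [abs_le]; constructor <;> linarith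
  linarith

/-- dominated convergence for convolutions -/
lemma tannery {κ b : ℕ → ℝ} {B : ℝ} (hκ : Summable fun j => |κ j|) (hb : Tendsto b atTop (𝓝 B))
    (p : ℕ) : Tendsto (fun n => ∑' j, (if p + j ≤ n then κ j * b (n - (p + j)) else 0)) atTop
      (𝓝 (∑' j, κ j * B)) := by
  obtain ⟨C, hC⟩ : ∃ C, ∀ n, |b n| ≤ C := by
    have hbd : Bornology.IsBounded (Set.range b) := Metric.isBounded_range_of_tendsto b hb
    obtain ⟨C, hC⟩ := hbd.exists_norm_le
    exact ⟨C, fun n => hC _ ⟨n, rfl⟩⟩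
  have hC0 : 0 ≤ C := (abs_nonneg _).trans (hC 0)
  refine tendsto_tsum_of_dominated_convergence (bound := fun j => |κ j| * C) (hκ.mul_right C) ?_ ?_
  · intro j
    have h1 : Tendsto (fun n => κ j * b (n - (p + j))) atTop (𝓝 (κ j * B)) :=
      (hb.comp (tendsto_sub_atTop_nat (p + j))).const_mul _
    refine h1.congr' ?_
    filter_upwards [eventually_ge_atTop (p + j)] with n hn
    rw [if_pos hn]
  · refine Eventually.of_forall fun n j => ?_
    split_ifs
    · rw [Real.norm_eq_abs, abs_mul]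
      exact mul_le_mul_of_nonneg_left (hC _) (abs_nonneg _)
    · rw [norm_zero]; positivity

lemma tsum_if_eq {F : ℕ → ℝ} (n : ℕ) :
    ∑' j, (if 0 + j ≤ n then F j else 0) = ∑ j ∈ range (n + 1), F j := by
  rw [tsum_eq_sum (s := range (n + 1))]
  · apply sum_congr rfl
    intro j hj
    rw [mem_range] at hj
    rw [if_pos (by omega)]
  · intro j hj
    rw [mem_range] at hj
    rw [if_neg (by omega)]

/-- the renewal lemma -/
lemma renewal (α s b : ℕ → ℝ) (hs : ∀ j, s j = 1 - ∑ i ∈ range j, α i) (hb0 : b 0 = 1)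
    (hb : ∀ n, 1 ≤ n → b n = ∑ j ∈ range n, α j * b (n - 1 - j)) (hbn : ∀ n, 0 ≤ b n)
    (hsum : Summable fun j => |s (j + 1)|) (hθ : ∑' j, |s (j + 1)| < 1) :
    ∃ B, 0 < B ∧ Tendsto b atTop (𝓝 B) := by
  have hs0 : s 0 = 1 := by rw [hs]; simp
  have hss : ∀ j, s (j + 1) = s j - α j := by
    intro j; rw [hs, hs, sum_range_succ]; ring
  have hT : ∀ n, ∑ j ∈ range (n + 1), s j * b (n - j) = 1 := by
    intro n
    induction n with
    | zero => simp [hs0, hb0]
    | succ n ih =>
      rw [sum_range_succ', hs0, Nat.sub_zero, one_mul, hb (n + 1) (by omega)]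
      have : ∀ j ∈ range (n + 1), s (j + 1) * b (n + 1 - (j + 1)) =
          s j * b (n - j) - α j * b (n + 1 - 1 - j) := by
        intro j _
        rw [hss, show n + 1 - (j + 1) = n - j by omega, show n + 1 - 1 - j = n - j by omega]; ring
      rw [sum_congr rfl this, sum_sub_distrib, ih]; ring
  set dl : ℕ → ℝ := fun n => if n = 0 then b 0 else b n - b (n - 1) with hdl
  have hdl0 : dl 0 = 1 := by simp [hdl, hb0]
  have hbsum : ∀ n, b n = ∑ i ∈ range (n + 1), dl i := by
    intro n
    induction n with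
    | zero => simp [hdl]
    | succ n ih => rw [sum_range_succ, ← ih]; simp [hdl]
  have hrec : ∀ n, dl (n + 1) = - ∑ j ∈ range (n + 1), s (j + 1) * dl (n - j) := by
    intro n
    have h1 := hT (n + 1)
    have h2 := hT n
    have h3 : ∑ j ∈ range (n + 1 + 1), s j * b (n + 1 - j) - ∑ j ∈ range (n + 1), s j * b (n - j) =
        ∑ j ∈ range (n + 1 + 1), s j * dl (n + 1 - j) := by
      rw [sum_range_succ, sum_range_succ (fun j => s j * dl (n + 1 - j))]
      have : ∀ j ∈ range (n + 1), s j * dl (n + 1 - j) = s j * b (n + 1 - j) - s j * b (n - j) := by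
        intro j hj
        rw [mem_range] at hj
        simp only [hdl]
        rw [if_neg (by omega), show n + 1 - j - 1 = n - j by omega]; ring
      rw [sum_congr rfl this, sum_sub_distrib, Nat.sub_self, hdl0, hb0]; ring
    rw [h1, h2, sub_self, sum_range_succ', hs0, Nat.sub_zero, one_mul] at h3
    have h4 : ∀ j ∈ range (n + 1), s (j + 1) * dl (n + 1 - (j + 1)) = s (j + 1) * dl (n - j) := by
      intro j _; rw [show n + 1 - (j + 1) = n - j by omega]
    rw [sum_congr rfl h4] at h3
    linarith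
  set θ := ∑' j, |s (j + 1)| with hθdef
  have hA : ∀ M, ∑ i ∈ range M, |dl i| ≤ 1 / (1 - θ) := by
    have hθ0 : 0 ≤ θ := tsum_nonneg fun j => abs_nonneg _
    have hpos : 0 < 1 - θ := by linarith
    intro M
    cases M with
    | zero => simp; linarith
    | succ M =>
      have h1 : ∑ i ∈ range (M + 1), |dl i| ≤ 1 + θ * ∑ i ∈ range (M + 1), |dl i| := by
        rw [sum_range_succ', hdl0, abs_one, add_comm]
        have h2 : ∑ n ∈ range M, |dl (n + 1)| ≤
            ∑ n ∈ range M, ∑ j ∈ range (n + 1), |s (j + 1)| * |dl (n - j)| := by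
          apply sum_le_sum
          intro n _
          rw [hrec, abs_neg]
          refine (abs_sum_le_sum_abs _ _).trans (le_of_eq ?_)
          apply sum_congr rfl
          intro j _
          rw [abs_mul]
        have h3 : ∑ n ∈ range M, ∑ j ∈ range (n + 1), |s (j + 1)| * |dl (n - j)| ≤
            θ * ∑ i ∈ range (M + 1), |dl i| := by
          rw [Finset.sum_range_diag_flip M (fun j k => |s (j + 1)| * |dl k|)]
          have h4 : ∀ m ∈ range M, ∑ k ∈ range (M - m), |s (m + 1)| * |dl k| ≤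
              |s (m + 1)| * ∑ i ∈ range (M + 1), |dl i| := by
            intro m _
            rw [← mul_sum]
            apply mul_le_mul_of_nonneg_left _ (abs_nonneg _)
            apply sum_le_sum_of_subset_of_nonneg
            · exact Finset.range_subset_range.2 (by omega)
            · intro i _ _; exact abs_nonneg _
          refine (sum_le_sum h4).trans ?_
          rw [← sum_mul]
          apply mul_le_mul_of_nonneg_right
          · exact hsum.sum_le_tsum _ (fun i _ => abs_nonneg _)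
          · exact sum_nonneg fun i _ => abs_nonneg _
        have h5 : ∑ k ∈ range M, |dl (k + 1)| + 1 = ∑ i ∈ range (M + 1), |dl i| := by
          rw [sum_range_succ', hdl0, abs_one]
        rw [← h5] at h3
        have h6 := h2.trans h3
        linarith
      rw [le_div_iff₀ hpos]
      nlinarith
  have hdsum : Summable fun i => |dl i| :=
    summable_of_sum_range_le (fun i => abs_nonneg _) hA
  have hdsum' : Summable dl := hdsum.of_abs
  have hlim : Tendsto b atTop (𝓝 (∑' i, dl i)) := by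
    have h1 := hdsum'.hasSum.tendsto_sum_nat
    have h2 := h1.comp (tendsto_add_atTop_nat 1)
    refine h2.congr ?_
    intro n
    exact (hbsum n).symm
  refine ⟨_, lt_of_le_of_ne (ge_of_tendsto' hlim hbn) ?_, hlim⟩
  intro h0
  rw [← h0] at hlim
  have hsabs : Summable fun j => |s j| := (summable_nat_add_iff 1).1 hsum
  have h1 := tannery hsabs hlim 0
  simp only [mul_zero, tsum_zero] at h1
  have h2 : ∀ n, ∑' j, (if 0 + j ≤ n then s j * b (n - (0 + j)) else 0) = 1 := by
    intro n
    rw [tsum_if_eq (F := fun j => s j * b (n - (0 + j)))]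
    simpa using hT n
  simp only [h2] at h1
  exact zero_ne_one (tendsto_nhds_unique h1 tendsto_const_nhds)

end Pool.Agent.R120.DDCount
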