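import Mathlib

/-! # Double descent sets: definitions -/

set_option autoImplicit false

namespace Pool.Agent.R120.DDDef

/-- `i` is a double descent of `π = π(1) … π(n)`: `2 ≤ i ≤ n - 1` and `π(i-1) > π(i) > π(i+1)`.
(The entry `π(k)` of one-line notation is `π ⟨k - 1, _⟩`.) -/
def IsDoubleDescent {n : ℕ} (π : Equiv.Perm (Fin n)) (i : ℕ) : Prop :=
  2 ≤ i ∧ ∃ h : i < n, π ⟨i, h⟩ < π ⟨i - 1, by omega⟩ ∧ π ⟨i - 1, by omega⟩ < π ⟨i - 2, by omega⟩

/-- The number of permutations of length `n` whose double descent set is exactly `I`. -/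
noncomputable def dd (I : Finset ℕ) (n : ℕ) : ℕ :=
  Nat.card {π : Equiv.Perm (Fin n) // ∀ i, i ∈ I ↔ IsDoubleDescent π i}

end Pool.Agent.R120.DDDef
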