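import Mathlib
import Pool.Agent.R120.DDAna
import Pool.Agent.R120.DDDef

/-! # Limits of the normalised counts -/

set_option autoImplicit false

namespace Pool.Agent.R120.DDCount

open Finset Filter Topology

lemma g_limit {z : ℝ} (hz : 1.2 ≤ z) (hz2 : z ≤ 1.22) (hroot : ∑' j, al z j = 1) :
    ∃ B, 0 < B ∧ Tendsto (fun n => g n * z ^ n) atTop (𝓝 B) := by
  have h0 : 0 < z := by linarith
  obtain ⟨h1, h2⟩ := sq_sum hz hz2 hroot
  refine renewal (al z) (sq z) (fun n => g n * z ^ n) (fun j => rfl) (by simp [g_zero]) ?_ ?_ h1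
    (lt_of_le_of_lt h2 (by norm_num))
  · intro n hn
    rw [g_rec n hn, sum_mul]
    apply sum_congr rfl
    intro j hj
    rw [mem_range] at hj
    have : z ^ n = z ^ (j + 1) * z ^ (n - 1 - j) := by rw [← pow_add]; congr 1; omega
    rw [this]
    unfold al e
    ring
  · intro n
    have := g_nonneg n
    positivity

/-- the coefficients of the limit of `Y w p n * z ^ n` -/
noncomputable def kap (z : ℝ) (w : ℕ → Bool) (p j : ℕ) : ℝ := cf j * q w (p + j) * z ^ (p + j + 1)

lemma kap_summable {z : ℝ} (hz : 0 ≤ z) (w : ℕ → Bool) (p : ℕ) (hw : ∀ i, p ≤ i → w i = true) :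
    Summable fun j => |kap z w p j| := by
  have h1 : ∀ j, |kap z w p j| ≤ q w p * z ^ (p + 1) * (z ^ j / j.factorial) := by
    intro j
    unfold kap
    rw [abs_mul, abs_mul, abs_of_nonneg (q_nonneg w (p + j)),
      abs_of_nonneg (by positivity : 0 ≤ z ^ (p + j + 1))]
    have h2 := q_run w true p j (fun i hi _ => hw i hi)
    have h3 := abs_cf j
    have h4 := q_nonneg w (p + j)
    have h5 : (0 : ℝ) ≤ z ^ (p + j + 1) := by positivity
    calc |cf j| * q w (p + j) * z ^ (p + j + 1) ≤ 1 * q w (p + j) * z ^ (p + j + 1) := by gcongr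
      _ ≤ 1 * (q w p / j.factorial) * z ^ (p + j + 1) := by gcongr
      _ = q w p * z ^ (p + 1) * (z ^ j / j.factorial) := by
          rw [show p + j + 1 = (p + 1) + j by ring, pow_add]; ring
  exact Summable.of_nonneg_of_le (fun j => abs_nonneg _) h1
    ((Real.summable_pow_div_factorial z).mul_left _)

lemma Y_limit {z B : ℝ} (hz : 0 < z) (hB : Tendsto (fun n => g n * z ^ n) atTop (𝓝 B))
    (w : ℕ → Bool) (p : ℕ) (hw : ∀ i, p ≤ i → w i = true) :
    Tendsto (fun n => Y w p n * z ^ n) atTop (𝓝 ((∑' j, kap z w p j) * B)) := by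
  have h1 := tannery (kap_summable hz.le w p hw) hB (p + 1)
  rw [tsum_mul_right] at h1
  refine h1.congr' ?_
  filter_upwards [eventually_ge_atTop (p + 1)] with n hn
  have h2 := sum_cf w p p n hw (le_refl _) hn n
  rw [Y_zero w p (p + 3 * n) n hw (by omega) (by omega), sub_zero] at h2
  rw [← h2, sum_mul]
  rw [tsum_eq_sum (s := range (3 * n))]
  · apply sum_congr rfl
    intro j _
    unfold K
    by_cases h : p + j + 1 ≤ n
    · rw [if_pos (by omega), if_pos h]
      have : z ^ n = z ^ (p + j + 1) * z ^ (n - (p + 1 + j)) := by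
        rw [← pow_add]; congr 1; omega
      rw [this, show n - (p + j) - 1 = n - (p + 1 + j) by omega]
      unfold kap
      ring
    · rw [if_neg (by omega), if_neg h]; ring
  · intro j hj
    rw [mem_range] at hj
    rw [if_neg (by omega)]

lemma q_congr {w w' : ℕ → Bool} {p : ℕ} (h : ∀ i < p, w i = w' i) : q w p = q w' p := by
  apply pr_congr
  intro π
  constructor
  · intro h' i hi; rw [← h i hi]; exact h' i hi
  · intro h' i hi; rw [h i hi]; exact h' i hi

/-- the limit is positive -/
lemma kap_pos {z B : ℝ} (hz : 1.2 ≤ z) (hz2 : z ≤ 1.22) (hB0 : 0 < B)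
    (hB : Tendsto (fun n => g n * z ^ n) atTop (𝓝 B))
    (w : ℕ → Bool) (p : ℕ) (hw : ∀ i, p ≤ i → w i = true) : 0 < (∑' j, kap z w p j) * B := by
  have hz0 : 0 < z := by linarith
  -- all ups after `p`
  set wU : ℕ → Bool := fun i => if i < p then w i else false with hwU
  have hrunU : ∀ a, q wU (p + a) ≤ q wU p / a.factorial := fun a =>
    q_run wU false p a (fun i hi _ => by simp [hwU, not_lt.2 hi])
  obtain ⟨t, ht1, ht⟩ : ∃ t, 1 ≤ t ∧ q wU (p + t + 1) ≤ 0.1 * q wU (p + t) := by
    by_contra hcon
    push Not at hcon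
    have h1 : ∀ k, 0.1 ^ k * q wU (p + 1) ≤ q wU (p + 1 + k) := by
      intro k
      induction k with
      | zero => simp
      | succ k ih =>
        have := (hcon (1 + k) (by omega)).le
        rw [show p + (1 + k) + 1 = p + 1 + (k + 1) by ring,
          show p + (1 + k) = p + 1 + k by ring] at this
        rw [pow_succ]
        linarith
    have h2 : ∀ k : ℕ, q wU (p + 1) ≤ q wU p * (10 ^ (k + 1) / (k + 1).factorial) := by
      intro k
      have h3' : q wU (p + 1 + k) ≤ q wU p / (k + 1).factorial := by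
        have := hrunU (1 + k)
        rw [show p + (1 + k) = p + 1 + k by ring, show 1 + k = k + 1 by ring] at this
        exact this
      have h3 := (h1 k).trans h3'
      have h4 : (0.1 : ℝ) ^ k * 10 ^ k = 1 := by rw [← mul_pow]; norm_num
      have h5 : q wU (p + 1) = 10 ^ k * (0.1 ^ k * q wU (p + 1)) := by
        rw [← mul_assoc, mul_comm ((10 : ℝ) ^ k), h4, one_mul]
      rw [h5]
      have h6 : (10 : ℝ) ^ k * (0.1 ^ k * q wU (p + 1)) ≤
          10 ^ k * (q wU p / (k + 1).factorial) := by gcongr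
      refine h6.trans ?_
      have h7 : (10 : ℝ) ^ k ≤ 10 ^ (k + 1) := by
        rw [pow_succ]; nlinarith [pow_pos (show (0 : ℝ) < 10 by norm_num) k]
      have h8 := q_nonneg wU p
      calc (10 : ℝ) ^ k * (q wU p / (k + 1).factorial) ≤
          10 ^ (k + 1) * (q wU p / (k + 1).factorial) := by gcongr
        _ = _ := by ring
    have h3 : Tendsto (fun k : ℕ => q wU p * ((10 : ℝ) ^ (k + 1) / (k + 1).factorial)) atTop
        (𝓝 (q wU p * 0)) := by
      apply Tendsto.const_mul
      exact (FloorSemiring.tendsto_pow_div_factorial_atTop (10 : ℝ)).comp (tendsto_add_atTop_nat 1)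
    rw [mul_zero] at h3
    have h4 := ge_of_tendsto' h3 h2
    exact absurd (q_pos wU (p + 1)) (not_lt.2 h4)
  set w2 : ℕ → Bool := fun i => if i < p then w i else if i < p + t then false else true with hw2
  have hw2t : ∀ i, p + t ≤ i → w2 i = true := by
    intro i hi
    simp only [hw2]
    rw [if_neg (by omega), if_neg (by omega)]
  set Q := q wU (p + t) with hQ
  have hQpos : 0 < Q := q_pos _ _
  have hQ2 : q w2 (p + t) = Q := by
    apply q_congr
    intro i hi
    simp only [hw2, hwU]
    split_ifs <;> rfl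
  have hrun : ∀ a, q w2 (p + t + a) ≤ Q / a.factorial := by
    intro a
    rw [← hQ2]
    exact q_run w2 true (p + t) a (fun i hi _ => hw2t i hi)
  have hsplit : q w2 (p + t + 1) + q wU (p + t + 1) = Q := by
    rw [← hQ2]
    apply q_split
    · intro i hi
      simp only [hw2, hwU]
      split_ifs <;> rfl
    · exact hw2t _ (le_refl _)
    · simp only [hwU]
      rw [if_neg (by omega)]
  -- comparison of the counts
  have hle : ∀ n, Y w2 (p + t + 1) n * z ^ n ≤ Y w p n * z ^ n := by
    intro n
    apply mul_le_mul_of_nonneg_right _ (by positivity)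
    apply pr_mono
    rintro π ⟨hp, hd, hn⟩
    have hmid : ∀ i, p ≤ i → i < p + t → bits π i = false := by
      intro i h1 h2
      rw [hp i (by omega)]
      simp only [hw2]
      rw [if_neg (by omega), if_pos h2]
    refine ⟨fun i hi => ?_, hmid p (le_refl _) (by omega), fun j hj => ?_⟩
    · rw [hp i (by omega)]
      simp only [hw2]
      rw [if_pos hi]
    · rcases Nat.lt_trichotomy j (p + t) with h | h | h
      · rw [hmid j (by omega) h]; simp
      · rw [h, hd]; simp
      · rcases Nat.lt_trichotomy j (p + t + 1) with h' | h' | h'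
        · omega
        · rw [h', hd]; simp
        · exact hn j (by omega)
  have hlim1 := Y_limit hz0 hB w p hw
  have hlim2 := Y_limit hz0 hB w2 (p + t + 1) (fun i hi => hw2t i (by omega))
  refine lt_of_lt_of_le ?_ (le_of_tendsto_of_tendsto' hlim2 hlim1 hle)
  apply mul_pos _ hB0
  -- the explicit bound
  have hsum := kap_summable hz0.le w2 (p + t + 1) (fun i hi => hw2t i (by omega))
  rw [← hsum.of_abs.sum_add_tsum_nat_add 3]
  have hb : ∀ j, |kap z w2 (p + t + 1) j| ≤ Q * z ^ (p + t + 1) * e z j := by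
    intro j
    unfold kap e
    rw [abs_mul, abs_mul, abs_of_nonneg (q_nonneg _ _),
      abs_of_nonneg (by positivity : 0 ≤ z ^ (p + t + 1 + j + 1))]
    have h2 := hrun (j + 1)
    rw [show p + t + (j + 1) = p + t + 1 + j by ring] at h2
    have h3 := abs_cf j
    have h4 := q_nonneg w2 (p + t + 1 + j)
    calc |cf j| * q w2 (p + t + 1 + j) * z ^ (p + t + 1 + j + 1) ≤
        1 * q w2 (p + t + 1 + j) * z ^ (p + t + 1 + j + 1) := by gcongr
      _ ≤ 1 * (Q / (j + 1).factorial) * z ^ (p + t + 1 + j + 1) := by gcongr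
      _ = Q * z ^ (p + t + 1) * (z ^ (j + 1) / (j + 1).factorial) := by
          rw [show p + t + 1 + j + 1 = (p + t + 1) + (j + 1) by ring, pow_add]; ring
  have htail : |∑' i, kap z w2 (p + t + 1) (i + 3)| ≤ Q * z ^ (p + t + 1) * (2 * e z 3) := by
    have hs3 : Summable (fun i => |kap z w2 (p + t + 1) (i + 3)|) :=
      (summable_nat_add_iff (f := fun i => |kap z w2 (p + t + 1) i|) 3).2 hsum
    have h1 := norm_tsum_le_tsum_norm (f := fun i => kap z w2 (p + t + 1) (i + 3)) hs3
    refine h1.trans ?_
    have h2 : ∑' i, ‖kap z w2 (p + t + 1) (i + 3)‖ ≤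
        ∑' i, Q * z ^ (p + t + 1) * e z (i + 3) :=
      Summable.tsum_le_tsum (fun i => hb (i + 3)) hs3 ((e_tail_summable z 3).mul_left _)
    refine h2.trans ?_
    rw [tsum_mul_left]
    have := e_tail hz0.le (by linarith) 3 (by norm_num)
    gcongr
  have k0 : kap z w2 (p + t + 1) 0 = q w2 (p + t + 1) * z ^ (p + t + 1) * z := by
    unfold kap cf
    rw [Nat.add_zero, pow_succ]
    norm_num
    ring
  have k1 : kap z w2 (p + t + 1) 1 = - (q w2 (p + t + 1 + 1) * z ^ (p + t + 1) * z ^ 2) := by
    unfold kap cf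
    rw [show p + t + 1 + 1 + 1 = (p + t + 1) + 2 by ring, pow_add]
    norm_num
    ring
  have k2 : kap z w2 (p + t + 1) 2 = 0 := by
    unfold kap cf
    norm_num
  simp only [sum_range_succ, sum_range_zero, zero_add, k0, k1, k2, add_zero]
  have e3 : e z 3 = z ^ 4 / 24 := by unfold e; norm_num [Nat.factorial]
  rw [e3, abs_le] at htail
  have q1 : 0.9 * Q ≤ q w2 (p + t + 1) := by linarith
  have q2 : q w2 (p + t + 1 + 1) ≤ Q / 2 := by
    have := hrun 2
    norm_num [Nat.factorial] at this
    exact this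
  set P := z ^ (p + t + 1) with hP
  have hPpos : 0 < P := by positivity
  have hPQ : 0 < P * Q := mul_pos hPpos hQpos
  have f1 : 0.9 * Q * P * z ≤ q w2 (p + t + 1) * P * z := by gcongr
  have f2 : q w2 (p + t + 1 + 1) * P * z ^ 2 ≤ Q / 2 * P * z ^ 2 := by gcongr
  have f3 : 0 < 0.9 * z - z ^ 2 / 2 - z ^ 4 / 12 := by
    have p2 : z ^ 2 ≤ 1.4884 := by nlinarith
    have p4 : z ^ 4 ≤ 2.22 := by
      have : z ^ 4 = z ^ 2 * z ^ 2 := by ring
      rw [this]; nlinarith [sq_nonneg z]
    linarith
  have f4 : 0 < P * Q * (0.9 * z - z ^ 2 / 2 - z ^ 4 / 12) := mul_pos hPQ f3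
  nlinarith [htail.1]

/-! ### Double descent sets -/

def ex {m : ℕ} (f : Fin m → Bool) (i : ℕ) : Bool := if h : i < m then f ⟨i, h⟩ else true

lemma hex1 {m : ℕ} (f : Fin m → Bool) (i : ℕ) (h : i < m) : ex f i = f ⟨i, h⟩ := by
  unfold ex; rw [dif_pos h]

lemma hex2 {m : ℕ} (f : Fin m → Bool) (i : ℕ) (h : m ≤ i) : ex f i = true := by
  unfold ex; rw [dif_neg (by omega)]

def EI (I : Finset ℕ) (d : ℕ → Bool) : Prop :=
  ∀ i, i ∈ I ↔ 2 ≤ i ∧ d (i - 2) = true ∧ d (i - 1) = true

open Pool.Agent.R120.DDDef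

lemma dd_eq (I : Finset ℕ) (n : ℕ) : (dd I n : ℝ) = cnt n (EI I) := by
  classical
  unfold dd cnt
  rw [Nat.card_eq_fintype_card, Fintype.card_subtype, Finset.sum_boole]
  congr 2
  ext π
  simp only [mem_filter, mem_univ, true_and]
  unfold EI IsDoubleDescent
  apply forall_congr'
  intro i
  apply iff_congr Iff.rfl
  apply and_congr_right
  intro hi
  rw [bits_eq_true, bits_eq_true]
  constructor
  · rintro ⟨h, h1, h2⟩
    refine ⟨⟨by omega, ?_⟩, ⟨by omega, ?_⟩⟩
    · convert h2 using 3; omega
    · convert h1 using 3; omega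
  · rintro ⟨⟨h1, h1'⟩, ⟨h2, h2'⟩⟩
    refine ⟨by omega, ?_, ?_⟩
    · convert h2' using 3; omega
    · convert h1' using 3; omega

lemma EI_limit {z B : ℝ} (hz : 1.2 ≤ z) (hz2 : z ≤ 1.22) (hB0 : 0 < B)
    (hB : Tendsto (fun n => g n * z ^ n) atTop (𝓝 B)) (I : Finset ℕ) (n₀ : ℕ)
    (hpos : 0 < dd I n₀) : ∃ Λ, 0 < Λ ∧ Tendsto (fun n => pr n (EI I) * z ^ n) atTop (𝓝 Λ) := by
  classical
  rcases I.eq_empty_or_nonempty with rfl | hne
  · refine ⟨B, hB0, hB.congr fun n => ?_⟩
    congr 1
    apply pr_congr
    intro π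
    constructor
    · intro h i
      constructor
      · intro hi; simp at hi
      · rintro ⟨hi, h1, h2⟩
        have := h (i - 2) (by omega)
        rw [show i - 2 + 1 = i - 1 by omega] at this
        exact absurd ⟨h1, h2⟩ this
    · intro h j _ hj
      have := (h (j + 2)).2 ⟨by omega, hj.1, hj.2⟩
      simp at this
  · obtain ⟨m, hmI, hmax⟩ : ∃ m, m ∈ I ∧ ∀ i ∈ I, i ≤ m :=
      ⟨I.max' hne, I.max'_mem hne, fun i hi => I.le_max' i hi⟩
    set W : Finset (Fin m → Bool) := univ.filter (fun f => ∀ i, i ≤ m → (i ∈ I ↔ 2 ≤ i ∧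
      ex f (i - 2) = true ∧ ex f (i - 1) = true)) with hW
    have hsum : ∀ n, pr n (EI I) = ∑ f ∈ W, Y (ex f) m n := by
      intro n
      apply pr_sum W (fun f d => pre m (ex f) d ∧ d m = false ∧ ndd (m + 1) d)
      · intro π
        set d := bits π
        constructor
        · intro h
          have hm2 := (h m).1 hmI
          refine ⟨fun i => d i, ?_, ?_, ?_, ?_⟩
          · rw [hW, mem_filter]
            refine ⟨mem_univ _, fun i hi => ?_⟩
            rw [h i]
            apply and_congr_right
            intro h2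
            have e1 := hex1 (fun i : Fin m => d i) (i - 2) (by omega)
            have e2 := hex1 (fun i : Fin m => d i) (i - 1) (by omega)
            rw [e1, e2]
          · intro i hi
            exact (hex1 (fun i : Fin m => d i) i hi).symm
          · rw [Bool.eq_false_iff]
            intro hd
            have := (h (m + 1)).2 ⟨by omega, by
              rw [show m + 1 - 2 = m - 1 by omega]; exact hm2.2.2, by
              rw [Nat.add_sub_cancel]; exact hd⟩
            have := hmax _ this
            omega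
          · intro j hj hd
            have := (h (j + 2)).2 ⟨by omega, hd.1, hd.2⟩
            have := hmax _ this
            omega
        · rintro ⟨f, hf, hp, hd, hn⟩ i
          rw [hW, mem_filter] at hf
          rcases Nat.lt_or_ge m i with h | h
          · constructor
            · intro hi; have := hmax i hi; omega
            · rintro ⟨h2, h3, h4⟩
              rcases Nat.lt_trichotomy i (m + 1) with h' | h' | h'
              · omega
              · rw [h', Nat.add_sub_cancel, hd] at h4
                exact absurd h4 Bool.false_ne_true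
              · rcases Nat.lt_trichotomy i (m + 2) with h'' | h'' | h''
                · omega
                · rw [h'', Nat.add_sub_cancel, hd] at h3
                  exact absurd h3 Bool.false_ne_true
                · have := hn (i - 2) (by omega)
                  rw [show i - 2 + 1 = i - 1 by omega] at this
                  exact absurd ⟨h3, h4⟩ this
          · rw [hf.2 i h]
            apply and_congr_right
            intro h2
            rw [hp (i - 2) (by omega), hp (i - 1) (by omega)]
      · rintro π f hf f' hf' ⟨h1, _⟩ ⟨h2, _⟩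
        funext i
        have a1 := h1 i i.2
        have a2 := h2 i i.2
        rw [hex1 _ _ i.2] at a1 a2
        exact a1.symm.trans a2
    have hWne : W.Nonempty := by
      rw [nonempty_iff_ne_empty]
      intro h0
      have h1 := hsum n₀
      rw [h0, sum_empty] at h1
      unfold pr at h1
      rw [div_eq_zero_iff] at h1
      rcases h1 with h1 | h1
      · rw [← dd_eq] at h1
        have : dd I n₀ = 0 := by exact_mod_cast h1
        omega
      · exact absurd h1 (by exact_mod_cast n₀.factorial_ne_zero)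
    refine ⟨∑ f ∈ W, (∑' j, kap z (ex f) m j) * B, ?_, ?_⟩
    · apply sum_pos _ hWne
      intro f _
      exact kap_pos hz hz2 hB0 hB _ _ (fun i hi => hex2 f i hi)
    · have : Tendsto (fun n => ∑ f ∈ W, Y (ex f) m n * z ^ n) atTop
          (𝓝 (∑ f ∈ W, (∑' j, kap z (ex f) m j) * B)) := by
        apply tendsto_finsetSum
        intro f _
        exact Y_limit (by linarith) hB _ _ (fun i hi => hex2 f i hi)
      refine this.congr fun n => ?_
      rw [hsum, sum_mul]

theorem main (I J : Finset ℕ) (n₁ n₂ : ℕ) (hI : 0 < dd I n₁) (hJ : 0 < dd J n₂) :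
    ∃ c : ℝ, 0 < c ∧ Tendsto (fun n => (dd I n : ℝ) / dd J n) atTop (𝓝 c) := by
  obtain ⟨z, hz, hz2, hroot⟩ := exists_root
  obtain ⟨B, hB0, hB⟩ := g_limit hz hz2 hroot
  obtain ⟨Λ, h1, h2⟩ := EI_limit hz hz2 hB0 hB I n₁ hI
  obtain ⟨Λ', h1', h2'⟩ := EI_limit hz hz2 hB0 hB J n₂ hJ
  refine ⟨Λ / Λ', div_pos h1 h1', ?_⟩
  refine (h2.div h2' h1'.ne').congr fun n => ?_
  have hz0 : (z : ℝ) ^ n ≠ 0 := by have : 0 < z := by linarith
                                   positivity
  rw [dd_eq, dd_eq, Pi.div_apply]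
  unfold pr
  have : (n.factorial : ℝ) ≠ 0 := by exact_mod_cast n.factorial_ne_zero
  field_simp

end Pool.Agent.R120.DDCount
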