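import Mathlib

/-!
# Long extremal square-free permutations

The centre `c k` (length `len k = 2 ^ (k+1) - 1`) is obtained by repeatedly interleaving; the two ends are a
fixed left-extremal word of length 19 and its reverse complement.
-/

set_option autoImplicit false

namespace Pool.Agent.R120.ExtSq

/-- The blocks of length `ℓ` starting at `i` and at `j` are order isomorphic. -/
def Iso (f : ℕ → ℤ) (i j ℓ : ℕ) : Prop :=
  ∀ a < ℓ, ∀ b < ℓ, (f (i + a) < f (i + b) ↔ f (j + a) < f (j + b))

def SqFree (f : ℕ → ℤ) (n : ℕ) : Prop :=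
  ∀ s ℓ : ℕ, 2 ≤ ℓ → s + 2 * ℓ ≤ n → ¬ Iso f s (s + ℓ) ℓ

def len : ℕ → ℕ
  | 0 => 1
  | k + 1 => 2 * len k + 1

def bd : ℕ → ℤ
  | 0 => 1
  | k + 1 => bd k + 2 * len k + 1

def c : ℕ → ℕ → ℤ
  | 0, _ => 0
  | k + 1, i =>
    if i % 4 = 0 then -(bd k + i) else if i % 4 = 2 then bd k + (2 * len k - i) else c k (i / 2)

def ltb : ℕ → ℕ → ℕ → Bool
  | 0, _, _ => false
  | k + 1, i, j =>
    if i % 4 = 0 then (!(j % 4 == 0)) || decide (j < i)
    else if i % 4 = 2 then (j % 4 == 2) && decide (j < i)
    else (j % 4 == 2) || ((!(j % 4 == 0)) && ltb k (i / 2) (j / 2))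

lemma len_odd (k : ℕ) : len k % 2 = 1 := by
  cases k with
  | zero => rfl
  | succ k => simp only [len]; omega

lemma len_succ_mod (k : ℕ) : len (k + 1) % 4 = 3 := by
  have := len_odd k
  simp only [len]; omega

lemma le_len (k : ℕ) : k + 1 ≤ len k := by
  induction k with
  | zero => exact le_refl _
  | succ k ih => simp only [len]; omega

lemma len_mono {k m : ℕ} (h : k ≤ m) : len k ≤ len m := by
  induction h with
  | refl => exact le_refl _
  | step _ ih => simp only [len]; omega

lemma bd_pos (k : ℕ) : 0 < bd k := by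
  induction k with
  | zero => decide
  | succ k ih => simp only [bd]; omega

lemma abs_c_lt (k : ℕ) : ∀ i, i < len k → -bd k < c k i ∧ c k i < bd k := by
  induction k with
  | zero => intro i _; simp [c, bd]
  | succ k ih =>
    intro i hi
    have hb := bd_pos k
    simp only [len] at hi
    simp only [c, bd]
    split_ifs with h0 h2
    · constructor <;> omega
    · constructor <;> omega
    · have hl := ih (i / 2) (by omega)
      constructor <;> omega

lemma c_lt_iff (k : ℕ) : ∀ i j, i < len k → j < len k → (c k i < c k j ↔ ltb k i j = true) := by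
  induction k with
  | zero => intro i j _ _; simp [c, ltb]
  | succ k ih =>
    intro i j hi hj
    have hb := bd_pos k
    simp only [len] at hi hj
    by_cases hi0 : i % 4 = 0
    · by_cases hj0 : j % 4 = 0
      · simp [c, ltb, hi0, hj0]
      · by_cases hj2 : j % 4 = 2
        · simp [c, ltb, hi0, hj2]; omega
        · have := abs_c_lt k (j / 2) (by omega)
          simp [c, ltb, hi0, hj2, hj0]; omega
    · by_cases hi2 : i % 4 = 2
      · by_cases hj0 : j % 4 = 0
        · simp [c, ltb, hi2, hj0]; omega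
        · by_cases hj2 : j % 4 = 2
          · simp [c, ltb, hi2, hj2]
          · have := abs_c_lt k (j / 2) (by omega)
            simp [c, ltb, hi2, hj2, hj0]; omega
      · have hi' := abs_c_lt k (i / 2) (by omega)
        by_cases hj0 : j % 4 = 0
        · simp [c, ltb, hi0, hi2, hj0]; omega
        · by_cases hj2 : j % 4 = 2
          · simp [c, ltb, hi0, hi2, hj2]; omega
          · have hj' := abs_c_lt k (j / 2) (by omega)
            have := ih (i / 2) (j / 2) (by omega) (by omega)
            simp [c, ltb, hi0, hi2, hj2, hj0, this]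

lemma c_symm (k : ℕ) : ∀ i j, i + j + 1 = len k → c k j = - c k i := by
  induction k with
  | zero => intro i j _; simp [c]
  | succ k ih =>
    intro i j hij
    have ho := len_odd k
    simp only [len] at hij
    by_cases hi0 : i % 4 = 0
    · have hj2 : j % 4 = 2 := by omega
      simp [c, hi0, hj2]; omega
    · by_cases hi2 : i % 4 = 2
      · have hj0 : j % 4 = 0 := by omega
        simp [c, hi2, hj0]; omega
      · have hj0 : j % 4 ≠ 0 := by omega
        have hj2 : j % 4 ≠ 2 := by omega
        simp only [c, hi0, hi2, hj0, hj2, if_false]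
        exact ih (i / 2) (j / 2) (by omega)

lemma c_shape (k : ℕ) (i : ℕ) (hi : i + 1 < len (k + 1)) :
    c (k + 1) i < c (k + 1) (i + 1) ↔ i % 4 < 2 := by
  have hb := bd_pos k
  have hi' := hi
  simp only [len] at hi'
  by_cases h0 : i % 4 = 0
  · have h1 : (i + 1) % 4 = 1 := by omega
    have := abs_c_lt k ((i + 1) / 2) (by omega)
    simp [c, h0, h1]; omega
  · by_cases h1 : i % 4 = 1
    · have h2 : (i + 1) % 4 = 2 := by omega
      have := abs_c_lt k (i / 2) (by omega)
      simp [c, h1, h2]; omega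
    · by_cases h2 : i % 4 = 2
      · have h3 : (i + 1) % 4 = 3 := by omega
        have := abs_c_lt k ((i + 1) / 2) (by omega)
        simp [c, h2, h3]; omega
      · have h3 : i % 4 = 3 := by omega
        have h4 : (i + 1) % 4 = 0 := by omega
        have := abs_c_lt k (i / 2) (by omega)
        simp [c, h3, h4]; omega

lemma four_dvd_of_iso {f : ℕ → ℤ} {n e : ℕ}
    (hshape : ∀ i, i + 1 < n → (f i < f (i + 1) ↔ (i + e) % 4 < 2)) {s ℓ : ℕ} (h2 : 2 ≤ ℓ)
    (hs : s + 2 * ℓ ≤ n) (hiso : Iso f s (s + ℓ) ℓ) : ℓ % 4 = 0 := by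
  have h01 := hiso 0 (by omega) 1 (by omega)
  simp only [Nat.add_zero] at h01
  rw [hshape s (by omega), hshape (s + ℓ) (by omega)] at h01
  by_cases h3 : 3 ≤ ℓ
  · have h12 := hiso 1 (by omega) 2 (by omega)
    have e1 := hshape (s + 1) (by omega)
    have e2 := hshape (s + ℓ + 1) (by omega)
    rw [show s + 1 + 1 = s + 2 from rfl] at e1
    rw [show s + ℓ + 1 + 1 = s + ℓ + 2 from rfl] at e2
    rw [e1, e2] at h12
    omega
  · have : ℓ = 2 := by omega
    subst this
    omega

lemma c_odd (k i : ℕ) (h : i % 2 = 1) : c (k + 1) i = c k (i / 2) := by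
  have h0 : i % 4 ≠ 0 := by omega
  have h2 : i % 4 ≠ 2 := by omega
  simp only [c, h0, h2, if_false]

lemma c_sqFree (k : ℕ) : SqFree (c k) (len k) := by
  induction k with
  | zero =>
    intro s ℓ h2 hs _
    simp only [len] at hs
    omega
  | succ k ih =>
    intro s ℓ h2 hs hiso
    have h4 : ℓ % 4 = 0 :=
      four_dvd_of_iso (f := c (k + 1)) (n := len (k + 1)) (e := 0)
        (fun i hi => by simpa using c_shape k i hi) h2 hs hiso
    simp only [len] at hs
    refine ih (s / 2) (ℓ / 2) (by omega) (by omega) ?_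
    intro a ha b hb
    rcases Nat.even_or_odd' s with ⟨t, rfl | rfl⟩
    · have := hiso (2 * a + 1) (by omega) (2 * b + 1) (by omega)
      rw [c_odd _ _ (by omega), c_odd _ _ (by omega), c_odd _ _ (by omega), c_odd _ _ (by omega)] at this
      convert this using 3 <;> omega
    · have := hiso (2 * a) (by omega) (2 * b) (by omega)
      rw [c_odd _ _ (by omega), c_odd _ _ (by omega), c_odd _ _ (by omega), c_odd _ _ (by omega)] at this
      convert this using 3 <;> omega

/-! ### The ends -/

def A (i : ℕ) : ℤ :=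
  ([13, 18, 17, 3, 5, 15, 8, 7, 12, 14, 10, 1, 4, 9, 6, 2, 16, 19, 11] : List ℤ).getD i 0

def W (k i : ℕ) : ℤ :=
  if i < 19 then bd k + A i
  else if i < 19 + len k then c k (i - 19)
  else -(bd k + A (37 + len k - i))

lemma A_pos : ∀ i < 19, 1 ≤ A i := by decide

lemma A_shape : ∀ i < 18, (A i < A (i + 1) ↔ (i + 1) % 4 < 2) := by decide

lemma W_symm (k i j : ℕ) (h : i + j + 1 = 38 + len k) : W k j = - W k i := by
  have h1 := le_len k
  unfold W
  by_cases hi : i < 19
  · have hj1 : ¬ j < 19 := by omega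
    have hj2 : ¬ j < 19 + len k := by omega
    rw [if_pos hi, if_neg hj1, if_neg hj2]
    congr 3; omega
  · by_cases hi2 : i < 19 + len k
    · have hj1 : ¬ j < 19 := by omega
      have hj2 : j < 19 + len k := by omega
      rw [if_neg hi, if_pos hi2, if_neg hj1, if_pos hj2]
      exact c_symm k _ _ (by omega)
    · have hj1 : j < 19 := by omega
      rw [if_neg hi, if_neg hi2, if_pos hj1, neg_neg]
      congr 2; omega

lemma W_shape_left (k i : ℕ) (hi : i + 1 < 19 + len (k + 1)) :
    W (k + 1) i < W (k + 1) (i + 1) ↔ (i + 1) % 4 < 2 := by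
  have hb := bd_pos (k + 1)
  rcases lt_trichotomy i 18 with h | h | h
  · have := A_shape i h
    unfold W
    rw [if_pos (by omega), if_pos (by omega), ← this]
    constructor <;> intro h <;> linarith
  · subst h
    have h1 := abs_c_lt (k + 1) 0 (by have := le_len (k + 1); omega)
    have h2 := A_pos 18 (by norm_num)
    unfold W
    rw [if_pos (by omega), if_neg (by omega), if_pos (by have := le_len (k + 1); omega)]
    constructor
    · intro h; norm_num at h; linarith
    · intro h; omega
  · unfold W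
    rw [if_neg (by omega), if_pos (by omega), if_neg (by omega), if_pos (by omega)]
    rw [show i + 1 - 19 = (i - 19) + 1 by omega, c_shape k (i - 19) (by omega)]
    omega

lemma W_shape (k i : ℕ) (hi : i + 1 < 38 + len (k + 1)) :
    W (k + 1) i < W (k + 1) (i + 1) ↔ (i + 1) % 4 < 2 := by
  by_cases h : i + 1 < 19 + len (k + 1)
  · exact W_shape_left k i h
  · have hl := le_len (k + 1)
    have hm := len_succ_mod k
    obtain ⟨j, hj⟩ : ∃ j, i + 1 + j + 1 = 38 + len (k + 1) := ⟨36 + len (k + 1) - i, by omega⟩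
    rw [W_symm (k + 1) j (i + 1) (by omega), W_symm (k + 1) (j + 1) i (by omega), neg_lt_neg_iff,
      W_shape_left k j (by omega)]
    omega

/-- The order of the first 41 entries. -/
def Wltb (i j : ℕ) : Bool :=
  if i < 19 then (if j < 19 then decide (A i < A j) else false)
  else (if j < 19 then true else ltb 5 (i - 19) (j - 19))

lemma ltb_stable_step : ∀ i < 22, ∀ j < 22, ltb 6 i j = ltb 5 i j := by decide +kernel

lemma ltb_stable (k : ℕ) (hk : 5 ≤ k) : ∀ i < 22, ∀ j < 22, ltb k i j = ltb 5 i j := by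
  induction hk with
  | refl => intros; rfl
  | @step m hm ih =>
    intro i hi j hj
    rw [← ltb_stable_step i hi j hj]
    simp only [ltb]
    rw [ih (i / 2) (by omega) (j / 2) (by omega)]
    rfl

lemma len5 : len 5 = 63 := rfl

lemma W_lt_iff (k : ℕ) (hk : 5 ≤ k) (i j : ℕ) (hi : i < 41) (hj : j < 41) :
    W k i < W k j ↔ Wltb i j = true := by
  have hl : 63 ≤ len k := by rw [← len5]; exact len_mono hk
  unfold W Wltb
  by_cases hi' : i < 19
  · by_cases hj' : j < 19
    · simp [hi', hj']
    · have := abs_c_lt k (j - 19) (by omega)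
      have := A_pos i hi'
      rw [if_pos hi', if_neg hj', if_pos (by omega), if_pos hi', if_neg hj']
      simp; linarith
  · by_cases hj' : j < 19
    · have := abs_c_lt k (i - 19) (by omega)
      have := A_pos j hj'
      rw [if_neg hi', if_pos hj', if_pos (by omega), if_neg hi', if_pos hj']
      simp; linarith
    · rw [if_neg hi', if_neg hj', if_pos (by omega), if_pos (by omega), if_neg hi', if_neg hj',
        c_lt_iff k _ _ (by omega) (by omega), ltb_stable k hk _ (by omega) _ (by omega)]

lemma finite_check : ∀ s < 19, ∀ m < 6, 1 ≤ m → s + 4 * m ≤ 21 →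
    ∃ a < 4 * m, ∃ b < 4 * m, Wltb (s + a) (s + b) ≠ Wltb (s + 4 * m + a) (s + 4 * m + b) := by
  decide +kernel

lemma W_sqFree_left (k : ℕ) (hk : 5 ≤ k) (s ℓ : ℕ) (hs19 : s < 19) (h2 : 2 ≤ ℓ)
    (hs : s + 2 * ℓ ≤ 38 + len k) (hiso : Iso (W k) s (s + ℓ) ℓ) : False := by
  obtain ⟨k', rfl⟩ : ∃ k', k = k' + 1 := ⟨k - 1, by omega⟩
  have hl : 63 ≤ len (k' + 1) := by rw [← len5]; exact len_mono hk
  have h4 : ℓ % 4 = 0 :=
    four_dvd_of_iso (f := W (k' + 1)) (n := 38 + len (k' + 1)) (e := 1) (fun i hi => W_shape k' i hi)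
      h2 hs hiso
  obtain ⟨m, rfl⟩ : ∃ m, ℓ = 4 * m := ⟨ℓ / 4, by omega⟩
  by_cases h : s + 4 * m ≤ 21
  · obtain ⟨a, ha, b, hb, hne⟩ := finite_check s hs19 m (by omega) (by omega) h
    have := hiso a ha b hb
    rw [W_lt_iff _ hk _ _ (by omega) (by omega), W_lt_iff _ hk _ _ (by omega) (by omega)] at this
    exact hne (Bool.eq_iff_iff.2 this)
  · have h1 := hiso (18 - s) (by omega) (21 - s) (by omega)
    rw [show s + (18 - s) = 18 by omega, show s + (21 - s) = 21 by omega,
      show s + 4 * m + (18 - s) = 18 + 4 * m by omega,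
      show s + 4 * m + (21 - s) = 21 + 4 * m by omega] at h1
    have h18 : ¬ (W (k' + 1) 18 < W (k' + 1) 21) := by
      rw [W_lt_iff _ hk _ _ (by omega) (by omega)]
      decide
    apply h18
    rw [h1]
    unfold W
    rw [if_neg (by omega), if_pos (by omega), if_neg (by omega), if_pos (by omega),
      c_lt_iff _ _ _ (by omega) (by omega)]
    have e1 : (18 + 4 * m - 19) % 4 = 3 := by omega
    have e2 : (21 + 4 * m - 19) % 4 = 2 := by omega
    simp [ltb, e1, e2]

lemma W_sqFree (k : ℕ) (hk : 5 ≤ k) : SqFree (W k) (38 + len k) := by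
  intro s ℓ h2 hs hiso
  by_cases h19 : s < 19
  · exact W_sqFree_left k hk s ℓ h19 h2 hs hiso
  · by_cases hr : s + 2 * ℓ ≤ 19 + len k
    · -- inside the centre
      refine c_sqFree k (s - 19) ℓ h2 (by omega) ?_
      intro a ha b hb
      have := hiso a ha b hb
      unfold W at this
      rw [if_neg (by omega), if_pos (by omega), if_neg (by omega), if_pos (by omega),
        if_neg (by omega), if_pos (by omega), if_neg (by omega), if_pos (by omega)] at this
      convert this using 3 <;> omega
    · -- reflect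
      obtain ⟨t, ht⟩ : ∃ t, s + 2 * ℓ + t = 38 + len k := ⟨38 + len k - (s + 2 * ℓ), by omega⟩
      refine W_sqFree_left k hk t ℓ (by omega) h2 (by omega) ?_
      intro a ha b hb
      have := hiso (ℓ - 1 - b) (by omega) (ℓ - 1 - a) (by omega)
      rw [W_symm k (t + ℓ + b) (s + (ℓ - 1 - b)) (by omega),
        W_symm k (t + ℓ + a) (s + (ℓ - 1 - a)) (by omega),
        W_symm k (t + b) (s + ℓ + (ℓ - 1 - b)) (by omega),
        W_symm k (t + a) (s + ℓ + (ℓ - 1 - a)) (by omega), neg_lt_neg_iff, neg_lt_neg_iff] at this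
      exact this.symm

end Pool.Agent.R120.ExtSq
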