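import Pool.Agent.R120.ExtSq

/-! # Every insertion into `W` creates a square -/

set_option autoImplicit false

namespace Pool.Agent.R120.ExtSq

lemma c_inj (k : ℕ) : ∀ i j, i < len k → j < len k → c k i = c k j → i = j := by
  induction k with
  | zero => intro i j hi hj _; simp only [len] at hi hj; omega
  | succ k ih =>
    intro i j hi hj h
    have hb := bd_pos k
    simp only [len] at hi hj
    simp only [c] at h
    split_ifs at h with h1 h2 h3 h4 h5 h6 h7 h8
    all_goals first
      | omega
      | skip
    all_goals first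
      | (have := abs_c_lt k (j / 2) (by omega); omega)
      | (have := abs_c_lt k (i / 2) (by omega); omega)
      | (have := ih (i / 2) (j / 2) (by omega) (by omega) h; omega)

lemma A_inj : ∀ i < 19, ∀ j < 19, A i = A j → i = j := by decide

lemma W_inj (k : ℕ) (i j : ℕ) (hi : i < 38 + len k) (hj : j < 38 + len k) (h : W k i = W k j) :
    i = j := by
  have hb := bd_pos k
  unfold W at h
  split_ifs at h with h1 h2 h3 h4 h5 h6 h7 h8
  · exact A_inj i h1 j h2 (by linarith)
  · have := abs_c_lt k (j - 19) (by omega)
    have := A_pos i h1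
    linarith
  · have := A_pos (37 + len k - j) (by omega)
    have := A_pos i h1
    linarith
  · have := abs_c_lt k (i - 19) (by omega)
    have := A_pos j (by omega)
    linarith
  · have := c_inj k _ _ (by omega) (by omega) h
    omega
  · have := abs_c_lt k (i - 19) (by omega)
    have := A_pos (37 + len k - j) (by omega)
    linarith
  · have := A_pos (37 + len k - i) (by omega)
    have := A_pos j (by omega)
    linarith
  · have := abs_c_lt k (j - 19) (by omega)
    have := A_pos (37 + len k - i) (by omega)
    linarith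
  · have := A_inj (37 + len k - i) (by omega) (37 + len k - j) (by omega) (by linarith)
    omega

def IsoQ (f : ℕ → ℚ) (i j ℓ : ℕ) : Prop :=
  ∀ a < ℓ, ∀ b < ℓ, (f (i + a) < f (i + b) ↔ f (j + a) < f (j + b))

/-- insertion of `x` after the first `p` entries -/
def ins (f : ℕ → ℤ) (p : ℕ) (x : ℚ) (j : ℕ) : ℚ :=
  if j < p then (f j : ℚ) else if j = p then x else (f (j - 1) : ℚ)

def G (p r j : ℕ) : ℤ := if j < p then 2 * A j else if j = p then 2 * r + 1 else 2 * A (j - 1)

lemma finite_ins : ∀ p < 3, ∀ r < 20, ∃ i < 20, ∃ ℓ < 11, 2 ≤ ℓ ∧ i + 2 * ℓ ≤ 20 ∧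
    ∀ a < ℓ, ∀ b < ℓ, (G p r (i + a) < G p r (i + b) ↔ G p r (i + ℓ + a) < G p r (i + ℓ + b)) := by
  decide +kernel

lemma A_le : ∀ i < 19, A i ≤ 19 := by decide

lemma ins_left (k p : ℕ) (hp : p < 3) (x : ℚ) (hx : ∀ i < 38 + len k, x ≠ (W k i : ℚ)) :
    ∃ i ℓ, 2 ≤ ℓ ∧ i + 2 * ℓ ≤ 20 ∧ IsoQ (ins (W k) p x) i (i + ℓ) ℓ := by
  -- the rank of `x`
  set y : ℚ := x - bd k with hy
  have hya : ∀ i < 19, y ≠ (A i : ℚ) := by
    intro i hi h
    apply hx i (by omega)
    unfold W
    rw [if_pos hi]
    push_cast
    rw [← h, hy]; ring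
  obtain ⟨r, hr, hrank⟩ : ∃ r : ℕ, r < 20 ∧ ∀ i < 19, ((A i : ℚ) < y ↔ A i ≤ r) := by
    refine ⟨(min (max ⌊y⌋ 0) 19).toNat, by omega, fun i hi => ?_⟩
    have h1 := A_pos i hi
    have h2 := A_le i hi
    have h3 : ((A i : ℚ) < y ↔ A i ≤ ⌊y⌋) := by
      rw [Int.le_floor]
      exact ⟨le_of_lt, fun h => lt_of_le_of_ne h (hya i hi).symm⟩
    rw [h3]
    omega
  obtain ⟨i, _, ℓ, _, h2, hle, h⟩ := finite_ins p hp r hr
  refine ⟨i, ℓ, h2, hle, ?_⟩
  have hAW : ∀ j < 19, (W k j : ℚ) = bd k + A j := by
    intro j hj
    unfold W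
    rw [if_pos hj]; push_cast; rfl
  have hgt : ∀ i < 19, (y < (A i : ℚ) ↔ (r : ℤ) < A i) := by
    intro i hi
    rw [← not_le, ← not_le, ← hrank i hi]
    constructor
    · intro h h'; exact h h'.le
    · intro h h'; exact h (lt_of_le_of_ne h' (hya i hi).symm)
  -- comparison
  have key : ∀ u < 20, ∀ v < 20, (ins (W k) p x u < ins (W k) p x v ↔ G p r u < G p r v) := by
    intro u hu v hv
    have hxy : x = y + bd k := by rw [hy]; ring
    unfold ins G
    by_cases hu1 : u < p
    · rw [if_pos hu1, if_pos hu1, hAW u (by omega)]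
      by_cases hv1 : v < p
      · rw [if_pos hv1, if_pos hv1, hAW v (by omega)]
        constructor
        · intro h; have : (A u : ℚ) < A v := by linarith
          have : A u < A v := by exact_mod_cast this
          omega
        · intro h; have : A u < A v := by omega
          have : (A u : ℚ) < A v := by exact_mod_cast this
          linarith
      · by_cases hv2 : v = p
        · rw [if_neg hv1, if_pos hv2, if_neg hv1, if_pos hv2]
          have := hrank u (by omega)
          constructor
          · intro h; have h' : (A u : ℚ) < y := by linarith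
            rw [this] at h'; omega
          · intro h; have h' : A u ≤ r := by omega
            rw [← this] at h'; linarith
        · rw [if_neg hv1, if_neg hv2, if_neg hv1, if_neg hv2, hAW (v - 1) (by omega)]
          constructor
          · intro h; have : (A u : ℚ) < A (v - 1) := by linarith
            have : A u < A (v - 1) := by exact_mod_cast this
            omega
          · intro h; have : A u < A (v - 1) := by omega
            have : (A u : ℚ) < A (v - 1) := by exact_mod_cast this
            linarith
    · by_cases hu2 : u = p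
      · rw [if_neg hu1, if_pos hu2, if_neg hu1, if_pos hu2]
        by_cases hv1 : v < p
        · rw [if_pos hv1, if_pos hv1, hAW v (by omega)]
          have := hgt v (by omega)
          constructor
          · intro h; have h' : y < (A v : ℚ) := by linarith
            rw [this] at h'; omega
          · intro h; have h' : (r : ℤ) < A v := by omega
            rw [← this] at h'; linarith
        · by_cases hv2 : v = p
          · rw [if_neg hv1, if_pos hv2, if_neg hv1, if_pos hv2]
            simp
          · rw [if_neg hv1, if_neg hv2, if_neg hv1, if_neg hv2, hAW (v - 1) (by omega)]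
            have := hgt (v - 1) (by omega)
            constructor
            · intro h; have h' : y < (A (v - 1) : ℚ) := by linarith
              rw [this] at h'; omega
            · intro h; have h' : (r : ℤ) < A (v - 1) := by omega
              rw [← this] at h'; linarith
      · rw [if_neg hu1, if_neg hu2, if_neg hu1, if_neg hu2, hAW (u - 1) (by omega)]
        by_cases hv1 : v < p
        · rw [if_pos hv1, if_pos hv1, hAW v (by omega)]
          constructor
          · intro h; have : (A (u - 1) : ℚ) < A v := by linarith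
            have : A (u - 1) < A v := by exact_mod_cast this
            omega
          · intro h; have : A (u - 1) < A v := by omega
            have : (A (u - 1) : ℚ) < A v := by exact_mod_cast this
            linarith
        · by_cases hv2 : v = p
          · rw [if_neg hv1, if_pos hv2, if_neg hv1, if_pos hv2]
            have := hrank (u - 1) (by omega)
            constructor
            · intro h; have h' : (A (u - 1) : ℚ) < y := by linarith
              rw [this] at h'; omega
            · intro h; have h' : A (u - 1) ≤ r := by omega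
              rw [← this] at h'; linarith
          · rw [if_neg hv1, if_neg hv2, if_neg hv1, if_neg hv2, hAW (v - 1) (by omega)]
            constructor
            · intro h; have : (A (u - 1) : ℚ) < A (v - 1) := by linarith
              have : A (u - 1) < A (v - 1) := by exact_mod_cast this
              omega
            · intro h; have : A (u - 1) < A (v - 1) := by omega
              have : (A (u - 1) : ℚ) < A (v - 1) := by exact_mod_cast this
              linarith
  intro a ha b hb
  rw [key _ (by omega) _ (by omega), key _ (by omega) _ (by omega)]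
  exact h a ha b hb

lemma ins_symm (k p q : ℕ) (hpq : p + q = 38 + len k) (x : ℚ) (i j : ℕ)
    (hij : i + j = 38 + len k) : ins (W k) p x j = - ins (W k) q (-x) i := by
  unfold ins
  rcases lt_trichotomy j p with h | h | h
  · rw [if_pos h, if_neg (by omega), if_neg (by omega), W_symm k (i - 1) j (by omega)]
    push_cast; rfl
  · rw [if_neg (by omega), if_pos h, if_neg (by omega), if_pos (by omega), neg_neg]
  · rw [if_neg (by omega), if_neg (by omega), if_pos (by omega), W_symm k i (j - 1) (by omega)]
    push_cast; rfl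

/-- insertion not near the ends: there is a square of two blocks of length `2`. -/
lemma ins_mid (k p : ℕ) (hp : 3 ≤ p) (hp' : p + 3 ≤ 38 + len (k + 1)) (x : ℚ)
    (hx : ∀ i < 38 + len (k + 1), x ≠ (W (k + 1) i : ℚ)) :
    ∃ i, i + 4 ≤ 39 + len (k + 1) ∧
      (ins (W (k + 1)) p x i < ins (W (k + 1)) p x (i + 1) ↔
        ins (W (k + 1)) p x (i + 2) < ins (W (k + 1)) p x (i + 3)) := by
  by_contra hcon'
  have hcon : ∀ i, i + 4 ≤ 39 + len (k + 1) →
      ¬ (ins (W (k + 1)) p x i < ins (W (k + 1)) p x (i + 1) ↔
        ins (W (k + 1)) p x (i + 2) < ins (W (k + 1)) p x (i + 3)) :=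
    fun i hi h => hcon' ⟨i, hi, h⟩
  clear hcon'
  set g := ins (W (k + 1)) p x with hg
  have hl : ∀ j, j + 1 < p → (g j < g (j + 1) ↔ (j + 1) % 4 < 2) := by
    intro j hj
    rw [← W_shape k j (by omega), hg]
    unfold ins
    rw [if_pos (by omega), if_pos (by omega)]
    exact_mod_cast Iff.rfl
  have hr : ∀ j, p < j → j < 38 + len (k + 1) → (g j < g (j + 1) ↔ j % 4 < 2) := by
    intro j hj hj2
    have := W_shape k (j - 1) (by omega)
    rw [show j - 1 + 1 = j by omega] at this
    rw [← this, hg]
    unfold ins
    rw [if_neg (by omega), if_neg (by omega), if_neg (by omega), if_neg (by omega),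
      show j + 1 - 1 = j by omega]
    exact_mod_cast Iff.rfl
  have a0 := hl (p - 3) (by omega)
  have a1 := hl (p - 2) (by omega)
  have a4 := hr (p + 1) (by omega) (by omega)
  have a5 := hr (p + 2) (by omega) (by omega)
  have c0 := hcon (p - 3) (by omega)
  have c1 := hcon (p - 2) (by omega)
  have c2 := hcon (p - 1) (by omega)
  have c3 := hcon p (by omega)
  rw [show p - 3 + 1 = p - 2 by omega] at a0 c0
  rw [show p - 3 + 2 = p - 1 by omega, show p - 3 + 3 = p by omega] at c0
  rw [show p - 2 + 1 = p - 1 by omega] at a1 c1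
  rw [show p - 2 + 2 = p by omega, show p - 2 + 3 = p + 1 by omega] at c1
  rw [show p - 1 + 1 = p by omega, show p - 1 + 2 = p + 1 by omega,
    show p - 1 + 3 = p + 2 by omega] at c2
  rw [show p + 1 + 1 = p + 2 by omega] at a4
  rw [show p + 2 + 1 = p + 3 by omega] at a5
  generalize (g (p - 3) < g (p - 2)) = P0 at *
  generalize (g (p - 2) < g (p - 1)) = P1 at *
  generalize (g (p - 1) < g p) = P2 at *
  generalize (g p < g (p + 1)) = P3 at *
  generalize (g (p + 1) < g (p + 2)) = P4 at *
  generalize (g (p + 2) < g (p + 3)) = P5 at *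
  clear_value g
  clear hcon hg hx
  have d0 : P0 ↔ P4 := by by_cases h2 : P2 <;> by_cases h0 : P0 <;> by_cases h4 : P4 <;> simp_all
  have d1 : P1 ↔ P5 := by by_cases h2 : P3 <;> by_cases h0 : P1 <;> by_cases h4 : P5 <;> simp_all
  rw [a0, a4] at d0
  rw [a1, a5] at d1
  omega

lemma ins_all (k p : ℕ) (hk : 5 ≤ k) (hp : p ≤ 38 + len k) (x : ℚ)
    (hx : ∀ i < 38 + len k, x ≠ (W k i : ℚ)) :
    ∃ i ℓ, 2 ≤ ℓ ∧ i + 2 * ℓ ≤ 39 + len k ∧ IsoQ (ins (W k) p x) i (i + ℓ) ℓ := by
  obtain ⟨k', rfl⟩ : ∃ k', k = k' + 1 := ⟨k - 1, by omega⟩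
  by_cases h1 : p < 3
  · obtain ⟨i, ℓ, h2, hle, h⟩ := ins_left (k' + 1) p h1 x hx
    exact ⟨i, ℓ, h2, by omega, h⟩
  by_cases h2 : p + 3 ≤ 38 + len (k' + 1)
  · obtain ⟨i, hi, h⟩ := ins_mid k' p (by omega) h2 x hx
    refine ⟨i, 2, le_refl _, by omega, ?_⟩
    have hinj : ∀ u v, u < 39 + len (k' + 1) → v < 39 + len (k' + 1) → u + 1 = v →
        ins (W (k' + 1)) p x u ≠ ins (W (k' + 1)) p x v := by
      intro u v hu hv huv
      subst huv
      unfold ins
      have hW : ∀ j, j + 1 < 38 + len (k' + 1) → W (k' + 1) j ≠ W (k' + 1) (j + 1) := by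
        intro j hj heq
        have := W_inj (k' + 1) j (j + 1) (by omega) (by omega) heq
        omega
      rcases lt_trichotomy (u + 1) p with h | h | h
      · rw [if_pos (by omega), if_pos (by omega)]
        exact_mod_cast hW u (by omega)
      · rw [if_pos (by omega), if_neg (by omega), if_pos h]
        exact (hx u (by omega)).symm
      · rcases lt_trichotomy u p with h' | h' | h'
        · omega
        · rw [if_neg (by omega), if_pos h', if_neg (by omega), if_neg (by omega)]
          exact hx _ (by omega)
        · rw [if_neg (by omega), if_neg (by omega), if_neg (by omega), if_neg (by omega)]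
          have := hW (u - 1) (by omega)
          rw [show u - 1 + 1 = u + 1 - 1 by omega] at this
          exact_mod_cast this
    have n1 := hinj i (i + 1) (by omega) (by omega) rfl
    have n2 := hinj (i + 2) (i + 3) (by omega) (by omega) rfl
    intro a ha b hb
    have ha' : a = 0 ∨ a = 1 := by omega
    have hb' : b = 0 ∨ b = 1 := by omega
    rcases ha' with rfl | rfl <;> rcases hb' with rfl | rfl
    · simp
    · exact h
    · simp only [Nat.add_zero]
      rw [show i + 2 + 1 = i + 3 from rfl]
      constructor
      · intro h'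
        have : ¬ (ins (W (k' + 1)) p x (i + 2) < ins (W (k' + 1)) p x (i + 3)) := by
          rw [← h]; exact h'.asymm
        exact lt_of_le_of_ne (not_lt.1 this) n2.symm
      · intro h'
        have : ¬ (ins (W (k' + 1)) p x i < ins (W (k' + 1)) p x (i + 1)) := by
          rw [h]; exact h'.asymm
        exact lt_of_le_of_ne (not_lt.1 this) n1.symm
    · simp
  · -- near the right end
    obtain ⟨q, hq⟩ : ∃ q, p + q = 38 + len (k' + 1) := ⟨38 + len (k' + 1) - p, by omega⟩
    have hx' : ∀ i < 38 + len (k' + 1), -x ≠ (W (k' + 1) i : ℚ) := by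
      intro i hi h
      obtain ⟨t, ht⟩ : ∃ t, i + t + 1 = 38 + len (k' + 1) := ⟨37 + len (k' + 1) - i, by omega⟩
      apply hx t (by omega)
      rw [W_symm (k' + 1) i t ht]
      push_cast
      rw [← h, neg_neg]
    obtain ⟨i, ℓ, h2, hle, h⟩ := ins_left (k' + 1) q (by omega) (-x) hx'
    have hl := le_len (k' + 1)
    obtain ⟨t, ht⟩ : ∃ t, i + 2 * ℓ + t = 39 + len (k' + 1) :=
      ⟨39 + len (k' + 1) - (i + 2 * ℓ), by omega⟩
    refine ⟨t, ℓ, h2, by omega, ?_⟩
    intro a ha b hb
    have := h (ℓ - 1 - b) (by omega) (ℓ - 1 - a) (by omega)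
    rw [ins_symm (k' + 1) p q hq x (i + ℓ + (ℓ - 1 - a)) (t + a) (by omega),
      ins_symm (k' + 1) p q hq x (i + ℓ + (ℓ - 1 - b)) (t + b) (by omega),
      ins_symm (k' + 1) p q hq x (i + (ℓ - 1 - a)) (t + ℓ + a) (by omega),
      ins_symm (k' + 1) p q hq x (i + (ℓ - 1 - b)) (t + ℓ + b) (by omega),
      neg_lt_neg_iff, neg_lt_neg_iff]
    exact this.symm

end Pool.Agent.R120.ExtSq
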