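import Mathlib
import Pool.Agent.R120.PatDef

set_option autoImplicit false

/-! Permutation classes, merges and irreducible exact-splittings. -/

namespace Pool.Agent.R120.Merge

open Pool.Agent.R120

/-- The set of all permutations of all finite lengths. -/
abbrev AllPerms : Type := Σ n : ℕ, Equiv.Perm (Fin n)

/-- A permutation class: a set of permutations that contains the empty permutation and is closed
downward under pattern containment. -/
def IsClass (C : Set AllPerms) : Prop :=
  (⟨0, 1⟩ : AllPerms) ∈ C ∧ ∀ p ∈ C, ∀ q : AllPerms, Contains q.2 p.2 → q ∈ C

/-- `PatternOn p s a`: the entries of `p` at the positions in the set `s` are order-isomorphic to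
the permutation `a`. -/
def PatternOn (p : AllPerms) (s : Set (Fin p.1)) (a : AllPerms) : Prop :=
  ∃ f : Fin a.1 → Fin p.1, StrictMono f ∧ Set.range f = s ∧
    ∀ i j, a.2 i < a.2 j ↔ p.2 (f i) < p.2 (f j)

/-- The merge `A ⊙ B`: the permutations whose entries can be coloured red (positions in `s`) and
blue (the other positions) so that the red entries are order-isomorphic to an element of `A` and
the blue entries to an element of `B`. -/
def merge (A B : Set AllPerms) : Set AllPerms :=
  {p | ∃ s : Set (Fin p.1), (∃ a ∈ A, PatternOn p s a) ∧ ∃ b ∈ B, PatternOn p sᶜ b}

/-- A class is exact-splittable if it is the merge of two proper subclasses. -/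
def ExactSplittable (C : Set AllPerms) : Prop :=
  ∃ A B : Set AllPerms, IsClass A ∧ IsClass B ∧ A ⊂ C ∧ B ⊂ C ∧ C = merge A B

/-- `IrreducibleSplitting C S`: the set `S` of classes is an irreducible exact-splitting of `C`,
obtained recursively as in the problem: `{C}` if `C` is not exact-splittable, and otherwise the
union of irreducible exact-splittings of `A` and `B` for an exact split `C = A ⊙ B`. -/
inductive IrreducibleSplitting : Set AllPerms → Set (Set AllPerms) → Prop
  | base (C : Set AllPerms) : ¬ ExactSplittable C → IrreducibleSplitting C {C}
  | split (A B C : Set AllPerms) (S T : Set (Set AllPerms)) : IsClass A → IsClass B → A ⊂ C →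
      B ⊂ C → C = merge A B → IrreducibleSplitting A S → IrreducibleSplitting B T →
      IrreducibleSplitting C (S ∪ T)

end Pool.Agent.R120.Merge
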