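import Mathlib
import Pool.Agent.R120.Pat
import Pool.Agent.R120.MergeDef

set_option autoImplicit false

/-! Two irreducible exact-splittings of one infinite class. -/

namespace Pool.Agent.R120.Merge

open Pool.Agent.R120 Function

lemma exists_pattern (p : AllPerms) (s : Set (Fin p.1)) :
    ∃ a : AllPerms, PatternOn p s a ∧ a.1 = s.ncard := by
  classical
  have hc : Fintype.card s = s.ncard := by
    rw [← Nat.card_coe_set_eq, Nat.card_eq_fintype_card]
  obtain ⟨π, e, h1, h2⟩ := exists_realizes (α := s) (fun i => ((i : Fin p.1) : ℕ))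
    (fun i => ((p.2 (i : Fin p.1) : Fin p.1) : ℕ))
    (fun i j h => by
      simp only [Nat.cast_inj] at h
      exact Subtype.ext (Fin.ext h))
    (fun i j h => by
      simp only [Nat.cast_inj] at h
      exact Subtype.ext (p.2.injective (Fin.ext h))) hc
  simp only [Nat.cast_lt] at h1 h2
  refine ⟨⟨s.ncard, π⟩, ⟨fun i => (e i : Fin p.1), ?_, ?_, ?_⟩, rfl⟩
  · intro i j hij
    have := (h1 i j).1 hij
    show ((e i : Fin p.1)) < (e j : Fin p.1)
    exact Fin.lt_def.2 this
  · ext x
    constructor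
    · rintro ⟨i, rfl⟩
      exact (e i).2
    · intro hx
      exact ⟨e.symm ⟨x, hx⟩, by simp⟩
  · intro i j
    have := h2 i j
    show π i < π j ↔ _
    rw [this, Fin.lt_def]

lemma PatternOn.card {p : AllPerms} {s : Set (Fin p.1)} {a : AllPerms} (h : PatternOn p s a) :
    a.1 = s.ncard := by
  obtain ⟨f, hf, hr, _⟩ := h
  rw [← hr, ← Set.image_univ, Set.ncard_image_of_injective _ hf.injective, Set.ncard_univ,
    Nat.card_eq_fintype_card, Fintype.card_fin]

lemma PatternOn.contains {p : AllPerms} {s : Set (Fin p.1)} {a : AllPerms}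
    (h : PatternOn p s a) : Contains a.2 p.2 := by
  obtain ⟨f, hf, _, h2⟩ := h
  exact ⟨f, hf, h2⟩

lemma merge_len {A B : Set AllPerms} {m k : ℕ} (hA : ∀ a ∈ A, a.1 ≤ m) (hB : ∀ b ∈ B, b.1 ≤ k)
    {p : AllPerms} (hp : p ∈ merge A B) : p.1 ≤ m + k := by
  obtain ⟨s, ⟨a, ha, hsa⟩, b, hb, hsb⟩ := hp
  have h1 := hsa.card
  have h2 := hsb.card
  have h3 : s.ncard + sᶜ.ncard = p.1 := by
    rw [Set.ncard_add_ncard_compl, Nat.card_eq_fintype_card, Fintype.card_fin]
  have := hA a ha
  have := hB b hb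
  omega

lemma merge_comm' (A B : Set AllPerms) : merge A B ⊆ merge B A := by
  rintro p ⟨s, ha, hb⟩
  exact ⟨sᶜ, hb, by rwa [compl_compl]⟩

lemma merge_comm (A B : Set AllPerms) : merge A B = merge B A :=
  Set.Subset.antisymm (merge_comm' _ _) (merge_comm' _ _)

/-- patterns on preimages -/
lemma pattern_sub {C : Set AllPerms} (hC : IsClass C) {p q : AllPerms} (g : Fin q.1 → Fin p.1)
    (hg : StrictMono g) (hg' : ∀ i j, q.2 i < q.2 j ↔ p.2 (g i) < p.2 (g j))
    {s : Set (Fin p.1)} (h : ∃ a ∈ C, PatternOn p s a) :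
    ∃ a ∈ C, PatternOn q (g ⁻¹' s) a := by
  obtain ⟨a, ha, f, hf, hr, hf'⟩ := h
  obtain ⟨b, ⟨f', hf1, hr', hf2⟩, _⟩ := exists_pattern q (g ⁻¹' s)
  refine ⟨b, ?_, f', hf1, hr', hf2⟩
  apply hC.2 a ha
  have hmem : ∀ i, ∃ j, f j = g (f' i) := by
    intro i
    have : f' i ∈ g ⁻¹' s := by rw [← hr']; exact ⟨i, rfl⟩
    have h2 : g (f' i) ∈ s := this
    rw [← hr] at h2
    exact h2
  choose k hk using hmem
  refine ⟨k, ?_, ?_⟩
  · intro i j hij
    rw [← hf.lt_iff_lt, hk, hk]
    exact hg (hf1 hij)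
  · intro i j
    rw [hf2, hg', hf', hk, hk]

lemma isClass_merge {A B : Set AllPerms} (hA : IsClass A) (hB : IsClass B) :
    IsClass (merge A B) := by
  constructor
  · refine ⟨Set.univ, ⟨⟨0, 1⟩, hA.1, id, strictMono_id, by simp, fun _ _ => Iff.rfl⟩,
      ⟨0, 1⟩, hB.1, id, strictMono_id, ?_, fun _ _ => Iff.rfl⟩
    ext x
    exact x.elim0
  · rintro p ⟨s, hs1, hs2⟩ q ⟨g, hg, hg'⟩
    refine ⟨g ⁻¹' s, pattern_sub hA g hg hg' hs1, ?_⟩
    have := pattern_sub hB g hg hg' hs2
    rwa [Set.preimage_compl] at this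

lemma subset_merge_left {A B : Set AllPerms} (hB : IsClass B) : A ⊆ merge A B := by
  intro p hp
  refine ⟨Set.univ, ⟨p, hp, id, strictMono_id, by simp, fun _ _ => Iff.rfl⟩,
    ⟨0, 1⟩, hB.1, Fin.elim0, fun i => i.elim0, ?_, fun i => i.elim0⟩
  rw [Set.compl_univ, Set.range_eq_empty_iff]
  exact inferInstanceAs (IsEmpty (Fin 0))

lemma subset_merge_right {A B : Set AllPerms} (hA : IsClass A) : B ⊆ merge A B := by
  rw [merge_comm]
  exact subset_merge_left hA

/-- all permutations of length at most `k` -/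
def Short (k : ℕ) : Set AllPerms := {p | p.1 ≤ k}

/-- the increasing permutations -/
def Inc : Set AllPerms := {p | p.2 = 1}

/-- the permutations of length at most `3` avoiding `213` and `312` (the middle entry is not
the smallest one) -/
def Four : Set AllPerms :=
  {p | p.1 ≤ 3 ∧ ∀ i j k : Fin p.1, i < j → j < k → ¬ (p.2 j < p.2 i ∧ p.2 j < p.2 k)}

lemma isClass_short (k : ℕ) : IsClass (Short k) :=
  ⟨Nat.zero_le _, fun _ hp _ hq => le_trans (contains_le hq) hp⟩

lemma isClass_inc : IsClass Inc := by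
  refine ⟨rfl, ?_⟩
  rintro p hp q ⟨f, hf, hf'⟩
  have hp' : p.2 = 1 := hp
  show q.2 = 1
  apply perm_ext_lt
  intro i j
  rw [hf', hp']
  simp only [Equiv.Perm.coe_one, id]
  exact hf.lt_iff_lt

lemma isClass_four : IsClass Four := by
  refine ⟨⟨Nat.zero_le _, fun i => i.elim0⟩, ?_⟩
  rintro p ⟨hp1, hp2⟩ q hq
  refine ⟨le_trans (contains_le hq) hp1, ?_⟩
  obtain ⟨f, hf, hf'⟩ := hq
  intro i j k hij hjk
  rw [hf', hf']
  exact hp2 _ _ _ (hf hij) (hf hjk)

lemma exists_ncard {n m : ℕ} (h : m ≤ n) : ∃ s : Set (Fin n), s.ncard = m ∧ sᶜ.ncard = n - m := by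
  refine ⟨{i | (i : ℕ) < m}, ?_, ?_⟩
  · have : ({i | (i : ℕ) < m} : Set (Fin n)) = ((Finset.univ.filter (fun i : Fin n => (i : ℕ) < m) : Finset (Fin n)) : Set (Fin n)) := by
      ext; simp
    rw [this, Set.ncard_coe_finset, Fin.card_filter_val_lt]
    omega
  · have h1 := Set.ncard_add_ncard_compl ({i | (i : ℕ) < m} : Set (Fin n))
    have : ({i | (i : ℕ) < m} : Set (Fin n)) = ((Finset.univ.filter (fun i : Fin n => (i : ℕ) < m) : Finset (Fin n)) : Set (Fin n)) := by
      ext; simp
    rw [Nat.card_eq_fintype_card, Fintype.card_fin] at h1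
    have h2 : ({i | (i : ℕ) < m} : Set (Fin n)).ncard = m := by
      rw [this, Set.ncard_coe_finset, Fin.card_filter_val_lt]
      omega
    omega

lemma merge_short (m k : ℕ) : merge (Short m) (Short k) = Short (m + k) := by
  apply Set.Subset.antisymm
  · intro p hp
    exact merge_len (A := Short m) (B := Short k) (fun a ha => ha) (fun b hb => hb) hp
  · intro p hp
    have hp' : p.1 ≤ m + k := hp
    obtain ⟨s, hs1, hs2⟩ := exists_ncard (n := p.1) (m := min m p.1) (min_le_right _ _)
    obtain ⟨a, ha, ha'⟩ := exists_pattern p s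
    obtain ⟨b, hb, hb'⟩ := exists_pattern p sᶜ
    refine ⟨s, ⟨a, ?_, ha⟩, b, ?_, hb⟩
    · show a.1 ≤ m
      omega
    · show b.1 ≤ k
      omega

lemma four_subset : Four ⊆ Short 3 := fun _ hp => hp.1

/-- every permutation of length at most `4` becomes a member of `Four` after deleting one entry -/
lemma merge_point_four : merge (Short 1) Four = Short 4 := by
  apply Set.Subset.antisymm
  · intro p hp
    exact merge_len (A := Short 1) (B := Four) (m := 1) (k := 3) (fun a ha => ha)
      (fun b hb => hb.1) hp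
  · rintro ⟨n, π⟩ hp
    have hp' : n ≤ 4 := hp
    -- it suffices to find a set of at most one position
    have key : ∀ s : Set (Fin n), s.ncard ≤ 1 → n - s.ncard ≤ 3 →
        (∀ i j k : Fin n, i < j → j < k → i ∉ s → j ∉ s → k ∉ s → ¬ (π j < π i ∧ π j < π k)) →
        (⟨n, π⟩ : AllPerms) ∈ merge (Short 1) Four := by
      intro s hs hs3 h
      obtain ⟨a, ha, ha'⟩ := exists_pattern ⟨n, π⟩ s
      obtain ⟨b, hb, hb'⟩ := exists_pattern ⟨n, π⟩ sᶜ
      have hadd := Set.ncard_add_ncard_compl s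
      rw [Nat.card_eq_fintype_card, Fintype.card_fin] at hadd
      refine ⟨s, ⟨a, ?_, ha⟩, b, ⟨?_, ?_⟩, hb⟩
      · show a.1 ≤ 1
        omega
      · show b.1 ≤ 3
        have : b.1 = sᶜ.ncard := hb'
        omega
      · obtain ⟨f, hf, hr, hf'⟩ := hb
        intro i j k hij hjk
        rw [hf', hf']
        have hm : ∀ i, f i ∉ s := fun i => by
          have : f i ∈ sᶜ := by rw [← hr]; exact ⟨i, rfl⟩
          exact this
        exact h _ _ _ (hf hij) (hf hjk) (hm i) (hm j) (hm k)
    by_cases h2 : n ≤ 2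
    · refine key ∅ (by simp) (by simp; omega) ?_
      intro i j k hij hjk
      have := i.2
      have := k.2
      have h3 : (i : ℕ) < j := hij
      have h4 : (j : ℕ) < k := hjk
      omega
    by_cases h3 : n = 3
    · subst h3
      refine key {0} (by simp) (by simp) ?_
      intro i j k hij hjk hi
      have := k.2
      have h3 : (i : ℕ) < j := hij
      have h4 : (j : ℕ) < k := hjk
      exfalso
      apply hi
      rw [Set.mem_singleton_iff]
      apply Fin.ext
      have : ((0 : Fin 3) : ℕ) = 0 := rfl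
      omega
    have h4 : n = 4 := by omega
    subst h4
    have hdec : ∀ π : Equiv.Perm (Fin 4), ∃ x : Fin 4, ∀ i j k : Fin 4, i < j → j < k →
        i ≠ x → j ≠ x → k ≠ x → ¬ (π j < π i ∧ π j < π k) := by decide
    obtain ⟨x, hx⟩ := hdec π
    refine key {x} (by simp) (by simp) ?_
    intro i j k hij hjk hi hj hk
    exact hx i j k hij hjk (by simpa using hi) (by simpa using hj) (by simpa using hk)

/-! irreducibility -/

lemma one_mem {C : Set AllPerms} (hC : IsClass C) {p : AllPerms} (hp : p ∈ C) (h : 1 ≤ p.1) :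
    (⟨1, 1⟩ : AllPerms) ∈ C := by
  apply hC.2 p hp
  refine ⟨fun _ => ⟨0, h⟩, ?_, ?_⟩
  · intro i j hij
    exact absurd hij (by simp [Subsingleton.elim i j])
  · intro i j
    rw [Subsingleton.elim i j]
    simp

lemma len_one (p : AllPerms) (h : p.1 = 1) : p = ⟨1, 1⟩ := by
  obtain ⟨n, π⟩ := p
  simp only at h
  subst h
  rw [Subsingleton.elim π 1]

lemma len_zero (p : AllPerms) (h : p.1 = 0) : p = ⟨0, 1⟩ := by
  obtain ⟨n, π⟩ := p
  simp only at h
  subst h
  rw [Subsingleton.elim π 1]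

lemma irr_point : ¬ ExactSplittable (Short 1) := by
  rintro ⟨A, B, hA, hB, hAC, hBC, h⟩
  have key : ∀ X : Set AllPerms, IsClass X → X ⊂ Short 1 → ∀ p ∈ X, p.1 ≤ 0 := by
    intro X hX hXC p hp
    by_contra hlt
    have h1 := one_mem hX hp (by omega)
    apply hXC.2
    intro q hq
    have hq' : q.1 ≤ 1 := hq
    rcases Nat.lt_or_ge q.1 1 with h2 | h2
    · rw [len_zero q (by omega)]; exact hX.1
    · rw [len_one q (by omega)]; exact h1
  have h1 : (⟨1, 1⟩ : AllPerms) ∈ Short 1 := Nat.le_refl 1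
  rw [h] at h1
  have := merge_len (key A hA hAC) (key B hB hBC) h1
  simp at this

lemma irr_inc : ¬ ExactSplittable Inc := by
  rintro ⟨A, B, hA, hB, hAC, hBC, h⟩
  have key : ∀ X : Set AllPerms, IsClass X → X ⊂ Inc → ∃ m, ∀ p ∈ X, p.1 ≤ m := by
    intro X hX hXC
    obtain ⟨q, hq, hqX⟩ := Set.exists_of_ssubset hXC
    refine ⟨q.1, fun p hp => ?_⟩
    by_contra hlt
    apply hqX
    apply hX.2 p hp
    have h1 : p.2 = 1 := hXC.1 hp
    have h2 : q.2 = 1 := hq
    rw [h1, h2]
    refine ⟨Fin.castLE (by omega), Fin.strictMono_castLE _, fun i j => ?_⟩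
    simp
  obtain ⟨m, hm⟩ := key A hA hAC
  obtain ⟨k, hk⟩ := key B hB hBC
  have h1 : (⟨m + k + 1, 1⟩ : AllPerms) ∈ Inc := rfl
  rw [h] at h1
  have := merge_len hm hk h1
  simp only at this
  omega

lemma irr_four : ¬ ExactSplittable Four := by
  -- a merge of nonempty classes, one containing a permutation of length two, contains `213`
  have key : ∀ A B : Set AllPerms, IsClass A → IsClass B → (∃ a ∈ A, 1 ≤ a.1) →
      (∃ b ∈ B, 2 ≤ b.1) → merge A B ≠ Four := by
    rintro A B hA hB ⟨a, ha, ha1⟩ ⟨b, hb, hb2⟩ h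
    have hA1 := one_mem hA ha ha1
    -- the permutation 213
    let σ : Equiv.Perm (Fin 3) := Equiv.swap 0 1
    have hσ : (⟨3, σ⟩ : AllPerms) ∉ Four := by
      intro hmem
      exact hmem.2 0 1 2 (by decide) (by decide) (by decide)
    apply hσ
    rw [← h]
    -- the two first entries of b
    let i0 : Fin b.1 := ⟨0, by omega⟩
    let i1 : Fin b.1 := ⟨1, by omega⟩
    have hi01 : i0 < i1 := by show 0 < 1; omega
    have hne : b.2 i0 ≠ b.2 i1 := fun hh => by
      have := b.2.injective hh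
      rw [this] at hi01
      exact lt_irrefl _ hi01
    have hone : ∀ x : Fin 3, PatternOn ⟨3, σ⟩ {x} ⟨1, 1⟩ := by
      intro x
      refine ⟨fun _ => x, ?_, by simp, ?_⟩
      · intro i j hij
        exact absurd hij (by simp [Subsingleton.elim i j])
      · intro i j
        rw [Subsingleton.elim i j]
        simp
    rcases lt_or_gt_of_ne hne with hlt | hgt
    · -- 12 in B
      have h12 : (⟨2, 1⟩ : AllPerms) ∈ B := by
        apply hB.2 b hb
        refine ⟨![i0, i1], ?_, ?_⟩
        · intro i j hij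
          fin_cases i <;> fin_cases j <;> simp_all
        · intro i j
          fin_cases i <;> fin_cases j <;> simp [hlt, hlt.le]
      refine ⟨{0}, ⟨⟨1, 1⟩, hA1, hone 0⟩, ⟨2, 1⟩, h12, ![1, 2], ?_, ?_, ?_⟩
      · decide
      · ext x
        fin_cases x <;> simp
      · decide
    · have h21 : (⟨2, Equiv.swap 0 1⟩ : AllPerms) ∈ B := by
        apply hB.2 b hb
        refine ⟨![i0, i1], ?_, ?_⟩
        · intro i j hij
          fin_cases i <;> fin_cases j <;> simp_all
        · intro i j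
          fin_cases i <;> fin_cases j <;> simp [hgt, hgt.le]
      refine ⟨{2}, ⟨⟨1, 1⟩, hA1, hone 2⟩, ⟨2, Equiv.swap 0 1⟩, h21, ![0, 1], ?_, ?_, ?_⟩
      · decide
      · ext x
        fin_cases x <;> simp
      · decide
  rintro ⟨A, B, hA, hB, hAC, hBC, h⟩
  have hzero : ∀ X Y : Set AllPerms, IsClass X → IsClass Y → X ⊂ Four → Four = merge X Y →
      ∃ b ∈ Y, 1 ≤ b.1 := by
    intro X Y hX hY hXC hXY
    by_contra hcon
    push Not at hcon
    apply hXC.2
    rw [hXY]
    rintro p ⟨s, ⟨a, ha, hsa⟩, b, hb, hsb⟩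
    have h1 := hcon b hb
    have h2 := hsa.card
    have h3 := hsb.card
    have h4 : s.ncard + sᶜ.ncard = p.1 := by
      rw [Set.ncard_add_ncard_compl, Nat.card_eq_fintype_card, Fintype.card_fin]
    have hpa : p.1 = a.1 := by omega
    obtain ⟨n, π⟩ := p
    obtain ⟨m, τ⟩ := a
    simp only at hpa
    subst hpa
    have := eq_of_contains_same hsa.contains
    simp only at this
    rw [← this]
    exact ha
  have h1 := hzero A B hA hB hAC h
  have h2 := hzero B A hB hA hBC (by rw [merge_comm]; exact h)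
  -- the increasing permutation of length 3
  have h3 : (⟨3, 1⟩ : AllPerms) ∈ Four := by
    refine ⟨le_refl _, ?_⟩
    intro i j k hij hjk hc
    simp only [Equiv.Perm.coe_one, id] at hc
    exact absurd hc.1 (not_lt.2 hij.le)
  rw [h] at h3
  obtain ⟨s, ⟨a, ha, hsa⟩, b, hb, hsb⟩ := h3
  have e1 := hsa.card
  have e2 := hsb.card
  have e3 : s.ncard + sᶜ.ncard = 3 := by
    rw [Set.ncard_add_ncard_compl, Nat.card_eq_fintype_card, Fintype.card_fin]
  rcases Nat.lt_or_ge b.1 2 with hlt | hge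
  · exact key B A hB hA h1 ⟨a, ha, by omega⟩ (by rw [merge_comm]; exact h.symm)
  · exact key A B hA hB h2 ⟨b, hb, hge⟩ h.symm

lemma short_ssubset (k : ℕ) : Short k ⊂ Short (k + 1) := by
  refine ⟨fun p hp => Nat.le_succ_of_le hp, fun h => ?_⟩
  have h1 : (⟨k + 1, 1⟩ : AllPerms) ∈ Short (k + 1) := Nat.le_refl (k + 1)
  have h2 : k + 1 ≤ k := h h1
  omega

lemma short1_ssubset (k : ℕ) (hk : 1 ≤ k) : Short 1 ⊂ Short (k + 1) := by
  refine ⟨fun p hp => Nat.le_trans hp (by omega), fun h => ?_⟩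
  have h1 : (⟨k + 1, 1⟩ : AllPerms) ∈ Short (k + 1) := Nat.le_refl (k + 1)
  have h2 : k + 1 ≤ 1 := h h1
  omega

lemma split_short (k : ℕ) : IrreducibleSplitting (Short (k + 1)) {Short 1} := by
  induction k with
  | zero => exact IrreducibleSplitting.base _ irr_point
  | succ k ih =>
    have h := IrreducibleSplitting.split (Short 1) (Short (k + 1)) (Short (k + 1 + 1))
      {Short 1} {Short 1} (isClass_short _) (isClass_short _) (short1_ssubset _ (by omega))
      (short_ssubset _) (by rw [merge_short]; congr 1; omega)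
      (IrreducibleSplitting.base _ irr_point) ih
    rwa [Set.union_self] at h

lemma swap_mem_four : (⟨2, Equiv.swap 0 1⟩ : AllPerms) ∈ Four := by
  refine ⟨by simp, ?_⟩
  intro i j k hij hjk
  have h1 : (i : ℕ) < j := hij
  have h2 : (j : ℕ) < k := hjk
  have := k.2
  simp only at this
  omega

lemma four_ssubset : Four ⊂ Short 4 := by
  refine ⟨fun p hp => Nat.le_trans hp.1 (by omega), fun h => ?_⟩
  have h1 : (⟨4, 1⟩ : AllPerms) ∈ Short 4 := Nat.le_refl 4
  have h2 := (h h1).1
  simp at h2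

lemma split_short' : IrreducibleSplitting (Short 4) {Short 1, Four} := by
  have h := IrreducibleSplitting.split (Short 1) Four (Short 4) {Short 1} {Four}
    (isClass_short _) isClass_four (short1_ssubset 3 (by omega)) four_ssubset
    merge_point_four.symm (IrreducibleSplitting.base _ irr_point)
    (IrreducibleSplitting.base _ irr_four)
  exact h

lemma inc_ssubset : Inc ⊂ merge Inc (Short 4) := by
  refine ⟨subset_merge_left (isClass_short 4), fun h => ?_⟩
  have h1 : (⟨2, Equiv.swap 0 1⟩ : AllPerms) ∈ merge Inc (Short 4) :=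
    subset_merge_right isClass_inc (show (2 : ℕ) ≤ 4 by omega)
  have h2 : (Equiv.swap 0 1 : Equiv.Perm (Fin 2)) = 1 := h h1
  exact absurd h2 (by decide)

lemma short_ssubset' : Short 4 ⊂ merge Inc (Short 4) := by
  refine ⟨subset_merge_right isClass_inc, fun h => ?_⟩
  have h1 : (⟨5, 1⟩ : AllPerms) ∈ merge Inc (Short 4) :=
    subset_merge_left (isClass_short 4) rfl
  have h2 : (5 : ℕ) ≤ 4 := h h1
  omega

lemma infinite_merge : (merge Inc (Short 4)).Infinite := by
  apply Set.Infinite.mono (subset_merge_left (isClass_short 4))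
  apply Set.infinite_of_injective_forall_mem (f := fun n : ℕ => (⟨n, 1⟩ : AllPerms))
  · intro a b h
    exact congrArg Sigma.fst h
  · intro n
    rfl

lemma split1 : IrreducibleSplitting (merge Inc (Short 4)) {Inc, Short 1} :=
  IrreducibleSplitting.split Inc (Short 4) _ {Inc} {Short 1} isClass_inc (isClass_short 4)
    inc_ssubset short_ssubset' rfl (IrreducibleSplitting.base _ irr_inc) (split_short 3)

lemma split2 : IrreducibleSplitting (merge Inc (Short 4)) {Inc, Short 1, Four} :=
  IrreducibleSplitting.split Inc (Short 4) _ {Inc} {Short 1, Four} isClass_inc (isClass_short 4)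
    inc_ssubset short_ssubset' rfl (IrreducibleSplitting.base _ irr_inc) split_short'

lemma ne12 : ({Inc, Short 1} : Set (Set AllPerms)) ≠ {Inc, Short 1, Four} := by
  intro h
  have h1 : Four ∈ ({Inc, Short 1, Four} : Set (Set AllPerms)) := by simp
  rw [← h] at h1
  rcases h1 with h1 | h1
  · have h2 := swap_mem_four
    rw [h1] at h2
    have h3 : (Equiv.swap 0 1 : Equiv.Perm (Fin 2)) = 1 := h2
    exact absurd h3 (by decide)
  · have h2 := swap_mem_four
    rw [Set.mem_singleton_iff.1 h1] at h2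
    have h3 : (2 : ℕ) ≤ 1 := h2
    omega

end Pool.Agent.R120.Merge
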