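import Mathlib
import Pool.Agent.R120.DDProd

/-! # Counting permutations with a given first entry -/

set_option autoImplicit false

namespace Pool.Agent.R120.MinOv

open Finset Equiv Filter Topology
open Pool.Agent.R120.DDCount (join join_left join_right exists_std)

/-- entries as natural numbers -/
def ent {n : ℕ} (τ : Perm (Fin n)) (i : ℕ) : ℕ := if h : i < n then (τ ⟨i, h⟩ : ℕ) else n

lemma ent_lt {n : ℕ} (τ : Perm (Fin n)) {i : ℕ} (h : i < n) : ent τ i = (τ ⟨i, h⟩ : ℕ) := by
  unfold ent; rw [dif_pos h]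

lemma ent_inj {n : ℕ} (τ : Perm (Fin n)) {i j : ℕ} (hi : i < n) (hj : j < n)
    (h : ent τ i = ent τ j) : i = j := by
  rw [ent_lt τ hi, ent_lt τ hj] at h
  have := τ.injective (Fin.ext h)
  simpa using this

open Classical in
noncomputable def ind (P : Prop) : ℝ := if P then 1 else 0

lemma ind_pos {P : Prop} (h : P) : ind P = 1 := by unfold ind; rw [if_pos h]
lemma ind_neg {P : Prop} (h : ¬ P) : ind P = 0 := by unfold ind; rw [if_neg h]
lemma ind_nonneg (P : Prop) : 0 ≤ ind P := by unfold ind; split_ifs <;> norm_num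
lemma ind_le_one (P : Prop) : ind P ≤ 1 := by unfold ind; split_ifs <;> norm_num
lemma ind_mono {P Q : Prop} (h : P → Q) : ind P ≤ ind Q := by
  by_cases hP : P
  · rw [ind_pos hP, ind_pos (h hP)]
  · rw [ind_neg hP]; exact ind_nonneg Q

/-- number of permutations with first entry `c` (numbered from `0`) and property `A` -/
noncomputable def cc (n c : ℕ) (A : Perm (Fin n) → Prop) : ℝ :=
  ∑ τ : Perm (Fin n), ind (ent τ 0 = c ∧ A τ)

lemma cc_nonneg (n c : ℕ) (A : Perm (Fin n) → Prop) : 0 ≤ cc n c A :=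
  sum_nonneg fun τ _ => ind_nonneg _

lemma cc_mono {n c : ℕ} {A B : Perm (Fin n) → Prop} (h : ∀ τ, ent τ 0 = c → A τ → B τ) :
    cc n c A ≤ cc n c B := by
  apply sum_le_sum
  intro τ _
  exact ind_mono fun h1 => ⟨h1.1, h τ h1.1 h1.2⟩

lemma cc_congr {n c : ℕ} {A B : Perm (Fin n) → Prop} (h : ∀ τ, ent τ 0 = c → (A τ ↔ B τ)) :
    cc n c A = cc n c B :=
  le_antisymm (cc_mono fun τ h0 => (h τ h0).1) (cc_mono fun τ h0 => (h τ h0).2)

lemma cc_or_le {n c : ℕ} (A B : Perm (Fin n) → Prop) :
    cc n c (fun τ => A τ ∨ B τ) ≤ cc n c A + cc n c B := by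
  classical
  unfold cc
  rw [← sum_add_distrib]
  apply sum_le_sum
  intro τ _
  by_cases h0 : ent τ 0 = c <;> by_cases h1 : A τ <;> by_cases h2 : B τ <;> simp [h0, h1, h2, ind]

lemma cc_exists_le {n c : ℕ} {ι : Type*} (s : Finset ι) (A : ι → Perm (Fin n) → Prop) :
    cc n c (fun τ => ∃ x ∈ s, A x τ) ≤ ∑ x ∈ s, cc n c (A x) := by
  classical
  induction s using Finset.induction_on with
  | empty =>
    simp only [notMem_empty, false_and, exists_false, sum_empty]
    unfold cc
    simp [ind]
  | insert a s ha ih =>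
    rw [sum_insert ha]
    refine le_trans ?_ (add_le_add (le_refl _) ih)
    refine le_trans (cc_mono ?_) (cc_or_le _ _)
    intro τ _ h
    obtain ⟨x, hx, h⟩ := h
    rw [mem_insert] at hx
    rcases hx with rfl | hx
    · exact Or.inl h
    · exact Or.inr ⟨x, hx, h⟩

lemma cc_compl {n c : ℕ} (A : Perm (Fin n) → Prop) :
    cc n c A + cc n c (fun τ => ¬ A τ) = cc n c (fun _ => True) := by
  classical
  unfold cc
  rw [← sum_add_distrib]
  apply sum_congr rfl
  intro τ _
  by_cases h0 : ent τ 0 = c <;> by_cases h1 : A τ <;> simp [h0, h1, ind]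

/-- averaging over a family of permutations of the positions fixing the first position -/
lemma cc_avg {n c : ℕ} {ι : Type*} [Fintype ι] (J : ι → Perm (Fin n))
    (hJ : ∀ x, ∀ h : 0 < n, J x ⟨0, h⟩ = ⟨0, h⟩) (A : Perm (Fin n) → Prop) :
    (Fintype.card ι : ℝ) * cc n c A = ∑ x : ι, cc n c (fun τ => A (τ * J x)) := by
  classical
  have : ∀ x, cc n c (fun τ => A (τ * J x)) = cc n c A := by
    intro x
    unfold cc
    rw [← Equiv.sum_comp (Equiv.mulRight (J x)) (fun τ => ind (ent τ 0 = c ∧ A τ))]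
    apply sum_congr rfl
    intro τ _
    simp only [Equiv.coe_mulRight]
    have h0 : ent (τ * J x) 0 = ent τ 0 := by
      unfold ent
      by_cases h : 0 < n
      · rw [dif_pos h, dif_pos h, Perm.mul_apply, hJ x h]
      · rw [dif_neg h, dif_neg h]
    rw [h0]
  simp only [this]
  rw [sum_const, card_univ, nsmul_eq_mul]

/-- total number -/
lemma cc_total {n c : ℕ} (hc : c < n) : cc n c (fun _ => True) = (n - 1).factorial := by
  classical
  have hn : 0 < n := by omega
  have heq : ∀ c', c' < n → cc n c' (fun _ => True) = cc n c (fun _ => True) := by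
    intro c' hc'
    unfold cc
    rw [← Equiv.sum_comp (Equiv.mulLeft (swap (⟨c, hc⟩ : Fin n) ⟨c', hc'⟩))
      (fun τ => ind (ent τ 0 = c' ∧ True))]
    apply sum_congr rfl
    intro τ _
    simp only [Equiv.coe_mulLeft, and_true]
    congr 1
    rw [ent_lt _ hn, ent_lt _ hn, Perm.mul_apply, eq_iff_iff]
    constructor
    · intro h
      have h1 : swap (⟨c, hc⟩ : Fin n) ⟨c', hc'⟩ (τ ⟨0, hn⟩) = ⟨c', hc'⟩ := Fin.ext h
      have h2 : τ ⟨0, hn⟩ = ⟨c, hc⟩ := by
        rw [← Equiv.eq_symm_apply] at h1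
        rw [h1]; simp
      rw [h2]
    · intro h
      have h2 : τ ⟨0, hn⟩ = ⟨c, hc⟩ := Fin.ext h
      rw [h2]; simp
  have hsum : ∑ c' ∈ range n, cc n c' (fun _ => True) = n.factorial := by
    unfold cc
    rw [sum_comm]
    have : ∀ τ : Perm (Fin n), ∑ x ∈ range n, ind (ent τ 0 = x ∧ True) = 1 := by
      intro τ
      rw [sum_eq_single (ent τ 0)]
      · exact ind_pos ⟨rfl, trivial⟩
      · intro b _ hb; rw [ind_neg]; rintro ⟨h, _⟩; exact hb h.symm
      · intro h
        exfalso; apply h
        rw [mem_range, ent_lt _ hn]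
        exact (τ ⟨0, hn⟩).2
    simp only [this]
    simp [Fintype.card_perm]
  rw [sum_congr rfl (fun c' h => heq c' (mem_range.1 h)), sum_const, card_range,
    nsmul_eq_mul] at hsum
  have hfac : (n.factorial : ℝ) = n * (n - 1).factorial := by
    exact_mod_cast (Nat.mul_factorial_pred hn.ne').symm
  rw [hfac] at hsum
  have hn' : (n : ℝ) ≠ 0 := by exact_mod_cast hn.ne'
  exact mul_left_cancel₀ hn' hsum

lemma cc_le {n c : ℕ} (A : Perm (Fin n) → Prop) (hn : 0 < n) : cc n c A ≤ (n - 1).factorial := by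
  by_cases hc : c < n
  · rw [← cc_total hc]
    exact cc_mono fun _ _ _ => trivial
  · have : cc n c A = 0 := by
      unfold cc
      apply sum_eq_zero
      intro τ _
      rw [ind_neg]
      rintro ⟨h, _⟩
      rw [ent_lt _ hn] at h
      have := (τ ⟨0, hn⟩).2
      omega
    rw [this]; positivity

/-- the blocks of length `r` at `a` and `b` are order isomorphic -/
def Beq {n : ℕ} (τ : Perm (Fin n)) (a b r : ℕ) : Prop :=
  ∀ i < r, ∀ j < r, (ent τ (a + i) < ent τ (a + j) ↔ ent τ (b + i) < ent τ (b + j))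

lemma ent_join_left {a b : ℕ} (τ : Perm (Fin (a + b))) (σ : Perm (Fin a)) (ρ : Perm (Fin b)) {i : ℕ}
    (hi : i < a) : ent (τ * join σ ρ) i = ent τ (ent σ i) := by
  have h1 := join_left σ ρ ⟨i, hi⟩
  rw [ent_lt _ (by omega : i < a + b), ent_lt σ hi,
    ent_lt τ (by have := (σ ⟨i, hi⟩).2; omega : (σ ⟨i, hi⟩ : ℕ) < a + b), Perm.mul_apply]
  rw [Fin.castAdd_mk] at h1
  rw [h1]
  rfl

lemma ent_join_right {a b : ℕ} (τ : Perm (Fin (a + b))) (σ : Perm (Fin a)) (ρ : Perm (Fin b)) {i : ℕ}
    (hi : i < b) : ent (τ * join σ ρ) (a + i) = ent τ (a + ent ρ i) := by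
  have h1 := join_right σ ρ ⟨i, hi⟩
  rw [ent_lt _ (by omega : a + i < a + b), ent_lt ρ hi,
    ent_lt τ (by have := (ρ ⟨i, hi⟩).2; omega : a + (ρ ⟨i, hi⟩ : ℕ) < a + b), Perm.mul_apply]
  rw [Fin.natAdd_mk] at h1
  rw [h1]
  rfl

lemma ent_one {n i : ℕ} (hi : i < n) : ent (1 : Perm (Fin n)) i = i := by
  rw [ent_lt _ hi]; rfl

/-- for disjoint blocks, the second not containing the first position -/
lemma block_bound (n c a b r : ℕ) (hab : a + r ≤ b) (hbn : b + r ≤ n) (hb : 0 < b) :
    (r.factorial : ℝ) * cc n c (fun τ => Beq τ a b r) ≤ (n - 1).factorial := by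
  classical
  obtain ⟨t, rfl⟩ := Nat.exists_eq_add_of_le hbn
  have havg := cc_avg (n := b + r + t) (c := c) (ι := Perm (Fin r))
    (fun σ => join (join 1 σ) 1) (by
      intro σ h
      have h1 := ent_join_left (1 : Perm (Fin (b + r + t))) (join (1 : Perm (Fin b)) σ)
        (1 : Perm (Fin t)) (i := 0) (by omega)
      have h2 := ent_join_left (1 : Perm (Fin (b + r))) (1 : Perm (Fin b)) σ (i := 0) (by omega)
      rw [one_mul] at h1 h2
      rw [h2, ent_one hb, ent_one (by omega : 0 < b + r), ent_one (by omega)] at h1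
      rw [ent_lt _ h] at h1
      exact Fin.ext h1) (fun τ => Beq τ a b r)
  rw [Fintype.card_perm, Fintype.card_fin] at havg
  rw [havg]
  -- swap the sums
  have key : ∀ τ : Perm (Fin (b + r + t)), ∀ σ σ' : Perm (Fin r),
      Beq (τ * join (join 1 σ) 1) a b r → Beq (τ * join (join 1 σ') 1) a b r → σ = σ' := by
    intro τ σ σ' h h'
    have e1 : ∀ (σ : Perm (Fin r)) (i : ℕ), i < r →
        ent (τ * join (join 1 σ) 1) (b + i) = ent τ (b + ent σ i) := by
      intro σ i hi
      rw [ent_join_left _ _ _ (by omega)]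
      have := ent_join_right (1 : Perm (Fin (b + r))) (1 : Perm (Fin b)) σ hi
      rw [one_mul, ent_one (by rw [ent_lt _ hi]; have := (σ ⟨i, hi⟩).2; omega)] at this
      rw [this]
    have e2 : ∀ (σ : Perm (Fin r)) (i : ℕ), i < b →
        ent (τ * join (join 1 σ) 1) i = ent τ i := by
      intro σ i hi
      rw [ent_join_left _ _ _ (by omega)]
      have := ent_join_left (1 : Perm (Fin (b + r))) (1 : Perm (Fin b)) σ hi
      rw [one_mul, ent_one hi, ent_one (by omega)] at this
      rw [this]
    obtain ⟨ρ, hρ⟩ := exists_std (fun i : Fin r => ent τ (b + i)) (by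
      intro i j hij
      have := ent_inj τ (by omega) (by omega) hij
      exact Fin.ext (by omega))
    have h3 : ∀ i j : Fin r, (ρ * σ) i < (ρ * σ) j ↔ (ρ * σ') i < (ρ * σ') j := by
      intro i j
      have g1 := h i i.2 j j.2
      have g2 := h' i i.2 j j.2
      rw [e2 σ _ (by omega), e2 σ _ (by omega), e1 σ _ i.2, e1 σ _ j.2] at g1
      rw [e2 σ' _ (by omega), e2 σ' _ (by omega), e1 σ' _ i.2, e1 σ' _ j.2] at g2
      rw [ent_lt σ i.2, ent_lt σ j.2] at g1
      rw [ent_lt σ' i.2, ent_lt σ' j.2] at g2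
      simp only [Perm.mul_apply, hρ]
      exact g1.symm.trans g2
    have h4 := perm_ext_lt h3
    exact mul_left_cancel h4
  unfold cc
  rw [sum_comm]
  have hle : ∀ τ : Perm (Fin (b + r + t)), ∑ σ : Perm (Fin r),
      ind (ent τ 0 = c ∧ Beq (τ * join (join 1 σ) 1) a b r) ≤
      ind (ent τ 0 = c ∧ True) := by
    intro τ
    by_cases h0 : ent τ 0 = c
    · simp only [h0, true_and]
      by_cases hex : ∃ σ : Perm (Fin r), Beq (τ * join (join 1 σ) 1) a b r
      · obtain ⟨σ, hσ⟩ := hex
        rw [sum_eq_single σ]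
        · rw [ind_pos hσ, ind_pos trivial]
        · intro σ' _ hne
          rw [ind_neg]
          intro h
          exact hne (key τ σ' σ h hσ)
        · intro h; exact absurd (mem_univ _) h
      · rw [sum_eq_zero]
        · exact ind_nonneg _
        · intro σ _
          rw [ind_neg]
          intro h
          exact hex ⟨σ, h⟩
    · simp [h0, ind]
  refine (sum_le_sum fun τ _ => hle τ).trans ?_
  exact cc_le (n := b + r + t) (c := c) (fun _ => True) (by omega)

/-- the first entry is rarely larger than another one of the first entries -/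
lemma small_bound (n c i : ℕ) (hi : 0 < i) (hin : i < n) :
    ((n - 1 : ℕ) : ℝ) * cc n c (fun τ => ent τ i < c) ≤ c * (n - 1).factorial := by
  classical
  have hn : 0 < n := by omega
  have heq : ∀ j ∈ Finset.Ico 1 n, cc n c (fun τ => ent τ j < c) = cc n c (fun τ => ent τ i < c) := by
    intro j hj
    rw [Finset.mem_Ico] at hj
    have := cc_avg (n := n) (c := c) (ι := Unit) (fun _ => swap (⟨i, hin⟩ : Fin n) ⟨j, hj.2⟩) (by
      intro _ h
      apply swap_apply_of_ne_of_ne
      · intro h'; have := congrArg Fin.val h'; simp at this; omega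
      · intro h'; have := congrArg Fin.val h'; simp at this; omega) (fun τ => ent τ i < c)
    simp only [Fintype.card_unit, Nat.cast_one, one_mul, Finset.univ_unique, sum_singleton] at this
    rw [this]
    apply cc_congr
    intro τ _
    rw [ent_lt _ hj.2, ent_lt _ hin, Perm.mul_apply, swap_apply_left]
  have hsum : ∑ j ∈ Finset.Ico 1 n, cc n c (fun τ => ent τ j < c) ≤
      c * cc n c (fun _ => True) := by
    unfold cc
    rw [sum_comm, mul_sum]
    apply sum_le_sum
    intro τ _
    by_cases h0 : ent τ 0 = c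
    · simp only [h0, true_and, ind, if_true, mul_one]
      rw [Finset.sum_boole]
      have : ((Finset.Ico 1 n).filter (fun j => ent τ j < c)).card ≤ (range c).card := by
        apply card_le_card_of_injOn (fun j => ent τ j)
        · intro j hj
          simp only [coe_filter, Finset.mem_Ico] at hj
          simpa using hj.2
        · intro j hj j' hj' h
          simp only [coe_filter, Finset.mem_Ico] at hj hj'
          exact ent_inj τ hj.1.2 hj'.1.2 h
      rw [card_range] at this
      exact_mod_cast this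
    · simp [h0, ind]
  rw [sum_congr rfl heq, sum_const, Nat.card_Ico, nsmul_eq_mul] at hsum
  refine hsum.trans ?_
  have := cc_le (n := n) (c := c) (fun _ => True) hn
  gcongr

end Pool.Agent.R120.MinOv
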