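import Mathlib

/-! # Minimal overlapping permutations: definitions -/

set_option autoImplicit false

namespace Pool.Agent.R120.MinOvDef

/-- The first `k` and the last `k` entries of `τ ∈ S_n` (`k ≤ n`) are order isomorphic. -/
def Overlap {n : ℕ} (τ : Equiv.Perm (Fin n)) (k : ℕ) (hk : k ≤ n) : Prop :=
  ∀ i j : Fin k,
    τ ⟨i, by omega⟩ < τ ⟨j, by omega⟩ ↔ τ ⟨n - k + i, by omega⟩ < τ ⟨n - k + j, by omega⟩

/-- `τ ∈ S_n` is minimal overlapping: for no `k` with `2 ≤ k ≤ n - 1` are its first `k` and its last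
`k` entries order isomorphic. -/
def MinimalOverlapping {n : ℕ} (τ : Equiv.Perm (Fin n)) : Prop :=
  ¬ ∃ k : ℕ, ∃ hk : k + 1 ≤ n, 2 ≤ k ∧ Overlap τ k (by omega)

/-- The proportion `p_n(m)` of minimal overlapping permutations among the `(n-1)!` permutations of
`S_n` whose first entry is `m` (entries are numbered `1, …, n` here, hence the `+ 1`). -/
noncomputable def p (n m : ℕ) : ℝ :=
  (Nat.card {τ : Equiv.Perm (Fin n) // MinimalOverlapping τ ∧
    ∃ h : 0 < n, (τ ⟨0, h⟩ : ℕ) + 1 = m} : ℝ) / ((n - 1).factorial : ℝ)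

end Pool.Agent.R120.MinOvDef
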