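import Mathlib
import Pool.Agent.R120.MinOv
import Pool.Agent.R120.MinOvDef

/-! # The limit does not depend on the first entry -/

set_option autoImplicit false

namespace Pool.Agent.R120.MinOv

open Finset Equiv Filter Topology
open Pool.Agent.R120.DDCount (join join_left join_right exists_std)

/-! ### Large overlaps are rare -/

lemma Beq.mono {n : ℕ} {τ : Perm (Fin n)} {a b r r' : ℕ} (h : Beq τ a b r) (hr : r' ≤ r) :
    Beq τ a b r' := fun i hi j hj => h i (by omega) j (by omega)

lemma Beq.chain {n : ℕ} {τ : Perm (Fin n)} {j k r : ℕ} (hjk : j + k = n) (h : Beq τ 0 j k) :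
    ∀ t, j * t + r ≤ n → Beq τ 0 (j * t) r := by
  intro t
  induction t with
  | zero => intro _ i hi i' hi'; simp
  | succ t ih =>
    intro ht i hi i' hi'
    rw [Nat.mul_succ] at ht
    rw [ih (by omega) i hi i' hi']
    have := h (j * t + i) (by omega) (j * t + i') (by omega)
    rw [Nat.zero_add, Nat.zero_add] at this
    rw [this, Nat.mul_succ]
    rw [show j + (j * t + i) = j * t + j + i by ring, show j + (j * t + i') = j * t + j + i' by ring]

lemma block_bound' (n c a b r : ℕ) (hab : a + r ≤ b) (hbn : b + r ≤ n) (hb : 0 < b) :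
    cc n c (fun τ => Beq τ a b r) / (n - 1).factorial ≤ 1 / r.factorial := by
  have h := block_bound n c a b r hab hbn hb
  rw [div_le_div_iff₀ (by positivity) (by positivity)]
  linarith

lemma overlap_bound (n c k : ℕ) (hkn : k + 1 ≤ n) :
    cc n c (fun τ => Beq τ 0 (n - k) k) / (n - 1).factorial ≤
      1 / k.factorial + 1 / (Nat.sqrt n - 1).factorial := by
  have hpos : (0 : ℝ) ≤ 1 / k.factorial := by positivity
  have hpos' : (0 : ℝ) ≤ 1 / (Nat.sqrt n - 1).factorial := by positivity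
  by_cases h2 : 2 * k ≤ n
  · have := block_bound' n c 0 (n - k) k (by omega) (by omega) (by omega)
    linarith
  · suffices h : cc n c (fun τ => Beq τ 0 (n - k) k) / (n - 1).factorial ≤
        1 / (Nat.sqrt n - 1).factorial by linarith
    set j := n - k with hj
    set s := Nat.sqrt n with hs
    have hs1 : s * s ≤ n := Nat.sqrt_le n
    by_cases hjs : s - 1 ≤ j
    · have h1 := block_bound' n c 0 j j (by omega) (by omega) (by omega)
      refine le_trans (le_trans ?_ h1) ?_
      · apply div_le_div_of_nonneg_right _ (by positivity)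
        exact cc_mono fun τ _ h => h.mono (by omega)
      · have : ((s - 1).factorial : ℝ) ≤ j.factorial := by
          exact_mod_cast Nat.factorial_le hjs
        apply one_div_le_one_div_of_le (by positivity) this
    · -- use `r = s`
      have hjs' : j + 2 ≤ s := by omega
      have hle : j * s + s ≤ n := by
        have : (j + 1) * s ≤ s * s := Nat.mul_le_mul_right s (by omega)
        rw [Nat.add_mul, Nat.one_mul] at this
        omega
      have hjpos : 1 ≤ j := by omega
      have hsj : s ≤ j * s := Nat.le_mul_of_pos_left s hjpos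
      have h1 := block_bound' n c 0 (j * s) s (by omega) hle (by omega)
      refine le_trans (le_trans ?_ h1) ?_
      · apply div_le_div_of_nonneg_right _ (by positivity)
        exact cc_mono fun τ _ h => h.chain (by omega) s hle
      · have : ((s - 1).factorial : ℝ) ≤ s.factorial := by
          exact_mod_cast Nat.factorial_le (by omega)
        apply one_div_le_one_div_of_le (by positivity) this

lemma large_bound (n c K : ℕ) :
    cc n c (fun τ => ∃ k ∈ Finset.Ico (K + 1) n, Beq τ 0 (n - k) k) / (n - 1).factorial ≤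
      (∑' i : ℕ, 1 / ((i + (K + 1)).factorial : ℝ)) + n * (1 / (Nat.sqrt n - 1).factorial) := by
  have hsum : Summable (fun i : ℕ => 1 / ((i + (K + 1)).factorial : ℝ)) := by
    have := (summable_nat_add_iff (K + 1)).2 (Real.summable_pow_div_factorial 1)
    simpa using this
  calc cc n c (fun τ => ∃ k ∈ Finset.Ico (K + 1) n, Beq τ 0 (n - k) k) / (n - 1).factorial
      ≤ (∑ k ∈ Finset.Ico (K + 1) n, cc n c (fun τ => Beq τ 0 (n - k) k)) / (n - 1).factorial := by
        apply div_le_div_of_nonneg_right _ (by positivity)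
        exact cc_exists_le _ _
    _ = ∑ k ∈ Finset.Ico (K + 1) n, cc n c (fun τ => Beq τ 0 (n - k) k) / (n - 1).factorial := by
        rw [sum_div]
    _ ≤ ∑ k ∈ Finset.Ico (K + 1) n, (1 / (k.factorial : ℝ) + 1 / (Nat.sqrt n - 1).factorial) := by
        apply sum_le_sum
        intro k hk
        rw [Finset.mem_Ico] at hk
        exact overlap_bound n c k (by omega)
    _ = ∑ k ∈ Finset.Ico (K + 1) n, 1 / (k.factorial : ℝ) +
          (n - (K + 1) : ℕ) * (1 / (Nat.sqrt n - 1).factorial) := by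
        rw [sum_add_distrib, sum_const, Nat.card_Ico, nsmul_eq_mul]
    _ ≤ _ := by
        apply add_le_add
        · rw [Finset.sum_Ico_eq_sum_range]
          have : ∀ i ∈ range (n - (K + 1)), 1 / (((K + 1) + i).factorial : ℝ) =
              1 / ((i + (K + 1)).factorial : ℝ) := by intro i _; rw [Nat.add_comm]
          rw [sum_congr rfl this]
          exact hsum.sum_le_tsum _ (fun i _ => by positivity)
        · apply mul_le_mul_of_nonneg_right _ (by positivity)
          exact_mod_cast Nat.sub_le _ _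

/-! ### Small overlaps -/

def AA (K : ℕ) (R1 R2 : ℕ → ℕ → Prop) : Prop :=
  ∀ k, 2 ≤ k → k ≤ K → ¬ ∀ i < k, ∀ j < k, (R1 i j ↔ R2 (K - k + i) (K - k + j))

lemma AA_congr {K : ℕ} {R1 R2 R1' R2' : ℕ → ℕ → Prop}
    (h1 : ∀ i < K, ∀ j < K, (R1 i j ↔ R1' i j)) (h2 : ∀ i < K, ∀ j < K, (R2 i j ↔ R2' i j)) :
    AA K R1 R2 ↔ AA K R1' R2' := by
  unfold AA
  apply forall_congr'; intro k
  apply imp_congr_right; intro hk
  apply imp_congr_right; intro hkK
  apply not_congr
  apply forall_congr'; intro i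
  apply imp_congr_right; intro hi
  apply forall_congr'; intro j
  apply imp_congr_right; intro hj
  rw [h1 i (by omega) j (by omega), h2 _ (by omega) _ (by omega)]

def NoSmall {n : ℕ} (K : ℕ) (τ : Perm (Fin n)) : Prop :=
  ∀ k, 2 ≤ k → k ≤ K → ¬ Beq τ 0 (n - k) k

lemma noSmall_iff {n K : ℕ} (hK : K ≤ n) (τ : Perm (Fin n)) : NoSmall K τ ↔
    AA K (fun i j => ent τ i < ent τ j) (fun i j => ent τ (n - K + i) < ent τ (n - K + j)) := by
  unfold NoSmall AA Beq
  apply forall_congr'; intro k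
  apply imp_congr_right; intro hk
  apply imp_congr_right; intro hkK
  apply not_congr
  apply forall_congr'; intro i
  apply imp_congr_right; intro hi
  apply forall_congr'; intro j
  apply imp_congr_right; intro hj
  beta_reduce
  rw [Nat.zero_add, Nat.zero_add, show n - K + (K - k + i) = n - k + i by omega,
    show n - K + (K - k + j) = n - k + j by omega]

def R1x {K' : ℕ} (x : Perm (Fin K')) (i j : ℕ) : Prop :=
  (i = 0 ∧ 0 < j) ∨ (0 < i ∧ 0 < j ∧ ent x (i - 1) < ent x (j - 1))

noncomputable def CK (K' : ℕ) : ℝ :=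
  ∑ x : Perm (Fin K'), ∑ z : Perm (Fin (K' + 1)),
    ind (AA (K' + 1) (R1x x) (fun i j => ent z i < ent z j))

lemma CK_nonneg (K' : ℕ) : 0 ≤ CK K' :=
  sum_nonneg fun _ _ => sum_nonneg fun _ _ => ind_nonneg _

lemma sum_le_card (K' : ℕ) (F : Perm (Fin K') → Perm (Fin (K' + 1)) → Prop) :
    ∑ x : Perm (Fin K'), ∑ z : Perm (Fin (K' + 1)), ind (F x z) ≤
      K'.factorial * (K' + 1).factorial := by
  calc ∑ x : Perm (Fin K'), ∑ z : Perm (Fin (K' + 1)), ind (F x z) ≤
      ∑ x : Perm (Fin K'), ∑ z : Perm (Fin (K' + 1)), (1 : ℝ) :=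
        sum_le_sum fun _ _ => sum_le_sum fun _ _ => ind_le_one _
    _ = _ := by simp [Fintype.card_perm]

/-- rearrangement of the first and last `K` positions, fixing the first position -/
def JJ (K' b : ℕ) (x : Perm (Fin K') × Perm (Fin (K' + 1))) :
    Perm (Fin (1 + K' + b + (K' + 1))) :=
  join (join (join 1 x.1) 1) x.2

lemma ent_JJ_zero {K' b : ℕ} (τ : Perm (Fin (1 + K' + b + (K' + 1))))
    (x : Perm (Fin K') × Perm (Fin (K' + 1))) : ent (τ * JJ K' b x) 0 = ent τ 0 := by
  unfold JJ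
  rw [ent_join_left _ _ _ (by omega)]
  have h1 := ent_join_left (1 : Perm (Fin (1 + K' + b))) (join (1 : Perm (Fin 1)) x.1)
    (1 : Perm (Fin b)) (i := 0) (by omega)
  have h2 := ent_join_left (1 : Perm (Fin (1 + K'))) (1 : Perm (Fin 1)) x.1 (i := 0) (by omega)
  rw [one_mul] at h1 h2
  rw [ent_one (by omega : 0 < 1), ent_one (by omega)] at h2
  rw [h2, ent_one (by omega)] at h1
  rw [h1]

lemma ent_JJ_left {K' b : ℕ} (τ : Perm (Fin (1 + K' + b + (K' + 1))))
    (x : Perm (Fin K') × Perm (Fin (K' + 1))) {i : ℕ} (hi : i < K') :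
    ent (τ * JJ K' b x) (1 + i) = ent τ (1 + ent x.1 i) := by
  have hx : ent x.1 i < K' := by rw [ent_lt _ hi]; exact (x.1 ⟨i, hi⟩).2
  unfold JJ
  rw [ent_join_left _ _ _ (by omega)]
  have h1 := ent_join_left (1 : Perm (Fin (1 + K' + b))) (join (1 : Perm (Fin 1)) x.1)
    (1 : Perm (Fin b)) (i := 1 + i) (by omega)
  have h2 := ent_join_right (1 : Perm (Fin (1 + K'))) (1 : Perm (Fin 1)) x.1 (i := i) hi
  rw [one_mul] at h1 h2
  rw [ent_one (by omega)] at h2
  rw [h2, ent_one (by omega)] at h1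
  rw [h1]

lemma ent_JJ_right {K' b : ℕ} (τ : Perm (Fin (1 + K' + b + (K' + 1))))
    (x : Perm (Fin K') × Perm (Fin (K' + 1))) {i : ℕ} (hi : i < K' + 1) :
    ent (τ * JJ K' b x) (1 + K' + b + i) = ent τ (1 + K' + b + ent x.2 i) := by
  unfold JJ
  rw [ent_join_right _ _ _ hi]

lemma JJ_zero {K' b : ℕ} (x : Perm (Fin K') × Perm (Fin (K' + 1)))
    (h : 0 < 1 + K' + b + (K' + 1)) : JJ K' b x ⟨0, h⟩ = ⟨0, h⟩ := by
  have := ent_JJ_zero (b := b) 1 x
  rw [one_mul, ent_one h, ent_lt _ h] at this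
  exact Fin.ext this

/-- for a permutation whose first entry is the smallest of its first `K' + 1` entries the number of
rearrangements without small overlaps is `CK K'` -/
lemma good_count {K' b : ℕ} (τ : Perm (Fin (1 + K' + b + (K' + 1))))
    (hτ : ∀ i < K', ent τ 0 < ent τ (1 + i)) :
    ∑ x : Perm (Fin K') × Perm (Fin (K' + 1)), ind (NoSmall (K' + 1) (τ * JJ K' b x)) = CK K' := by
  obtain ⟨ρ1, hρ1⟩ := exists_std (fun i : Fin K' => ent τ (1 + i)) (by
    intro i j hij
    have := ent_inj τ (by omega) (by omega) hij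
    exact Fin.ext (by omega))
  obtain ⟨ρ2, hρ2⟩ := exists_std (fun i : Fin (K' + 1) => ent τ (1 + K' + b + i)) (by
    intro i j hij
    have := ent_inj τ (by omega) (by omega) hij
    exact Fin.ext (by omega))
  have key : ∀ x : Perm (Fin K') × Perm (Fin (K' + 1)),
      ind (NoSmall (K' + 1) (τ * JJ K' b x)) =
        ind (AA (K' + 1) (R1x (ρ1 * x.1)) (fun i j => ent (ρ2 * x.2) i < ent (ρ2 * x.2) j)) := by
    intro x
    congr 1
    rw [noSmall_iff (by omega), eq_iff_iff]
    apply AA_congr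
    · intro i hi j hj
      unfold R1x
      rcases Nat.eq_zero_or_pos i with rfl | hi0
      · rcases Nat.eq_zero_or_pos j with rfl | hj0
        · simp
        · obtain ⟨j', rfl⟩ : ∃ j', j = 1 + j' := ⟨j - 1, by omega⟩
          rw [ent_JJ_zero, ent_JJ_left _ _ (by omega)]
          have hx : ent x.1 j' < K' := by
            rw [ent_lt _ (by omega : j' < K')]; exact (x.1 ⟨j', by omega⟩).2
          have := hτ _ hx
          simp [this]
      · obtain ⟨i', rfl⟩ : ∃ i', i = 1 + i' := ⟨i - 1, by omega⟩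
        have hxi : ent x.1 i' < K' := by
          rw [ent_lt _ (by omega : i' < K')]; exact (x.1 ⟨i', by omega⟩).2
        rcases Nat.eq_zero_or_pos j with rfl | hj0
        · rw [ent_JJ_zero, ent_JJ_left _ _ (by omega)]
          have := hτ _ hxi
          simp
          omega
        · obtain ⟨j', rfl⟩ : ∃ j', j = 1 + j' := ⟨j - 1, by omega⟩
          rw [ent_JJ_left _ _ (by omega), ent_JJ_left _ _ (by omega), Nat.add_sub_cancel_left,
            Nat.add_sub_cancel_left]
          have hi' : i' < K' := by omega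
          have hj' : j' < K' := by omega
          have h1 := hρ1 (x.1 ⟨i', hi'⟩) (x.1 ⟨j', hj'⟩)
          have e : (ent (ρ1 * x.1) i' < ent (ρ1 * x.1) j') ↔
              (ent τ (1 + ent x.1 i') < ent τ (1 + ent x.1 j')) := by
            rw [ent_lt x.1 hi', ent_lt x.1 hj', ent_lt (ρ1 * x.1) hi', ent_lt (ρ1 * x.1) hj']
            exact h1
          rw [e]
          simp
    · intro i hi j hj
      rw [show 1 + K' + b + (K' + 1) - (K' + 1) = 1 + K' + b by omega]
      rw [ent_JJ_right _ _ hi, ent_JJ_right _ _ hj]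
      have h1 := hρ2 (x.2 ⟨i, hi⟩) (x.2 ⟨j, hj⟩)
      rw [ent_lt x.2 hi, ent_lt x.2 hj, ent_lt (ρ2 * x.2) hi, ent_lt (ρ2 * x.2) hj]
      exact h1.symm
  simp only [key]
  rw [Fintype.sum_prod_type]
  unfold CK
  have e1 : ∀ x : Perm (Fin K'), ∑ z : Perm (Fin (K' + 1)),
      ind (AA (K' + 1) (R1x (ρ1 * x)) (fun i j => ent (ρ2 * z) i < ent (ρ2 * z) j)) =
      ∑ z : Perm (Fin (K' + 1)), ind (AA (K' + 1) (R1x (ρ1 * x)) (fun i j => ent z i < ent z j)) :=
    fun x => Equiv.sum_comp (Equiv.mulLeft ρ2)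
      (fun z => ind (AA (K' + 1) (R1x (ρ1 * x)) (fun i j => ent z i < ent z j)))
  refine (sum_congr rfl fun x _ => e1 x).trans ?_
  exact Equiv.sum_comp (Equiv.mulLeft ρ1) (fun x => ∑ z : Perm (Fin (K' + 1)),
    ind (AA (K' + 1) (R1x x) (fun i j => ent z i < ent z j)))

lemma small_approx (K' c n : ℕ) (hn : 2 * (K' + 1) ≤ n) (hc : c < n) :
    |cc n c (NoSmall (K' + 1)) / (n - 1).factorial -
      CK K' / (K'.factorial * (K' + 1).factorial)| ≤ (K' * c : ℕ) / ((n - 1 : ℕ) : ℝ) := by
  obtain ⟨b, rfl⟩ : ∃ b, n = 1 + K' + b + (K' + 1) := ⟨n - 2 * (K' + 1), by omega⟩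
  set n := 1 + K' + b + (K' + 1) with hn'
  set F : ℝ := K'.factorial * (K' + 1).factorial with hF
  have hFpos : 0 < F := by positivity
  have havg := cc_avg (n := n) (c := c) (JJ K' b) (fun x h => JJ_zero x h) (NoSmall (K' + 1))
  have hcard : (Fintype.card (Perm (Fin K') × Perm (Fin (K' + 1))) : ℝ) = F := by
    rw [Fintype.card_prod, Fintype.card_perm, Fintype.card_perm, Fintype.card_fin,
      Fintype.card_fin, hF]
    push_cast; ring
  rw [hcard] at havg
  have hsw : ∑ x : Perm (Fin K') × Perm (Fin (K' + 1)),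
      cc n c (fun τ => NoSmall (K' + 1) (τ * JJ K' b x)) =
      ∑ τ : Perm (Fin n), ind (ent τ 0 = c) *
        ∑ x : Perm (Fin K') × Perm (Fin (K' + 1)), ind (NoSmall (K' + 1) (τ * JJ K' b x)) := by
    unfold cc
    rw [sum_comm]
    apply sum_congr rfl
    intro τ _
    rw [mul_sum]
    apply sum_congr rfl
    intro x _
    by_cases h0 : ent τ 0 = c <;> by_cases h1 : NoSmall (K' + 1) (τ * JJ K' b x) <;>
      simp [ind, h0, h1]
  have htot : (n - 1).factorial * CK K' = ∑ τ : Perm (Fin n), ind (ent τ 0 = c) * CK K' := by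
    rw [← cc_total hc, ← sum_mul]
    congr 1
    unfold cc
    apply sum_congr rfl
    intro τ _
    simp
  -- the difference
  have hdiff : |F * cc n c (NoSmall (K' + 1)) - (n - 1).factorial * CK K'| ≤
      F * cc n c (fun τ => ∃ i ∈ range K', ent τ (1 + i) < c) := by
    rw [havg, hsw, htot, ← sum_sub_distrib]
    refine (abs_sum_le_sum_abs _ _).trans ?_
    unfold cc
    rw [mul_sum]
    apply sum_le_sum
    intro τ _
    by_cases h0 : ent τ 0 = c
    · rw [ind_pos h0, one_mul, one_mul]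
      by_cases hg : ∀ i < K', ent τ 0 < ent τ (1 + i)
      · rw [good_count τ hg, sub_self, abs_zero]
        exact mul_nonneg hFpos.le (ind_nonneg _)
      · push Not at hg
        obtain ⟨i, hi, hle⟩ := hg
        have hlt : ent τ (1 + i) < c := by
          rw [← h0]
          refine lt_of_le_of_ne hle ?_
          intro h
          have := ent_inj τ (by omega) (by omega) h
          omega
        rw [ind_pos ⟨h0, i, mem_range.2 hi, hlt⟩, mul_one, abs_le]
        have h1 := sum_le_card K' (fun x z => NoSmall (K' + 1) (τ * JJ K' b (x, z)))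
        have h2 : CK K' ≤ F := sum_le_card K' _
        have h3 : 0 ≤ ∑ x : Perm (Fin K') × Perm (Fin (K' + 1)),
          ind (NoSmall (K' + 1) (τ * JJ K' b x)) := sum_nonneg fun _ _ => ind_nonneg _
        have h4 := CK_nonneg K'
        rw [← Fintype.sum_prod_type (fun x => ind (NoSmall (K' + 1) (τ * JJ K' b x)))] at h1
        constructor <;> linarith
    · rw [ind_neg h0, zero_mul, zero_mul, sub_self, abs_zero]
      exact mul_nonneg hFpos.le (ind_nonneg _)
  have hbad : cc n c (fun τ => ∃ i ∈ range K', ent τ (1 + i) < c) * ((n - 1 : ℕ) : ℝ) ≤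
      (K' * c : ℕ) * (n - 1).factorial := by
    have h1 := cc_exists_le (n := n) (c := c) (range K') (fun i τ => ent τ (1 + i) < c)
    have h2 : ∀ i ∈ range K', ((n - 1 : ℕ) : ℝ) * cc n c (fun τ => ent τ (1 + i) < c) ≤
        c * (n - 1).factorial := by
      intro i hi
      rw [mem_range] at hi
      exact small_bound n c (1 + i) (by omega) (by omega)
    have h3 := sum_le_sum h2
    rw [← mul_sum, sum_const, card_range, nsmul_eq_mul] at h3
    have h4 : (0 : ℝ) ≤ ((n - 1 : ℕ) : ℝ) := by positivity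
    have h5 := mul_le_mul_of_nonneg_left h1 h4
    push_cast at *
    linarith
  have hfac : (0 : ℝ) < (n - 1).factorial := by positivity
  have hn1 : (0 : ℝ) < ((n - 1 : ℕ) : ℝ) := by
    have : 0 < n - 1 := by omega
    exact_mod_cast this
  have e1 : cc n c (NoSmall (K' + 1)) / (n - 1).factorial - CK K' / F =
      (F * cc n c (NoSmall (K' + 1)) - (n - 1).factorial * CK K') / (F * (n - 1).factorial) := by
    field_simp
  rw [e1, abs_div, abs_of_pos (mul_pos hFpos hfac), div_le_div_iff₀ (mul_pos hFpos hfac) hn1]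
  calc |F * cc n c (NoSmall (K' + 1)) - (n - 1).factorial * CK K'| * ((n - 1 : ℕ) : ℝ)
      ≤ F * cc n c (fun τ => ∃ i ∈ range K', ent τ (1 + i) < c) * ((n - 1 : ℕ) : ℝ) := by gcongr
    _ = F * (cc n c (fun τ => ∃ i ∈ range K', ent τ (1 + i) < c) * ((n - 1 : ℕ) : ℝ)) := by ring
    _ ≤ F * ((K' * c : ℕ) * (n - 1).factorial) := by gcongr
    _ = (K' * c : ℕ) * (F * (n - 1).factorial) := by ring

/-! ### The proportions -/

open Pool.Agent.R120.MinOvDef

lemma sum_ind_eq {α : Type*} [Fintype α] (P : α → Prop) :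
    ∑ x, ind (P x) = (Nat.card {x // P x} : ℝ) := by
  classical
  rw [Nat.card_eq_fintype_card, Fintype.card_subtype]
  have : ∀ x, ind (P x) = if P x then (1 : ℝ) else 0 := by
    intro x; by_cases h : P x
    · rw [ind_pos h, if_pos h]
    · rw [ind_neg h, if_neg h]
  simp only [this]
  rw [Finset.sum_boole]

lemma p_eq (n c : ℕ) (hn : 0 < n) : p n (c + 1) =
    cc n c (fun τ => ∀ k, 2 ≤ k → k + 1 ≤ n → ¬ Beq τ 0 (n - k) k) / (n - 1).factorial := by
  unfold p cc
  congr 1
  rw [sum_ind_eq]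
  congr 1
  apply Nat.card_congr
  apply Equiv.subtypeEquivRight
  intro τ
  rw [and_comm]
  apply and_congr
  · rw [ent_lt _ hn]
    constructor
    · rintro ⟨_, h⟩; omega
    · intro h; exact ⟨hn, by omega⟩
  · unfold MinimalOverlapping Overlap Beq
    constructor
    · intro h k hk hkn hb
      apply h
      refine ⟨k, hkn, hk, ?_⟩
      intro i j
      have := hb i i.2 j j.2
      rw [ent_lt τ (by omega), ent_lt τ (by omega), ent_lt τ (by omega), ent_lt τ (by omega)] at this
      simp only [Fin.lt_def]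
      simpa using this
    · rintro h ⟨k, hkn, hk, hb⟩
      apply h k hk hkn
      intro i hi j hj
      have := hb ⟨i, hi⟩ ⟨j, hj⟩
      rw [ent_lt τ (by omega), ent_lt τ (by omega), ent_lt τ (by omega), ent_lt τ (by omega)]
      simp only [Fin.lt_def] at this
      simpa using this

lemma approx (K' c n : ℕ) (hn : 2 * (K' + 1) ≤ n) (hc : c < n) :
    |p n (c + 1) - CK K' / (K'.factorial * (K' + 1).factorial)| ≤
      (K' * c : ℕ) / ((n - 1 : ℕ) : ℝ) + ((∑' i : ℕ, 1 / ((i + (K' + 1 + 1)).factorial : ℝ)) +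
        n * (1 / (Nat.sqrt n - 1).factorial)) := by
  have h1 := small_approx K' c n hn hc
  have h2 := large_bound n c (K' + 1)
  have hfac : (0 : ℝ) < (n - 1).factorial := by positivity
  have h3 : p n (c + 1) ≤ cc n c (NoSmall (K' + 1)) / (n - 1).factorial := by
    rw [p_eq n c (by omega)]
    apply div_le_div_of_nonneg_right _ hfac.le
    apply cc_mono
    intro τ _ h k hk hkK
    exact h k hk (by omega)
  have h4 : cc n c (NoSmall (K' + 1)) / (n - 1).factorial ≤ p n (c + 1) +
      cc n c (fun τ => ∃ k ∈ Finset.Ico (K' + 1 + 1) n, Beq τ 0 (n - k) k) / (n - 1).factorial := by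
    rw [p_eq n c (by omega), ← add_div]
    apply div_le_div_of_nonneg_right _ hfac.le
    refine le_trans (cc_mono ?_) (cc_or_le _ _)
    intro τ _ h
    by_cases hex : ∃ k ∈ Finset.Ico (K' + 1 + 1) n, Beq τ 0 (n - k) k
    · exact Or.inr hex
    · left
      intro k hk hkn hb
      by_cases hkK : k ≤ K' + 1
      · exact h k hk hkK hb
      · exact hex ⟨k, Finset.mem_Ico.2 ⟨by omega, by omega⟩, hb⟩
  rw [abs_le] at h1 ⊢
  constructor <;> linarith [h1.1, h1.2]

lemma sqrt_term : Tendsto (fun n : ℕ => (n : ℝ) * (1 / ((Nat.sqrt n - 1).factorial : ℝ))) atTop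
    (𝓝 0) := by
  have hsq : Tendsto (fun n : ℕ => Nat.sqrt n - 1) atTop atTop := by
    apply tendsto_atTop.2
    intro b
    filter_upwards [eventually_ge_atTop ((b + 1) * (b + 1))] with n hn
    have := Nat.le_sqrt.2 hn
    omega
  have h1 : Tendsto (fun n : ℕ => 4 * ((4 : ℝ) ^ (Nat.sqrt n - 1) / (Nat.sqrt n - 1).factorial))
      atTop (𝓝 (4 * 0)) :=
    ((FloorSemiring.tendsto_pow_div_factorial_atTop (4 : ℝ)).comp hsq).const_mul 4
  rw [mul_zero] at h1
  refine squeeze_zero' (Eventually.of_forall fun n => by positivity) ?_ h1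
  filter_upwards [eventually_ge_atTop 1] with n hn
  have hs : 1 ≤ Nat.sqrt n := Nat.le_sqrt.2 (by simpa using hn)
  obtain ⟨m, hm⟩ : ∃ m, Nat.sqrt n = m + 1 := ⟨Nat.sqrt n - 1, by omega⟩
  have hlt : n < (m + 2) * (m + 2) := by
    have := Nat.lt_succ_sqrt n
    rw [Nat.succ_eq_add_one, hm] at this
    exact this
  rw [hm, Nat.add_sub_cancel]
  have hpow : ∀ m : ℕ, (m + 2) * (m + 2) ≤ 4 * 4 ^ m := by
    intro m
    induction m with
    | zero => norm_num
    | succ m ih => rw [pow_succ]; nlinarith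
  have hn' : (n : ℝ) ≤ 4 * 4 ^ m := by
    have : n ≤ 4 * 4 ^ m := by have := hpow m; omega
    exact_mod_cast this
  calc (n : ℝ) * (1 / (m.factorial : ℝ)) ≤ (4 * 4 ^ m) * (1 / (m.factorial : ℝ)) := by gcongr
    _ = _ := by ring

theorem main : ∃ L : ℝ, ∀ m : ℕ, 1 ≤ m → Tendsto (fun n => p n m) atTop (𝓝 L) := by
  have hclose : ∀ ε : ℝ, 0 < ε → ∃ q : ℝ, ∀ c : ℕ, ∀ᶠ n in atTop, |p n (c + 1) - q| ≤ ε := by
    intro ε hε
    have ht : Tendsto (fun K : ℕ => ∑' i : ℕ, 1 / ((i + K).factorial : ℝ)) atTop (𝓝 0) :=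
      tendsto_sum_nat_add (fun i => 1 / (i.factorial : ℝ))
    have ht' := (ht.comp (tendsto_add_atTop_nat 2)).eventually_le_const
      (show (0 : ℝ) < ε / 3 by linarith)
    obtain ⟨K', hK'⟩ := ht'.exists
    simp only [Function.comp] at hK'
    refine ⟨CK K' / (K'.factorial * (K' + 1).factorial), fun c => ?_⟩
    have h1 : Tendsto (fun n : ℕ => ((K' * c : ℕ) : ℝ) / ((n - 1 : ℕ) : ℝ)) atTop (𝓝 0) := by
      have := (tendsto_const_div_atTop_nhds_zero_nat ((K' * c : ℕ) : ℝ)).comp
        (tendsto_sub_atTop_nat 1)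
      exact this
    have h2 := sqrt_term
    filter_upwards [eventually_ge_atTop (2 * (K' + 1)), eventually_gt_atTop c,
      h1.eventually_le_const (show (0 : ℝ) < ε / 3 by linarith),
      h2.eventually_le_const (show (0 : ℝ) < ε / 3 by linarith)] with n hn hc h3 h4
    have := approx K' c n hn hc
    linarith
  -- existence of the limit
  have hcau : CauchySeq (fun n => p n (0 + 1)) := by
    rw [Metric.cauchySeq_iff']
    intro ε hε
    obtain ⟨q, hq⟩ := hclose (ε / 3) (by linarith)
    obtain ⟨N, hN⟩ := eventually_atTop.1 (hq 0)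
    refine ⟨N, fun n hn => ?_⟩
    have a1 := hN n hn
    have a2 := hN N (le_refl _)
    rw [Real.dist_eq]
    rw [abs_le] at a1 a2
    rw [abs_lt]
    constructor <;> linarith [a1.1, a1.2, a2.1, a2.2]
  obtain ⟨L, hL⟩ := cauchySeq_tendsto_of_complete hcau
  refine ⟨L, fun m hm => ?_⟩
  obtain ⟨c, rfl⟩ : ∃ c, m = c + 1 := ⟨m - 1, by omega⟩
  rw [Metric.tendsto_atTop'] at hL ⊢
  intro ε hε
  obtain ⟨q, hq⟩ := hclose (ε / 4) (by linarith)
  obtain ⟨N1, hN1⟩ := eventually_atTop.1 (hq 0)
  obtain ⟨N2, hN2⟩ := eventually_atTop.1 (hq c)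
  obtain ⟨N3, hN3⟩ := hL (ε / 4) (by linarith)
  refine ⟨max N1 (max N2 N3), fun n hn => ?_⟩
  have g1 : N1 ≤ n := le_of_lt (lt_of_le_of_lt (le_max_left _ _) hn)
  have g2 : N2 ≤ n := le_of_lt (lt_of_le_of_lt ((le_max_left _ _).trans (le_max_right _ _)) hn)
  have g3 : N3 < n := lt_of_le_of_lt ((le_max_right _ _).trans (le_max_right _ _)) hn
  have a1 := hN1 n g1
  have a2 := hN2 n g2
  have a3 := hN3 n g3
  rw [Real.dist_eq] at a3 ⊢
  rw [abs_le] at a1 a2
  rw [abs_lt] at a3 ⊢
  constructor <;> linarith [a1.1, a1.2, a2.1, a2.2, a3.1, a3.2]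

end Pool.Agent.R120.MinOv
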