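import Pool.Agent.R120.ExtSq

/-! # A long word which is bicrucial with respect to `k`-th powers, `k ≥ 3` -/

set_option autoImplicit false

namespace Pool.Agent.R120.PowerCore

open Pool.Agent.R120.ExtSq

def PowAt (f : ℕ → ℤ) (k s ℓ : ℕ) : Prop :=
  ∀ r < k, ∀ r' < k, ∀ a < ℓ, ∀ b < ℓ,
    (f (s + r * ℓ + a) < f (s + r * ℓ + b) ↔ f (s + r' * ℓ + a) < f (s + r' * ℓ + b))

lemma PowAt.reflect {f g : ℕ → ℤ} {N k s ℓ : ℕ} (hfg : ∀ i j, i + j + 1 = N → g j = - f i)
    (hs : s + k * ℓ ≤ N) (h : PowAt f k s ℓ) : PowAt g k (N - s - k * ℓ) ℓ := by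
  intro r hr r' hr' a ha b hb
  obtain ⟨u, rfl⟩ : ∃ u, k = r + 1 + u := ⟨k - 1 - r, by omega⟩
  obtain ⟨u', hu'⟩ : ∃ u', r + 1 + u = r' + 1 + u' := ⟨r + u - r', by omega⟩
  have e1 : (r + 1 + u) * ℓ = r * ℓ + ℓ + u * ℓ := by ring
  have e2 : (r + 1 + u) * ℓ = r' * ℓ + ℓ + u' * ℓ := by rw [hu']; ring
  have := h u (by omega) u' (by omega) (ℓ - 1 - b) (by omega) (ℓ - 1 - a) (by omega)
  have key : ∀ (v w : ℕ), (r + 1 + u) * ℓ = v * ℓ + ℓ + w * ℓ → ∀ x < ℓ,
      g (N - s - (r + 1 + u) * ℓ + v * ℓ + x) = - f (s + w * ℓ + (ℓ - 1 - x)) := by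
    intro v w hvw x hx
    apply hfg
    omega
  rw [key r u e1 a ha, key r u e1 b hb, key r' u' e2 a ha, key r' u' e2 b hb, neg_lt_neg_iff,
    neg_lt_neg_iff]
  exact this

/-! ### The right end -/

def blk (k a : ℕ) : ℤ := if a < 2 * k - 2 then -(a : ℤ) else a

def Rr (k j : ℕ) : ℤ := -(4 * k : ℤ) * (j / (2 * k) : ℕ) + blk k (j % (2 * k))

lemma blk_le {k a : ℕ} (ha : a < 2 * k) : blk k a < 2 * k ∧ -(2 * k : ℤ) < blk k a := by
  unfold blk; split_ifs <;> constructor <;> omega

lemma Rr_lt_of_div_lt {k j j' : ℕ} (hk : 3 ≤ k) (h : j / (2 * k) < j' / (2 * k)) :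
    Rr k j' < Rr k j := by
  have h1 := blk_le (k := k) (Nat.mod_lt j (by omega : 0 < 2 * k))
  have h2 := blk_le (k := k) (Nat.mod_lt j' (by omega : 0 < 2 * k))
  unfold Rr
  have h3 : ((j / (2 * k) : ℕ) : ℤ) + 1 ≤ ((j' / (2 * k) : ℕ) : ℤ) := by exact_mod_cast h
  have hk' : (0 : ℤ) < 4 * k := by omega
  nlinarith

def U (K j : ℕ) : Prop := j % K = K - 3 ∨ j % K = K - 2

lemma Rr_step {k : ℕ} (hk : 3 ≤ k) (j : ℕ) : Rr k j < Rr k (j + 1) ↔ U (2 * k) j := by
  unfold U
  have hlt := Nat.mod_lt j (by omega : 0 < 2 * k)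
  have hdm := Nat.div_add_mod j (2 * k)
  by_cases h : j % (2 * k) = 2 * k - 1
  · have e : j + 1 = 2 * k * (j / (2 * k) + 1) + 0 := by rw [Nat.mul_add]; omega
    have hd : (j + 1) / (2 * k) = j / (2 * k) + 1 := by
      rw [e, Nat.mul_add_div (by omega)]; simp
    have := Rr_lt_of_div_lt (j := j) (j' := j + 1) hk (by omega)
    constructor
    · intro h'; exact absurd h' (not_lt.2 this.le)
    · intro h'; omega
  · have e : j + 1 = 2 * k * (j / (2 * k)) + (j % (2 * k) + 1) := by omega
    have hd : (j + 1) / (2 * k) = j / (2 * k) := by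
      conv_lhs => rw [e]
      rw [Nat.mul_add_div (by omega),
        Nat.div_eq_of_lt (show j % (2 * k) + 1 < 2 * k by omega), Nat.add_zero]
    have hm : (j + 1) % (2 * k) = j % (2 * k) + 1 := by
      conv_lhs => rw [e]
      rw [Nat.mul_add_mod, Nat.mod_eq_of_lt (by omega)]
    unfold Rr
    rw [hd, hm]
    unfold blk
    split_ifs <;> constructor <;> intro h' <;> omega

/-- first element of a block smaller than the last one -/
lemma single {k : ℕ} (hk : 3 ≤ k) (j ℓ : ℕ) (h : Rr k j < Rr k (j + (ℓ - 1))) :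
    j / (2 * k) = (j + (ℓ - 1)) / (2 * k) ∧ 2 * k - 2 ≤ (j + (ℓ - 1)) % (2 * k) := by
  have hle : j / (2 * k) ≤ (j + (ℓ - 1)) / (2 * k) := Nat.div_le_div_right (by omega)
  have hd : j / (2 * k) = (j + (ℓ - 1)) / (2 * k) := by
    rcases Nat.lt_or_eq_of_le hle with h' | h'
    · exact absurd h (not_lt.2 (Rr_lt_of_div_lt hk h').le)
    · exact h'
  refine ⟨hd, ?_⟩
  by_contra hcon
  have h1 := Nat.div_add_mod j (2 * k)
  have h2 := Nat.div_add_mod (j + (ℓ - 1)) (2 * k)
  rw [← hd] at h2
  unfold Rr at h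
  rw [← hd] at h
  unfold blk at h
  rw [if_pos (by omega), if_pos (by omega)] at h
  omega

lemma no_UUU {K x ℓ : ℕ} (hK : 3 ≤ K) (h2 : 2 ≤ ℓ) (hℓ : ℓ < K) (h0 : U K x) (h1 : U K (x + ℓ))
    (h3 : U K (x + 2 * ℓ)) : False := by
  have aux : ∀ y, U K y → U K (y + ℓ) → y % K = K - 2 ∧ (y + ℓ) % K = K - 3 := by
    intro y hy hy'
    unfold U at hy hy'
    have e1 := Nat.div_add_mod y K
    have e2 := Nat.div_add_mod (y + ℓ) K
    obtain ⟨t, ht⟩ := Nat.exists_eq_add_of_le
      (Nat.div_le_div_right (Nat.le_add_right y ℓ) : y / K ≤ (y + ℓ) / K)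
    rw [ht, Nat.mul_add] at e2
    rcases Nat.lt_or_ge t 2 with h | h
    · have : t = 0 ∨ t = 1 := by omega
      rcases this with rfl | rfl
      · omega
      · omega
    · have : K * 2 ≤ K * t := Nat.mul_le_mul_left K h
      omega
  have a1 := aux x h0 h1
  have h3' : U K (x + ℓ + ℓ) := by rw [show x + ℓ + ℓ = x + 2 * ℓ by ring]; exact h3
  have a2 := aux (x + ℓ) h1 h3'
  omega

lemma no_pow_R {k : ℕ} (hk : 3 ≤ k) {s ℓ : ℕ} (h2 : 2 ≤ ℓ) (hs : s + k * ℓ < 2 * k * k) :
    ¬ PowAt (Rr k) k s ℓ := by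
  intro h
  have hℓ : ℓ < 2 * k := by
    by_contra hcon
    have : k * (2 * k) ≤ k * ℓ := Nat.mul_le_mul_left k (by omega)
    have e : k * (2 * k) = 2 * k * k := by ring
    omega
  have hkℓ : k * 2 ≤ k * ℓ := Nat.mul_le_mul_left k h2
  -- a step up inside the span
  obtain ⟨p, hp1, hp2, hp3⟩ : ∃ p, s ≤ p ∧ p + 2 ≤ s + k * ℓ ∧ U (2 * k) p := by
    have hlt := Nat.mod_lt s (by omega : 0 < 2 * k)
    have hdm := Nat.div_add_mod s (2 * k)
    rcases Nat.lt_or_ge (s % (2 * k)) (2 * k - 2) with h' | h'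
    · refine ⟨2 * k * (s / (2 * k)) + (2 * k - 3), by omega, by omega, Or.inl ?_⟩
      rw [Nat.mul_add_mod, Nat.mod_eq_of_lt (by omega)]
    · rcases Nat.lt_or_ge (s % (2 * k)) (2 * k - 1) with h'' | h''
      · exact ⟨s, le_refl _, by omega, Or.inr (by omega)⟩
      · refine ⟨2 * k * (s / (2 * k) + 1) + (2 * k - 3), ?_, ?_, Or.inl ?_⟩
        · rw [Nat.mul_add]; omega
        · rw [Nat.mul_add]; omega
        · rw [Nat.mul_add_mod, Nat.mod_eq_of_lt (by omega)]
  -- an inner step up
  obtain ⟨r, hr, x, hx, hU⟩ : ∃ r < k, ∃ x, x + 1 < ℓ ∧ U (2 * k) (s + r * ℓ + x) := by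
    have hlt := Nat.mod_lt (p - s) (by omega : 0 < ℓ)
    have hdm := Nat.div_add_mod (p - s) ℓ
    have hrk : (p - s) / ℓ < k := Nat.div_lt_of_lt_mul (by rw [Nat.mul_comm]; omega)
    by_cases hin : (p - s) % ℓ + 1 < ℓ
    · refine ⟨(p - s) / ℓ, hrk, (p - s) % ℓ, hin, ?_⟩
      rw [show s + (p - s) / ℓ * ℓ + (p - s) % ℓ = p by rw [Nat.mul_comm]; omega]
      exact hp3
    · rcases hp3 with hp3 | hp3
      · refine ⟨(p - s) / ℓ + 1, ?_, 0, by omega, Or.inr ?_⟩
        · by_contra hcon
          have : (p - s) / ℓ + 1 = k := by omega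
          have e : ℓ * ((p - s) / ℓ) + ℓ = k * ℓ := by rw [← this]; ring
          omega
        · rw [show s + ((p - s) / ℓ + 1) * ℓ + 0 = p + 1 by rw [Nat.add_mul, Nat.mul_comm]; omega]
          have e := Nat.div_add_mod p (2 * k)
          rw [show p + 1 = 2 * k * (p / (2 * k)) + (p % (2 * k) + 1) by omega, Nat.mul_add_mod,
            Nat.mod_eq_of_lt (by omega)]
          omega
      · refine ⟨(p - s) / ℓ, hrk, ℓ - 2, by omega, Or.inl ?_⟩
        rw [show s + (p - s) / ℓ * ℓ + (ℓ - 2) = p - 1 by rw [Nat.mul_comm]; omega]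
        have e := Nat.div_add_mod p (2 * k)
        rw [show p - 1 = 2 * k * (p / (2 * k)) + (p % (2 * k) - 1) by omega, Nat.mul_add_mod,
          Nat.mod_eq_of_lt (by omega)]
        omega
  have hall : ∀ r' < k, U (2 * k) (s + r' * ℓ + x) := by
    intro r' hr'
    have := h r hr r' hr' x (by omega) (x + 1) hx
    rw [← Nat.add_assoc, ← Nat.add_assoc, Rr_step hk, Rr_step hk] at this
    exact this.1 hU
  refine no_UUU (K := 2 * k) (x := s + 0 * ℓ + x) (by omega) h2 hℓ (hall 0 (by omega)) ?_ ?_
  · have := hall 1 (by omega)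
    rw [show s + 0 * ℓ + x + ℓ = s + 1 * ℓ + x by ring]; exact this
  · have := hall 2 (by omega)
    rw [show s + 0 * ℓ + x + 2 * ℓ = s + 2 * ℓ + x by ring]; exact this

/-! ### The whole word -/

def lam (k : ℕ) : ℕ := 2 * k * k - 1

def V (k m i : ℕ) : ℤ :=
  if i < lam k then -(bd m + 4 * k * k + Rr k (lam k - 1 - i))
  else if i < lam k + len m then c m (i - lam k)
  else bd m + 4 * k * k + Rr k (i - lam k - len m)

lemma Rr_pos {k j : ℕ} (hk : 3 ≤ k) (hj : j < lam k) : 0 < 4 * (k : ℤ) * k + Rr k j := by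
  unfold lam at hj
  have h1 := blk_le (k := k) (Nat.mod_lt j (by omega : 0 < 2 * k))
  have h2 : j / (2 * k) < k := Nat.div_lt_of_lt_mul (by omega)
  have h3 : ((j / (2 * k) : ℕ) : ℤ) + 1 ≤ k := by exact_mod_cast h2
  unfold Rr
  have hk' : (0 : ℤ) < 4 * k := by omega
  nlinarith

lemma V_symm (k m i j : ℕ) (h : i + j + 1 = 2 * lam k + len m) : V k m j = - V k m i := by
  have h1 := le_len m
  unfold V
  by_cases hi : i < lam k
  · rw [if_pos hi, if_neg (by omega), if_neg (by omega), neg_neg]
    congr 2; omega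
  · by_cases hi2 : i < lam k + len m
    · rw [if_neg hi, if_pos hi2, if_neg (by omega), if_pos (by omega)]
      exact c_symm m _ _ (by omega)
    · rw [if_neg hi, if_neg hi2, if_pos (by omega)]
      congr 3; omega

lemma V_R (k m j : ℕ) : V k m (lam k + len m + j) = bd m + 4 * k * k + Rr k j := by
  unfold V
  rw [if_neg (by omega), if_neg (by omega)]
  congr 2; omega

lemma V_C (k m j : ℕ) (hj : j < len m) : V k m (lam k + j) = c m j := by
  unfold V
  rw [if_neg (by omega), if_pos (by omega)]
  congr 1; omega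

lemma V_lt_right {k m i j : ℕ} (hk : 3 ≤ k) (hi : i < lam k + len m) (hj : j < lam k) :
    V k m i < V k m (lam k + len m + j) := by
  have hb := bd_pos m
  have h1 := Rr_pos hk hj
  rw [V_R]
  by_cases h : i < lam k
  · have := Rr_pos (j := lam k - 1 - i) hk (by omega)
    unfold V
    rw [if_pos h]
    linarith
  · have := abs_c_lt m (i - lam k) (by omega)
    unfold V
    rw [if_neg h, if_pos hi]
    linarith

lemma V_stepR {k : ℕ} (hk : 3 ≤ k) (m j : ℕ) :
    V k m (lam k + len m + j) < V k m (lam k + len m + j + 1) ↔ U (2 * k) j := by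
  rw [Nat.add_assoc (lam k + len m), V_R, V_R, ← Rr_step hk]
  constructor <;> intro h <;> linarith

lemma V_stepC {k : ℕ} (m j : ℕ) (hj : j + 1 < len (m + 1)) :
    V k (m + 1) (lam k + j) < V k (m + 1) (lam k + j + 1) ↔ j % 4 < 2 := by
  rw [Nat.add_assoc (lam k), V_C _ _ _ (by omega), V_C _ _ _ hj]
  exact c_shape m j hj

/-- the maxima decrease -/
lemma c_max (m p y : ℕ) (hp : p % 4 = 2) (hpy : p < y) (hy : y < len (m + 1)) :
    c (m + 1) y < c (m + 1) p := by
  have hb := bd_pos m
  simp only [len] at hy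
  by_cases h0 : y % 4 = 0
  · simp [c, h0, hp]; omega
  · by_cases h2 : y % 4 = 2
    · simp [c, h2, hp]; omega
    · have := abs_c_lt m (y / 2) (by omega)
      simp [c, h0, h2, hp]; omega

lemma lam_mul {k : ℕ} (hk : 3 ≤ k) : lam k + 1 = 2 * k * k := by
  have : 0 < 2 * k * k := by positivity
  unfold lam; omega

/-- no `k`-th power reaches the right end -/
lemma no_pow_right {k m : ℕ} (hk : 3 ≤ k) (hm : k * (lam k + 4) ≤ len (m + 1)) {s ℓ : ℕ}
    (h2 : 2 ≤ ℓ) (hs : s + k * ℓ ≤ 2 * lam k + len (m + 1)) (hs' : lam k + len (m + 1) < s + k * ℓ)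
    (h : PowAt (V k (m + 1)) k s ℓ) : False := by
  set n := len (m + 1) with hn
  have hn4 : n % 4 = 3 := len_succ_mod m
  have hlam := lam_mul hk
  have hlam17 : 17 ≤ lam k := by
    have : 3 * 3 ≤ k * k := Nat.mul_le_mul hk hk
    have : 2 * k * k = 2 * (k * k) := by ring
    omega
  obtain ⟨v, rfl⟩ : ∃ v, k = v + 3 := ⟨k - 3, by omega⟩
  set k := v + 3 with hkdef
  have hkℓ : k * ℓ = v * ℓ + 3 * ℓ := by rw [hkdef]; ring
  by_cases hin : lam k + n ≤ s
  · -- inside the right end
    obtain ⟨t, rfl⟩ := Nat.exists_eq_add_of_le hin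
    refine no_pow_R hk (s := t) h2 (by omega) ?_
    intro r hr r' hr' a ha b hb
    have := h r hr r' hr' a ha b hb
    rw [show lam k + n + t + r * ℓ + a = lam k + n + (t + r * ℓ + a) by ring,
      show lam k + n + t + r * ℓ + b = lam k + n + (t + r * ℓ + b) by ring,
      show lam k + n + t + r' * ℓ + a = lam k + n + (t + r' * ℓ + a) by ring,
      show lam k + n + t + r' * ℓ + b = lam k + n + (t + r' * ℓ + b) by ring,
      V_R, V_R, V_R, V_R] at this
    simpa using this
  · by_cases hbig : lam k + 4 ≤ ℓ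
    · -- long blocks
      have e1 : (v + 2) * ℓ = v * ℓ + 2 * ℓ := by ring
      have e2 : (v + 1) * ℓ = v * ℓ + ℓ := by ring
      -- the crossing block is the last one
      obtain ⟨x, hx⟩ : ∃ x, s + (v + 2) * ℓ + x = lam k + n := ⟨lam k + n - (s + (v + 2) * ℓ), by omega⟩
      -- the maximum among the first four entries of the previous block
      obtain ⟨q, hq⟩ : ∃ q, s + (v + 1) * ℓ = lam k + q := ⟨s + (v + 1) * ℓ - lam k, by omega⟩
      obtain ⟨a, ha, ha2⟩ : ∃ a < 4, (q + a) % 4 = 2 := ⟨(6 - q % 4) % 4, by omega, by omega⟩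
      have h3 := h (v + 2) (by omega) (v + 1) (by omega) a (by omega) x (by omega)
      have h4 : V k (m + 1) (s + (v + 2) * ℓ + a) < V k (m + 1) (s + (v + 2) * ℓ + x) := by
        rw [hx]
        exact V_lt_right (j := 0) hk (by omega) (by omega)
      have h5 := h3.1 h4
      rw [hq, Nat.add_assoc, Nat.add_assoc, V_C _ _ _ (by omega), V_C _ _ _ (by omega)] at h5
      exact absurd h5 (not_lt.2 (c_max m _ _ ha2 (by omega) (by omega)).le)
    · -- short blocks
      have hkk : k * ℓ ≤ k * (lam k + 4) := Nat.mul_le_mul_left k (by omega)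
      have hsl : lam k ≤ s := by omega
      obtain ⟨s', rfl⟩ := Nat.exists_eq_add_of_le hsl
      -- the first two blocks are not inside the centre
      have hsq : n < s' + 2 * ℓ := by
        by_contra hcon
        refine c_sqFree (m + 1) s' ℓ h2 (by omega) ?_
        intro a ha b hb
        have := h 0 (by omega) 1 (by omega) a ha b hb
        rw [show lam k + s' + 0 * ℓ + a = lam k + (s' + a) by ring,
          show lam k + s' + 0 * ℓ + b = lam k + (s' + b) by ring,
          show lam k + s' + 1 * ℓ + a = lam k + (s' + ℓ + a) by ring,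
          show lam k + s' + 1 * ℓ + b = lam k + (s' + ℓ + b) by ring,
          V_C _ _ _ (by omega), V_C _ _ _ (by omega), V_C _ _ _ (by omega),
          V_C _ _ _ (by omega)] at this
        exact this
      have hUsmall : ∀ j, j < 2 * k → (U (2 * k) j ↔ j = 2 * k - 3 ∨ j = 2 * k - 2) := by
        intro j hj
        unfold U
        rw [Nat.mod_eq_of_lt hj]
      -- steps of the blocks
      have hstep : ∀ r < k, ∀ r' < k, ∀ a, a + 1 < ℓ →
          (V k (m + 1) (lam k + s' + r * ℓ + a) < V k (m + 1) (lam k + s' + r * ℓ + a + 1) ↔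
            V k (m + 1) (lam k + s' + r' * ℓ + a) < V k (m + 1) (lam k + s' + r' * ℓ + a + 1)) :=
        fun r hr r' hr' a ha => h r hr r' hr' a (by omega) (a + 1) ha
      -- two blocks inside the right end
      have two_last : ∀ e', s' + (v + 1) * ℓ = n + e' →
          (∀ r' < k, V k (m + 1) (lam k + s' + r' * ℓ + 0) <
            V k (m + 1) (lam k + s' + r' * ℓ + (ℓ - 1))) →
          (∀ Q, e' + ℓ = ℓ * Q → False) → False := by
        intro e' he' hfl hal
        have e1 : (v + 2) * ℓ = v * ℓ + 2 * ℓ := by ring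
        have e2 : (v + 1) * ℓ = v * ℓ + ℓ := by ring
        have f1 := hfl (v + 1) (by omega)
        have f2 := hfl (v + 2) (by omega)
        rw [show lam k + s' + (v + 1) * ℓ + 0 = lam k + n + e' by omega,
          show lam k + s' + (v + 1) * ℓ + (ℓ - 1) = lam k + n + (e' + (ℓ - 1)) by omega,
          V_R, V_R, add_lt_add_iff_left] at f1
        rw [show lam k + s' + (v + 2) * ℓ + 0 = lam k + n + (e' + ℓ) by omega,
          show lam k + s' + (v + 2) * ℓ + (ℓ - 1) = lam k + n + (e' + ℓ + (ℓ - 1)) by omega,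
          V_R, V_R, add_lt_add_iff_left] at f2
        obtain ⟨g1, g2⟩ := single hk _ _ f1
        obtain ⟨g3, g4⟩ := single hk _ _ f2
        have d1 := Nat.div_add_mod (e' + ℓ) (2 * k)
        have d2 := Nat.div_add_mod (e' + ℓ + (ℓ - 1)) (2 * k)
        have l1 := Nat.mod_lt (e' + ℓ) (by omega : 0 < 2 * k)
        have l2 := Nat.mod_lt (e' + ℓ + (ℓ - 1)) (by omega : 0 < 2 * k)
        rw [← g3] at d2
        have ha0 : (e' + ℓ) % (2 * k) = 0 := by
          by_contra hne
          have : e' + (ℓ - 1) = 2 * k * ((e' + ℓ) / (2 * k)) + ((e' + ℓ) % (2 * k) - 1) := by omega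
          rw [this, Nat.mul_add_mod, Nat.mod_eq_of_lt (by omega)] at g2
          omega
        have hℓ' : ℓ = 2 * k - 1 ∨ ℓ = 2 * k := by omega
        rcases hℓ' with hℓ' | hℓ'
        · obtain ⟨Q, hQ⟩ : ∃ Q, (e' + ℓ) / (2 * k) = Q + 1 := by
            have : (e' + ℓ) / (2 * k) ≠ 0 := by
              intro h0
              rw [h0] at d1
              omega
            exact Nat.exists_eq_succ_of_ne_zero this
          rw [hQ, Nat.mul_add] at d1
          have := hstep (v + 2) (by omega) (v + 1) (by omega) (ℓ - 3) (by omega)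
          rw [show lam k + s' + (v + 2) * ℓ + (ℓ - 3) = lam k + n + (e' + ℓ + (ℓ - 3)) by omega,
            show lam k + s' + (v + 1) * ℓ + (ℓ - 3) = lam k + n + (e' + (ℓ - 3)) by omega,
            V_stepR hk, V_stepR hk] at this
          have u1 : U (2 * k) (e' + (ℓ - 3)) := by
            left
            rw [show e' + (ℓ - 3) = 2 * k * Q + (2 * k - 3) by omega, Nat.mul_add_mod,
              Nat.mod_eq_of_lt (by omega)]
          have u2 := this.2 u1
          unfold U at u2
          rw [show e' + ℓ + (ℓ - 3) = 2 * k * (Q + 1) + (2 * k - 4) by rw [Nat.mul_add]; omega,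
            Nat.mul_add_mod, Nat.mod_eq_of_lt (by omega)] at u2
          omega
        · refine hal ((e' + ℓ) / (2 * k)) ?_
          have : ℓ * ((e' + ℓ) / (2 * k)) = 2 * k * ((e' + ℓ) / (2 * k)) := by
            rw [← hℓ']
          omega
      have halign : s' < n → n ≠ s' + ℓ → n < s' + 2 * ℓ → ∀ e', s' + (v + 1) * ℓ = n + e' →
          ∀ Q, e' + ℓ = ℓ * Q → False := by
        intro h1 h1' h3 e' he' Q hQ
        have e2 : (v + 1) * ℓ + ℓ = ℓ * (v + 2) := by ring
        rcases Nat.lt_or_ge (v + 2) Q with hq | hq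
        · have : ℓ * (v + 2) ≤ ℓ * Q := Nat.mul_le_mul_left ℓ hq.le
          omega
        · obtain ⟨t, ht⟩ := Nat.exists_eq_add_of_le hq
          rw [ht, Nat.mul_add] at e2
          rcases Nat.lt_or_ge t 2 with ht2 | ht2
          · have : t = 0 ∨ t = 1 := by omega
            rcases this with rfl | rfl
            · omega
            · omega
          · have : ℓ * 2 ≤ ℓ * t := Nat.mul_le_mul_left ℓ ht2
            omega
      rcases Nat.lt_trichotomy (s' + ℓ) n with hlt | heq | hgt
      · -- the boundary is inside the second block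
        have hfl : ∀ r' < k, V k (m + 1) (lam k + s' + r' * ℓ + 0) <
            V k (m + 1) (lam k + s' + r' * ℓ + (ℓ - 1)) := by
          intro r' hr'
          rw [← h 1 (by omega) r' hr' 0 (by omega) (ℓ - 1) (by omega)]
          obtain ⟨j, hj⟩ : ∃ j, lam k + s' + 1 * ℓ + (ℓ - 1) = lam k + n + j :=
            ⟨s' + 2 * ℓ - 1 - n, by omega⟩
          rw [hj]
          exact V_lt_right hk (by omega) (by omega)
        rcases Nat.eq_zero_or_pos v with hv | hv
        · -- `k = 3`
          have hk3 : k = 3 := by omega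
          obtain ⟨y, hy⟩ : ∃ y, s' + 2 * ℓ = n + y := ⟨s' + 2 * ℓ - n, by omega⟩
          have f2 := hfl 2 (by omega)
          rw [show lam k + s' + 2 * ℓ + 0 = lam k + n + y by omega,
            show lam k + s' + 2 * ℓ + (ℓ - 1) = lam k + n + (y + (ℓ - 1)) by omega,
            V_R, V_R, add_lt_add_iff_left] at f2
          obtain ⟨g1, g2⟩ := single hk _ _ f2
          have hx := hstep 1 (by omega) 2 (by omega) (n - (s' + ℓ) - 1) (by omega)
          rw [show lam k + s' + 1 * ℓ + (n - (s' + ℓ) - 1) + 1 = lam k + n + 0 by omega,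
            show lam k + s' + 2 * ℓ + (n - (s' + ℓ) - 1) = lam k + n + (ℓ - 1) by omega,
            V_stepR hk] at hx
          have hU := hx.1 (V_lt_right hk (by omega) (by omega))
          unfold U at hU
          rw [hk3] at g1 g2 hU
          norm_num at g1 g2 hU
          have hcases : (ℓ = 4 ∧ y = 1) ∨ (ℓ = 4 ∧ y = 2) ∨ (ℓ = 5 ∧ y = 1) := by omega
          rcases hcases with ⟨hl, hy'⟩ | ⟨hl, hy'⟩ | ⟨hl, hy'⟩
          · have := hstep 1 (by omega) 2 (by omega) 1 (by omega)
            rw [show lam k + s' + 1 * ℓ + 1 = lam k + (n - 2) by omega,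
              show lam k + s' + 2 * ℓ + 1 = lam k + n + 2 by omega, V_stepR hk,
              V_stepC _ _ (by omega), hUsmall 2 (by omega)] at this
            omega
          · have := hstep 1 (by omega) 2 (by omega) 2 (by omega)
            rw [show lam k + s' + 1 * ℓ + 2 = lam k + n + 0 by omega,
              show lam k + s' + 2 * ℓ + 2 = lam k + n + 4 by omega, V_stepR hk,
              V_stepR hk, hUsmall 0 (by omega), hUsmall 4 (by omega)] at this
            omega
          · have := hstep 1 (by omega) 2 (by omega) 1 (by omega)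
            rw [show lam k + s' + 1 * ℓ + 1 = lam k + (n - 3) by omega,
              show lam k + s' + 2 * ℓ + 1 = lam k + n + 2 by omega, V_stepR hk,
              V_stepC _ _ (by omega), hUsmall 2 (by omega)] at this
            omega
        · have hvl : ℓ ≤ v * ℓ := Nat.le_mul_of_pos_left ℓ hv
          have e2 : (v + 1) * ℓ = v * ℓ + ℓ := by ring
          obtain ⟨e', he'⟩ : ∃ e', s' + (v + 1) * ℓ = n + e' := ⟨s' + (v + 1) * ℓ - n, by omega⟩
          exact two_last e' he' hfl (halign (by omega) (by omega) hsq e' he')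
      · -- the boundary is between the first two blocks
        have hℓ2k : ℓ ≤ 2 * k + 2 := by
          by_contra hcon
          have h1 : (v + 2) * (2 * k + 3) ≤ (v + 2) * ℓ := Nat.mul_le_mul_left _ (by omega)
          have e1 : (v + 2) * ℓ = v * ℓ + 2 * ℓ := by ring
          have e3 : (v + 2) * (2 * k + 3) + 3 = 2 * k * k + k := by rw [hkdef]; ring
          omega
        rcases Nat.lt_or_ge ℓ 3 with hl3 | hl3
        · have := hstep 0 (by omega) 1 (by omega) 0 (by omega)
          rw [show lam k + s' + 0 * ℓ + 0 = lam k + (n - 2) by omega,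
            show lam k + s' + 1 * ℓ + 0 = lam k + n + 0 by omega, V_stepR hk,
            V_stepC _ _ (by omega), hUsmall 0 (by omega)] at this
          omega
        · have t1 := hstep 0 (by omega) 1 (by omega) (ℓ - 2) (by omega)
          rw [show lam k + s' + 0 * ℓ + (ℓ - 2) = lam k + (n - 2) by omega,
            show lam k + s' + 1 * ℓ + (ℓ - 2) = lam k + n + (ℓ - 2) by omega, V_stepR hk,
            V_stepC _ _ (by omega)] at t1
          have t2 := hstep 0 (by omega) 1 (by omega) (ℓ - 3) (by omega)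
          rw [show lam k + s' + 0 * ℓ + (ℓ - 3) = lam k + (n - 3) by omega,
            show lam k + s' + 1 * ℓ + (ℓ - 3) = lam k + n + (ℓ - 3) by omega, V_stepR hk,
            V_stepC _ _ (by omega)] at t2
          have u1 := t1.1 (by omega)
          have u2 := t2.1 (by omega)
          have hl2k : ℓ = 2 * k := by
            rcases Nat.lt_or_ge (ℓ - 2) (2 * k) with hh | hh
            · rw [hUsmall _ hh] at u1
              rw [hUsmall _ (by omega)] at u2
              omega
            · have : ℓ - 2 = 2 * k := by omega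
              unfold U at u1
              rw [this, Nat.mod_self] at u1
              omega
          have t3 := hstep 0 (by omega) 1 (by omega) (ℓ - 6) (by omega)
          rw [show lam k + s' + 0 * ℓ + (ℓ - 6) = lam k + (n - 6) by omega,
            show lam k + s' + 1 * ℓ + (ℓ - 6) = lam k + n + (ℓ - 6) by omega, V_stepR hk,
            V_stepC _ _ (by omega), hUsmall _ (by omega)] at t3
          omega
      · -- the boundary is inside the first block
        have hfl : ∀ r' < k, V k (m + 1) (lam k + s' + r' * ℓ + 0) <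
            V k (m + 1) (lam k + s' + r' * ℓ + (ℓ - 1)) := by
          intro r' hr'
          rw [← h 0 (by omega) r' hr' 0 (by omega) (ℓ - 1) (by omega)]
          obtain ⟨j, hj⟩ : ∃ j, lam k + s' + 0 * ℓ + (ℓ - 1) = lam k + n + j :=
            ⟨s' + ℓ - 1 - n, by omega⟩
          rw [hj]
          exact V_lt_right hk (by omega) (by omega)
        have e2 : (v + 1) * ℓ = v * ℓ + ℓ := by ring
        obtain ⟨e', he'⟩ : ∃ e', s' + (v + 1) * ℓ = n + e' := ⟨s' + (v + 1) * ℓ - n, by omega⟩
        exact two_last e' he' hfl (halign (by omega) (by omega) hsq e' he')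

/-- `V` contains no `k`-th power. -/
lemma no_pow {k m : ℕ} (hk : 3 ≤ k) (hm : k * (lam k + 4) ≤ len (m + 1)) {s ℓ : ℕ}
    (h2 : 2 ≤ ℓ) (hs : s + k * ℓ ≤ 2 * lam k + len (m + 1)) :
    ¬ PowAt (V k (m + 1)) k s ℓ := by
  intro h
  by_cases hr : lam k + len (m + 1) < s + k * ℓ
  · exact no_pow_right hk hm h2 hs hr h
  · by_cases hl : s < lam k
    · have := h.reflect (fun i j hij => V_symm k (m + 1) i j hij) hs
      exact no_pow_right hk hm h2 (by omega) (by omega) this
    · obtain ⟨t, rfl⟩ := Nat.exists_eq_add_of_le (not_lt.1 hl)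
      have hk2 : 2 * ℓ ≤ k * ℓ := Nat.mul_le_mul_right ℓ (by omega)
      refine c_sqFree (m + 1) t ℓ h2 (by omega) ?_
      intro a ha b hb
      have := h 0 (by omega) 1 (by omega) a ha b hb
      rw [show lam k + t + 0 * ℓ + a = lam k + (t + a) by ring,
        show lam k + t + 0 * ℓ + b = lam k + (t + b) by ring,
        show lam k + t + 1 * ℓ + a = lam k + (t + ℓ + a) by ring,
        show lam k + t + 1 * ℓ + b = lam k + (t + ℓ + b) by ring,
        V_C _ _ _ (by omega), V_C _ _ _ (by omega), V_C _ _ _ (by omega),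
        V_C _ _ _ (by omega)] at this
      exact this

/-- every extension to the right has a `k`-th power. -/
lemma right_power {k m : ℕ} (hk : 3 ≤ k) (g : ℕ → ℤ)
    (hg : ∀ i < 2 * lam k + len m, ∀ j < 2 * lam k + len m, (g i < g j ↔ V k m i < V k m j))
    (hne : g (2 * lam k + len m) ≠ g (2 * lam k + len m - 1)) :
    ∃ s ℓ, 2 ≤ ℓ ∧ s + k * ℓ ≤ 2 * lam k + len m + 1 ∧ PowAt g k s ℓ := by
  have hlam := lam_mul hk
  set n := len m with hn
  set ρ := lam k + n with hρ
  have hRg : ∀ i < lam k, ∀ j < lam k, (g (ρ + i) < g (ρ + j) ↔ Rr k i < Rr k j) := by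
    intro i hi j hj
    rw [hg _ (by omega) _ (by omega), V_R, V_R, add_lt_add_iff_left]
  have hRblk : ∀ q a, a < 2 * k → Rr k (2 * k * q + a) = -(4 * k : ℤ) * q + blk k a := by
    intro q a ha
    unfold Rr
    rw [Nat.mul_add_div (by omega), Nat.div_eq_of_lt ha, Nat.mul_add_mod, Nat.mod_eq_of_lt ha,
      Nat.add_zero]
  have hqa : ∀ q a, q < k → a < 2 * k → (q + 1 < k ∨ a + 1 < 2 * k) → 2 * k * q + a < lam k := by
    intro q a hq ha hor
    rcases hor with h | h
    · obtain ⟨t, ht⟩ : ∃ t, k = q + 2 + t := ⟨k - (q + 2), by omega⟩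
      have : 2 * k * k = 2 * k * q + 2 * k * 2 + 2 * k * t := by
        conv_lhs => rw [show 2 * k * k = 2 * k * (q + 2 + t) by rw [← ht]]
        ring
      have : 0 ≤ 2 * k * t := Nat.zero_le _
      omega
    · obtain ⟨t, ht⟩ : ∃ t, k = q + 1 + t := ⟨k - (q + 1), by omega⟩
      have : 2 * k * k = 2 * k * q + 2 * k + 2 * k * t := by
        conv_lhs => rw [show 2 * k * k = 2 * k * (q + 1 + t) by rw [← ht]]
        ring
      have : 0 ≤ 2 * k * t := Nat.zero_le _
      omega
  rcases lt_or_gt_of_ne hne with hlt | hgt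
  · -- the new entry is smaller than the last one: blocks of length two
    refine ⟨ρ + 2 * k * (k - 1), 2, le_refl _, ?_, ?_⟩
    · have : 2 * k * k = 2 * k * (k - 1) + 2 * k := by
        obtain ⟨t, rfl⟩ : ∃ t, k = t + 1 := ⟨k - 1, by omega⟩
        rw [Nat.add_sub_cancel]; ring
      omega
    · have hdown : ∀ r < k, g (ρ + 2 * k * (k - 1) + r * 2 + 1) < g (ρ + 2 * k * (k - 1) + r * 2 + 0) := by
        intro r hr
        by_cases hr1 : r + 1 < k
        · rw [show ρ + 2 * k * (k - 1) + r * 2 + 1 = ρ + (2 * k * (k - 1) + (2 * r + 1)) by ring,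
            show ρ + 2 * k * (k - 1) + r * 2 + 0 = ρ + (2 * k * (k - 1) + 2 * r) by ring,
            hRg _ (hqa _ _ (by omega) (by omega) (by omega)) _
              (hqa _ _ (by omega) (by omega) (by omega)),
            hRblk _ _ (by omega), hRblk _ _ (by omega)]
          unfold blk
          rw [if_pos (by omega), if_pos (by omega)]
          push_cast
          linarith
        · have h1 : 2 * k * k = 2 * k * (k - 1) + 2 * k := by
            obtain ⟨t, rfl⟩ : ∃ t, k = t + 1 := ⟨k - 1, by omega⟩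
            rw [Nat.add_sub_cancel]; ring
          rw [show ρ + 2 * k * (k - 1) + r * 2 + 1 = 2 * lam k + n by omega,
            show ρ + 2 * k * (k - 1) + r * 2 + 0 = 2 * lam k + n - 1 by omega]
          exact hlt
      intro r hr r' hr' a ha b hb
      have d1 := hdown r hr
      have d2 := hdown r' hr'
      have ha' : a = 0 ∨ a = 1 := by omega
      have hb' : b = 0 ∨ b = 1 := by omega
      rcases ha' with rfl | rfl <;> rcases hb' with rfl | rfl
      · simp
      · exact ⟨fun h => absurd h (not_lt.2 d1.le), fun h => absurd h (not_lt.2 d2.le)⟩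
      · exact ⟨fun _ => d2, fun _ => d1⟩
      · simp
  · -- the new entry is larger: blocks of length `2 k`
    refine ⟨ρ, 2 * k, by omega, ?_, ?_⟩
    · have : k * (2 * k) = 2 * k * k := by ring
      omega
    · have hkey : ∀ r < k, ∀ a < 2 * k, ∀ b < 2 * k,
          (g (ρ + r * (2 * k) + a) < g (ρ + r * (2 * k) + b) ↔ blk k a < blk k b) := by
        have hin : ∀ r a b, r < k → a < 2 * k → b < 2 * k → 2 * k * r + a < lam k →
            2 * k * r + b < lam k →
            (g (ρ + r * (2 * k) + a) < g (ρ + r * (2 * k) + b) ↔ blk k a < blk k b) := by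
          intro r a b hr ha hb ha' hb'
          rw [show ρ + r * (2 * k) + a = ρ + (2 * k * r + a) by ring,
            show ρ + r * (2 * k) + b = ρ + (2 * k * r + b) by ring,
            hRg _ ha' _ hb', hRblk _ _ ha, hRblk _ _ hb, add_lt_add_iff_left]
        intro r hr a ha b hb
        by_cases hr1 : r + 1 < k
        · exact hin r a b hr ha hb (hqa _ _ hr ha (Or.inl hr1)) (hqa _ _ hr hb (Or.inl hr1))
        · have hrk : r = k - 1 := by omega
          have h1 : 2 * k * k = 2 * k * r + 2 * k := by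
            obtain ⟨t, ht⟩ : ∃ t, k = t + 1 := ⟨k - 1, by omega⟩
            have : r = t := by omega
            rw [this]
            conv_lhs => rw [show 2 * k * k = 2 * k * (t + 1) by rw [← ht]]
            ring
          have h1' : r * (2 * k) = 2 * k * r := by ring
          -- the last old entry is the largest of its block
          have hlast : ∀ a, a + 1 < 2 * k → g (ρ + r * (2 * k) + a) < g (2 * lam k + n) := by
            intro a ha
            refine lt_of_le_of_lt ?_ hgt
            by_cases ha2 : a + 2 = 2 * k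
            · rw [show ρ + r * (2 * k) + a = 2 * lam k + n - 1 by omega]
            · have := (hin r a (2 * k - 2) hr (by omega) (by omega)
                (hqa _ _ hr (by omega) (Or.inr ha)) (hqa _ _ hr (by omega) (Or.inr (by omega)))).2 (by
                  unfold blk
                  rw [if_neg (show ¬ (2 * k - 2 < 2 * k - 2) by omega)]
                  split_ifs <;> omega)
              rw [show ρ + r * (2 * k) + (2 * k - 2) = 2 * lam k + n - 1 by omega] at this
              exact this.le
          have hblk : ∀ a, a + 1 < 2 * k → blk k a < blk k (2 * k - 1) := by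
            intro a ha
            unfold blk
            rw [if_neg (show ¬ (2 * k - 1 < 2 * k - 2) by omega)]
            split_ifs <;> omega
          by_cases ha1 : a + 1 < 2 * k
          · by_cases hb1 : b + 1 < 2 * k
            · exact hin r a b hr ha hb (hqa _ _ hr ha (Or.inr ha1)) (hqa _ _ hr hb (Or.inr hb1))
            · have hb2 : b = 2 * k - 1 := by omega
              subst hb2
              rw [show ρ + r * (2 * k) + (2 * k - 1) = 2 * lam k + n by omega]
              exact ⟨fun _ => hblk a ha1, fun _ => hlast a ha1⟩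
          · have ha2 : a = 2 * k - 1 := by omega
            subst ha2
            rw [show ρ + r * (2 * k) + (2 * k - 1) = 2 * lam k + n by omega]
            by_cases hb1 : b + 1 < 2 * k
            · exact ⟨fun h => absurd h (not_lt.2 (hlast b hb1).le),
                fun h => absurd h (not_lt.2 (hblk b hb1).le)⟩
            · have hb2 : b = 2 * k - 1 := by omega
              subst hb2
              rw [show ρ + r * (2 * k) + (2 * k - 1) = 2 * lam k + n by omega]
              simp
      intro r hr r' hr' a ha b hb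
      rw [hkey r hr a ha b hb, hkey r' hr' a ha b hb]

/-- every extension to the left has a `k`-th power. -/
lemma left_power {k m : ℕ} (hk : 3 ≤ k) (g : ℕ → ℤ)
    (hg : ∀ i < 2 * lam k + len m, ∀ j < 2 * lam k + len m,
      (g (i + 1) < g (j + 1) ↔ V k m i < V k m j))
    (hne : g 0 ≠ g 1) :
    ∃ s ℓ, 2 ≤ ℓ ∧ s + k * ℓ ≤ 2 * lam k + len m + 1 ∧ PowAt g k s ℓ := by
  have hl := le_len m
  obtain ⟨s, ℓ, h2, hs, h⟩ := right_power (k := k) (m := m) hk
    (fun i => - g (2 * lam k + len m - i)) (by
      intro i hi j hj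
      simp only [neg_lt_neg_iff]
      rw [show 2 * lam k + len m - j = (2 * lam k + len m - 1 - j) + 1 by omega,
        show 2 * lam k + len m - i = (2 * lam k + len m - 1 - i) + 1 by omega,
        hg _ (by omega) _ (by omega),
        V_symm k m i (2 * lam k + len m - 1 - i) (by omega),
        V_symm k m j (2 * lam k + len m - 1 - j) (by omega), neg_lt_neg_iff]) (by
      simp only [Nat.sub_self]
      rw [show 2 * lam k + len m - (2 * lam k + len m - 1) = 1 by omega]
      intro h; exact hne (neg_injective h))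
  refine ⟨2 * lam k + len m + 1 - s - k * ℓ, ℓ, h2, by omega, ?_⟩
  refine h.reflect ?_ hs
  intro i j hij
  rw [show 2 * lam k + len m - i = j by omega, neg_neg]

end Pool.Agent.R120.PowerCore
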