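import Mathlib

/-!
# Powers in permutations: definitions

Permutations of length `n` are elements of `Equiv.Perm (Fin n)`; positions and values are numbered from `0`.
-/

set_option autoImplicit false

namespace Pool.Agent.R120.PowerDef

/-- The entry of `σ` at position `i` (and `0` if `i` is not a position of `σ`). -/
def entry {n : ℕ} (σ : Equiv.Perm (Fin n)) (i : ℕ) : ℕ := if h : i < n then (σ ⟨i, h⟩ : ℕ) else 0

/-- `σ` contains a `k`-th power: for some start `s` and some block length `ℓ ≥ 2` the positions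
`s, …, s + k ℓ - 1` exist, and every two of the `k` consecutive blocks of length `ℓ` are order isomorphic. -/
def HasPower (k : ℕ) {n : ℕ} (σ : Equiv.Perm (Fin n)) : Prop :=
  ∃ s ℓ : ℕ, 2 ≤ ℓ ∧ s + k * ℓ ≤ n ∧ ∀ r < k, ∀ r' < k, ∀ a < ℓ, ∀ b < ℓ,
    (entry σ (s + r * ℓ + a) < entry σ (s + r * ℓ + b) ↔
      entry σ (s + r' * ℓ + a) < entry σ (s + r' * ℓ + b))

/-- `τ` is a right extension of `σ`: the first `n` entries of `τ` are order isomorphic to `σ`. -/
def IsRightExtension {n : ℕ} (σ : Equiv.Perm (Fin n)) (τ : Equiv.Perm (Fin (n + 1))) : Prop :=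
  ∀ i j : Fin n, τ i.castSucc < τ j.castSucc ↔ σ i < σ j

/-- `τ` is a left extension of `σ`: the last `n` entries of `τ` are order isomorphic to `σ`. -/
def IsLeftExtension {n : ℕ} (σ : Equiv.Perm (Fin n)) (τ : Equiv.Perm (Fin (n + 1))) : Prop :=
  ∀ i j : Fin n, τ i.succ < τ j.succ ↔ σ i < σ j

/-- `σ` is bicrucial with respect to `k`-th powers. -/
def Bicrucial (k : ℕ) {n : ℕ} (σ : Equiv.Perm (Fin n)) : Prop :=
  ¬ HasPower k σ ∧ (∀ τ, IsLeftExtension σ τ → HasPower k τ) ∧
    ∀ τ, IsRightExtension σ τ → HasPower k τ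

end Pool.Agent.R120.PowerDef
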