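import Pool.Agent.R120.PowerCore
import Pool.Agent.R120.PowerDef
import Pool.Agent.R120.Pat

/-! # From the word `V` to a permutation -/

set_option autoImplicit false

namespace Pool.Agent.R120.PowerCore

open Pool.Agent.R120.ExtSq Pool.Agent.R120.PowerDef

lemma c_inj' (k : ℕ) : ∀ i j, i < len k → j < len k → c k i = c k j → i = j := by
  induction k with
  | zero => intro i j hi hj _; simp only [len] at hi hj; omega
  | succ k ih =>
    intro i j hi hj h
    have hb := bd_pos k
    simp only [len] at hi hj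
    simp only [c] at h
    split_ifs at h with h1 h2 h3 h4 h5 h6 h7 h8
    all_goals first
      | omega
      | skip
    all_goals first
      | (have := abs_c_lt k (j / 2) (by omega); omega)
      | (have := abs_c_lt k (i / 2) (by omega); omega)
      | (have := ih (i / 2) (j / 2) (by omega) (by omega) h; omega)

lemma Rr_inj {k : ℕ} (hk : 3 ≤ k) {i j : ℕ} (h : Rr k i = Rr k j) : i = j := by
  rcases Nat.lt_trichotomy (i / (2 * k)) (j / (2 * k)) with hd | hd | hd
  · exact absurd h (Rr_lt_of_div_lt hk hd).ne'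
  · have e1 := Nat.div_add_mod i (2 * k)
    have e2 := Nat.div_add_mod j (2 * k)
    have l1 := Nat.mod_lt i (by omega : 0 < 2 * k)
    have l2 := Nat.mod_lt j (by omega : 0 < 2 * k)
    have hm : i % (2 * k) = j % (2 * k) := by
      unfold Rr at h
      rw [hd] at h
      have h' : blk k (i % (2 * k)) = blk k (j % (2 * k)) := by linarith
      unfold blk at h'
      split_ifs at h' <;> omega
    rw [← e1, ← e2, hd, hm]
  · exact absurd h (Rr_lt_of_div_lt hk hd).ne

lemma V_inj {k m : ℕ} (hk : 3 ≤ k) {i j : ℕ} (hi : i < 2 * lam k + len m)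
    (hj : j < 2 * lam k + len m) (h : V k m i = V k m j) : i = j := by
  -- positions in the right end
  have key : ∀ i < 2 * lam k + len m, ∀ j < 2 * lam k + len m, lam k + len m ≤ j →
      V k m i = V k m j → i = j := by
    intro i hi j hj hj' h
    obtain ⟨j', rfl⟩ := Nat.exists_eq_add_of_le hj'
    by_cases hi' : i < lam k + len m
    · exact absurd h (V_lt_right hk hi' (by omega)).ne
    · obtain ⟨i', rfl⟩ := Nat.exists_eq_add_of_le (not_lt.1 hi')
      rw [V_R, V_R] at h
      rw [Rr_inj hk (add_left_cancel h)]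
  by_cases h1 : lam k + len m ≤ j
  · exact key i hi j hj h1 h
  by_cases h2 : lam k + len m ≤ i
  · exact (key j hj i hi h2 h.symm).symm
  by_cases h3 : j < lam k
  · have := key (2 * lam k + len m - 1 - i) (by omega) (2 * lam k + len m - 1 - j) (by omega)
      (by omega) (by
        rw [V_symm k m i (2 * lam k + len m - 1 - i) (by omega),
          V_symm k m j (2 * lam k + len m - 1 - j) (by omega), h])
    omega
  by_cases h4 : i < lam k
  · have := key (2 * lam k + len m - 1 - j) (by omega) (2 * lam k + len m - 1 - i) (by omega)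
      (by omega) (by
        rw [V_symm k m i (2 * lam k + len m - 1 - i) (by omega),
          V_symm k m j (2 * lam k + len m - 1 - j) (by omega), h])
    omega
  obtain ⟨i', rfl⟩ := Nat.exists_eq_add_of_le (not_lt.1 h4)
  obtain ⟨j', rfl⟩ := Nat.exists_eq_add_of_le (not_lt.1 h3)
  rw [V_C _ _ _ (by omega), V_C _ _ _ (by omega)] at h
  rw [c_inj' m i' j' (by omega) (by omega) h]

lemma exists_perm {k m : ℕ} (hk : 3 ≤ k) :
    ∃ σ : Equiv.Perm (Fin (2 * lam k + len m)), ∀ i j : Fin (2 * lam k + len m),
      σ i < σ j ↔ V k m i < V k m j := by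
  obtain ⟨e, he⟩ := Pool.Agent.R120.exists_rank (α := Fin (2 * lam k + len m))
    (fun i => V k m i) (fun i j h => Fin.ext (V_inj hk i.2 j.2 h))
    (n := 2 * lam k + len m) (by simp)
  refine ⟨e.symm, fun i j => ?_⟩
  have := he (e.symm i) (e.symm j)
  simpa using this

lemma bicrucial {k m : ℕ} (hk : 3 ≤ k) (hm : k * (lam k + 4) ≤ len (m + 1))
    (σ : Equiv.Perm (Fin (2 * lam k + len (m + 1))))
    (hσ : ∀ i j : Fin (2 * lam k + len (m + 1)), σ i < σ j ↔ V k (m + 1) i < V k (m + 1) j) :
    Bicrucial k σ := by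
  have hl := le_len (m + 1)
  have hlam : 1 ≤ lam k := by
    have := lam_mul hk
    have : 3 * 3 ≤ k * k := Nat.mul_le_mul hk hk
    have : 2 * k * k = 2 * (k * k) := by ring
    omega
  have key : ∀ {n : ℕ} (τ : Equiv.Perm (Fin n)),
      (∃ s ℓ, 2 ≤ ℓ ∧ s + k * ℓ ≤ n ∧ PowAt (fun i => (entry τ i : ℤ)) k s ℓ) → HasPower k τ := by
    rintro n τ ⟨s, ℓ, h2, hs, h⟩
    refine ⟨s, ℓ, h2, hs, ?_⟩
    intro r hr r' hr' a ha b hb
    have := h r hr r' hr' a ha b hb
    simp only [Nat.cast_lt] at this
    exact this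
  refine ⟨?_, ?_, ?_⟩
  · rintro ⟨s, ℓ, h2, hs, h⟩
    refine no_pow hk hm h2 hs ?_
    have hmul : ∀ r < k, r * ℓ + ℓ ≤ k * ℓ := by
      intro r hr
      have : (r + 1) * ℓ ≤ k * ℓ := Nat.mul_le_mul_right ℓ hr
      rw [Nat.add_mul, Nat.one_mul] at this
      exact this
    have hent : ∀ i j, i < 2 * lam k + len (m + 1) → j < 2 * lam k + len (m + 1) →
        (entry σ i < entry σ j ↔ V k (m + 1) i < V k (m + 1) j) := by
      intro i j hi hj
      unfold entry
      rw [dif_pos hi, dif_pos hj, ← hσ ⟨i, hi⟩ ⟨j, hj⟩]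
      exact Iff.rfl
    intro r hr r' hr' a ha b hb
    have h1 := hmul r hr
    have h2 := hmul r' hr'
    rw [← hent _ _ (by omega) (by omega), ← hent _ _ (by omega) (by omega)]
    exact h r hr r' hr' a ha b hb
  · intro τ hτ
    apply key
    refine left_power hk (fun i => (entry τ i : ℤ)) ?_ ?_
    · intro i hi j hj
      unfold entry
      rw [dif_pos (by omega), dif_pos (by omega)]
      have := hτ ⟨i, hi⟩ ⟨j, hj⟩
      rw [hσ] at this
      rw [← this]
      simp only [Nat.cast_lt]
      exact Iff.rfl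
    · unfold entry
      rw [dif_pos (by omega), dif_pos (by omega)]
      intro h
      have h' : τ ⟨0, by omega⟩ = τ ⟨1, by omega⟩ := Fin.ext (by exact_mod_cast h)
      have := τ.injective h'
      simp at this
  · intro τ hτ
    apply key
    refine right_power hk (fun i => (entry τ i : ℤ)) ?_ ?_
    · intro i hi j hj
      unfold entry
      rw [dif_pos (by omega), dif_pos (by omega)]
      have := hτ ⟨i, hi⟩ ⟨j, hj⟩
      rw [hσ] at this
      rw [← this]
      simp only [Nat.cast_lt]
      exact Iff.rfl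
    · unfold entry
      rw [dif_pos (by omega), dif_pos (by omega)]
      intro h
      have h' : τ ⟨2 * lam k + len (m + 1), by omega⟩ =
          τ ⟨2 * lam k + len (m + 1) - 1, by omega⟩ := Fin.ext (by exact_mod_cast h)
      have := τ.injective h'
      simp at this
      omega

end Pool.Agent.R120.PowerCore
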