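import Mathlib

/-!
Planar geometry for families in which every `m`-tuple is tight.
-/

namespace Pool.Agent.R120.TF

open Set

/-- The plane. -/
abbrev E2 := EuclideanSpace ℝ (Fin 2)

/-- `i` and `j` are joined when the hull of `A i ∪ A j` contains `p`. -/
def pg {n : ℕ} (A : Fin n → Set E2) (p : E2) : SimpleGraph (Fin n) where
  Adj i j := i ≠ j ∧ p ∈ convexHull ℝ (A i ∪ A j)
  symm := ⟨fun i j h => ⟨h.1.symm, by rw [Set.union_comm]; exact h.2⟩⟩
  loopless := ⟨fun i h => h.1 rfl⟩

/-- A subfamily is tight when the union of the hulls of its pairs is convex. -/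
def TightOn {n : ℕ} (A : Fin n → Set E2) (S : Finset (Fin n)) : Prop :=
  Convex ℝ (⋃ i ∈ S, ⋃ j ∈ S, ⋃ (_ : i ≠ j), convexHull ℝ (A i ∪ A j))

lemma carath (s : Set E2) (p : E2) (hp : p ∈ convexHull ℝ s) :
    ∃ x ∈ s, ∃ y ∈ s, ∃ z ∈ s, p ∈ convexHull ℝ ({x, y, z} : Set E2) := by
  rw [convexHull_eq_union] at hp
  simp only [mem_iUnion] at hp
  obtain ⟨t, hts, hai, hpt⟩ := hp
  have hcard : t.card ≤ 3 := by
    have h1 := hai.card_le_finrank_succ
    have h2 : Module.finrank ℝ (vectorSpan ℝ (Set.range ((↑) : t → E2))) ≤ 2 := by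
      have := Submodule.finrank_le (vectorSpan ℝ (Set.range ((↑) : t → E2)))
      simpa using this
    simp only [Fintype.card_coe] at h1
    omega
  have hne : t.Nonempty := by
    rcases t.eq_empty_or_nonempty with h | h
    · subst h; simp at hpt
    · exact h
  have h0 : 0 < t.card := hne.card_pos
  have key : ∃ x ∈ t, ∃ y ∈ t, ∃ z ∈ t, t = {x, y, z} := by
    have : t.card = 1 ∨ t.card = 2 ∨ t.card = 3 := by omega
    rcases this with h | h | h
    · obtain ⟨a, ha⟩ := Finset.card_eq_one.1 h
      subst ha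
      exact ⟨a, by simp, a, by simp, a, by simp, by simp⟩
    · obtain ⟨a, b, hab, ha⟩ := Finset.card_eq_two.1 h
      subst ha
      exact ⟨a, by simp, b, by simp, b, by simp, by simp⟩
    · obtain ⟨a, b, c, -, -, -, ha⟩ := Finset.card_eq_three.1 h
      subst ha
      exact ⟨a, by simp, b, by simp, c, by simp, rfl⟩
  obtain ⟨x, hx, y, hy, z, hz, hxyz⟩ := key
  refine ⟨x, hts hx, y, hts hy, z, hts hz, ?_⟩
  rw [hxyz] at hpt
  simpa using hpt

/-- An independent set whose hull contains `p` has fewer than `m` elements. -/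
lemma indep_card {n m : ℕ} (A : Fin n → Set E2) (hm : 3 ≤ m)
    (ht : ∀ S : Finset (Fin n), S.card = m → TightOn A S) (p : E2) (I : Finset (Fin n))
    (hI : ∀ i ∈ I, ∀ j ∈ I, ¬ (pg A p).Adj i j) (hp : p ∈ convexHull ℝ (⋃ i ∈ I, A i)) :
    I.card < m := by
  classical
  by_contra hcon
  push Not at hcon
  obtain ⟨x, hx, y, hy, z, hz, hxyz⟩ := carath _ _ hp
  simp only [mem_iUnion] at hx hy hz
  obtain ⟨i, hi, hxi⟩ := hx
  obtain ⟨j, hj, hyj⟩ := hy
  obtain ⟨k, hk, hzk⟩ := hz
  have hT : ({i, j, k} : Finset (Fin n)) ⊆ I := by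
    intro l hl
    simp only [Finset.mem_insert, Finset.mem_singleton] at hl
    rcases hl with rfl | rfl | rfl <;> assumption
  have hTc : ({i, j, k} : Finset (Fin n)).card ≤ m := Finset.card_le_three.trans hm
  obtain ⟨S, hTS, hSI, hSc⟩ := Finset.exists_subsuperset_card_eq hT hTc hcon
  have htS := ht S hSc
  unfold TightOn at htS
  set U := ⋃ i ∈ S, ⋃ j ∈ S, ⋃ (_ : i ≠ j), convexHull ℝ (A i ∪ A j) with hU
  have hsub : ∀ l ∈ S, A l ⊆ U := by
    intro l hl w hw
    have : ∃ l' ∈ S, l ≠ l' := by
      have h1 : 1 < S.card := by omega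
      obtain ⟨l', hl', hne⟩ := Finset.exists_mem_ne h1 l
      exact ⟨l', hl', hne.symm⟩
    obtain ⟨l', hl', hne⟩ := this
    rw [hU]
    simp only [mem_iUnion]
    exact ⟨l, hl, l', hl', hne, subset_convexHull ℝ _ (Or.inl hw)⟩
  have hpU : p ∈ U := by
    have h1 : convexHull ℝ ({x, y, z} : Set E2) ⊆ U := by
      apply convexHull_min _ htS
      intro w hw
      simp only [mem_insert_iff, mem_singleton_iff] at hw
      rcases hw with rfl | rfl | rfl
      · exact hsub i (hTS (by simp)) hxi
      · exact hsub j (hTS (by simp)) hyj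
      · exact hsub k (hTS (by simp)) hzk
    exact h1 hxyz
  rw [hU] at hpU
  simp only [mem_iUnion] at hpU
  obtain ⟨a, ha, b, hb, hab, hpab⟩ := hpU
  have hadj : (pg A p).Adj a b := And.intro hab hpab
  exact hI a (hSI ha) b (hSI hb) hadj

/-- The planar determinant. -/
def om (u v : E2) : ℝ := u 0 * v 1 - u 1 * v 0

lemma mem_of_ray (X W : Set E2) (x w p : E2) (hx : x ∈ X) (hw : w ∈ W) (t : ℝ) (ht : 0 ≤ t)
    (h0 : w 0 - p 0 = -t * (x 0 - p 0)) (h1 : w 1 - p 1 = -t * (x 1 - p 1)) :
    p ∈ convexHull ℝ (W ∪ X) := by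
  have hpos : 0 < 1 + t := by linarith
  have hseg : p ∈ segment ℝ w x := by
    refine ⟨1 / (1 + t), t / (1 + t), by positivity, by positivity, by field_simp, ?_⟩
    ext i
    fin_cases i
    · simp only [PiLp.add_apply, PiLp.smul_apply, smul_eq_mul, Fin.zero_eta]
      field_simp
      linarith
    · simp only [PiLp.add_apply, PiLp.smul_apply, smul_eq_mul, Fin.mk_one]
      field_simp
      linarith
  exact segment_subset_convexHull (s := W ∪ X) (Or.inl hw) (Or.inr hx) hseg

/-- An open sector at `p`. -/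
def Sec (p u v : E2) : Set E2 := {w | 0 < om (w - p) (u - p) ∧ 0 < om (v - p) (w - p)}

lemma isOpen_Sec (p u v : E2) : IsOpen (Sec p u v) := by
  have h1 : IsOpen {w : E2 | 0 < om (w - p) (u - p)} := by
    apply isOpen_lt continuous_const
    unfold om
    fun_prop
  have h2 : IsOpen {w : E2 | 0 < om (v - p) (w - p)} := by
    apply isOpen_lt continuous_const
    unfold om
    fun_prop
  exact h1.inter h2

lemma pos_comb {s t a b : ℝ} (hs : 0 ≤ s) (ht : 0 ≤ t) (hst : s + t = 1) (ha : 0 < a)
    (hb : 0 < b) : 0 < s * a + t * b := by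
  rcases hs.eq_or_lt with h | h
  · have : t = 1 := by linarith
    subst this
    rw [← h]; simpa using hb
  · have := mul_pos h ha
    have := mul_nonneg ht hb.le
    linarith

lemma convex_Sec (p u v : E2) : Convex ℝ (Sec p u v) := by
  intro a ha b hb s t hs ht hst
  refine ⟨?_, ?_⟩
  · have : om (s • a + t • b - p) (u - p) = s * om (a - p) (u - p) + t * om (b - p) (u - p) := by
      unfold om
      simp only [PiLp.sub_apply, PiLp.add_apply, PiLp.smul_apply, smul_eq_mul]
      have : s = 1 - t := by linarith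
      subst this
      ring
    rw [this]
    exact pos_comb hs ht hst ha.1 hb.1
  · have : om (v - p) (s • a + t • b - p) = s * om (v - p) (a - p) + t * om (v - p) (b - p) := by
      unfold om
      simp only [PiLp.sub_apply, PiLp.add_apply, PiLp.smul_apply, smul_eq_mul]
      have : s = 1 - t := by linarith
      subst this
      ring
    rw [this]
    exact pos_comb hs ht hst ha.2 hb.2

lemma notMem_Sec (p u v : E2) : p ∉ Sec p u v := by
  intro h
  have := h.1
  simp [om] at this

/-- Points off the three opposite rays lie in one of the three sectors. -/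
lemma sector_cover (p x y z w : E2) (a b c : ℝ) (ha : 0 < a) (hb : 0 < b) (hc : 0 < c)
    (h0 : a * (x 0 - p 0) + b * (y 0 - p 0) + c * (z 0 - p 0) = 0)
    (h1 : a * (x 1 - p 1) + b * (y 1 - p 1) + c * (z 1 - p 1) = 0)
    (hD : 0 < om (x - p) (y - p))
    (hx : ∀ t : ℝ, 0 ≤ t → ¬ (w 0 - p 0 = -t * (x 0 - p 0) ∧ w 1 - p 1 = -t * (x 1 - p 1)))
    (hy : ∀ t : ℝ, 0 ≤ t → ¬ (w 0 - p 0 = -t * (y 0 - p 0) ∧ w 1 - p 1 = -t * (y 1 - p 1)))
    (hz : ∀ t : ℝ, 0 ≤ t → ¬ (w 0 - p 0 = -t * (z 0 - p 0) ∧ w 1 - p 1 = -t * (z 1 - p 1))) :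
    w ∈ Sec p y z ∨ w ∈ Sec p z x ∨ w ∈ Sec p x y := by
  unfold Sec om at *
  simp only [PiLp.sub_apply, mem_ofPred_eq] at *
  set X0 := x 0 - p 0
  set X1 := x 1 - p 1
  set Y0 := y 0 - p 0
  set Y1 := y 1 - p 1
  set Z0 := z 0 - p 0
  set Z1 := z 1 - p 1
  set W0 := w 0 - p 0
  set W1 := w 1 - p 1
  set D := X0 * Y1 - X1 * Y0 with hDdef
  set ux := X0 * W1 - X1 * W0 with hux
  set uy := Y0 * W1 - Y1 * W0 with huy
  set uz := Z0 * W1 - Z1 * W0 with huz
  have hsum : a * ux + b * uy + c * uz = 0 := by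
    rw [hux, huy, huz]
    linear_combination W1 * h0 - W0 * h1
  have hc0 : D * W0 = -uy * X0 + ux * Y0 := by rw [hDdef, hux, huy]; ring
  have hc1 : D * W1 = -uy * X1 + ux * Y1 := by rw [hDdef, hux, huy]; ring
  have e1 : W0 * Y1 - W1 * Y0 = -uy := by rw [huy]; ring
  have e2 : W0 * Z1 - W1 * Z0 = -uz := by rw [huz]; ring
  have e3 : W0 * X1 - W1 * X0 = -ux := by rw [hux]; ring
  rw [e1, e2, e3]
  rcases lt_trichotomy uz 0 with hz0 | hz0 | hz0
  · by_cases hxp : 0 < ux
    · right; left; exact ⟨by linarith, hxp⟩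
    · push Not at hxp
      have huy0 : 0 < uy := by
        have : 0 < b * uy := by nlinarith
        by_contra hcon
        push Not at hcon
        nlinarith
      rcases hxp.lt_or_eq with h | h
      · right; right; exact ⟨by linarith, huy0⟩
      · exfalso
        apply hx (uy / D) (by positivity)
        rw [h] at hc0 hc1
        constructor
        · field_simp; linarith
        · field_simp; linarith
  · by_cases hxn : ux < 0
    · have huy0 : 0 < uy := by
        have : 0 < b * uy := by nlinarith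
        by_contra hcon
        push Not at hcon
        nlinarith
      right; right; exact ⟨by linarith, huy0⟩
    · push Not at hxn
      exfalso
      apply hz (ux * c / (b * D)) (by positivity)
      rw [hz0] at hsum
      constructor
      · field_simp
        have : b * (D * W0) = -(ux * c * Z0) := by
          rw [hc0]
          linear_combination (-X0) * hsum + ux * h0
        linarith
      · field_simp
        have : b * (D * W1) = -(ux * c * Z1) := by
          rw [hc1]
          linear_combination (-X1) * hsum + ux * h1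
        linarith
  · by_cases hyn : uy < 0
    · left; exact ⟨by linarith, hz0⟩
    · push Not at hyn
      have hux0 : ux < 0 := by
        by_contra hcon
        push Not at hcon
        nlinarith [mul_nonneg ha.le hcon, mul_nonneg hb.le hyn, mul_pos hc hz0]
      rcases hyn.lt_or_eq with h | h
      · right; right; exact ⟨by linarith, h⟩
      · exfalso
        apply hy (-ux / D) (div_nonneg (by linarith) hD.le)
        rw [← h] at hc0 hc1
        constructor
        · field_simp; linarith
        · field_simp; linarith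

end Pool.Agent.R120.TF
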