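import Pool.Agent.R120.TF1

/-!
Sectors of independent triples.
-/

namespace Pool.Agent.R120.TF

open Set

lemma triple_comb (x y z p : E2) (h : p ∈ convexHull ℝ ({x, y, z} : Set E2)) :
    ∃ a b c : ℝ, 0 ≤ a ∧ 0 ≤ b ∧ 0 ≤ c ∧ a + b + c = 1 ∧ p = a • x + b • y + c • z := by
  rw [convexHull_insert (by simp), convexHull_pair, mem_convexJoin] at h
  obtain ⟨x', hx', q, hq, hpq⟩ := h
  rw [mem_singleton_iff] at hx'
  subst hx'
  obtain ⟨s, t, hs, ht, hst, hq'⟩ := hq
  obtain ⟨u, v, hu, hv, huv, hp'⟩ := hpq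
  refine ⟨u, v * s, v * t, hu, by positivity, by positivity, ?_, ?_⟩
  · rw [add_assoc, ← mul_add, hst, mul_one, huv]
  · rw [← hp', ← hq', smul_add, smul_smul, smul_smul, add_assoc]

lemma disj12 (p x y z : E2) : Disjoint (Sec p y z) (Sec p z x ∪ Sec p x y) := by
  rw [Set.disjoint_left]
  rintro w ⟨h1, h2⟩ (⟨h3, h4⟩ | ⟨h3, h4⟩)
  · unfold om at *; linarith
  · unfold om at *; linarith

lemma disj23 (p x y z : E2) : Disjoint (Sec p z x) (Sec p x y) := by
  rw [Set.disjoint_left]
  rintro w ⟨h1, h2⟩ ⟨h3, h4⟩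
  unfold om at *; linarith

lemma three_core {n : ℕ} (A : Fin n → Set E2) (hc : ∀ i, Convex ℝ (A i)) (p : E2)
    (i j k : Fin n) (x y z : E2) (hx : x ∈ A i) (hy : y ∈ A j) (hz : z ∈ A k)
    (a b c : ℝ) (ha : 0 < a) (hb : 0 < b) (hcc : 0 < c)
    (h0 : a * (x 0 - p 0) + b * (y 0 - p 0) + c * (z 0 - p 0) = 0)
    (h1 : a * (x 1 - p 1) + b * (y 1 - p 1) + c * (z 1 - p 1) = 0)
    (hD : 0 < om (x - p) (y - p)) (l : Fin n)
    (hli : p ∉ convexHull ℝ (A l ∪ A i)) (hlj : p ∉ convexHull ℝ (A l ∪ A j))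
    (hlk : p ∉ convexHull ℝ (A l ∪ A k)) :
    A l ⊆ Sec p y z ∨ A l ⊆ Sec p z x ∨ A l ⊆ Sec p x y := by
  have hcov : A l ⊆ Sec p y z ∪ (Sec p z x ∪ Sec p x y) := by
    intro w hw
    have := sector_cover p x y z w a b c ha hb hcc h0 h1 hD
      (fun t ht h => hli (mem_of_ray _ _ x w p hx hw t ht h.1 h.2))
      (fun t ht h => hlj (mem_of_ray _ _ y w p hy hw t ht h.1 h.2))
      (fun t ht h => hlk (mem_of_ray _ _ z w p hz hw t ht h.1 h.2))
    simpa only [mem_union] using this
  rcases (hc l).isPreconnected.subset_or_subset (isOpen_Sec p y z)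
    ((isOpen_Sec p z x).union (isOpen_Sec p x y)) (disj12 p x y z) hcov with h | h
  · exact Or.inl h
  · rcases (hc l).isPreconnected.subset_or_subset (isOpen_Sec p z x) (isOpen_Sec p x y)
      (disj23 p x y z) h with h | h
    · exact Or.inr (Or.inl h)
    · exact Or.inr (Or.inr h)

/-- Bodies that see none of the three bodies of an independent triple around `p` fall into three
open sectors, each missing `p`. -/
lemma three_classes {n : ℕ} (A : Fin n → Set E2) (hc : ∀ i, Convex ℝ (A i)) (p : E2)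
    (i j k : Fin n) (x y z : E2) (hx : x ∈ A i) (hy : y ∈ A j) (hz : z ∈ A k)
    (hp : p ∈ convexHull ℝ ({x, y, z} : Set E2))
    (hij : p ∉ convexHull ℝ (A i ∪ A j)) (hjk : p ∉ convexHull ℝ (A j ∪ A k))
    (hik : p ∉ convexHull ℝ (A i ∪ A k)) :
    ∃ S₁ S₂ S₃ : Set E2, Convex ℝ S₁ ∧ Convex ℝ S₂ ∧ Convex ℝ S₃ ∧ p ∉ S₁ ∧ p ∉ S₂ ∧ p ∉ S₃ ∧
      ∀ l, p ∉ convexHull ℝ (A l ∪ A i) → p ∉ convexHull ℝ (A l ∪ A j) →
        p ∉ convexHull ℝ (A l ∪ A k) → A l ⊆ S₁ ∨ A l ⊆ S₂ ∨ A l ⊆ S₃ := by
  obtain ⟨a, b, c, ha, hb, hcc, habc, hpe⟩ := triple_comb x y z p hp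
  have ha' : 0 < a := by
    rcases ha.lt_or_eq with h | h
    · exact h
    · exfalso
      rw [← h, zero_smul, zero_add] at hpe
      apply hjk
      exact segment_subset_convexHull (s := A j ∪ A k) (Or.inl hy) (Or.inr hz)
        ⟨b, c, hb, hcc, by linarith, hpe.symm⟩
  have hb' : 0 < b := by
    rcases hb.lt_or_eq with h | h
    · exact h
    · exfalso
      rw [← h, zero_smul, add_zero] at hpe
      apply hik
      exact segment_subset_convexHull (s := A i ∪ A k) (Or.inl hx) (Or.inr hz)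
        ⟨a, c, ha, hcc, by linarith, hpe.symm⟩
  have hc' : 0 < c := by
    rcases hcc.lt_or_eq with h | h
    · exact h
    · exfalso
      rw [← h, zero_smul, add_zero] at hpe
      apply hij
      exact segment_subset_convexHull (s := A i ∪ A j) (Or.inl hx) (Or.inr hy)
        ⟨a, b, ha, hb, by linarith, hpe.symm⟩
  have e0 : a * (x 0 - p 0) + b * (y 0 - p 0) + c * (z 0 - p 0) = 0 := by
    have h := congrArg (fun v : E2 => v 0) hpe
    simp only [PiLp.add_apply, PiLp.smul_apply, smul_eq_mul] at h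
    have : (a + b + c) * p 0 = p 0 := by rw [habc, one_mul]
    linarith
  have e1 : a * (x 1 - p 1) + b * (y 1 - p 1) + c * (z 1 - p 1) = 0 := by
    have h := congrArg (fun v : E2 => v 1) hpe
    simp only [PiLp.add_apply, PiLp.smul_apply, smul_eq_mul] at h
    have : (a + b + c) * p 1 = p 1 := by rw [habc, one_mul]
    linarith
  rcases lt_trichotomy (om (x - p) (y - p)) 0 with hD | hD | hD
  · have hD' : 0 < om (y - p) (x - p) := by
      unfold om at *; linarith
    refine ⟨Sec p x z, Sec p z y, Sec p y x, convex_Sec _ _ _, convex_Sec _ _ _, convex_Sec _ _ _,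
      notMem_Sec _ _ _, notMem_Sec _ _ _, notMem_Sec _ _ _, fun l hli hlj hlk => ?_⟩
    exact three_core A hc p j i k y x z hy hx hz b a c hb' ha' hc' (by linarith) (by linarith)
      hD' l hlj hli hlk
  · exfalso
    -- degenerate position
    simp only [om, PiLp.sub_apply] at hD
    by_cases hX : x 0 - p 0 = 0 ∧ x 1 - p 1 = 0
    · apply hij
      have hxp : p = x := by
        ext t
        fin_cases t
        · simpa using (sub_eq_zero.1 hX.1).symm
        · simpa using (sub_eq_zero.1 hX.2).symm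
      rw [hxp]
      exact subset_convexHull ℝ _ (Or.inl hx)
    · -- `y - p = s (x - p)`
      have hs : ∃ s : ℝ, y 0 - p 0 = s * (x 0 - p 0) ∧ y 1 - p 1 = s * (x 1 - p 1) := by
        by_cases h : x 0 - p 0 = 0
        · have h' : x 1 - p 1 ≠ 0 := fun h'' => hX ⟨h, h''⟩
          refine ⟨(y 1 - p 1) / (x 1 - p 1), ?_, by field_simp⟩
          rw [h, mul_zero]
          rw [h, zero_mul, zero_sub, neg_eq_zero] at hD
          exact (mul_eq_zero.1 hD).resolve_left h'
        · refine ⟨(y 0 - p 0) / (x 0 - p 0), by field_simp, ?_⟩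
          field_simp
          linarith
      obtain ⟨s, hs0, hs1⟩ := hs
      by_cases hsp : s ≤ 0
      · apply hij
        rw [Set.union_comm]
        exact mem_of_ray _ _ x y p hx hy (-s) (by linarith) (by rw [neg_neg]; exact hs0)
          (by rw [neg_neg]; exact hs1)
      · push Not at hsp
        apply hik
        rw [Set.union_comm]
        refine mem_of_ray _ _ x z p hx hz ((a + b * s) / c) (by positivity) ?_ ?_
        · rw [hs0] at e0
          field_simp
          linarith
        · rw [hs1] at e1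
          field_simp
          linarith
  · refine ⟨Sec p y z, Sec p z x, Sec p x y, convex_Sec _ _ _, convex_Sec _ _ _, convex_Sec _ _ _,
      notMem_Sec _ _ _, notMem_Sec _ _ _, notMem_Sec _ _ _, fun l hli hlj hlk => ?_⟩
    exact three_core A hc p i j k x y z hx hy hz a b c ha' hb' hc' e0 e1 hD l hli hlj hlk

lemma not_adj_of_sub {n : ℕ} (A : Fin n → Set E2) (p : E2) (S : Set E2) (hS : Convex ℝ S)
    (hp : p ∉ S) (i j : Fin n) (hi : A i ⊆ S) (hj : A j ⊆ S) : ¬ (pg A p).Adj i j := by
  intro h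
  exact hp (convexHull_min (union_subset hi hj) hS h.2)

/-- The main counting lemma: the indices of nearly maximal weight do not surround `p`. -/
lemma not_balanced {n m : ℕ} (A : Fin n → Set E2) (hc : ∀ i, Convex ℝ (A i))
    (hm : 3 ≤ m) (hn : 4 * m ≤ n + 9)
    (ht : ∀ S : Finset (Fin n), S.card = m → TightOn A S) (p : E2)
    (y : Fin n → ℝ) (hy : ∀ i j, (pg A p).Adj i j → y i + y j ≤ 0) (hsum : 0 < ∑ i, y i)
    (M : ℝ) (hM : ∀ i, y i ≤ M) (hM0 : 0 < M)
    (hbal : p ∈ convexHull ℝ
      (⋃ i ∈ Finset.univ.filter (fun i => ((m : ℝ) - 1) * M < m * y i), A i)) : False := by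
  classical
  set V := Finset.univ.filter (fun i => ((m : ℝ) - 1) * M < m * y i) with hV
  have hmR : (3 : ℝ) ≤ m := by exact_mod_cast hm
  have hmemV : ∀ i, i ∈ V ↔ ((m : ℝ) - 1) * M < m * y i := by
    intro i; rw [hV]; simp
  have hVpos : ∀ i ∈ V, 0 < y i := by
    intro i hi
    have h1 := (hmemV i).1 hi
    have h2 : 0 < ((m : ℝ) - 1) * M := mul_pos (by linarith) hM0
    by_contra hcon
    push Not at hcon
    nlinarith
  have hn3 : 3 ≤ n := by omega
  -- no pair of `V` contains `p` in its hull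
  have hnoPair : ∀ i ∈ V, ∀ j ∈ V, p ∉ convexHull ℝ (A i ∪ A j) := by
    intro i hi j hj hcon
    by_cases hij : i = j
    · subst hij
      rw [Set.union_self, (hc i).convexHull_eq] at hcon
      have hall : ∀ j ∈ Finset.univ.erase i, y j ≤ - y i := by
        intro j hj
        have hne : i ≠ j := (Finset.ne_of_mem_erase hj).symm
        have hadj : (pg A p).Adj i j := And.intro hne (subset_convexHull ℝ _ (Or.inl hcon))
        have := hy i j hadj
        linarith
      have h1 : ∑ j ∈ Finset.univ.erase i, y j ≤ ∑ j ∈ Finset.univ.erase i, (- y i) :=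
        Finset.sum_le_sum hall
      rw [Finset.sum_const, Finset.card_erase_of_mem (Finset.mem_univ i), Finset.card_univ,
        Fintype.card_fin] at h1
      have h2 := Finset.add_sum_erase Finset.univ y (Finset.mem_univ i)
      have h3 : 0 < y i := hVpos i hi
      have h4 : (2 : ℝ) ≤ ((n - 1 : ℕ) : ℝ) := by
        have : 2 ≤ n - 1 := by omega
        exact_mod_cast this
      rw [nsmul_eq_mul] at h1
      nlinarith
    · have hadj : (pg A p).Adj i j := And.intro hij hcon
      have := hy i j hadj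
      have h1 := hVpos i hi
      have h2 := hVpos j hj
      linarith
  obtain ⟨x, hx, w, hw, z, hz, hxyz⟩ := carath _ _ hbal
  simp only [mem_iUnion] at hx hw hz
  obtain ⟨i, hi, hxi⟩ := hx
  obtain ⟨j, hj, hwj⟩ := hw
  obtain ⟨k, hk, hzk⟩ := hz
  have hsub3 : ∀ (a b : Fin n), x ∈ A a ∪ A b → w ∈ A a ∪ A b → z ∈ A a ∪ A b →
      p ∈ convexHull ℝ (A a ∪ A b) := by
    intro a b h1 h2 h3
    refine convexHull_mono ?_ hxyz
    intro q hq
    simp only [mem_insert_iff, mem_singleton_iff] at hq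
    rcases hq with rfl | rfl | rfl <;> assumption
  have hij : i ≠ j := by
    rintro rfl
    exact hnoPair i hi k hk (hsub3 i k (Or.inl hxi) (Or.inl hwj) (Or.inr hzk))
  have hik : i ≠ k := by
    rintro rfl
    exact hnoPair i hi j hj (hsub3 i j (Or.inl hxi) (Or.inr hwj) (Or.inl hzk))
  have hjk : j ≠ k := by
    rintro rfl
    exact hnoPair i hi j hj (hsub3 i j (Or.inl hxi) (Or.inr hwj) (Or.inr hzk))
  set T : Finset (Fin n) := {i, j, k} with hT
  have hTcard : T.card = 3 := by
    rw [hT]; exact Finset.card_eq_three.2 ⟨i, j, k, hij, hik, hjk, rfl⟩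
  have hTV : T ⊆ V := by
    intro l hl
    rw [hT] at hl
    simp only [Finset.mem_insert, Finset.mem_singleton] at hl
    rcases hl with rfl | rfl | rfl <;> assumption
  have hTbal : ∀ I : Finset (Fin n), T ⊆ I → p ∈ convexHull ℝ (⋃ l ∈ I, A l) := by
    intro I hI
    refine convexHull_mono ?_ hxyz
    intro q hq
    simp only [mem_insert_iff, mem_singleton_iff] at hq
    simp only [mem_iUnion]
    rcases hq with rfl | rfl | rfl
    · exact ⟨i, hI (by rw [hT]; simp), hxi⟩
    · exact ⟨j, hI (by rw [hT]; simp), hwj⟩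
    · exact ⟨k, hI (by rw [hT]; simp), hzk⟩
  obtain ⟨S₁, S₂, S₃, c1, c2, c3, p1, p2, p3, hS⟩ := three_classes A hc p i j k x w z hxi hwj hzk
    hxyz (hnoPair i hi j hj) (hnoPair j hj k hk) (hnoPair i hi k hk)
  -- bodies seeing no member of `T`
  set R : Finset (Fin n) := Finset.univ.filter
    (fun l => l ∉ T ∧ ∀ t ∈ T, p ∉ convexHull ℝ (A l ∪ A t)) with hR
  have hRmem : ∀ l, l ∈ R ↔ (l ∉ T ∧ ∀ t ∈ T, p ∉ convexHull ℝ (A l ∪ A t)) := by
    intro l; rw [hR]; simp
  have hclass : ∀ S : Set E2, Convex ℝ S → p ∉ S →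
      (R.filter (fun l => A l ⊆ S)).card + 4 ≤ m := by
    intro S hSc hSp
    have hI := indep_card A hm ht p ((R.filter (fun l => A l ⊆ S)) ∪ T) ?_
      (hTbal _ Finset.subset_union_right)
    · rw [Finset.card_union_of_disjoint, hTcard] at hI
      · omega
      · rw [Finset.disjoint_left]
        intro l hl hlT
        exact ((hRmem l).1 (Finset.mem_filter.1 hl).1).1 hlT
    · intro a ha b hb hadj
      rw [Finset.mem_union] at ha hb
      rcases ha with ha | ha <;> rcases hb with hb | hb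
      · exact not_adj_of_sub A p S hSc hSp a b (Finset.mem_filter.1 ha).2
          (Finset.mem_filter.1 hb).2 hadj
      · exact ((hRmem a).1 (Finset.mem_filter.1 ha).1).2 b hb hadj.2
      · exact ((hRmem b).1 (Finset.mem_filter.1 hb).1).2 a ha hadj.symm.2
      · exact hnoPair a (hTV ha) b (hTV hb) hadj.2
  have hRsub : R ⊆ R.filter (fun l => A l ⊆ S₁) ∪ (R.filter (fun l => A l ⊆ S₂) ∪
      R.filter (fun l => A l ⊆ S₃)) := by
    intro l hl
    have h := (hRmem l).1 hl
    have h2 := hS l (h.2 i (by rw [hT]; simp)) (h.2 j (by rw [hT]; simp))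
      (h.2 k (by rw [hT]; simp))
    simp only [Finset.mem_union, Finset.mem_filter]
    tauto
  have hRcard : R.card + 12 ≤ 3 * m := by
    have h1 := Finset.card_le_card hRsub
    have h2 := Finset.card_union_le (R.filter (fun l => A l ⊆ S₁))
      (R.filter (fun l => A l ⊆ S₂) ∪ R.filter (fun l => A l ⊆ S₃))
    have h3 := Finset.card_union_le (R.filter (fun l => A l ⊆ S₂)) (R.filter (fun l => A l ⊆ S₃))
    have h4 := hclass S₁ c1 p1
    have h5 := hclass S₂ c2 p2
    have h6 := hclass S₃ c3 p3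
    omega
  -- the remaining bodies see a member of `T`
  set N : Finset (Fin n) := Finset.univ \ (T ∪ R) with hN
  have hNcard : m ≤ N.card := by
    rw [hN, Finset.card_sdiff_of_subset (Finset.subset_univ _), Finset.card_univ, Fintype.card_fin,
      Finset.card_union_of_disjoint, hTcard]
    · omega
    · rw [Finset.disjoint_left]
      intro l hlT hlR
      exact ((hRmem l).1 hlR).1 hlT
  have hNval : ∀ l ∈ N, (m : ℝ) * y l ≤ - (((m : ℝ) - 1) * M) := by
    intro l hl
    rw [hN, Finset.mem_sdiff, Finset.mem_union, not_or] at hl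
    obtain ⟨-, hlT, hlR⟩ := hl
    have : ∃ t ∈ T, p ∈ convexHull ℝ (A l ∪ A t) := by
      by_contra hcon
      push Not at hcon
      exact hlR ((hRmem l).2 ⟨hlT, hcon⟩)
    obtain ⟨t, htT, htp⟩ := this
    have hadj : (pg A p).Adj l t := And.intro (fun h => hlT (h ▸ htT)) htp
    have h1 := hy l t hadj
    have h2 := (hmemV t).1 (hTV htT)
    have hm0 : (0 : ℝ) < m := by linarith
    nlinarith
  -- positive indices
  set P : Finset (Fin n) := Finset.univ.filter (fun l => 0 < y l) with hP
  have hPcard : P.card < m := by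
    apply indep_card A hm ht p P
    · intro a ha b hb hadj
      have h1 := (Finset.mem_filter.1 ha).2
      have h2 := (Finset.mem_filter.1 hb).2
      have := hy a b hadj
      linarith
    · apply hTbal
      intro l hl
      rw [hP, Finset.mem_filter]
      exact ⟨Finset.mem_univ _, hVpos l (hTV hl)⟩
  have hsplit := Finset.sum_filter_add_sum_filter_not Finset.univ (fun l => 0 < y l) y
  have hs1 : ∑ l ∈ P, y l ≤ ((m : ℝ) - 1) * M := by
    calc ∑ l ∈ P, y l ≤ ∑ l ∈ P, M := Finset.sum_le_sum (fun l _ => hM l)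
      _ = P.card * M := by rw [Finset.sum_const, nsmul_eq_mul]
      _ ≤ ((m : ℝ) - 1) * M := by
        apply mul_le_mul_of_nonneg_right _ hM0.le
        have : P.card + 1 ≤ m := hPcard
        have h2 : ((P.card : ℝ) + 1) ≤ m := by exact_mod_cast this
        linarith
  have hNsub : N ⊆ Finset.univ.filter (fun l => ¬ 0 < y l) := by
    intro l hl
    rw [Finset.mem_filter]
    refine ⟨Finset.mem_univ _, ?_⟩
    have h1 := hNval l hl
    intro h2
    have h3 : 0 < ((m : ℝ) - 1) * M := mul_pos (by linarith) hM0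
    have : 0 < (m : ℝ) * y l := mul_pos (by linarith) h2
    linarith
  have hs2 : (m : ℝ) * ∑ l ∈ Finset.univ.filter (fun l => ¬ 0 < y l), y l ≤
      - (m * (((m : ℝ) - 1) * M)) := by
    calc (m : ℝ) * ∑ l ∈ Finset.univ.filter (fun l => ¬ 0 < y l), y l
        ≤ m * ∑ l ∈ N, y l := by
          apply mul_le_mul_of_nonneg_left _ (by linarith)
          rw [← Finset.sum_sdiff hNsub]
          have : ∑ l ∈ Finset.univ.filter (fun l => ¬ 0 < y l) \ N, y l ≤ 0 := by
            apply Finset.sum_nonpos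
            intro l hl
            have := (Finset.mem_filter.1 (Finset.mem_sdiff.1 hl).1).2
            linarith
          linarith
      _ = ∑ l ∈ N, m * y l := by rw [Finset.mul_sum]
      _ ≤ ∑ l ∈ N, - (((m : ℝ) - 1) * M) := Finset.sum_le_sum hNval
      _ = - (N.card * (((m : ℝ) - 1) * M)) := by
          rw [Finset.sum_const, nsmul_eq_mul]; ring
      _ ≤ - (m * (((m : ℝ) - 1) * M)) := by
          apply neg_le_neg
          apply mul_le_mul_of_nonneg_right
          · exact_mod_cast hNcard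
          · exact mul_nonneg (by linarith) hM0.le
  have hm0 : (0 : ℝ) < m := by linarith
  nlinarith

end Pool.Agent.R120.TF
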