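import Mathlib

/-!
A weight certificate for graphs without a perfect matching, under a local bipartiteness
hypothesis (each edge makes the set of vertices unrelated to it bipartite).
-/

namespace Pool.Agent.R120.TF

open Set SimpleGraph

lemma odd_sum_sign {α : Type*} (F : Finset α) (s : α → ℤ) (hs : ∀ a, s a = 1 ∨ s a = -1)
    (hF : Odd F.card) : Odd (∑ a ∈ F, s a) := by
  have h1 : ∑ a ∈ F, s a = ∑ a ∈ F, (s a - 1) + F.card := by
    rw [Finset.sum_sub_distrib]; simp
  rw [h1]
  have h2 : Even (∑ a ∈ F, (s a - 1)) := by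
    apply Finset.even_sum
    intro a _
    rcases hs a with h | h
    · rw [h]; exact ⟨0, by norm_num⟩
    · rw [h]; exact ⟨-1, by norm_num⟩
  exact h2.add_odd (by exact_mod_cast hF)

theorem exists_weight {V : Type*} [Fintype V] (G : SimpleGraph V)
    (hV : Even (Fintype.card V))
    (hP : ∀ w₁ w₂, G.Adj w₁ w₂ → ∃ s : V → ℤ, (∀ v, s v = 1 ∨ s v = -1) ∧
      ∀ a b, G.Adj a b → a ≠ w₁ → a ≠ w₂ → b ≠ w₁ → b ≠ w₂ → ¬ G.Adj a w₁ → ¬ G.Adj a w₂ →
        ¬ G.Adj b w₁ → ¬ G.Adj b w₂ → s a = - s b)
    (hno : ¬ ∃ M : G.Subgraph, M.IsPerfectMatching) :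
    ∃ y : V → ℤ, (∀ a b, G.Adj a b → y a + y b ≤ 0) ∧ 0 < ∑ v, y v := by
  classical
  rw [SimpleGraph.tutte] at hno
  push Not at hno
  obtain ⟨u, hu⟩ := hno
  unfold IsTutteViolator at hu
  set K : G.Subgraph := (⊤ : G.Subgraph).deleteVerts u with hK
  set H := K.coe with hH
  have hmem : ∀ v, v ∈ K.verts ↔ v ∉ u := by
    intro v; rw [hK]; simp
  have hadj : ∀ a b : K.verts, H.Adj a b ↔ G.Adj a.1 b.1 := by
    intro a b
    have ha := (hmem a.1).1 a.2
    have hb := (hmem b.1).1 b.2
    have h : K.Adj a.1 b.1 ↔ _ := Subgraph.deleteVerts_adj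
    rw [hH, Subgraph.coe_adj, h]
    simp [ha, hb]
  let _ : Fintype H.ConnectedComponent := Fintype.ofFinite _
  set O : Finset H.ConnectedComponent := Finset.univ.filter (fun c => Odd c.supp.ncard) with hO
  have hOc : H.oddComponents.ncard = O.card := by
    rw [← Set.ncard_coe_finset]
    congr 1
    ext c
    simp [hO]
  rw [hOc] at hu
  -- parity
  have hcardK : Nat.card K.verts + u.ncard = Fintype.card V := by
    have h1 : K.verts = uᶜ := by
      ext v; rw [hmem]; rfl
    rw [h1, Nat.card_coe_set_eq, add_comm, Set.ncard_add_ncard_compl, Nat.card_eq_fintype_card]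
  have hpar : u.ncard + 2 ≤ O.card := by
    have h1 := odd_ncard_oddComponents (G := H)
    rw [hOc] at h1
    rcases Nat.even_or_odd u.ncard with he | ho
    · have h2 : ¬ Odd (Nat.card K.verts) := by
        intro h
        have := h.add_even he
        rw [hcardK] at this
        exact (Nat.not_even_iff_odd.2 this) hV
      have h3 : Even O.card := by
        rw [← Nat.not_odd_iff_even]; exact fun h => h2 (h1.1 h)
      rcases he with ⟨a, ha⟩
      rcases h3 with ⟨b, hb⟩
      omega
    · have h2 : Odd (Nat.card K.verts) := by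
        by_contra h
        rw [Nat.not_odd_iff_even] at h
        have := h.add_odd ho
        rw [hcardK] at this
        exact (Nat.not_even_iff_odd.2 this) hV
      have h3 := h1.2 h2
      rcases ho with ⟨a, ha⟩
      rcases h3 with ⟨b, hb⟩
      omega
  -- choose signs
  have hchoice : ∃ (s : V → ℤ) (O' : Finset H.ConnectedComponent), (∀ v, s v = 1 ∨ s v = -1) ∧
      O' ⊆ O ∧ O.card ≤ O'.card + 1 ∧ ∀ c ∈ O', ∀ a b : K.verts,
        H.connectedComponentMk a = c → H.Adj a b → s a.1 = - s b.1 := by
    by_cases hex : ∃ c₀ ∈ O, ∃ a b : K.verts, H.connectedComponentMk a = c₀ ∧ H.Adj a b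
    · obtain ⟨c₀, hc₀, w₁, w₂, hw, hww⟩ := hex
      obtain ⟨s, hs, hsP⟩ := hP w₁.1 w₂.1 ((hadj _ _).1 hww)
      refine ⟨s, O.erase c₀, hs, Finset.erase_subset _ _, ?_, ?_⟩
      · rw [Finset.card_erase_of_mem hc₀]; omega
      · intro c hc a b hac hab
        have hcne : c ≠ c₀ := Finset.ne_of_mem_erase hc
        have hw2 : H.connectedComponentMk w₂ = c₀ := by
          rw [← hw]; exact (ConnectedComponent.connectedComponentMk_eq_of_adj hww).symm
        have hbc : H.connectedComponentMk b = c := by
          rw [← hac]; exact (ConnectedComponent.connectedComponentMk_eq_of_adj hab).symm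
        have key : ∀ q w : K.verts, H.connectedComponentMk q = c →
            H.connectedComponentMk w = c₀ → q.1 ≠ w.1 ∧ ¬ G.Adj q.1 w.1 := by
          intro q w hq hw
          constructor
          · intro h
            have : q = w := Subtype.ext h
            rw [this, hw] at hq
            exact hcne hq.symm
          · intro h
            have h2 : H.Adj q w := (hadj _ _).2 h
            have := ConnectedComponent.connectedComponentMk_eq_of_adj h2
            rw [hq, hw] at this
            exact hcne this
        exact hsP a.1 b.1 ((hadj _ _).1 hab) (key a w₁ hac hw).1 (key a w₂ hac hw2).1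
          (key b w₁ hbc hw).1 (key b w₂ hbc hw2).1 (key a w₁ hac hw).2 (key a w₂ hac hw2).2
          (key b w₁ hbc hw).2 (key b w₂ hbc hw2).2
    · push Not at hex
      refine ⟨fun _ => 1, O, fun _ => Or.inl rfl, le_refl _, by omega, ?_⟩
      intro c hc a b hac hab
      exact absurd hab (hex c hc a b hac)
  obtain ⟨s, O', hs, hO'O, hO'c, hsO⟩ := hchoice
  set S : H.ConnectedComponent → ℤ := fun c =>
    ∑ a ∈ Finset.univ.filter (fun a : K.verts => H.connectedComponentMk a = c), s a.1 with hS
  have hSodd : ∀ c ∈ O', Odd (S c) := by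
    intro c hc
    apply odd_sum_sign _ (fun a : K.verts => s a.1) (fun a => hs a.1)
    have h1 := (Finset.mem_filter.1 (hO'O hc)).2
    have h2 : c.supp.ncard = (Finset.univ.filter
        (fun a : K.verts => H.connectedComponentMk a = c)).card := by
      rw [← Set.ncard_coe_finset]
      congr 1
      ext a
      simp [ConnectedComponent.mem_supp_iff]
    rwa [h2] at h1
  set y' : K.verts → ℤ := fun a =>
    if H.connectedComponentMk a ∈ O' then s a.1 * (S (H.connectedComponentMk a)).sign else 0
    with hy'
  set y : V → ℤ := fun v => if h : v ∈ K.verts then y' ⟨v, h⟩ else -1 with hy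
  have hy'le : ∀ a, y' a ≤ 1 := by
    intro a
    rw [hy']
    dsimp only
    split_ifs with h
    · rcases hs a.1 with h1 | h1 <;> rw [h1] <;>
        rcases Int.sign_trichotomy (S (H.connectedComponentMk a)) with h2 | h2 | h2 <;>
        rw [h2] <;> norm_num
    · norm_num
  have hyle : ∀ v, y v ≤ 1 := by
    intro v
    rw [hy]
    dsimp only
    split_ifs with h
    · exact hy'le _
    · norm_num
  refine ⟨y, ?_, ?_⟩
  · intro a b hab
    by_cases ha : a ∈ K.verts
    · by_cases hb : b ∈ K.verts
      · have hHab : H.Adj ⟨a, ha⟩ ⟨b, hb⟩ := (hadj _ _).2 hab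
        have hcc := ConnectedComponent.connectedComponentMk_eq_of_adj hHab
        have e1 : y a = y' ⟨a, ha⟩ := dif_pos ha
        have e2 : y b = y' ⟨b, hb⟩ := dif_pos hb
        rw [e1, e2, hy']
        dsimp only
        rw [← hcc]
        split_ifs with h
        · have := hsO _ h ⟨a, ha⟩ ⟨b, hb⟩ rfl hHab
          dsimp only at this
          rw [this]
          linarith
        · norm_num
      · have e2 : y b = -1 := dif_neg hb
        have := hyle a
        omega
    · have e1 : y a = -1 := dif_neg ha
      have := hyle b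
      omega
  · have hsplit := Finset.sum_filter_add_sum_filter_not Finset.univ (fun v => v ∈ K.verts) y
    have h1 : ∑ v ∈ Finset.univ.filter (fun v => v ∈ K.verts), y v = ∑ a : K.verts, y' a := by
      rw [Finset.sum_subtype (Finset.univ.filter (fun v => v ∈ K.verts)) (p := fun v => v ∈ K.verts)
        (by intro x; simp) y]
      apply Finset.sum_congr rfl
      intro a _
      exact dif_pos a.2
    have h2 : ∑ v ∈ Finset.univ.filter (fun v => ¬ v ∈ K.verts), y v = - (u.ncard : ℤ) := by
      have h3 : ∀ v ∈ Finset.univ.filter (fun v => ¬ v ∈ K.verts), y v = -1 := by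
        intro v hv
        exact dif_neg (Finset.mem_filter.1 hv).2
      rw [Finset.sum_congr rfl h3, Finset.sum_const, nsmul_eq_mul, mul_neg, mul_one, neg_inj]
      have h4 : (u : Set V) = ↑(Finset.univ.filter (fun v => ¬ v ∈ K.verts)) := by
        ext v; simp [hmem]
      rw [h4, Set.ncard_coe_finset]
    have h3 : ∑ a : K.verts, y' a = ∑ c : H.ConnectedComponent,
        ∑ a ∈ Finset.univ.filter (fun a : K.verts => H.connectedComponentMk a = c), y' a := by
      exact (Finset.sum_fiberwise Finset.univ (fun a => H.connectedComponentMk a) y').symm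
    have h4 : ∀ c ∈ O', 1 ≤ ∑ a ∈ Finset.univ.filter
        (fun a : K.verts => H.connectedComponentMk a = c), y' a := by
      intro c hc
      have h5 : ∑ a ∈ Finset.univ.filter
          (fun a : K.verts => H.connectedComponentMk a = c), y' a = S c * (S c).sign := by
        rw [hS]
        dsimp only
        rw [Finset.sum_mul]
        apply Finset.sum_congr rfl
        intro a ha
        have hac := (Finset.mem_filter.1 ha).2
        rw [hy']
        dsimp only
        rw [hac, if_pos hc]
      rw [h5, Int.mul_sign_self]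
      have h6 := hSodd c hc
      have h7 : S c ≠ 0 := by
        intro h; rw [h] at h6; exact absurd h6 (by decide)
      have : (S c).natAbs ≠ 0 := Int.natAbs_ne_zero.2 h7
      omega
    have h5 : ∀ c ∉ O', 0 = ∑ a ∈ Finset.univ.filter
        (fun a : K.verts => H.connectedComponentMk a = c), y' a := by
      intro c hc
      symm
      apply Finset.sum_eq_zero
      intro a ha
      have hac := (Finset.mem_filter.1 ha).2
      rw [hy']
      dsimp only
      rw [hac, if_neg hc]
    have h6 : (O'.card : ℤ) ≤ ∑ a : K.verts, y' a := by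
      rw [h3, ← Finset.sum_subset (Finset.subset_univ O') (fun c _ hc => (h5 c hc).symm)]
      calc (O'.card : ℤ) = ∑ c ∈ O', (1 : ℤ) := by simp
        _ ≤ _ := Finset.sum_le_sum h4
    have : 0 < ∑ v, y v := by
      rw [← hsplit, h1, h2]
      have : u.ncard + 1 ≤ O'.card := by omega
      have : (u.ncard : ℤ) + 1 ≤ O'.card := by exact_mod_cast this
      linarith
    exact this

end Pool.Agent.R120.TF
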