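import Pool.Agent.R120.TF2
import Pool.Agent.R120.TF3
import Pool.Agent.Helper133.Brouwer

/-!
A common point of a matching for families with tight `m`-tuples.
-/

namespace Pool.Agent.R120.TF

open Set SimpleGraph Topology

/-- Open half plane. -/
def HP (p v : E2) : Set E2 := {w | 0 < om (v - p) (w - p)}

/-- The opposite open half plane. -/
def HN (p v : E2) : Set E2 := {w | om (v - p) (w - p) < 0}

lemma isOpen_HP (p v : E2) : IsOpen (HP p v) := by
  apply isOpen_lt continuous_const
  unfold om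
  fun_prop

lemma isOpen_HN (p v : E2) : IsOpen (HN p v) := by
  apply isOpen_lt _ continuous_const
  unfold om
  fun_prop

lemma om_comb (p v a b : E2) (s t : ℝ) (hst : s + t = 1) :
    om (v - p) (s • a + t • b - p) = s * om (v - p) (a - p) + t * om (v - p) (b - p) := by
  unfold om
  simp only [PiLp.sub_apply, PiLp.add_apply, PiLp.smul_apply, smul_eq_mul]
  have : s = 1 - t := by linarith
  subst this
  ring

lemma convex_HP (p v : E2) : Convex ℝ (HP p v) := by
  intro a ha b hb s t hs ht hst
  have := om_comb p v a b s t hst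
  unfold HP at *
  rw [mem_ofPred_eq] at *
  rw [this]
  exact pos_comb hs ht hst ha hb

lemma convex_HN (p v : E2) : Convex ℝ (HN p v) := by
  intro a ha b hb s t hs ht hst
  have := om_comb p v a b s t hst
  unfold HN at *
  rw [mem_ofPred_eq] at *
  rw [this]
  have := pos_comb hs ht hst (neg_pos.2 ha) (neg_pos.2 hb)
  linarith

lemma notMem_HP (p v : E2) : p ∉ HP p v := by
  unfold HP
  rw [mem_ofPred_eq]
  simp [om]

lemma notMem_HN (p v : E2) : p ∉ HN p v := by
  unfold HN
  rw [mem_ofPred_eq]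
  simp [om]

/-- The bodies seeing neither end of an edge are split by a line into two independent classes. -/
lemma side_sign {n : ℕ} (A : Fin n → Set E2) (hc : ∀ i, Convex ℝ (A i))
    (hne : ∀ i, (A i).Nonempty) (p : E2) (i j : Fin n) (hadj : (pg A p).Adj i j) :
    ∃ s : Fin n → ℤ, (∀ v, s v = 1 ∨ s v = -1) ∧
      ∀ a b, (pg A p).Adj a b → a ≠ i → a ≠ j → b ≠ i → b ≠ j → ¬ (pg A p).Adj a i →
        ¬ (pg A p).Adj a j → ¬ (pg A p).Adj b i → ¬ (pg A p).Adj b j → s a = - s b := by
  classical
  have hp := hadj.2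
  rw [(hc i).convexHull_union (hc j) (hne i) (hne j), mem_convexJoin] at hp
  obtain ⟨q₁, hq₁, q₂, hq₂, α, β, hα, hβ, hαβ, hpe⟩ := hp
  by_cases hpi : p ∈ A i
  · refine ⟨fun _ => 1, fun _ => Or.inl rfl, ?_⟩
    intro a b _ hai _ _ _ hna _ _ _
    exact absurd (And.intro hai (subset_convexHull ℝ _ (Or.inr hpi)) : (pg A p).Adj a i) hna
  by_cases hpj : p ∈ A j
  · refine ⟨fun _ => 1, fun _ => Or.inl rfl, ?_⟩
    intro a b _ _ haj _ _ _ hna _ _
    exact absurd (And.intro haj (subset_convexHull ℝ _ (Or.inr hpj)) : (pg A p).Adj a j) hna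
  have hα' : 0 < α := by
    rcases hα.lt_or_eq with h | h
    · exact h
    · exfalso
      have : β = 1 := by linarith
      rw [← h, this, zero_smul, zero_add, one_smul] at hpe
      exact hpj (hpe ▸ hq₂)
  have hβ' : 0 < β := by
    rcases hβ.lt_or_eq with h | h
    · exact h
    · exfalso
      have : α = 1 := by linarith
      rw [← h, this, zero_smul, add_zero, one_smul] at hpe
      exact hpi (hpe ▸ hq₁)
  have hq1p : ¬ (q₁ 0 - p 0 = 0 ∧ q₁ 1 - p 1 = 0) := by
    rintro ⟨h0, h1⟩
    apply hpi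
    have : p = q₁ := by
      ext t
      fin_cases t
      · simpa using (sub_eq_zero.1 h0).symm
      · simpa using (sub_eq_zero.1 h1).symm
    rw [this]; exact hq₁
  have e0 : α * (q₁ 0 - p 0) + β * (q₂ 0 - p 0) = 0 := by
    have h := congrArg (fun v : E2 => v 0) hpe
    simp only [PiLp.add_apply, PiLp.smul_apply, smul_eq_mul] at h
    have : (α + β) * p 0 = p 0 := by rw [hαβ, one_mul]
    linarith
  have e1 : α * (q₁ 1 - p 1) + β * (q₂ 1 - p 1) = 0 := by
    have h := congrArg (fun v : E2 => v 1) hpe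
    simp only [PiLp.add_apply, PiLp.smul_apply, smul_eq_mul] at h
    have : (α + β) * p 1 = p 1 := by rw [hαβ, one_mul]
    linarith
  -- a body seeing neither `i` nor `j` misses the line
  have hmiss : ∀ a, a ≠ i → a ≠ j → ¬ (pg A p).Adj a i → ¬ (pg A p).Adj a j →
      A a ⊆ HP p q₁ ∨ A a ⊆ HN p q₁ := by
    intro a hai haj hna hnb
    have hcov : A a ⊆ HP p q₁ ∪ HN p q₁ := by
      intro w hw
      by_contra hcon
      rw [mem_union, not_or] at hcon
      unfold HP HN at hcon
      rw [mem_ofPred_eq, mem_ofPred_eq] at hcon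
      have hz : om (q₁ - p) (w - p) = 0 := le_antisymm (not_lt.1 hcon.1) (not_lt.1 hcon.2)
      simp only [om, PiLp.sub_apply] at hz
      have hs : ∃ s : ℝ, w 0 - p 0 = s * (q₁ 0 - p 0) ∧ w 1 - p 1 = s * (q₁ 1 - p 1) := by
        by_cases h : q₁ 0 - p 0 = 0
        · have h' : q₁ 1 - p 1 ≠ 0 := fun h'' => hq1p ⟨h, h''⟩
          refine ⟨(w 1 - p 1) / (q₁ 1 - p 1), ?_, by field_simp⟩
          rw [h, mul_zero]
          rw [h, zero_mul, zero_sub, neg_eq_zero] at hz
          exact (mul_eq_zero.1 hz).resolve_left h'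
        · refine ⟨(w 0 - p 0) / (q₁ 0 - p 0), by field_simp, ?_⟩
          field_simp
          linarith
      obtain ⟨s, hs0, hs1⟩ := hs
      by_cases hsp : s ≤ 0
      · apply hna
        refine And.intro hai ?_
        exact mem_of_ray _ _ q₁ w p hq₁ hw (-s) (by linarith) (by rw [neg_neg]; exact hs0)
          (by rw [neg_neg]; exact hs1)
      · push Not at hsp
        apply hnb
        refine And.intro haj ?_
        refine mem_of_ray _ _ q₂ w p hq₂ hw (s * β / α) (by positivity) ?_ ?_
        · rw [hs0]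
          field_simp
          linear_combination e0
        · rw [hs1]
          field_simp
          linear_combination e1
    have hdisj : Disjoint (HP p q₁) (HN p q₁) := by
      rw [Set.disjoint_left]
      intro w h1 h2
      unfold HP at h1
      unfold HN at h2
      rw [mem_ofPred_eq] at h1 h2
      linarith
    exact (hc a).isPreconnected.subset_or_subset (isOpen_HP p q₁) (isOpen_HN p q₁) hdisj hcov
  refine ⟨fun v => if A v ⊆ HP p q₁ then 1 else -1, fun v => ?_, ?_⟩
  · dsimp only
    split_ifs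
    · exact Or.inl rfl
    · exact Or.inr rfl
  · intro a b hab hai haj hbi hbj h1 h2 h3 h4
    have ha := hmiss a hai haj h1 h2
    have hb := hmiss b hbi hbj h3 h4
    have hdis : ∀ l, A l ⊆ HN p q₁ → ¬ A l ⊆ HP p q₁ := by
      intro l hl hl'
      obtain ⟨w, hw⟩ := hne l
      have h5 := hl hw
      have h6 := hl' hw
      unfold HP at h6
      unfold HN at h5
      rw [mem_ofPred_eq] at h5 h6
      linarith
    rcases ha with ha | ha <;> rcases hb with hb | hb
    · exact absurd hab (not_adj_of_sub A p _ (convex_HP p q₁) (notMem_HP p q₁) a b ha hb)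
    · dsimp only
      rw [if_pos ha, if_neg (hdis b hb)]; norm_num
    · dsimp only
      rw [if_neg (hdis a ha), if_pos hb]
    · exact absurd hab (not_adj_of_sub A p _ (convex_HN p q₁) (notMem_HN p q₁) a b ha hb)

lemma closed_hull (X Y : Set E2) (hX : Convex ℝ X) (hY : Convex ℝ Y) (hXc : IsCompact X)
    (hYc : IsCompact Y) (hXn : X.Nonempty) (hYn : Y.Nonempty) :
    IsClosed (convexHull ℝ (X ∪ Y)) := by
  rw [hX.convexHull_union hY hXn hYn]
  have : convexJoin ℝ X Y = (fun q : ℝ × (E2 × E2) => (1 - q.1) • q.2.1 + q.1 • q.2.2) ''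
      (Set.Icc (0:ℝ) 1 ×ˢ (X ×ˢ Y)) := by
    ext w
    rw [mem_convexJoin]
    constructor
    · rintro ⟨x, hx, y, hy, hw⟩
      rw [segment_eq_image] at hw
      obtain ⟨t, ht, hw⟩ := hw
      exact ⟨(t, (x, y)), ⟨ht, hx, hy⟩, hw⟩
    · rintro ⟨⟨t, x, y⟩, ⟨ht, hx, hy⟩, hw⟩
      refine ⟨x, hx, y, hy, ?_⟩
      rw [segment_eq_image]
      exact ⟨t, ht, hw⟩
  rw [this]
  exact ((isCompact_Icc.prod (hXc.prod hYc)).image (by fun_prop)).isClosed

theorem exists_point {n m : ℕ} (hn : Even n) (hm : 3 ≤ m) (hnm : 4 * m ≤ n + 9)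
    (A : Fin n → Set E2) (hc : ∀ i, Convex ℝ (A i)) (hk : ∀ i, IsCompact (A i))
    (hne : ∀ i, (A i).Nonempty)
    (ht : ∀ S : Finset (Fin n), S.card = m → TightOn A S) :
    ∃ (p : E2) (M : (pg A p).Subgraph), M.IsPerfectMatching := by
  classical
  by_contra hcon
  push Not at hcon
  have hn0 : 0 < n := by omega
  have _ : Nonempty (Fin n) := ⟨⟨0, hn0⟩⟩
  have hmR : (3 : ℝ) ≤ m := by exact_mod_cast hm
  -- certificates
  set t : E2 → Set (Fin n → ℝ) := fun p =>
    {y | (∀ i j, (pg A p).Adj i j → y i + y j ≤ 0) ∧ 0 < ∑ i, y i} with htdef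
  have htconv : ∀ p, Convex ℝ (t p) := by
    intro p y hy z hz a b ha hb hab
    rw [htdef] at *
    simp only [mem_ofPred_eq, Pi.add_apply, Pi.smul_apply, smul_eq_mul] at *
    refine ⟨?_, ?_⟩
    · intro i j hij
      have h1 := mul_nonneg ha (sub_nonneg.2 (hy.1 i j hij))
      have h2 := mul_nonneg hb (sub_nonneg.2 (hz.1 i j hij))
      nlinarith
    · rw [Finset.sum_add_distrib, ← Finset.mul_sum, ← Finset.mul_sum]
      exact pos_comb ha hb hab hy.2 hz.2
  have hloc : ∀ p : E2, ∃ c : Fin n → ℝ, ∀ᶠ q in 𝓝 p, c ∈ t q := by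
    intro p
    obtain ⟨y, hy1, hy2⟩ := exists_weight (pg A p) (by rw [Fintype.card_fin]; exact hn)
      (fun w₁ w₂ hw => side_sign A hc hne p w₁ w₂ hw)
      (by rintro ⟨M, hM⟩; exact hcon p M hM)
    refine ⟨fun i => (y i : ℝ), ?_⟩
    have hev : ∀ᶠ q in 𝓝 p, ∀ i j, (pg A q).Adj i j → (pg A p).Adj i j := by
      rw [Filter.eventually_all]
      intro i
      rw [Filter.eventually_all]
      intro j
      by_cases hij : (pg A p).Adj i j
      · exact Filter.Eventually.of_forall (fun q _ => hij)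
      · by_cases hne' : i = j
        · exact Filter.Eventually.of_forall (fun q h => absurd hne' h.1)
        · have hnot : p ∉ convexHull ℝ (A i ∪ A j) := fun h => hij (And.intro hne' h)
          have hopen : IsOpen (convexHull ℝ (A i ∪ A j))ᶜ :=
            (closed_hull _ _ (hc i) (hc j) (hk i) (hk j) (hne i) (hne j)).isOpen_compl
          filter_upwards [hopen.mem_nhds hnot] with q hq h
          exact absurd h.2 hq
    filter_upwards [hev] with q hq
    rw [htdef]
    simp only [mem_ofPred_eq]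
    refine ⟨?_, ?_⟩
    · intro i j hij
      exact_mod_cast hy1 i j (hq i j hij)
    · exact_mod_cast hy2
  obtain ⟨g, hg⟩ := exists_continuous_forall_mem_convex_of_local_const htconv hloc
  have hg1 : ∀ p i j, (pg A p).Adj i j → g p i + g p j ≤ 0 := fun p => (hg p).1
  have hg2 : ∀ p, 0 < ∑ i, g p i := fun p => (hg p).2
  have hgc : ∀ i, Continuous (fun p => g p i) := fun i => (continuous_apply i).comp g.continuous
  set Mx : E2 → ℝ := fun p => Finset.univ.sup' Finset.univ_nonempty (fun i => g p i) with hMx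
  have hMxc : Continuous Mx :=
    Continuous.finset_sup'_apply Finset.univ_nonempty (fun i _ => hgc i)
  have hMle : ∀ p i, g p i ≤ Mx p := fun p i =>
    Finset.le_sup' (fun i => g p i) (Finset.mem_univ i)
  have hMpos : ∀ p, 0 < Mx p := by
    intro p
    by_contra h
    push Not at h
    have : ∑ i, g p i ≤ 0 := Finset.sum_nonpos (fun i _ => (hMle p i).trans h)
    exact absurd (hg2 p) (not_lt.2 this)
  have hMex : ∀ p, ∃ i, g p i = Mx p := by
    intro p
    obtain ⟨i, -, hi⟩ := Finset.exists_mem_eq_sup' Finset.univ_nonempty (fun i => g p i)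
    exact ⟨i, hi.symm⟩
  -- the points
  choose a ha using hne
  set lam : Fin n → E2 → ℝ := fun i p => max ((m : ℝ) * g p i - ((m : ℝ) - 1) * Mx p) 0 with hlam
  have hlamc : ∀ i, Continuous (lam i) := by
    intro i
    have := hgc i
    rw [hlam]
    dsimp only
    fun_prop
  have hlam0 : ∀ i p, 0 ≤ lam i p := fun i p => le_max_right _ _
  set L : E2 → ℝ := fun p => ∑ i, lam i p with hL
  have hLc : Continuous L := by
    rw [hL]
    exact continuous_finsetSum _ (fun i _ => hlamc i)
  have hLpos : ∀ p, 0 < L p := by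
    intro p
    obtain ⟨i, hi⟩ := hMex p
    have h1 : 0 < lam i p := by
      rw [hlam]
      dsimp only
      rw [hi]
      apply lt_max_of_lt_left
      have := hMpos p
      nlinarith
    exact lt_of_lt_of_le h1 (Finset.single_le_sum (fun j _ => hlam0 j p) (Finset.mem_univ i))
  set f : E2 → E2 := fun p => (L p)⁻¹ • ∑ i, lam i p • a i with hf
  have hfc : Continuous f := by
    have h1 : Continuous (fun p => (L p)⁻¹) := hLc.inv₀ (fun p => (hLpos p).ne')
    have h2 : Continuous (fun p => ∑ i, lam i p • a i) :=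
      continuous_finsetSum _ (fun i _ => (hlamc i).smul continuous_const)
    exact h1.smul h2
  have hfb : ∀ p, ‖f p‖ ≤ ∑ i, ‖a i‖ := by
    intro p
    rw [hf]
    dsimp only
    rw [norm_smul, norm_inv, Real.norm_eq_abs, abs_of_pos (hLpos p),
      inv_mul_le_iff₀ (hLpos p), hL]
    dsimp only
    calc ‖∑ i, lam i p • a i‖ ≤ ∑ i, ‖lam i p • a i‖ := norm_sum_le _ _
      _ = ∑ i, lam i p * ‖a i‖ := by
          apply Finset.sum_congr rfl
          intro i _
          rw [norm_smul, Real.norm_eq_abs, abs_of_nonneg (hlam0 i p)]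
      _ ≤ ∑ i, lam i p * ∑ j, ‖a j‖ := by
          apply Finset.sum_le_sum
          intro i _
          apply mul_le_mul_of_nonneg_left _ (hlam0 i p)
          exact Finset.single_le_sum (fun j _ => norm_nonneg (a j)) (Finset.mem_univ i)
      _ = (∑ i, lam i p) * ∑ i, ‖a i‖ := by rw [Finset.sum_mul]
  obtain ⟨p, hp⟩ := Pool.Agent.Helper133.Brouwer.brouwer f hfc _ hfb
  apply not_balanced A hc hm hnm ht p (g p) (hg1 p) (hg2 p) (Mx p) (hMle p) (hMpos p)
  set V := Finset.univ.filter (fun i => ((m : ℝ) - 1) * Mx p < m * g p i) with hV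
  have hzero : ∀ i, i ∉ V → lam i p = 0 := by
    intro i hi
    rw [hV, Finset.mem_filter, not_and] at hi
    have := hi (Finset.mem_univ i)
    rw [hlam]
    dsimp only
    exact max_eq_right (by linarith)
  have hLV : ∑ i ∈ V, lam i p = L p := by
    rw [hL]
    exact Finset.sum_subset (Finset.subset_univ V) (fun i _ hi => hzero i hi)
  have hfV : ∑ i ∈ V, lam i p • a i = ∑ i, lam i p • a i :=
    Finset.sum_subset (Finset.subset_univ V) (fun i _ hi => by rw [hzero i hi, zero_smul])
  have hcm : V.centerMass (fun i => lam i p) a = p := by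
    rw [Finset.centerMass, hLV, hfV]
    exact hp
  rw [← hcm]
  apply Finset.centerMass_mem_convexHull V (fun i _ => hlam0 i p)
  · rw [hLV]; exact hLpos p
  · intro i hi
    simp only [mem_iUnion]
    exact ⟨i, hi, ha i⟩

end Pool.Agent.R120.TF
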