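import Mathlib
import Pool.Agent.R120.AntichainDef
import Pool.Agent.R120.AmalgDef

set_option autoImplicit false

/-! Unsplittable permutation classes and separable permutations. -/

namespace Pool.Agent.R120.Unsp

open Pool.Agent.R120.Antichain Pool.Agent.R120.Amalg

/-- `C` is unsplittable: for all `σ, π ∈ C` there is `τ ∈ C` such that every red-blue colouring
(red = `true`) of the entries of `τ` has a red copy of `σ` or a blue copy of `π`. -/
def Unsplittable (C : Set AllPerms) : Prop :=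
  ∀ σ ∈ C, ∀ π ∈ C, ∃ τ ∈ C, ∀ c : Fin τ.1 → Bool,
    (∃ f : Fin σ.1 → Fin τ.1, IsEmb σ.2 τ.2 f ∧ ∀ i, c (f i) = true) ∨
    (∃ f : Fin π.1 → Fin τ.1, IsEmb π.2 τ.2 f ∧ ∀ i, c (f i) = false)

/-- The permutation `2413`. -/
def p2413 : Equiv.Perm (Fin 4) := ⟨![1, 3, 0, 2], ![2, 0, 3, 1], by decide, by decide⟩

/-- The permutation `3142`. -/
def p3142 : Equiv.Perm (Fin 4) := ⟨![2, 0, 3, 1], ![1, 3, 0, 2], by decide, by decide⟩

/-- The class of separable permutations, `Av(2413, 3142)`. -/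
def Separables : Set AllPerms :=
  {p | (¬ ∃ f, IsEmb p2413 p.2 f) ∧ ¬ ∃ f, IsEmb p3142 p.2 f}

end Pool.Agent.R120.Unsp
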