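import Mathlib
import Pool.Agent.R120.UnspDef
import Pool.Agent.R120.Amalg

set_option autoImplicit false

/-! # An unsplittable class that is incomparable with the class of separable permutations -/

namespace Pool.Agent.R120.Unsp

open Pool.Agent.R120.Antichain Pool.Agent.R120.Amalg Function
open Pool.Agent.R120.Amalg.Tr (leaf node pos pos_irrefl pos_trans pos_tri)

/-- The value order. -/
def val : Tr → Tr → Prop
  | leaf r, leaf s => s < r
  | leaf _, node _ _ => False
  | node _ _, leaf _ => True
  | node a x, node b y => b < a ∨ (a = b ∧ val x y)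

lemma val_irrefl (x : Tr) : ¬ val x x := by
  induction x with
  | leaf r => simp [val]
  | node a x ih => simp [val, ih]

lemma val_trans {x : Tr} : ∀ {y z : Tr}, val x y → val y z → val x z := by
  induction x with
  | leaf r =>
    intro y z h1 h2
    cases y <;> cases z <;> simp only [val] at *
    omega
  | node a x ih =>
    intro y z h1 h2
    cases y with
    | leaf s => cases z <;> simp only [val] at *
    | node b y =>
      cases z with
      | leaf t => simp only [val]
      | node c z =>
        simp only [val] at *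
        rcases h1 with h1 | ⟨rfl, h1⟩
        · rcases h2 with h2 | ⟨rfl, h2⟩
          · left; omega
          · left; exact h1
        · rcases h2 with h2 | ⟨rfl, h2⟩
          · left; exact h2
          · right; exact ⟨rfl, ih h1 h2⟩

lemma val_tri (x : Tr) : ∀ y : Tr, val x y ∨ x = y ∨ val y x := by
  induction x with
  | leaf r =>
    intro y
    cases y with
    | leaf s => simp only [val, Tr.leaf.injEq]; omega
    | node b y => simp only [val]; tauto
  | node a x ih =>
    intro y
    cases y with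
    | leaf s => simp only [val]; tauto
    | node b y =>
      simp only [val, Tr.node.injEq]
      rcases lt_trichotomy a b with h | rfl | h
      · right; right; left; exact h
      · rcases ih y with h | rfl | h
        · left; right; exact ⟨rfl, h⟩
        · right; left; exact ⟨rfl, rfl⟩
        · right; right; right; exact ⟨rfl, h⟩
      · left; left; exact h

/-- `f` represents the permutation `π` by points. -/
def Rep {n : ℕ} (π : Equiv.Perm (Fin n)) (f : Fin n → Tr) : Prop :=
  (∀ i j, i < j ↔ pos (f i) (f j)) ∧ ∀ i j, π i < π j ↔ val (f i) (f j)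

/-- The class: all finite subpermutations. -/
def age : Set AllPerms := {p | ∃ f, Rep p.2 f}

lemma pos_injective {n : ℕ} {f : Fin n → Tr} (h : ∀ i j, i < j ↔ pos (f i) (f j)) :
    Injective f := by
  intro i j hij
  by_contra hne
  rcases lt_or_gt_of_ne hne with hlt | hlt
  · have := (h i j).1 hlt
    rw [hij] at this
    exact pos_irrefl _ this
  · have := (h j i).1 hlt
    rw [hij] at this
    exact pos_irrefl _ this

lemma isClass_age : IsClass age := by
  rintro p ⟨f, h1, h2⟩ q g ⟨g1, g2⟩
  exact ⟨fun i => f (g i), fun i j => by rw [← h1, g1.lt_iff_lt], fun i j => by rw [g2, h2]⟩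

/-- Every finite set of points represents a permutation. -/
lemma exists_rep (S : Finset Tr) : ∃ (p : AllPerms) (f : Fin p.1 → Tr), Rep p.2 f ∧
    Set.range f = S := by
  obtain ⟨f, hf, hfr⟩ := exists_enum pos pos_irrefl pos_trans pos_tri S rfl
  obtain ⟨g, hg, hgr⟩ := exists_enum val val_irrefl val_trans val_tri S rfl
  have hfi : Injective f := pos_injective hf
  have hex : ∀ i, ∃ j, g j = f i := by
    intro i
    have : f i ∈ Set.range g := by
      rw [hgr, ← hfr]; exact ⟨i, rfl⟩
    exact this
  choose π hπ using hex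
  have hπi : Injective π := by
    intro i j hij
    apply hfi
    rw [← hπ i, ← hπ j, hij]
  refine ⟨⟨S.card, Equiv.ofBijective π (Finite.injective_iff_bijective.1 hπi)⟩, f, ⟨hf, ?_⟩, hfr⟩
  intro i j
  rw [← hπ i, ← hπ j, ← hg]
  rfl

/-! ### Copies -/

/-- `A` has a copy inside `S`. -/
def Cp (A : Finset Tr) (S : Set Tr) : Prop :=
  ∃ g : Tr → Tr, (∀ x ∈ A, g x ∈ S) ∧ ∀ x ∈ A, ∀ y ∈ A,
    (pos x y ↔ pos (g x) (g y)) ∧ (val x y ↔ val (g x) (g y))

lemma cp_mono {A : Finset Tr} {S T : Set Tr} (h : Cp A S) (hST : S ⊆ T) : Cp A T := by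
  obtain ⟨g, h1, h2⟩ := h
  exact ⟨g, fun x hx => hST (h1 x hx), h2⟩

lemma cp_trans {A B : Finset Tr} {S : Set Tr} (h : Cp A B) (h' : Cp B S) : Cp A S := by
  obtain ⟨g, h1, h2⟩ := h
  obtain ⟨g', h1', h2'⟩ := h'
  refine ⟨fun x => g' (g x), fun x hx => h1' _ (h1 x hx), fun x hx y hy => ⟨?_, ?_⟩⟩
  · rw [(h2 x hx y hy).1, (h2' _ (h1 x hx) _ (h1 y hy)).1]
  · rw [(h2 x hx y hy).2, (h2' _ (h1 x hx) _ (h1 y hy)).2]

lemma cp_empty (S : Set Tr) : Cp ∅ S := ⟨id, by simp, by simp⟩

lemma cp_node {A : Finset Tr} {S : Set Tr} (a : ℤ) (h : Cp A {t | node a t ∈ S}) : Cp A S := by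
  obtain ⟨g, h1, h2⟩ := h
  refine ⟨fun x => node a (g x), fun x hx => h1 x hx, fun x hx y hy => ⟨?_, ?_⟩⟩
  · rw [(h2 x hx y hy).1]; simp [pos]
  · rw [(h2 x hx y hy).2]; simp [val]

lemma node_inj (a : ℤ) : Injective (node a) := fun _ _ h => (Tr.node.inj h).2

/-- The part of `A` below the first coordinate `a`. -/
noncomputable def br (A : Finset Tr) (a : ℤ) : Finset Tr :=
  A.preimage (node a) (node_inj a).injOn

lemma mem_br {A : Finset Tr} {a : ℤ} {x : Tr} : x ∈ br A a ↔ node a x ∈ A := by
  simp [br]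

lemma card_br_le (A : Finset Tr) (a : ℤ) : (br A a).card ≤ A.card := by
  classical
  rw [← Finset.card_image_of_injective _ (node_inj a)]
  apply Finset.card_le_card
  intro x hx
  obtain ⟨y, hy, rfl⟩ := Finset.mem_image.1 hx
  exact mem_br.1 hy

def size : Tr → ℕ
  | leaf _ => 1
  | node _ x => 1 + size x

lemma strip (n : ℕ) : ∀ A : Finset Tr, A.Nonempty → ∑ x ∈ A, size x ≤ n →
    ∃ A' : Finset Tr, A'.card = A.card ∧ Cp A A' ∧ ∀ a, (br A' a).card < A'.card := by
  classical
  induction n with
  | zero =>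
    intro A hA hs
    exfalso
    obtain ⟨x, hx⟩ := hA
    have : size x ≤ 0 := (Finset.single_le_sum (f := size) (fun _ _ => Nat.zero_le _) hx).trans hs
    cases x <;> simp [size] at this
  | succ n ih =>
    intro A hA hs
    by_cases hall : ∀ a, (br A a).card < A.card
    · exact ⟨A, rfl, ⟨id, fun x hx => hx, fun x _ y _ => ⟨Iff.rfl, Iff.rfl⟩⟩, hall⟩
    · push Not at hall
      obtain ⟨a, ha⟩ := hall
      have hc : (br A a).card = A.card := le_antisymm (card_br_le A a) ha
      have himg : (br A a).image (node a) = A := by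
        apply Finset.eq_of_subset_of_card_le
        · intro x hx
          obtain ⟨y, hy, rfl⟩ := Finset.mem_image.1 hx
          exact mem_br.1 hy
        · rw [Finset.card_image_of_injective _ (node_inj a), hc]
      have hne : (br A a).Nonempty := by
        rw [← Finset.card_pos, hc]
        exact Finset.card_pos.2 hA
      have hsum : ∑ x ∈ br A a, size x ≤ n := by
        have h1 : ∑ x ∈ A, size x = ∑ y ∈ br A a, (1 + size y) := by
          conv_lhs => rw [← himg]
          rw [Finset.sum_image (fun x _ y _ h => node_inj a h)]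
          rfl
        rw [h1, Finset.sum_add_distrib] at hs
        simp only [Finset.sum_const, smul_eq_mul, mul_one] at hs
        have := Finset.card_pos.2 hne
        omega
      obtain ⟨A', h1, h2, h3⟩ := ih _ hne hsum
      refine ⟨A', h1.trans hc, cp_trans ?_ h2, h3⟩
      -- `A` is a copy of its part
      let g : Tr → Tr := fun x => match x with
        | leaf r => leaf r
        | node _ y => y
      refine ⟨g, ?_, ?_⟩
      · intro x hx
        rw [← himg] at hx
        obtain ⟨y, hy, rfl⟩ := Finset.mem_image.1 hx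
        exact hy
      · intro x hx y hy
        rw [← himg] at hx hy
        obtain ⟨x, hx, rfl⟩ := Finset.mem_image.1 hx
        obtain ⟨y, hy, rfl⟩ := Finset.mem_image.1 hy
        simp [g, pos, val]

def top : Tr → ℤ
  | leaf r => r
  | node a _ => a

lemma leaf_inj : Injective leaf := fun _ _ h => Tr.leaf.inj h

/-- The coordinates of the leaves of `A` at the top level. -/
noncomputable def lf (A : Finset Tr) : Finset ℤ := A.preimage leaf leaf_inj.injOn

lemma mem_lf {A : Finset Tr} {r : ℤ} : r ∈ lf A ↔ leaf r ∈ A := by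
  simp [lf]

open Classical in
/-- The first coordinates of the other members of `A`. -/
noncomputable def nd (A : Finset Tr) : Finset ℤ :=
  (A.image top).filter (fun a => (br A a).Nonempty)

lemma mem_nd {A : Finset Tr} {a : ℤ} {x : Tr} (h : node a x ∈ A) : a ∈ nd A := by
  classical
  rw [nd, Finset.mem_filter]
  exact ⟨Finset.mem_image.2 ⟨_, h, rfl⟩, ⟨x, mem_br.2 h⟩⟩

/-- The number of leaves of `A` before the coordinate `a`. -/
noncomputable def jn (A : Finset Tr) (a : ℤ) : ℕ := ((lf A).filter (fun r => r < a)).card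

/-- The number of nodes of `A` before the coordinate `a`. -/
noncomputable def rk (A : Finset Tr) (a : ℤ) : ℕ := ((nd A).filter (fun r => r < a)).card

lemma jn_mono (A : Finset Tr) {a b : ℤ} (h : a ≤ b) : jn A a ≤ jn A b := by
  apply Finset.card_le_card
  intro x hx
  rw [Finset.mem_filter] at hx ⊢
  exact ⟨hx.1, hx.2.trans_le h⟩

lemma jn_lt (A : Finset Tr) {a b : ℤ} (ha : a ∈ lf A) (h : a < b) : jn A a < jn A b := by
  apply Finset.card_lt_card
  rw [Finset.ssubset_iff_of_subset]
  · exact ⟨a, Finset.mem_filter.2 ⟨ha, h⟩, by simp⟩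
  · intro x hx
    rw [Finset.mem_filter] at hx ⊢
    exact ⟨hx.1, hx.2.trans h⟩

lemma jn_le (A : Finset Tr) (a : ℤ) : jn A a ≤ (lf A).card := Finset.card_filter_le _ _

lemma jn_lt_card (A : Finset Tr) {a : ℤ} (ha : a ∈ lf A) : jn A a < (lf A).card := by
  apply Finset.card_lt_card
  rw [Finset.ssubset_iff_of_subset (Finset.filter_subset _ _)]
  exact ⟨a, ha, by simp⟩

lemma rk_lt (A : Finset Tr) {a b : ℤ} (ha : a ∈ nd A) (h : a < b) : rk A a < rk A b := by
  apply Finset.card_lt_card
  rw [Finset.ssubset_iff_of_subset]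
  · exact ⟨a, Finset.mem_filter.2 ⟨ha, h⟩, by simp⟩
  · intro x hx
    rw [Finset.mem_filter] at hx ⊢
    exact ⟨hx.1, hx.2.trans h⟩

lemma rk_lt_card (A : Finset Tr) {a : ℤ} (ha : a ∈ nd A) : rk A a < (nd A).card := by
  apply Finset.card_lt_card
  rw [Finset.ssubset_iff_of_subset (Finset.filter_subset _ _)]
  exact ⟨a, ha, by simp⟩

/-- Building a copy from leaves `s 1 < s 2 < ⋯` far apart and copies of the branches. -/
lemma build (A : Finset Tr) (S : Set Tr) (K W : ℤ) (hK : ((nd A).card : ℤ) < K) (s : ℕ → ℤ)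
    (hs0 : 0 ≤ s 0) (hs : ∀ j, j < (lf A).card → s j + K ≤ s (j + 1))
    (hW : s (lf A).card + K ≤ W)
    (hleaf : ∀ j, 1 ≤ j → j ≤ (lf A).card → leaf (s j) ∈ S)
    (hbr : ∀ a, 0 ≤ a → a < W → ∀ b ∈ nd A, Cp (br A b) {t | node a t ∈ S}) : Cp A S := by
  classical
  have hmono : ∀ i j, i ≤ j → j ≤ (lf A).card → s i ≤ s j := by
    intro i j hij
    induction j with
    | zero => intro _; rw [Nat.le_zero.1 hij]
    | succ j ih =>
      intro hj
      rcases Nat.lt_or_ge i (j + 1) with h | h
      · have h1 := ih (by omega) (by omega)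
        have h2 := hs j (by omega)
        have h3 : (0 : ℤ) ≤ (nd A).card := Int.natCast_nonneg _
        omega
      · rw [show i = j + 1 by omega]
  have hstrict : ∀ i j, i < j → j ≤ (lf A).card → s i + K ≤ s j := by
    intro i j hij hj
    have h1 := hs i (by omega)
    have h2 := hmono (i + 1) j hij hj
    omega
  have hKpos : 0 < K := by
    have h3 : (0 : ℤ) ≤ (nd A).card := Int.natCast_nonneg _
    omega
  let h : ℤ → ℤ := fun a => s (jn A a) + 1 + rk A a
  have hh0 : ∀ a, a ∈ nd A → 0 ≤ h a ∧ h a < W := by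
    intro a ha
    have h1 := hmono 0 (jn A a) (Nat.zero_le _) (jn_le A a)
    have h2 := hmono (jn A a) _ (jn_le A a) le_rfl
    have h3 := rk_lt_card A ha
    simp only [h]
    omega
  have hex : ∀ a, ∃ g : Tr → Tr, a ∈ nd A → (∀ x ∈ br A a, node (h a) (g x) ∈ S) ∧
      ∀ x ∈ br A a, ∀ y ∈ br A a, (pos x y ↔ pos (g x) (g y)) ∧ (val x y ↔ val (g x) (g y)) := by
    intro a
    by_cases ha : a ∈ nd A
    · obtain ⟨g, h1, h2⟩ := hbr (h a) (hh0 a ha).1 (hh0 a ha).2 a ha
      exact ⟨g, fun _ => ⟨h1, h2⟩⟩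
    · exact ⟨id, fun hh => absurd hh ha⟩
  choose G hG using hex
  let g : Tr → Tr := fun x => match x with
    | leaf r => leaf (s (jn A r + 1))
    | node a y => node (h a) (G a y)
  have hhlt : ∀ a b, a ∈ nd A → b ∈ nd A → a < b → h a < h b := by
    intro a b ha hb hab
    have h1 := rk_lt A ha hab
    simp only [h]
    rcases (jn_mono A hab.le).eq_or_lt with he | he
    · rw [he]; omega
    · have h2 := hstrict _ _ he (jn_le A b)
      have h3 := rk_lt_card A ha
      omega
  have hhiff : ∀ a b, a ∈ nd A → b ∈ nd A → (a < b ↔ h a < h b) := by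
    intro a b ha hb
    constructor
    · exact hhlt a b ha hb
    · intro hh
      by_contra hcon
      rcases lt_or_eq_of_le (not_lt.1 hcon) with h1 | h1
      · have := hhlt b a hb ha h1
        omega
      · rw [h1] at hh; omega
  have hheq : ∀ a b, a ∈ nd A → b ∈ nd A → (a = b ↔ h a = h b) := by
    intro a b ha hb
    constructor
    · rintro rfl; rfl
    · intro hh
      rcases lt_trichotomy a b with h1 | h1 | h1
      · have := hhlt a b ha hb h1; omega
      · exact h1
      · have := hhlt b a hb ha h1; omega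
  have hll : ∀ r r', r ∈ lf A → r' ∈ lf A → (r < r' ↔ s (jn A r + 1) < s (jn A r' + 1)) := by
    have key : ∀ r r', r ∈ lf A → r' ∈ lf A → r < r' → s (jn A r + 1) < s (jn A r' + 1) := by
      intro r r' hr hr' hlt
      have h1 := jn_lt A hr hlt
      have h2 := hstrict (jn A r + 1) (jn A r' + 1) (by omega) (jn_lt_card A hr')
      omega
    intro r r' hr hr'
    constructor
    · exact key r r' hr hr'
    · intro hh
      by_contra hcon
      rcases lt_or_eq_of_le (not_lt.1 hcon) with h1 | h1
      · have := key r' r hr' hr h1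
        omega
      · rw [h1] at hh; omega
  have hln : ∀ r a, r ∈ lf A → a ∈ nd A → (r < a ↔ s (jn A r + 1) < h a) := by
    intro r a hr ha
    constructor
    · intro hlt
      have h1 := jn_lt A hr hlt
      have h2 := hmono (jn A r + 1) (jn A a) h1 (jn_le A a)
      simp only [h]
      omega
    · intro hh
      by_contra hcon
      have h1 := jn_mono A (not_lt.1 hcon)
      have h2 := hs (jn A a) (h1.trans_lt (jn_lt_card A hr))
      have h3 := hmono (jn A a + 1) (jn A r + 1) (by omega) (jn_lt_card A hr)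
      have h4 := rk_lt_card A ha
      simp only [h] at hh
      omega
  have gl : ∀ r, g (leaf r) = leaf (s (jn A r + 1)) := fun _ => rfl
  have gn : ∀ a y, g (node a y) = node (h a) (G a y) := fun _ _ => rfl
  refine ⟨g, ?_, ?_⟩
  · intro x hx
    cases x with
    | leaf r =>
      rw [gl]
      exact hleaf _ (by omega) (jn_lt_card A (mem_lf.2 hx))
    | node a y =>
      rw [gn]
      exact (hG a (mem_nd hx)).1 y (mem_br.2 hx)
  · intro x hx y hy
    cases x with
    | leaf r =>
      cases y with
      | leaf r' =>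
        rw [gl, gl]
        simp only [pos, val]
        exact ⟨hll r r' (mem_lf.2 hx) (mem_lf.2 hy), hll r' r (mem_lf.2 hy) (mem_lf.2 hx)⟩
      | node b y =>
        rw [gl, gn]
        simp only [pos, val]
        exact ⟨hln r b (mem_lf.2 hx) (mem_nd hy), trivial⟩
    | node a x =>
      cases y with
      | leaf r' =>
        rw [gl, gn]
        simp only [pos, val]
        refine ⟨?_, trivial⟩
        have := hln r' a (mem_lf.2 hy) (mem_nd hx)
        rw [← not_lt, ← not_lt, this]
      | node b y =>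
        rw [gn, gn]
        simp only [pos, val]
        have ha := mem_nd hx
        have hb := mem_nd hy
        rw [← hhiff a b ha hb, ← hheq a b ha hb, ← hhiff b a hb ha]
        refine ⟨or_congr Iff.rfl (and_congr_right ?_), or_congr Iff.rfl (and_congr_right ?_)⟩
        · rintro rfl
          exact ((hG a ha).2 x (mem_br.2 hx) y (mem_br.2 hy)).1
        · rintro rfl
          exact ((hG a ha).2 x (mem_br.2 hx) y (mem_br.2 hy)).2

/-! ### The arrow relation -/

/-- Either enough `true` or enough `false` among `1, …, k + l`. -/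
lemma pigeon (p : ℕ → Bool) (k l : ℕ) :
    (∃ T : Finset ℕ, T ⊆ Finset.Icc 1 (k + l) ∧ T.card = k ∧ ∀ i ∈ T, p i = true) ∨
    (∃ T : Finset ℕ, T ⊆ Finset.Icc 1 (k + l) ∧ T.card = l ∧ ∀ i ∈ T, p i = false) := by
  classical
  have h := Finset.card_filter_add_card_filter_not (s := Finset.Icc 1 (k + l)) (fun i => p i = true)
  rw [Nat.card_Icc] at h
  rcases Nat.lt_or_ge ((Finset.Icc 1 (k + l)).filter (fun i => p i = true)).card k with h1 | h1
  · right
    have h2 : l ≤ ((Finset.Icc 1 (k + l)).filter (fun i => ¬ p i = true)).card := by omega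
    obtain ⟨T, hT, hc⟩ := Finset.exists_subset_card_eq h2
    refine ⟨T, fun i hi => (Finset.mem_filter.1 (hT hi)).1, hc, fun i hi => ?_⟩
    simpa using (Finset.mem_filter.1 (hT hi)).2
  · left
    obtain ⟨T, hT, hc⟩ := Finset.exists_subset_card_eq h1
    exact ⟨T, fun i hi => (Finset.mem_filter.1 (hT hi)).1, hc,
      fun i hi => (Finset.mem_filter.1 (hT hi)).2⟩

/-- A sequence `s` of leaves from a set of indices. -/
lemma exists_seq (T : Finset ℕ) (N k : ℕ) (hT : T ⊆ Finset.Icc 1 N) (hc : T.card = k) (K : ℕ)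
    (hK : 0 < K) : ∃ s : ℕ → ℤ, 0 ≤ s 0 ∧ (∀ j, j < k → s j + K ≤ s (j + 1)) ∧
      s k ≤ N * K ∧ ∀ j, 1 ≤ j → j ≤ k → ∃ i ∈ T, s j = ((i * K : ℕ) : ℤ) := by
  classical
  let e := T.orderEmbOfFin hc
  have he : ∀ i, e i ∈ T := Finset.orderEmbOfFin_mem T hc
  let u : ℕ → ℕ := fun j => if h : 1 ≤ j ∧ j ≤ k then e ⟨j - 1, by omega⟩ else 0
  have hu0 : u 0 = 0 := by simp [u]
  have hu : ∀ j (h : 1 ≤ j ∧ j ≤ k), u j = e ⟨j - 1, by omega⟩ := by
    intro j h
    simp only [u, dif_pos h]
  have hlt : ∀ j, j < k → u j + 1 ≤ u (j + 1) := by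
    intro j hj
    rcases Nat.eq_zero_or_pos j with rfl | h0
    · rw [hu0, hu 1 ⟨le_rfl, by omega⟩]
      exact (Finset.mem_Icc.1 (hT (he _))).1
    · rw [hu j ⟨h0, by omega⟩, hu (j + 1) ⟨by omega, by omega⟩]
      have : e ⟨j - 1, by omega⟩ < e ⟨j + 1 - 1, by omega⟩ := by
        apply e.strictMono
        rw [Fin.lt_def]
        simp only
        omega
      omega
  refine ⟨fun j => ((u j * K : ℕ) : ℤ), ?_, ?_, ?_, ?_⟩
  · positivity
  · intro j hj
    have h1 := hlt j hj
    have h2 : (u j + 1) * K ≤ u (j + 1) * K := Nat.mul_le_mul_right K h1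
    have h3 : u j * K + K ≤ u (j + 1) * K := by linarith [h2]
    beta_reduce
    exact_mod_cast h3
  · have h1 : u k ≤ N := by
      rcases Nat.eq_zero_or_pos k with rfl | h0
      · rw [hu0]; omega
      · rw [hu k ⟨h0, le_rfl⟩]
        exact (Finset.mem_Icc.1 (hT (he _))).2
    have h2 : u k * K ≤ N * K := Nat.mul_le_mul_right K h1
    beta_reduce
    exact_mod_cast h2
  · intro j h1 h2
    refine ⟨u j, ?_, rfl⟩
    rw [hu j ⟨h1, h2⟩]
    exact he _

lemma arrow (n : ℕ) : ∀ A B : Finset Tr, A.card + B.card ≤ n → ∃ F : Finset Tr,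
    ∀ c : Tr → Bool, Cp A {x | x ∈ F ∧ c x = true} ∨ Cp B {x | x ∈ F ∧ c x = false} := by
  classical
  induction n with
  | zero =>
    intro A B h
    have hA : A = ∅ := Finset.card_eq_zero.1 (by omega)
    subst hA
    exact ⟨∅, fun c => Or.inl (cp_empty _)⟩
  | succ n ih =>
    intro A B h
    rcases A.eq_empty_or_nonempty with rfl | hA
    · exact ⟨∅, fun c => Or.inl (cp_empty _)⟩
    rcases B.eq_empty_or_nonempty with rfl | hB
    · exact ⟨∅, fun c => Or.inr (cp_empty _)⟩
    obtain ⟨A', a1, a2, a3⟩ := strip _ A hA le_rfl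
    obtain ⟨B', b1, b2, b3⟩ := strip _ B hB le_rfl
    have e1 : ∀ a, ∃ F : Finset Tr, ∀ c : Tr → Bool, Cp (br A' a) {x | x ∈ F ∧ c x = true} ∨
        Cp B' {x | x ∈ F ∧ c x = false} := by
      intro a
      have := a3 a
      exact ih _ _ (by omega)
    have e2 : ∀ b, ∃ F : Finset Tr, ∀ c : Tr → Bool, Cp A' {x | x ∈ F ∧ c x = true} ∨
        Cp (br B' b) {x | x ∈ F ∧ c x = false} := by
      intro b
      have := b3 b
      exact ih _ _ (by omega)
    choose F1 hF1 using e1
    choose F2 hF2 using e2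
    set T : Finset Tr := (nd A').biUnion F1 ∪ (nd B').biUnion F2 with hT
    have hT1 : ∀ a ∈ nd A', F1 a ⊆ T := fun a ha =>
      (Finset.subset_biUnion_of_mem F1 ha).trans Finset.subset_union_left
    have hT2 : ∀ b ∈ nd B', F2 b ⊆ T := fun b hb =>
      (Finset.subset_biUnion_of_mem F2 hb).trans Finset.subset_union_right
    set K : ℕ := (nd A').card + (nd B').card + 1 with hK
    set k := (lf A').card with hk
    set l := (lf B').card with hl
    set W : ℕ := (k + l + 1) * K with hW
    let F : Finset Tr := (Finset.range W).image (fun i : ℕ => leaf (i : ℤ)) ∪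
      ((Finset.range W) ×ˢ T).image (fun p => node ((p.1 : ℕ) : ℤ) p.2)
    have hFl : ∀ i : ℕ, i < W → leaf (i : ℤ) ∈ F := by
      intro i hi
      exact Finset.mem_union_left _ (Finset.mem_image.2 ⟨i, Finset.mem_range.2 hi, rfl⟩)
    have hFn : ∀ a : ℤ, 0 ≤ a → a < W → ∀ t ∈ T, node a t ∈ F := by
      intro a ha ha' t ht
      refine Finset.mem_union_right _ (Finset.mem_image.2 ⟨(a.toNat, t), ?_, ?_⟩)
      · exact Finset.mem_product.2 ⟨Finset.mem_range.2 (by simp only; omega), ht⟩
      · simp only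
        rw [Int.toNat_of_nonneg ha]
    refine ⟨F, fun c => ?_⟩
    by_cases h1 : ∃ a : ℤ, 0 ≤ a ∧ a < W ∧ Cp A' {t | t ∈ T ∧ c (node a t) = true}
    · obtain ⟨a, ha, ha', hcp⟩ := h1
      left
      refine cp_trans a2 (cp_node a (cp_mono hcp ?_))
      rintro t ⟨ht, hc⟩
      exact ⟨hFn a ha ha' t ht, hc⟩
    by_cases h2 : ∃ a : ℤ, 0 ≤ a ∧ a < W ∧ Cp B' {t | t ∈ T ∧ c (node a t) = false}
    · obtain ⟨a, ha, ha', hcp⟩ := h2
      right
      refine cp_trans b2 (cp_node a (cp_mono hcp ?_))
      rintro t ⟨ht, hc⟩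
      exact ⟨hFn a ha ha' t ht, hc⟩
    push Not at h1 h2
    have g1 : ∀ a : ℤ, 0 ≤ a → a < W → ∀ b ∈ nd A', Cp (br A' b)
        {t | node a t ∈ {x | x ∈ F ∧ c x = true}} := by
      intro a ha ha' b hb
      rcases hF1 b (fun t => c (node a t)) with hh | hh
      · refine cp_mono hh ?_
        rintro t ⟨ht, hc⟩
        exact ⟨hFn a ha ha' t (hT1 b hb ht), hc⟩
      · exfalso
        refine h2 a ha ha' (cp_mono hh ?_)
        rintro t ⟨ht, hc⟩
        exact ⟨hT1 b hb ht, hc⟩
    have g2 : ∀ a : ℤ, 0 ≤ a → a < W → ∀ b ∈ nd B', Cp (br B' b)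
        {t | node a t ∈ {x | x ∈ F ∧ c x = false}} := by
      intro a ha ha' b hb
      rcases hF2 b (fun t => c (node a t)) with hh | hh
      · exfalso
        refine h1 a ha ha' (cp_mono hh ?_)
        rintro t ⟨ht, hc⟩
        exact ⟨hT2 b hb ht, hc⟩
      · refine cp_mono hh ?_
        rintro t ⟨ht, hc⟩
        exact ⟨hFn a ha ha' t (hT2 b hb ht), hc⟩
    have hidx : ∀ i, i ∈ Finset.Icc 1 (k + l) → i * K < W := by
      intro i hi
      have h3 := (Finset.mem_Icc.1 hi).2
      rw [hW]
      exact Nat.mul_lt_mul_of_pos_right (by omega) (by omega)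
    have hWz : (W : ℤ) = (k + l : ℕ) * (K : ℤ) + K := by
      rw [hW]; push_cast; ring
    rcases pigeon (fun i => c (leaf ((i * K : ℕ) : ℤ))) k l with ⟨I, hI, hc, hcol⟩ | ⟨I, hI, hc, hcol⟩
    · left
      obtain ⟨s, s1, s2, s3, s4⟩ := exists_seq I (k + l) k hI hc K (by omega)
      refine cp_trans a2 (build A' _ K W (by omega) s s1 s2 (by rw [← hk]; omega) ?_ g1)
      intro j hj1 hj2
      obtain ⟨i, hi, he⟩ := s4 j hj1 hj2
      rw [he]
      exact ⟨hFl _ (hidx i (hI hi)), hcol i hi⟩
    · right
      obtain ⟨s, s1, s2, s3, s4⟩ := exists_seq I (k + l) l hI hc K (by omega)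
      refine cp_trans b2 (build B' _ K W (by omega) s s1 s2 (by rw [← hl]; omega) ?_ g2)
      intro j hj1 hj2
      obtain ⟨i, hi, he⟩ := s4 j hj1 hj2
      rw [he]
      exact ⟨hFl _ (hidx i (hI hi)), hcol i hi⟩

lemma unsplittable_age : Unsplittable age := by
  classical
  rintro ⟨m, σ⟩ ⟨f, hf⟩ ⟨k, π⟩ ⟨g, hg⟩
  simp only at f hf g hg
  obtain ⟨F, hF⟩ := arrow _ (Finset.univ.image f) (Finset.univ.image g) le_rfl
  obtain ⟨τ, h, hr, hrange⟩ := exists_rep F
  have hinj := pos_injective hr.1
  refine ⟨τ, ⟨h, hr⟩, fun c => ?_⟩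
  let c' : Tr → Bool := fun x => if hx : ∃ i, h i = x then c hx.choose else false
  have hc' : ∀ i, c' (h i) = c i := by
    intro i
    have hx : ∃ j, h j = h i := ⟨i, rfl⟩
    simp only [c', dif_pos hx]
    congr 1
    exact hinj hx.choose_spec
  have hmem : ∀ x ∈ F, ∃ i, h i = x := by
    intro x hx
    have : x ∈ Set.range h := by rw [hrange]; exact hx
    exact this
  rcases hF c' with ⟨G, hG1, hG2⟩ | ⟨G, hG1, hG2⟩
  · left
    have hex : ∀ i, ∃ j, h j = G (f i) := fun i => hmem _ (hG1 _ (by simp)).1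
    choose e he using hex
    refine ⟨e, ⟨?_, ?_⟩, ?_⟩
    · intro i j hij
      rw [hr.1, he, he, ← (hG2 _ (by simp) _ (by simp)).1, ← hf.1]
      exact hij
    · intro i j
      rw [hr.2, he, he, ← (hG2 _ (by simp) _ (by simp)).2, ← hf.2]
    · intro i
      rw [← hc', he]
      exact (hG1 _ (by simp)).2
  · right
    have hex : ∀ i, ∃ j, h j = G (g i) := fun i => hmem _ (hG1 _ (by simp)).1
    choose e he using hex
    refine ⟨e, ⟨?_, ?_⟩, ?_⟩
    · intro i j hij
      rw [hr.1, he, he, ← (hG2 _ (by simp) _ (by simp)).1, ← hg.1]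
      exact hij
    · intro i j
      rw [hr.2, he, he, ← (hG2 _ (by simp) _ (by simp)).2, ← hg.2]
    · intro i
      rw [← hc', he]
      exact (hG1 _ (by simp)).2

/-! ### Comparison with the separable permutations -/

/-- The set of points contains no copy of `1342`. -/
lemma no1342 (x : Tr) : ∀ p q r : Tr, pos x p → pos p q → pos q r → val x r → val r p →
    val p q → False := by
  induction x with
  | leaf s =>
    intro p q r h1 h2 h3 h4 h5 h6
    cases p <;> cases r <;> simp only [pos, val] at *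
    omega
  | node a x ih =>
    intro p q r h1 h2 h3 h4 h5 h6
    cases p with
    | leaf s => cases q <;> simp only [pos, val] at * <;> omega
    | node b p =>
      cases r with
      | leaf t => simp only [pos, val] at *
      | node c r =>
        cases q with
        | leaf s =>
          simp only [pos, val] at *
          omega
        | node d q =>
          simp only [pos, val] at *
          have hab : a = b := by omega
          subst hab
          have had : a = d := by omega
          subst had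
          have hac : a = c := by omega
          subst hac
          simp only [lt_self_iff_false, true_and, false_or] at *
          exact ih p q r h1 h2 h3 h4 h5 h6

def p1342 : Equiv.Perm (Fin 4) := ⟨![0, 2, 3, 1], ![0, 3, 1, 2], by decide, by decide⟩

lemma sep_1342 : (⟨4, p1342⟩ : AllPerms) ∈ Separables := by
  constructor
  · rintro ⟨f, hf, h⟩
    have hid : f = id := by
      have h3 : Set.range f = Set.range (id : Fin 4 → Fin 4) := by
        rw [Set.range_id, Set.range_eq_univ]
        exact Finite.surjective_of_injective hf.injective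
      exact (StrictMono.range_inj hf strictMono_id).1 h3
    subst hid
    have := (h 0 2).2 (by decide)
    exact absurd this (by decide)
  · rintro ⟨f, hf, h⟩
    have hid : f = id := by
      have h3 : Set.range f = Set.range (id : Fin 4 → Fin 4) := by
        rw [Set.range_id, Set.range_eq_univ]
        exact Finite.surjective_of_injective hf.injective
      exact (StrictMono.range_inj hf strictMono_id).1 h3
    subst hid
    have := (h 0 1).2 (by decide)
    exact absurd this (by decide)

lemma not_mem_1342 : (⟨4, p1342⟩ : AllPerms) ∉ age := by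
  rintro ⟨f, h1, h2⟩
  exact no1342 (f 0) (f 1) (f 2) (f 3) ((h1 _ _).1 (by decide)) ((h1 _ _).1 (by decide))
    ((h1 _ _).1 (by decide)) ((h2 _ _).1 (by decide)) ((h2 _ _).1 (by decide))
    ((h2 _ _).1 (by decide))

lemma mem_2413 : (⟨4, p2413⟩ : AllPerms) ∈ age := by
  refine ⟨![node 0 (leaf 0), leaf 0, node 1 (leaf 0), leaf 1], ?_, ?_⟩
  · intro i j
    fin_cases i <;> fin_cases j <;> simp [pos]
  · intro i j
    fin_cases i <;> fin_cases j <;> simp [val, p2413]

lemma not_sep_2413 : (⟨4, p2413⟩ : AllPerms) ∉ Separables := by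
  rintro ⟨h, _⟩
  exact h ⟨id, strictMono_id, fun _ _ => Iff.rfl⟩

theorem main : ∃ C : Set AllPerms, IsClass C ∧ Unsplittable C ∧ ¬ Separables ⊆ C ∧ ¬ C ⊆ Separables :=
  ⟨age, isClass_age, unsplittable_age, fun h => not_mem_1342 (h sep_1342),
    fun h => not_sep_2413 (h mem_2413)⟩

end Pool.Agent.R120.Unsp
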