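import Mathlib

set_option autoImplicit false

/-! Short words containing many permutations (block construction). -/

namespace Pool.Agent.R120.Words

open Finset

/-- some word of length at most `L` contains at least `N` permutations of `Fin n` -/
def Good (n L N : ℕ) : Prop :=
  ∃ w : List (Fin n), w.length ≤ L ∧ ∃ S : Finset (Equiv.Perm (Fin n)), N ≤ S.card ∧
    ∀ π ∈ S, (List.ofFn (fun i => π i)).Sublist w

lemma sublist_replicate {α : Type*} (u : List α) (l : List α) (h : ∀ a ∈ l, a ∈ u) :
    l.Sublist (List.replicate l.length u).flatten := by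
  induction l with
  | nil => simp
  | cons a l ih =>
    rw [List.length_cons, List.replicate_succ, List.flatten_cons]
    have h1 : [a].Sublist u := List.singleton_sublist.2 (h a (by simp))
    have h2 := ih (fun b hb => h b (by simp [hb]))
    simpa using h1.append h2

lemma good_univ (n : ℕ) : Good n (n * n) n.factorial := by
  refine ⟨(List.replicate n (List.finRange n)).flatten, by simp, Finset.univ, ?_, fun π _ => ?_⟩
  · rw [Finset.card_univ, Fintype.card_perm, Fintype.card_fin]
  · have h := sublist_replicate (List.finRange n) (List.ofFn (fun i => π i))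
      (fun a _ => List.mem_finRange a)
    rwa [List.length_ofFn] at h

lemma good_mono {n L N L' N' : ℕ} (h : Good n L N) (hL : L ≤ L') (hN : N' ≤ N) :
    Good n L' N' := by
  obtain ⟨w, hw, S, hS, h⟩ := h
  exact ⟨w, hw.trans hL, S, hN.trans hS, h⟩

lemma good_add {m k L₁ L₂ N₁ N₂ : ℕ} (h₁ : Good m L₁ N₁) (h₂ : Good k L₂ N₂) :
    Good (m + k) (L₁ + L₂) (N₁ * N₂) := by
  classical
  obtain ⟨w₁, hw₁, S₁, hS₁, h₁⟩ := h₁
  obtain ⟨w₂, hw₂, S₂, hS₂, h₂⟩ := h₂
  let F : Equiv.Perm (Fin m) × Equiv.Perm (Fin k) → Equiv.Perm (Fin (m + k)) :=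
    fun p => finSumFinEquiv.permCongr (Equiv.sumCongr p.1 p.2)
  have hF1 : ∀ (p : Equiv.Perm (Fin m) × Equiv.Perm (Fin k)) (i : Fin m),
      F p (Fin.castAdd k i) = Fin.castAdd k (p.1 i) := by
    intro p i
    simp [F, Equiv.permCongr_apply]
  have hF2 : ∀ (p : Equiv.Perm (Fin m) × Equiv.Perm (Fin k)) (i : Fin k),
      F p (Fin.natAdd m i) = Fin.natAdd m (p.2 i) := by
    intro p i
    simp [F, Equiv.permCongr_apply]
  have hFinj : Function.Injective F := by
    rintro ⟨σ, τ⟩ ⟨σ', τ'⟩ h
    have e1 : σ = σ' := by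
      ext i
      have := congrArg (fun π => π (Fin.castAdd k i)) h
      simp only [hF1] at this
      have h3 := Fin.castAdd_injective m k this
      rw [h3]
    have e2 : τ = τ' := by
      ext i
      have := congrArg (fun π => π (Fin.natAdd m i)) h
      simp only [hF2] at this
      have h3 := Fin.natAdd_injective k m this
      rw [h3]
    rw [e1, e2]
  refine ⟨w₁.map (Fin.castAdd k) ++ w₂.map (Fin.natAdd m), ?_, (S₁ ×ˢ S₂).image F, ?_, ?_⟩
  · simp only [List.length_append, List.length_map]
    omega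
  · rw [Finset.card_image_of_injective _ hFinj, Finset.card_product]
    exact Nat.mul_le_mul hS₁ hS₂
  · intro π hπ
    obtain ⟨⟨σ, τ⟩, hp, rfl⟩ := Finset.mem_image.1 hπ
    rw [Finset.mem_product] at hp
    have e : List.ofFn (fun i => F (σ, τ) i) =
        (List.ofFn (fun i => σ i)).map (Fin.castAdd k) ++
          (List.ofFn (fun i => τ i)).map (Fin.natAdd m) := by
      rw [List.ofFn_add, List.map_ofFn, List.map_ofFn]
      congr 1
      · congr 1
        funext i
        exact hF1 (σ, τ) i
      · congr 1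
        funext i
        exact hF2 (σ, τ) i
    rw [e]
    exact ((h₁ σ hp.1).map _).append ((h₂ τ hp.2).map _)

lemma good_blocks (b : ℕ) (r : ℕ) (hr : r < b) (k : ℕ) :
    Good (b * (k + 1) + r) (2 * b * (b * (k + 1) + r)) (b.factorial ^ (k + 1) * b ^ r) := by
  induction k with
  | zero =>
    rw [zero_add, mul_one, pow_one]
    refine good_mono (good_univ (b + r)) ?_ ?_
    · apply Nat.mul_le_mul_right
      omega
    · refine le_trans ?_ (Nat.factorial_mul_pow_le_factorial)
      exact Nat.mul_le_mul_left _ (Nat.pow_le_pow_left (Nat.le_succ b) _)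
  | succ k ih =>
    have h := good_add (good_univ b) ih
    have e : b + (b * (k + 1) + r) = b * (k + 1 + 1) + r := by ring
    rw [e] at h
    refine good_mono h ?_ ?_
    · have e2 : 2 * b * (b * (k + 1 + 1) + r) = 2 * b * (b * (k + 1) + r) + 2 * (b * b) := by ring
      rw [e2]
      omega
    · rw [pow_succ b.factorial (k + 1)]
      apply le_of_eq
      ring

lemma pow_self_le (n : ℕ) : n ^ n ≤ 3 ^ n * n.factorial := by
  have h1 := Real.pow_div_factorial_le_exp (x := (n : ℝ)) (by positivity) n
  have h2 : Real.exp (n : ℝ) ≤ 3 ^ n := by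
    have h3 : Real.exp (n : ℝ) = Real.exp 1 ^ n := by
      rw [← Real.exp_nat_mul, mul_one]
    rw [h3]
    exact pow_le_pow_left₀ (Real.exp_pos 1).le Real.exp_one_lt_three.le n
  have h3 := le_trans h1 h2
  rw [div_le_iff₀ (by positivity)] at h3
  exact_mod_cast h3

lemma choose_le (n a l : ℕ) (hl : l ≤ a * n) : l.choose n ≤ (3 * a) ^ n := by
  have h1 : n.factorial * l.choose n ≤ l ^ n := by
    rw [← Nat.descFactorial_eq_factorial_mul_choose]
    exact Nat.descFactorial_le_pow l n
  have h2 : l ^ n ≤ a ^ n * n ^ n := by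
    rw [← mul_pow]
    exact Nat.pow_le_pow_left hl n
  have h3 : a ^ n * n ^ n ≤ n.factorial * (3 * a) ^ n := by
    calc a ^ n * n ^ n ≤ a ^ n * (3 ^ n * n.factorial) := Nat.mul_le_mul_left _ (pow_self_le n)
      _ = n.factorial * (3 * a) ^ n := by rw [mul_pow]; ring
  exact Nat.le_of_mul_le_mul_left (le_trans h1 (le_trans h2 h3)) (Nat.factorial_pos n)

lemma count_ge (a b k r : ℕ) (hb : b = 9 * a) :
    (3 * a) ^ (b * k + r) ≤ b.factorial ^ k * b ^ r := by
  have h1 : b ^ (b * k) ≤ 3 ^ (b * k) * b.factorial ^ k := by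
    rw [pow_mul, pow_mul, ← mul_pow]
    exact Nat.pow_le_pow_left (pow_self_le b) k
  have h2 : b ^ (b * k + r) ≤ 3 ^ (b * k + r) * (b.factorial ^ k * b ^ r) := by
    rw [pow_add, pow_add]
    calc b ^ (b * k) * b ^ r ≤ (3 ^ (b * k) * b.factorial ^ k) * b ^ r :=
          Nat.mul_le_mul_right _ h1
      _ ≤ (3 ^ (b * k) * b.factorial ^ k) * b ^ r * 3 ^ r :=
          Nat.le_mul_of_pos_right _ (by positivity)
      _ = _ := by ring
  have h3 : b ^ (b * k + r) = 3 ^ (b * k + r) * (3 * a) ^ (b * k + r) := by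
    rw [← mul_pow]
    congr 1
    omega
  rw [h3] at h2
  exact Nat.le_of_mul_le_mul_left h2 (by positivity)

/-- the main bound -/
lemma good_main (n m l : ℕ) (hn : 1 ≤ n) (hm : m ≤ n.factorial) (hnl : n ≤ l)
    (hl : m ≤ l.choose n) : Good n (36 * l) m := by
  set a := l / n + 1 with ha
  have h1 : l ≤ a * n := by
    have := Nat.lt_div_mul_add (a := l) (show 0 < n by omega)
    rw [ha, Nat.add_mul, one_mul]
    omega
  have h2 : a * n ≤ 2 * l := by
    have := Nat.div_mul_le_self l n
    rw [ha, Nat.add_mul, one_mul]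
    omega
  rcases Nat.lt_or_ge n (9 * a) with h | h
  · refine good_mono (good_univ n) ?_ hm
    have e1 : n * n ≤ 9 * a * n := Nat.mul_le_mul_right _ h.le
    have e2 : 9 * a * n = 9 * (a * n) := by ring
    linarith
  · set b := 9 * a with hb
    have ha0 : 0 < a := by rw [ha]; exact Nat.succ_pos _
    have hb0 : 0 < b := by omega
    have h3 : 1 ≤ n / b := (Nat.one_le_div_iff hb0).2 h
    obtain ⟨k, hk⟩ : ∃ k, n / b = k + 1 := ⟨n / b - 1, by omega⟩
    have h4 := Nat.div_add_mod n b
    rw [hk] at h4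
    have h5 := good_blocks b (n % b) (Nat.mod_lt _ hb0) k
    rw [h4] at h5
    refine good_mono h5 ?_ ?_
    · have e : 2 * b * n = 18 * (a * n) := by rw [hb]; ring
      rw [e]
      linarith
    · refine le_trans hl (le_trans (choose_le n a l h1) ?_)
      have h6 := count_ge a b (k + 1) (n % b) hb
      rw [h4] at h6
      exact h6

end Pool.Agent.R120.Words
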